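import Mathlib

set_option autoImplicit false

open scoped InnerProductSpace Topology BoundedContinuousFunction
open Filter

namespace Pool.Agent.Helper278

universe u

/-- The 2-norm `‖x‖₂ = φ(x* x)^{1/2}`. -/
noncomputable def norm2 {A : Type u} [Mul A] [Star A] (φ : A → ℂ) (x : A) : ℝ :=
  Real.sqrt (φ (star x * x)).re

/-- The von Neumann algebra `W*(a)` generated by `a` in a tracial von Neumann algebra `(A, φ)`:
all elements of `A` that are limits in the 2-norm of elements of the star algebra generated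
by `a`. -/
def wstar {A : Type u} [Ring A] [StarRing A] [Algebra ℂ A] [StarModule ℂ A] (φ : A → ℂ) (a : A) :
    Set A :=
  {x | ∀ ε : ℝ, 0 < ε → ∃ y ∈ StarAlgebra.adjoin ℂ ({a} : Set A), norm2 φ (x - y) < ε}

/-- `a` and `b` are independent: `φ(x y) = φ(x) φ(y)` for `x` in `W*(a)` and `y` in `W*(b)`. -/
def IndepPair {A : Type u} [Ring A] [StarRing A] [Algebra ℂ A] [StarModule ℂ A] (φ : A → ℂ)
    (a b : A) : Prop :=
  ∀ x ∈ wstar φ a, ∀ y ∈ wstar φ b, φ (x * y) = φ x * φ y

/-- `φ` is unital, tracial and faithful. -/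
structure IsFaithfulTrace {A : Type u} [Ring A] [StarRing A] (φ : A → ℂ) : Prop where
  one : φ 1 = 1
  tracial : ∀ x y, φ (x * y) = φ (y * x)
  faithful : ∀ x, φ (star x * x) = 0 → x = 0

/-- `(Q, σ)` with the quotient map `π` is the tracial ultrapower of `(M, τ)` along `U`: `π` maps the
star algebra of norm bounded sequences in `M` onto `Q`, its kernel consists of the sequences with
`lim τ(x_n* x_n) = 0` along `U`, and `σ(π x)` is the limit of `τ(x_n)` along `U`. -/
structure IsTracialUltrapower {M : Type u} [NormedRing M] [StarRing M] [CStarRing M]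
    [NormedAlgebra ℂ M] [StarModule ℂ M] (τ : M → ℂ) (U : Ultrafilter ℕ) {Q : Type u} [Ring Q]
    [StarRing Q] [Algebra ℂ Q] (π : (ℕ →ᵇ M) →⋆ₐ[ℂ] Q) (σ : Q → ℂ) : Prop where
  surj : Function.Surjective π
  ker : ∀ x, π x = 0 ↔ Tendsto (fun n => τ (star (x n) * x n)) U (𝓝 0)
  trace : ∀ x, Tendsto (fun n => τ (x n)) U (𝓝 (σ (π x)))

/-- For every nonprincipal ultrafilter, every two independent unitaries of the tracial ultrapower
of `(M, τ)` have unitary lifts that are independent term by term. -/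
def LiftsIndependentPairs (M : Type u) [NormedRing M] [StarRing M] [CStarRing M]
    [NormedAlgebra ℂ M] [StarModule ℂ M] (τ : M → ℂ) : Prop :=
  ∀ U : Ultrafilter ℕ, (∀ n, {n} ∉ U) → ∀ (Q : Type u) [Ring Q] [StarRing Q] [Algebra ℂ Q]
    [StarModule ℂ Q] (π : (ℕ →ᵇ M) →⋆ₐ[ℂ] Q) (σ : Q → ℂ), IsTracialUltrapower τ U π σ →
    ∀ u ∈ unitary Q, ∀ v ∈ unitary Q, IndepPair σ u v →
      ∃ a b : ℕ →ᵇ M, (∀ n, a n ∈ unitary M) ∧ (∀ n, b n ∈ unitary M) ∧ π a = u ∧ π b = v ∧
        ∀ n, IndepPair τ (a n) (b n)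

section vonNeumann

variable {H : Type u} [NormedAddCommGroup H] [InnerProductSpace ℂ H] [CompleteSpace H]

/-- The star algebra of elements of a von Neumann algebra `N` acting on `H`. -/
abbrev Elt (N : VonNeumannAlgebra H) : Type u := N.toStarSubalgebra

/-- `τ` is a normal positive functional on `N`: a countable sum of vector functionals. -/
def IsNormalPositive (N : VonNeumannAlgebra H) (τ : Elt N → ℂ) : Prop :=
  ∃ ξ : ℕ → H, Summable (fun k => ‖ξ k‖ ^ 2) ∧
    ∀ x : Elt N, τ x = ∑' k, ⟪ξ k, (x : H →L[ℂ] H) (ξ k)⟫_ℂ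

/-- `N` is diffuse: it has no minimal projection, that is, no nonzero projection `r` with
`r N r = ℂ r`. -/
def IsDiffuse (N : VonNeumannAlgebra H) : Prop :=
  ∀ r ∈ N, r * r = r → star r = r → r ≠ 0 → ∃ x ∈ N, ∀ c : ℂ, r * x * r ≠ c • r

end vonNeumann

end Pool.Agent.Helper278
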