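import Mathlib

set_option autoImplicit false
set_option linter.unusedSectionVars false

open scoped ComplexOrder

namespace Pool.Agent.Helper278

/-- The 2-norm of a functional on a star algebra. -/
noncomputable def n2 {A : Type*} [Ring A] [StarRing A] (φ : A → ℂ) (x : A) : ℝ :=
  Real.sqrt (φ (star x * x)).re

/-- Tracial star algebras (auxiliary, proof only). -/
structure TrAlg {A : Type*} [Ring A] [StarRing A] [Algebra ℂ A] (τ : A →ₗ[ℂ] ℂ) : Prop where
  one : τ 1 = 1
  comm : ∀ x y, τ (x * y) = τ (y * x)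
  nonneg : ∀ x, 0 ≤ τ (star x * x)
  conj : ∀ x, τ (star x) = star (τ x)
  faithful : ∀ x, τ (star x * x) = 0 → x = 0

section

variable {A : Type*} [Ring A] [StarRing A] [Algebra ℂ A] [StarModule ℂ A] {τ : A →ₗ[ℂ] ℂ}

/-- inner product core -/
@[instance_reducible]
noncomputable def TrAlg.core (h : TrAlg τ) : PreInnerProductSpace.Core ℂ A where
  inner x y := τ (star x * y)
  conj_inner_symm x y := by
    have : τ (star (star y * x)) = star (τ (star y * x)) := h.conj _
    rw [star_mul, star_star] at this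
    rw [this]
    rfl
  re_inner_nonneg x := by
    have := (Complex.nonneg_iff.1 (h.nonneg x)).1
    exact this
  add_left x y z := by rw [star_add, add_mul, map_add]
  smul_left x y r := by
    rw [star_smul, smul_mul_assoc, map_smul]
    rfl

theorem TrAlg.cauchy (h : TrAlg τ) (x y : A) : ‖τ (star x * y)‖ ≤ n2 τ x * n2 τ y := by
  let _ := h.core
  exact InnerProductSpace.Core.norm_inner_le_norm (𝕜 := ℂ) x y

theorem n2_nonneg (φ : A → ℂ) (x : A) : 0 ≤ n2 φ x := Real.sqrt_nonneg _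

theorem TrAlg.re_nonneg (h : TrAlg τ) (x : A) : 0 ≤ (τ (star x * x)).re :=
  (Complex.nonneg_iff.1 (h.nonneg x)).1

theorem TrAlg.im_zero (h : TrAlg τ) (x : A) : (τ (star x * x)).im = 0 :=
  (Complex.nonneg_iff.1 (h.nonneg x)).2.symm

theorem TrAlg.n2_sq (h : TrAlg τ) (x : A) : n2 τ x ^ 2 = (τ (star x * x)).re :=
  Real.sq_sqrt (h.re_nonneg x)

theorem TrAlg.n2_add_le (h : TrAlg τ) (x y : A) : n2 τ (x + y) ≤ n2 τ x + n2 τ y := by
  have h1 := h.cauchy x y
  have h2 := h.cauchy y x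
  have h3 : n2 τ (x + y) ^ 2 ≤ (n2 τ x + n2 τ y) ^ 2 := by
    rw [h.n2_sq]
    have e : star (x + y) * (x + y) = star x * x + star y * y + (star x * y + star y * x) := by
      rw [star_add]; noncomm_ring
    rw [e, map_add, map_add, map_add, Complex.add_re, Complex.add_re, Complex.add_re,
      ← h.n2_sq, ← h.n2_sq]
    have h4 := Complex.re_le_norm (τ (star x * y))
    have h5 := Complex.re_le_norm (τ (star y * x))
    nlinarith
  exact (pow_le_pow_iff_left₀ (n2_nonneg _ _) (add_nonneg (n2_nonneg _ _) (n2_nonneg _ _))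
    two_ne_zero).1 h3

theorem TrAlg.n2_star (h : TrAlg τ) (x : A) : n2 τ (star x) = n2 τ x := by
  unfold n2
  rw [star_star, h.comm]

theorem TrAlg.cauchy' (h : TrAlg τ) (x y : A) : ‖τ (x * y)‖ ≤ n2 τ x * n2 τ y := by
  have := h.cauchy (star x) y
  rwa [star_star, h.n2_star] at this

theorem TrAlg.n2_neg (h : TrAlg τ) (x : A) : n2 τ (-x) = n2 τ x := by
  unfold n2
  rw [star_neg, neg_mul_neg]

theorem TrAlg.n2_sub_le (h : TrAlg τ) (x y : A) : n2 τ (x - y) ≤ n2 τ x + n2 τ y := by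
  have := h.n2_add_le x (-y)
  rwa [h.n2_neg, ← sub_eq_add_neg] at this

theorem TrAlg.n2_sub_comm (h : TrAlg τ) (x y : A) : n2 τ (x - y) = n2 τ (y - x) := by
  rw [← h.n2_neg, neg_sub]

theorem TrAlg.n2_tri (h : TrAlg τ) (x y z : A) : n2 τ (x - z) ≤ n2 τ (x - y) + n2 τ (y - z) := by
  have := h.n2_add_le (x - y) (y - z)
  rwa [sub_add_sub_cancel] at this

theorem TrAlg.n2_zero (h : TrAlg τ) : n2 τ (0 : A) = 0 := by
  unfold n2
  simp

/-- the trace of a product of self-adjoint elements is real -/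
theorem TrAlg.real_of_sa (h : TrAlg τ) (x y : A) (hx : star x = x) (hy : star y = y) :
    (τ (x * y)).im = 0 := by
  have h1 := h.conj (x * y)
  rw [star_mul, hx, hy, h.comm] at h1
  have h2 := congrArg Complex.im h1
  simp at h2
  linarith

theorem TrAlg.eq_re (h : TrAlg τ) (x y : A) (hx : star x = x) (hy : star y = y) :
    τ (x * y) = ((τ (x * y)).re : ℂ) := by
  apply Complex.ext
  · simp
  · simp [h.real_of_sa x y hx hy]

/-- projection valued measures -/
structure PVM {ι : Type*} [Fintype ι] (p : ι → A) : Prop where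
  star_eq : ∀ i, star (p i) = p i
  idem : ∀ i, p i * p i = p i
  orth : ∀ i j, i ≠ j → p i * p j = 0
  sum : ∑ i, p i = 1

/-- the positive cone -/
def Pos (x : A) : Prop := x ∈ AddSubmonoid.closure (Set.range fun c : A => star c * c)

theorem pos_star_mul (c : A) : Pos (star c * c) := AddSubmonoid.subset_closure ⟨c, rfl⟩

theorem pos_add {x y : A} (hx : Pos x) (hy : Pos y) : Pos (x + y) := AddSubmonoid.add_mem _ hx hy

theorem pos_proj {e : A} (h1 : star e = e) (h2 : e * e = e) (r : ℝ) (hr : 0 ≤ r) :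
    Pos ((r : ℂ) • e) := by
  have : (r : ℂ) • e = star (((Real.sqrt r : ℝ) : ℂ) • e) * (((Real.sqrt r : ℝ) : ℂ) • e) := by
    rw [star_smul, h1, smul_mul_smul_comm, h2]
    congr 1
    rw [Complex.star_def, Complex.conj_ofReal, ← Complex.ofReal_mul, Real.mul_self_sqrt hr]
  rw [this]
  exact pos_star_mul _

/-- The Lyapunov property (auxiliary, proof only). -/
def LyapProp (τ : A →ₗ[ℂ] ℂ) : Prop :=
  ∀ S : Set A, (∀ x ∈ S, star x ∈ S) → (∀ x ∈ S, ∀ y ∈ S, x * y = y * x) →
    ∃ D : StarSubalgebra ℂ A, (∀ x ∈ S, x ∈ D) ∧ (∀ x ∈ D, ∀ y ∈ D, x * y = y * x) ∧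
      ∀ (ι κ : Type) [Fintype ι] [Finite κ] (x : ι → A) (y : κ → A), (∀ i, x i ∈ D) →
        (∀ i, Pos (x i)) → ∑ i, x i = 1 →
        ∃ p : ι → A, (∀ i, p i ∈ D) ∧ PVM p ∧ ∀ i k, τ (p i * y k) = τ (x i * y k)

end

end Pool.Agent.Helper278
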