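import Mathlib
import Pool.Agent.KS6_19.UP.L.Helper278.TrAlg
import Pool.Agent.KS6_19.UP.L.Helper278.Defs

set_option autoImplicit false
set_option linter.unusedSectionVars false

open scoped ComplexOrder

namespace Pool.Agent.Helper278

universe u

variable {A : Type u} [Ring A] [StarRing A] [Algebra ℂ A] [StarModule ℂ A] {τ : A →ₗ[ℂ] ℂ}

theorem norm2_eq_n2 (φ : A → ℂ) (x : A) : norm2 φ x = n2 φ x := rfl

/-- Linear functionals bounded in the 2-norm that vanish on the star algebra generated by `a` vanish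
on `W*(a)`. -/
theorem wstar_vanish (a : A) (F : A →ₗ[ℂ] ℂ) (C : ℝ) (hC : 0 ≤ C)
    (hF : ∀ x, ‖F x‖ ≤ C * n2 τ x) (h0 : ∀ y ∈ StarAlgebra.adjoin ℂ ({a} : Set A), F y = 0)
    (x : A) (hx : x ∈ wstar τ a) : F x = 0 := by
  by_contra hne
  have hpos : 0 < ‖F x‖ := norm_pos_iff.2 hne
  obtain ⟨y, hy, hxy⟩ := hx (‖F x‖ / (C + 1)) (by positivity)
  have h1 : F (x - y) = F x := by rw [map_sub, h0 y hy, sub_zero]
  have h2 := hF (x - y)
  rw [h1] at h2
  have h3 : n2 τ (x - y) < ‖F x‖ / (C + 1) := hxy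
  rw [lt_div_iff₀ (by positivity)] at h3
  nlinarith [n2_nonneg τ (x - y)]

/-- the functional `y ↦ τ(x y) - τ(x) τ(y)` -/
noncomputable def covL (τ : A →ₗ[ℂ] ℂ) (x : A) : A →ₗ[ℂ] ℂ :=
  τ ∘ₗ LinearMap.mulLeft ℂ x - τ x • τ

/-- the functional `x ↦ τ(x y) - τ(x) τ(y)` -/
noncomputable def covR (τ : A →ₗ[ℂ] ℂ) (y : A) : A →ₗ[ℂ] ℂ :=
  τ ∘ₗ LinearMap.mulRight ℂ y - τ y • τ

theorem covL_apply (x y : A) : covL τ x y = τ (x * y) - τ x * τ y := by
  simp [covL]

theorem covR_apply (x y : A) : covR τ y x = τ (x * y) - τ y * τ x := by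
  simp [covR]

theorem TrAlg.n2_one (h : TrAlg τ) : n2 τ (1 : A) = 1 := by
  unfold n2
  rw [star_one, one_mul, h.one, Complex.one_re, Real.sqrt_one]

theorem TrAlg.norm_le (h : TrAlg τ) (x : A) : ‖τ x‖ ≤ n2 τ x := by
  have h1 := h.cauchy' 1 x
  rwa [one_mul, h.n2_one, one_mul] at h1

theorem covL_bound (h : TrAlg τ) (x y : A) : ‖covL τ x y‖ ≤ (2 * n2 τ x) * n2 τ y := by
  rw [covL_apply]
  have h1 := h.cauchy' x y
  have h2 := h.norm_le x
  have h3 := h.norm_le y
  calc ‖τ (x * y) - τ x * τ y‖ ≤ ‖τ (x * y)‖ + ‖τ x * τ y‖ := norm_sub_le _ _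
    _ ≤ n2 τ x * n2 τ y + n2 τ x * n2 τ y := by
        rw [norm_mul]
        exact add_le_add h1 (mul_le_mul h2 h3 (norm_nonneg _) (n2_nonneg _ _))
    _ = (2 * n2 τ x) * n2 τ y := by ring

theorem covR_bound (h : TrAlg τ) (x y : A) : ‖covR τ y x‖ ≤ (2 * n2 τ y) * n2 τ x := by
  have : covR τ y x = covL τ x y := by rw [covL_apply, covR_apply, mul_comm (τ y)]
  rw [this]
  have := covL_bound h x y
  linarith

theorem indepPair_of_adjoin (h : TrAlg τ) (a b : A)
    (hab : ∀ x ∈ StarAlgebra.adjoin ℂ ({a} : Set A), ∀ y ∈ StarAlgebra.adjoin ℂ ({b} : Set A),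
      τ (x * y) = τ x * τ y) : IndepPair τ a b := by
  have step1 : ∀ x ∈ StarAlgebra.adjoin ℂ ({a} : Set A), ∀ y ∈ wstar τ b,
      τ (x * y) = τ x * τ y := by
    intro x hx y hy
    have := wstar_vanish (τ := τ) b (covL τ x) (2 * n2 τ x) (by have := n2_nonneg τ x; positivity)
      (covL_bound h x) (fun z hz => by rw [covL_apply, hab x hx z hz, sub_self]) y hy
    rw [covL_apply, sub_eq_zero] at this
    exact this
  intro x hx y hy
  have := wstar_vanish (τ := τ) a (covR τ y) (2 * n2 τ y) (by have := n2_nonneg τ y; positivity)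
    (fun z => covR_bound h z y)
    (fun z hz => by rw [covR_apply, step1 z hz y hy, mul_comm, sub_self]) x hx
  rw [covR_apply, sub_eq_zero, mul_comm (τ y)] at this
  exact this

theorem mem_span_pvm {m : ℕ} (p : Fin m → A) (hp : PVM p) (c : Fin m → ℂ) (x : A)
    (hx : x ∈ StarAlgebra.adjoin ℂ ({∑ i, c i • p i} : Set A)) : ∃ d : Fin m → ℂ,
      x = ∑ i, d i • p i := by
  classical
  induction hx using StarAlgebra.adjoin_induction with
  | mem x hx => exact ⟨c, hx⟩
  | algebraMap r =>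
    refine ⟨fun _ => r, ?_⟩
    rw [← Finset.smul_sum, hp.sum, Algebra.algebraMap_eq_smul_one]
  | add x y _ _ hx hy =>
    obtain ⟨d, rfl⟩ := hx
    obtain ⟨d', rfl⟩ := hy
    exact ⟨fun i => d i + d' i, by simp [add_smul, Finset.sum_add_distrib]⟩
  | mul x y _ _ hx hy =>
    obtain ⟨d, rfl⟩ := hx
    obtain ⟨d', rfl⟩ := hy
    refine ⟨fun i => d i * d' i, ?_⟩
    rw [Finset.sum_mul_sum]
    refine Finset.sum_congr rfl fun i _ => ?_
    rw [Finset.sum_eq_single i]
    · rw [smul_mul_smul_comm, hp.idem]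
    · intro j _ hj
      rw [smul_mul_smul_comm, hp.orth i j (Ne.symm hj), smul_zero]
    · intro hi
      exact absurd (Finset.mem_univ i) hi
  | star x _ hx =>
    obtain ⟨d, rfl⟩ := hx
    refine ⟨fun i => star (d i), ?_⟩
    rw [star_sum]
    refine Finset.sum_congr rfl fun i _ => ?_
    rw [star_smul, hp.star_eq]

theorem indepPair_of_pvm (h : TrAlg τ) {m n : ℕ} (p : Fin m → A) (q : Fin n → A) (hp : PVM p)
    (hq : PVM q) (hpq : ∀ i j, τ (p i * q j) = τ (p i) * τ (q j)) (c : Fin m → ℂ)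
    (d : Fin n → ℂ) : IndepPair τ (∑ i, c i • p i) (∑ j, d j • q j) := by
  apply indepPair_of_adjoin h
  intro x hx y hy
  obtain ⟨c', rfl⟩ := mem_span_pvm p hp c x hx
  obtain ⟨d', rfl⟩ := mem_span_pvm q hq d y hy
  rw [Finset.sum_mul_sum, map_sum, map_sum, map_sum, Finset.sum_mul_sum]
  refine Finset.sum_congr rfl fun i _ => ?_
  rw [map_sum]
  refine Finset.sum_congr rfl fun j _ => ?_
  rw [smul_mul_smul_comm, map_smul, map_smul, map_smul, hpq, smul_eq_mul, smul_eq_mul, smul_eq_mul]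
  ring

theorem unitary_of_pvm {m : ℕ} (p : Fin m → A) (hp : PVM p) (c : Fin m → ℂ)
    (hc : ∀ i, star (c i) * c i = 1) : ∑ i, c i • p i ∈ unitary A := by
  classical
  have hc' : ∀ i, c i * star (c i) = 1 := fun i => by rw [mul_comm]; exact hc i
  have key : ∀ d e : Fin m → ℂ, (∀ i, d i * e i = 1) →
      (∑ i, d i • p i) * (∑ i, e i • p i) = 1 := by
    intro d e hde
    rw [Finset.sum_mul_sum, ← hp.sum]
    refine Finset.sum_congr rfl fun i _ => ?_
    rw [Finset.sum_eq_single i]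
    · rw [smul_mul_smul_comm, hp.idem, hde, one_smul]
    · intro j _ hj
      rw [smul_mul_smul_comm, hp.orth i j (Ne.symm hj), smul_zero]
    · intro hi
      exact absurd (Finset.mem_univ i) hi
  have hs : star (∑ i, c i • p i) = ∑ i, star (c i) • p i := by
    rw [star_sum]
    refine Finset.sum_congr rfl fun i _ => ?_
    rw [star_smul, hp.star_eq]
  rw [Unitary.mem_iff, hs]
  exact ⟨key _ _ hc, key _ _ hc'⟩

theorem indepPair_one (h : TrAlg τ) : IndepPair τ (1 : A) 1 := by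
  have hmem : ∀ x ∈ StarAlgebra.adjoin ℂ ({1} : Set A), ∃ r : ℂ, x = r • 1 := by
    intro x hx
    induction hx using StarAlgebra.adjoin_induction with
    | mem x hx => exact ⟨1, by rw [one_smul]; exact hx⟩
    | algebraMap r => exact ⟨r, Algebra.algebraMap_eq_smul_one r⟩
    | add x y _ _ hx hy =>
      obtain ⟨r, rfl⟩ := hx
      obtain ⟨s, rfl⟩ := hy
      exact ⟨r + s, by rw [add_smul]⟩
    | mul x y _ _ hx hy =>
      obtain ⟨r, rfl⟩ := hx
      obtain ⟨s, rfl⟩ := hy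
      exact ⟨r * s, by rw [smul_mul_smul_comm, one_mul]⟩
    | star x _ hx =>
      obtain ⟨r, rfl⟩ := hx
      exact ⟨star r, by rw [star_smul, star_one]⟩
  apply indepPair_of_adjoin h
  intro x hx y hy
  obtain ⟨r, rfl⟩ := hmem x hx
  obtain ⟨s, rfl⟩ := hmem y hy
  rw [smul_mul_smul_comm, one_mul, map_smul, map_smul, map_smul, h.one, smul_eq_mul, smul_eq_mul,
    smul_eq_mul]
  ring

end Pool.Agent.Helper278
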