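import Mathlib
import Pool.Agent.KS6_19.UP.L.Helper278.TrAlg

set_option autoImplicit false
set_option linter.unusedSectionVars false

open scoped ComplexOrder

namespace Pool.Agent.Helper278

/-- General recursive construction of sequences with good prefixes. -/
theorem exists_seq {A : Type*} (a0 : A) (R : ℕ → (ℕ → A) → Prop)
    (hR : ∀ m s s', (∀ i < m, s i = s' i) → R m s → R m s') (h0 : ∀ s, R 0 s)
    (hstep : ∀ m s, R m s → ∃ b, R (m + 1) (Function.update s m b)) : ∃ s, ∀ m, R m s := by
  classical
  choose f hf using hstep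
  let st : (m : ℕ) → {s : ℕ → A // R m s} := fun m =>
    Nat.rec ⟨fun _ => a0, h0 _⟩
      (fun m s => ⟨Function.update s.1 m (f m s.1 s.2), hf m s.1 s.2⟩) m
  have hst : ∀ m, (st (m + 1)).1 = Function.update (st m).1 m (f m (st m).1 (st m).2) :=
    fun m => rfl
  have hstab : ∀ m k i, i < m → (st (m + k)).1 i = (st m).1 i := by
    intro m k
    induction k with
    | zero => intro i _; rfl
    | succ k ih =>
      intro i hi
      rw [← add_assoc, hst, Function.update_of_ne (by omega)]
      exact ih i hi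
  refine ⟨fun i => (st (i + 1)).1 i, fun m => hR m (st m).1 _ ?_ (st m).2⟩
  intro i hi
  obtain ⟨k, rfl⟩ := Nat.exists_eq_add_of_lt hi
  have : i + k + 1 = (i + 1) + k := by ring
  rw [this]
  exact (hstab (i + 1) k i (Nat.lt_succ_self i)).trans rfl

/-- signs -/
def sg (b : Bool) : ℂ := if b then 1 else -1

theorem sg_mul (b : Bool) : sg b * sg b = 1 := by cases b <;> simp [sg]

theorem star_sg (b : Bool) : star (sg b) = sg b := by cases b <;> simp [sg]

/-- the index sets of the dyadic partitions -/
def Idx : ℕ → Type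
  | 0 => Unit
  | m + 1 => Idx m × Bool

instance instFintypeIdx : ∀ m, Fintype (Idx m)
  | 0 => inferInstanceAs (Fintype Unit)
  | m + 1 => by
    haveI := instFintypeIdx m
    exact inferInstanceAs (Fintype (Idx m × Bool))

instance instDecidableEqIdx : ∀ m, DecidableEq (Idx m)
  | 0 => inferInstanceAs (DecidableEq Unit)
  | m + 1 => by
    haveI := instDecidableEqIdx m
    exact inferInstanceAs (DecidableEq (Idx m × Bool))

theorem sum_idx_succ {M : Type*} [AddCommMonoid M] (m : ℕ) (f : Idx (m + 1) → M) :
    ∑ i, f i = ∑ i : Idx m, (f (i, true) + f (i, false)) := by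
  have h1 : ∑ i, f i = ∑ i : Idx m × Bool, f i := rfl
  rw [h1, Fintype.sum_prod_type]
  refine Finset.sum_congr rfl fun i _ => ?_
  rw [Fintype.sum_bool]

theorem card_idx (m : ℕ) : Fintype.card (Idx m) = 2 ^ m := by
  induction m with
  | zero => rfl
  | succ m ih =>
    have h1 : Fintype.card (Idx (m + 1)) = Fintype.card (Idx m × Bool) := rfl
    rw [h1, Fintype.card_prod, ih, Fintype.card_bool, pow_succ]

section

variable {A : Type*} [Ring A] [StarRing A] [Algebra ℂ A] [StarModule ℂ A]

/-- spectral projections of a symmetry -/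
noncomputable def hf (b : Bool) (x : A) : A := (1 / 2 : ℂ) • (1 + sg b • x)

theorem star_hf (b : Bool) (x : A) (hx : star x = x) : star (hf b x) = hf b x := by
  unfold hf
  rw [star_smul, star_add, star_one, star_smul, hx, star_sg]
  congr 1
  norm_num

theorem hf_idem (b : Bool) (x : A) (hx : x * x = 1) : hf b x * hf b x = hf b x := by
  unfold hf
  rw [smul_mul_smul_comm, add_mul, mul_add, mul_one, one_mul, mul_add, mul_one,
    smul_mul_smul_comm, sg_mul, hx, one_smul]
  have : (1 : A) + sg b • x + (sg b • x + 1) = (2 : ℂ) • (1 + sg b • x) := by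
    rw [two_smul]; abel
  rw [this, smul_smul]
  norm_num

theorem hf_orth (x : A) (hx : x * x = 1) (b c : Bool) (hbc : b ≠ c) : hf b x * hf c x = 0 := by
  have key : (1 + x) * (1 - x) = 0 ∧ (1 - x) * (1 + x) = 0 := by
    constructor
    · calc (1 + x) * (1 - x) = 1 - x * x := by noncomm_ring
        _ = 0 := by rw [hx, sub_self]
    · calc (1 - x) * (1 + x) = 1 - x * x := by noncomm_ring
        _ = 0 := by rw [hx, sub_self]
  unfold hf
  rw [smul_mul_smul_comm]
  cases b <;> cases c
  · exact absurd rfl hbc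
  · simp only [sg, Bool.false_eq_true, if_false, if_true, neg_smul, one_smul, ← sub_eq_add_neg]
    rw [key.2, smul_zero]
  · simp only [sg, Bool.false_eq_true, if_false, if_true, neg_smul, one_smul, ← sub_eq_add_neg]
    rw [key.1, smul_zero]
  · exact absurd rfl hbc

theorem hf_sum (x : A) : hf true x + hf false x = 1 := by
  unfold hf
  rw [← smul_add]
  have : (1 : A) + sg true • x + (1 + sg false • x) = (2 : ℂ) • 1 := by
    simp only [sg, Bool.false_eq_true, if_false, if_true, neg_smul, one_smul, two_smul]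
    abel
  rw [this, smul_smul]
  norm_num

theorem hf_diff (x : A) : hf true x - hf false x = x := by
  unfold hf
  rw [← smul_sub]
  have : (1 : A) + sg true • x - (1 + sg false • x) = (2 : ℂ) • x := by
    simp only [sg, Bool.false_eq_true, if_false, if_true, neg_smul, one_smul, two_smul]
    abel
  rw [this, smul_smul]
  norm_num

theorem hf_comm (b : Bool) (x y : A) (h : y * x = x * y) : y * hf b x = hf b x * y := by
  unfold hf
  rw [mul_smul_comm, smul_mul_assoc, mul_add, add_mul, mul_one, one_mul, mul_smul_comm,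
    smul_mul_assoc, h]

/-- the atoms of a sequence of commuting symmetries -/
noncomputable def atm (s : ℕ → A) : (m : ℕ) → Idx m → A
  | 0, _ => 1
  | m + 1, i => atm s m i.1 * hf i.2 (s m)

theorem atm_succ (s : ℕ → A) (m : ℕ) (i : Idx m) (b : Bool) :
    atm s (m + 1) (i, b) = atm s m i * hf b (s m) := rfl

theorem atm_congr (s s' : ℕ → A) (m : ℕ) (h : ∀ i < m, s i = s' i) (i : Idx m) :
    atm s m i = atm s' m i := by
  induction m with
  | zero => rfl
  | succ m ih =>
    obtain ⟨i, b⟩ := i
    rw [atm_succ, atm_succ, ih (fun j hj => h j (by omega)), h m (by omega)]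

/-- commuting symmetries -/
structure Sym (s : ℕ → A) (m : ℕ) : Prop where
  sa : ∀ i < m, star (s i) = s i
  sq : ∀ i < m, s i * s i = 1
  comm : ∀ i < m, ∀ j < m, s i * s j = s j * s i

theorem Sym.mono {s : ℕ → A} {m k : ℕ} (h : Sym s m) (hk : k ≤ m) : Sym s k :=
  ⟨fun i hi => h.sa i (by omega), fun i hi => h.sq i (by omega),
    fun i hi j hj => h.comm i (by omega) j (by omega)⟩

theorem Sym.congr {s s' : ℕ → A} {m : ℕ} (h : Sym s m) (hs : ∀ i < m, s i = s' i) : Sym s' m :=
  ⟨fun i hi => by rw [← hs i hi]; exact h.sa i hi, fun i hi => by rw [← hs i hi]; exact h.sq i hi,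
    fun i hi j hj => by rw [← hs i hi, ← hs j hj]; exact h.comm i hi j hj⟩

theorem atm_comm (s : ℕ → A) (m : ℕ) (y : A) (hy : ∀ i < m, y * s i = s i * y) (i : Idx m) :
    y * atm s m i = atm s m i * y := by
  induction m with
  | zero =>
    show y * 1 = 1 * y
    rw [mul_one, one_mul]
  | succ m ih =>
    obtain ⟨i, b⟩ := i
    rw [atm_succ, ← mul_assoc, ih (fun j hj => hy j (by omega)), mul_assoc,
      hf_comm b _ _ (hy m (by omega)), mul_assoc]

theorem atm_mem (D : StarSubalgebra ℂ A) (s : ℕ → A) (m : ℕ) (hs : ∀ i < m, s i ∈ D)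
    (i : Idx m) : atm s m i ∈ D := by
  induction m with
  | zero => exact one_mem D
  | succ m ih =>
    obtain ⟨i, b⟩ := i
    rw [atm_succ]
    refine mul_mem (ih (fun j hj => hs j (by omega)) i) ?_
    exact D.smul_mem (add_mem (one_mem D) (D.smul_mem (hs m (by omega)) _)) _

theorem pvm_atm (s : ℕ → A) (m : ℕ) (h : Sym s m) : PVM (atm s m) := by
  classical
  induction m with
  | zero =>
    refine ⟨fun _ => star_one A, fun _ => mul_one 1, ?_, ?_⟩
    · intro i j hij
      exact absurd (show i = j from Subsingleton.elim (α := Unit) i j) hij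
    · show ∑ i : Unit, (1 : A) = 1
      simp
  | succ m ih =>
    have hm := ih (h.mono (Nat.le_succ m))
    have hc : ∀ (b : Bool) (i : Idx m), hf b (s m) * atm s m i = atm s m i * hf b (s m) := by
      intro b i
      refine atm_comm s m _ ?_ i
      intro j hj
      exact (hf_comm b _ _ (h.comm j (by omega) m (by omega))).symm
    have hsm := h.sa m (by omega)
    have hqm := h.sq m (by omega)
    refine ⟨?_, ?_, ?_, ?_⟩
    · rintro ⟨i, b⟩
      rw [atm_succ, star_mul, hm.star_eq, star_hf _ _ hsm, hc]
    · rintro ⟨i, b⟩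
      rw [atm_succ]
      calc atm s m i * hf b (s m) * (atm s m i * hf b (s m))
          = atm s m i * (hf b (s m) * atm s m i) * hf b (s m) := by noncomm_ring
        _ = (atm s m i * atm s m i) * (hf b (s m) * hf b (s m)) := by rw [hc]; noncomm_ring
        _ = atm s m i * hf b (s m) := by rw [hm.idem, hf_idem _ _ hqm]
    · rintro ⟨i, b⟩ ⟨j, c⟩ hij
      rw [atm_succ, atm_succ]
      have e : atm s m i * hf b (s m) * (atm s m j * hf c (s m)) =
          (atm s m i * atm s m j) * (hf b (s m) * hf c (s m)) := by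
        calc atm s m i * hf b (s m) * (atm s m j * hf c (s m))
            = atm s m i * (hf b (s m) * atm s m j) * hf c (s m) := by noncomm_ring
          _ = (atm s m i * atm s m j) * (hf b (s m) * hf c (s m)) := by rw [hc]; noncomm_ring
      rw [e]
      by_cases hi : i = j
      · have hbc : b ≠ c := by
          rintro rfl
          exact hij (by rw [hi])
        rw [hf_orth _ hqm b c hbc, mul_zero]
      · rw [hm.orth i j hi, zero_mul]
    · rw [sum_idx_succ]
      have : ∀ i : Idx m, atm s (m + 1) (i, true) + atm s (m + 1) (i, false) = atm s m i := by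
        intro i
        rw [atm_succ, atm_succ, ← mul_add, hf_sum, mul_one]
      rw [Finset.sum_congr rfl (fun i _ => this i)]
      exact hm.sum

/-- the symmetries are fixed linear combinations of the atoms -/
theorem sym_coeff (m k : ℕ) (hk : k < m) :
    ∃ c : Idx m → ℂ, ∀ s : ℕ → A, Sym s m → s k = ∑ i, c i • atm s m i := by
  classical
  induction m with
  | zero => omega
  | succ m ih =>
    by_cases hkm : k < m
    · obtain ⟨c, hc⟩ := ih hkm
      refine ⟨fun i => c i.1, fun s hs => ?_⟩
      rw [hc s (hs.mono (Nat.le_succ m)), sum_idx_succ]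
      refine Finset.sum_congr rfl fun i _ => ?_
      show c i • atm s m i = c i • atm s (m + 1) (i, true) + c i • atm s (m + 1) (i, false)
      rw [← smul_add, atm_succ, atm_succ, ← mul_add, hf_sum, mul_one]
    · have hkm' : k = m := by omega
      subst hkm'
      refine ⟨fun i => sg i.2, fun s hs => ?_⟩
      rw [sum_idx_succ]
      have : ∀ i : Idx k, sg ((i, true) : Idx (k + 1)).2 • atm s (k + 1) (i, true) +
          sg ((i, false) : Idx (k + 1)).2 • atm s (k + 1) (i, false) = atm s k i * s k := by
        intro i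
        show sg true • atm s (k + 1) (i, true) + sg false • atm s (k + 1) (i, false) = _
        rw [atm_succ, atm_succ]
        simp only [sg, Bool.false_eq_true, if_false, if_true, neg_smul, one_smul]
        rw [← sub_eq_add_neg, ← mul_sub, hf_diff]
      rw [Finset.sum_congr rfl (fun i _ => this i), ← Finset.sum_mul,
        (pvm_atm s k (hs.mono (Nat.le_succ k))).sum, one_mul]

/-- Rademacher prefixes: commuting symmetries all of whose atoms have the expected trace. -/
def IsRad (τ : A → ℂ) (s : ℕ → A) (m : ℕ) : Prop :=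
  Sym s m ∧ ∀ k ≤ m, ∀ i : Idx k, τ (atm s k i) = (1 / 2 : ℂ) ^ k

theorem IsRad.mono {τ : A → ℂ} {s : ℕ → A} {m k : ℕ} (h : IsRad τ s m) (hk : k ≤ m) :
    IsRad τ s k := ⟨h.1.mono hk, fun j hj i => h.2 j (by omega) i⟩

theorem IsRad.congr {τ : A → ℂ} {s s' : ℕ → A} {m : ℕ} (h : IsRad τ s m)
    (hs : ∀ i < m, s i = s' i) : IsRad τ s' m :=
  ⟨h.1.congr hs, fun k hk i => by
    rw [← atm_congr s s' k (fun j hj => hs j (by omega)) i]; exact h.2 k hk i⟩

theorem isRad_zero {τ : A →ₗ[ℂ] ℂ} (h1 : τ 1 = 1) (s : ℕ → A) : IsRad τ s 0 := by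
  refine ⟨⟨fun i hi => absurd hi (by omega), fun i hi => absurd hi (by omega),
    fun i hi => absurd hi (by omega)⟩, ?_⟩
  intro k hk i
  have hk0 : k = 0 := by omega
  subst hk0
  show τ 1 = _
  rw [h1, pow_zero]

/-- extension of a Rademacher prefix -/
theorem IsRad.extend {τ : A →ₗ[ℂ] ℂ} {s : ℕ → A} {m : ℕ} (h : IsRad τ s m) (b : A)
    (hb : star b = b) (hbb : b * b = 1) (hc : ∀ i < m, b * s i = s i * b)
    (h0 : ∀ i : Idx m, τ (atm s m i * b) = 0) : IsRad τ (Function.update s m b) (m + 1) := by
  classical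
  have hu : ∀ i < m, s i = Function.update s m b i := fun i hi =>
    (Function.update_of_ne (by omega) _ _).symm
  have hum : Function.update s m b m = b := Function.update_self _ _ _
  have h' := h.congr hu
  refine ⟨⟨?_, ?_, ?_⟩, ?_⟩
  · intro i hi
    rcases Nat.lt_succ_iff_lt_or_eq.1 hi with h1 | rfl
    · exact h'.1.sa i h1
    · rw [hum, hb]
  · intro i hi
    rcases Nat.lt_succ_iff_lt_or_eq.1 hi with h1 | rfl
    · exact h'.1.sq i h1
    · rw [hum, hbb]
  · intro i hi j hj
    rcases Nat.lt_succ_iff_lt_or_eq.1 hi with h1 | rfl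
    · rcases Nat.lt_succ_iff_lt_or_eq.1 hj with h2 | rfl
      · exact h'.1.comm i h1 j h2
      · rw [hum, ← hu i h1, hc i h1]
    · rcases Nat.lt_succ_iff_lt_or_eq.1 hj with h2 | rfl
      · rw [hum, ← hu j h2, hc j h2]
      · rfl
  · intro k hk i
    rcases Nat.le_succ_iff.1 hk with h1 | rfl
    · exact h'.2 k h1 i
    · obtain ⟨i, c⟩ := i
      rw [atm_succ, hum, ← atm_congr s _ m hu i]
      have e : atm s m i * hf c b = (1 / 2 : ℂ) • (atm s m i + sg c • (atm s m i * b)) := by
        unfold hf
        rw [mul_smul_comm, mul_add, mul_one, mul_smul_comm]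
      rw [e, map_smul, map_add, map_smul, h0, h.2 m le_rfl, smul_zero, add_zero, smul_eq_mul,
        pow_succ, mul_comm]

/-- the last symmetry is orthogonal to the previous atoms -/
theorem IsRad.orth {τ : A →ₗ[ℂ] ℂ} {s : ℕ → A} {m : ℕ} (h : IsRad τ s (m + 1)) (i : Idx m) :
    τ (atm s m i * s m) = 0 := by
  have h1 := h.2 (m + 1) le_rfl (i, true)
  have h2 := h.2 (m + 1) le_rfl (i, false)
  have e : atm s m i * s m = atm s (m + 1) (i, true) - atm s (m + 1) (i, false) := by
    rw [atm_succ, atm_succ, ← mul_sub, hf_diff]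
  rw [e, map_sub, h1, h2, sub_self]

end

end Pool.Agent.Helper278
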