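import Mathlib
import Pool.Agent.KS6_19.UP.L.Helper278.Rad

set_option autoImplicit false
set_option linter.unusedSectionVars false

open scoped ComplexOrder

namespace Pool.Agent.Helper278

variable {A : Type*} [Ring A] [StarRing A] [Algebra ℂ A] [StarModule ℂ A] {τ : A →ₗ[ℂ] ℂ}

theorem pos_conj {x : A} (hx : Pos x) (a : A) : Pos (star a * x * a) := by
  unfold Pos at hx
  induction hx using AddSubmonoid.closure_induction with
  | mem x hx =>
    obtain ⟨c, rfl⟩ := hx
    have : star a * (star c * c) * a = star (c * a) * (c * a) := by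
      rw [star_mul]; noncomm_ring
    show Pos (star a * (star c * c) * a)
    rw [this]
    exact pos_star_mul _
  | zero => rw [mul_zero, zero_mul]; exact AddSubmonoid.zero_mem _
  | add x y _ _ hx hy =>
    rw [mul_add, add_mul]
    exact pos_add hx hy

theorem pos_sum {ι : Type*} (s : Finset ι) (f : ι → A) (h : ∀ i ∈ s, Pos (f i)) :
    Pos (∑ i ∈ s, f i) := AddSubmonoid.sum_mem _ h

theorem pos_rsmul {x : A} (hx : Pos x) (r : ℝ) (hr : 0 ≤ r) : Pos ((r : ℂ) • x) := by
  have h1 := pos_conj hx (((Real.sqrt r : ℝ) : ℂ) • (1 : A))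
  have e : star (((Real.sqrt r : ℝ) : ℂ) • (1 : A)) * x * (((Real.sqrt r : ℝ) : ℂ) • (1 : A)) =
      (r : ℂ) • x := by
    rw [star_smul, star_one, smul_mul_assoc, one_mul, mul_smul_comm, mul_one, smul_smul,
      Complex.star_def, Complex.conj_ofReal, ← Complex.ofReal_mul, Real.mul_self_sqrt hr]
  rwa [e] at h1

theorem TrAlg.pos_nonneg (h : TrAlg τ) {x : A} (hx : Pos x) : 0 ≤ τ x := by
  unfold Pos at hx
  induction hx using AddSubmonoid.closure_induction with
  | mem x hx =>
    obtain ⟨c, rfl⟩ := hx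
    exact h.nonneg c
  | zero => rw [map_zero]
  | add x y _ _ hx hy => rw [map_add]; exact add_nonneg hx hy

/-- pinching by the atoms -/
noncomputable def pinch (s : ℕ → A) (m : ℕ) (x : A) : A := ∑ i, atm s m i * x * atm s m i

theorem pinch_congr (s s' : ℕ → A) (m : ℕ) (h : ∀ i < m, s i = s' i) (x : A) :
    pinch s m x = pinch s' m x := by
  unfold pinch
  refine Finset.sum_congr rfl fun i _ => ?_
  rw [atm_congr s s' m h i]

/-- the trace data of `x` relative to the atoms -/
noncomputable def dev (τ : A → ℂ) (s : ℕ → A) (m : ℕ) (x : A) : ℝ :=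
  ∑ i, ‖(2 : ℂ) ^ m * τ (x * atm s m i)‖

theorem dev_congr (τ : A → ℂ) (s s' : ℕ → A) (m : ℕ) (h : ∀ i < m, s i = s' i) (x : A) :
    dev τ s m x = dev τ s' m x := by
  unfold dev
  refine Finset.sum_congr rfl fun i _ => ?_
  rw [atm_congr s s' m h i]

theorem rad_step (h : TrAlg τ) (hL : LyapProp τ) (s : ℕ → A) (m : ℕ) (hs : IsRad τ s m) (x : A)
    (hx : star x = x) (hp : Pos (1 + x)) (hq : Pos (1 - x)) :
    ∃ b, star b = b ∧ b * b = 1 ∧ (∀ i < m, b * s i = s i * b) ∧
      (∀ i : Idx m, τ (atm s m i * b) = 0) ∧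
      n2 τ (b - pinch s m x) ^ 2 ≤
        (1 - (τ (pinch s m x * pinch s m x)).re) + 4 * dev τ s m x := by
  classical
  have hP := pvm_atm s m hs.1
  set x' := pinch s m x with hx'
  set η := dev τ s m x with hη
  have hη0 : 0 ≤ η := Finset.sum_nonneg fun i _ => norm_nonneg _
  -- basic facts on the pinching
  have hx's : star x' = x' := by
    rw [hx']
    unfold pinch
    rw [star_sum]
    refine Finset.sum_congr rfl fun i _ => ?_
    rw [star_mul, star_mul, hP.star_eq, hx, mul_assoc]
  have hax : ∀ i, atm s m i * x' = atm s m i * x * atm s m i := by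
    intro i
    rw [hx']
    unfold pinch
    rw [Finset.mul_sum, Finset.sum_eq_single i]
    · rw [← mul_assoc, ← mul_assoc, hP.idem]
    · intro j _ hj
      rw [← mul_assoc, ← mul_assoc, hP.orth i j (Ne.symm hj), zero_mul, zero_mul]
    · intro hi
      exact absurd (Finset.mem_univ i) hi
  have hxa : ∀ i, x' * atm s m i = atm s m i * x * atm s m i := by
    intro i
    have := congrArg star (hax i)
    rw [star_mul, hx's, hP.star_eq, star_mul, star_mul, hP.star_eq, hx, ← mul_assoc] at this
    exact this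
  have hcx : ∀ i, atm s m i * x' = x' * atm s m i := fun i => by rw [hax, hxa]
  have hsx : ∀ k < m, s k * x' = x' * s k := by
    intro k hk
    obtain ⟨c, hc⟩ := sym_coeff (A := A) m k hk
    rw [hc s hs.1, Finset.sum_mul, Finset.mul_sum]
    refine Finset.sum_congr rfl fun i _ => ?_
    rw [smul_mul_assoc, mul_smul_comm, hcx]
  have hone_pinch : ∑ i, atm s m i * (1 : A) * atm s m i = 1 := by
    rw [← hP.sum]
    refine Finset.sum_congr rfl fun i _ => ?_
    rw [hP.sum, mul_one, hP.idem]
  have hpos1 : Pos (1 + x') := by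
    have : (1 : A) + x' = ∑ i, star (atm s m i) * (1 + x) * atm s m i := by
      rw [hx']
      unfold pinch
      conv_lhs => rw [← hone_pinch]
      rw [← Finset.sum_add_distrib]
      refine Finset.sum_congr rfl fun i _ => ?_
      rw [hP.star_eq, mul_add, add_mul]
    rw [this]
    exact pos_sum _ _ fun i _ => pos_conj hp _
  have hpos2 : Pos (1 - x') := by
    have : (1 : A) - x' = ∑ i, star (atm s m i) * (1 - x) * atm s m i := by
      rw [hx']
      unfold pinch
      conv_lhs => rw [← hone_pinch]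
      rw [← Finset.sum_sub_distrib]
      refine Finset.sum_congr rfl fun i _ => ?_
      rw [hP.star_eq, mul_sub, sub_mul]
    rw [this]
    exact pos_sum _ _ fun i _ => pos_conj hq _
  -- the coefficients
  let c : Idx m → ℝ := fun i => 2 ^ m * (τ (x * atm s m i)).re
  have hτreal : ∀ i, τ (x * atm s m i) = ((τ (x * atm s m i)).re : ℂ) := fun i =>
    h.eq_re _ _ hx (hP.star_eq i)
  have hcη : ∀ i, |c i| ≤ η := by
    intro i
    have h1 : |c i| = ‖(2 : ℂ) ^ m * τ (x * atm s m i)‖ := by
      rw [hτreal i, norm_mul, norm_pow, Complex.norm_real, Complex.norm_ofNat, Real.norm_eq_abs]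
      show |2 ^ m * (τ (x * atm s m i)).re| = _
      rw [abs_mul, abs_of_pos (by positivity : (0 : ℝ) < 2 ^ m)]
    rw [h1, hη]
    exact Finset.single_le_sum (f := fun i => ‖(2 : ℂ) ^ m * τ (x * atm s m i)‖)
      (fun j _ => norm_nonneg _) (Finset.mem_univ i)
  let y : A := ∑ i, ((c i : ℝ) : ℂ) • atm s m i
  have hys : star y = y := by
    show star (∑ i, ((c i : ℝ) : ℂ) • atm s m i) = _
    rw [star_sum]
    refine Finset.sum_congr rfl fun i _ => ?_
    rw [star_smul, hP.star_eq, Complex.star_def, Complex.conj_ofReal]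
  have hηy : ∀ ε : ℝ, (ε = 1 ∨ ε = -1) → Pos (((η : ℝ) : ℂ) • (1 : A) + ((ε : ℝ) : ℂ) • y) := by
    intro ε hε
    have : ((η : ℝ) : ℂ) • (1 : A) + ((ε : ℝ) : ℂ) • y =
        ∑ i, (((η + ε * c i : ℝ)) : ℂ) • atm s m i := by
      show ((η : ℝ) : ℂ) • (1 : A) + ((ε : ℝ) : ℂ) • (∑ i, ((c i : ℝ) : ℂ) • atm s m i) = _
      rw [← hP.sum, Finset.smul_sum, Finset.smul_sum, ← Finset.sum_add_distrib]
      refine Finset.sum_congr rfl fun i _ => ?_
      rw [smul_smul, ← add_smul]
      congr 1
      push_cast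
      ring
    rw [this]
    refine pos_sum _ _ fun i _ => pos_proj (hP.star_eq i) (hP.idem i) _ ?_
    have habs := abs_le.1 (hcη i)
    rcases hε with rfl | rfl <;> linarith [habs.1, habs.2]
  set r : ℝ := (1 + η)⁻¹ with hr
  have hr0 : 0 < r := inv_pos.2 (by linarith)
  have hrη : r * (1 + η) = 1 := inv_mul_cancel₀ (by linarith)
  let x2 : A := (r : ℂ) • (x' - y)
  have hX1 : Pos ((((1 / 2 : ℝ)) : ℂ) • (1 + x2)) := by
    have e : (1 : A) + x2 = (r : ℂ) • ((1 + x') + (((η : ℝ) : ℂ) • (1 : A) +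
        (((-1 : ℝ)) : ℂ) • y)) := by
      show (1 : A) + (r : ℂ) • (x' - y) = _
      have h1 : (1 : A) = (r : ℂ) • ((1 : A) + ((η : ℝ) : ℂ) • (1 : A)) := by
        conv_rhs => rw [← one_smul ℂ (1 : A), smul_smul, ← add_smul, smul_smul]
        have : (r : ℂ) * (1 + (η : ℂ) * 1) = 1 := by
          rw [mul_one]
          exact_mod_cast hrη
        rw [this, one_smul]
      conv_lhs => rw [h1]
      rw [← smul_add]
      congr 1
      push_cast
      rw [neg_smul, one_smul]
      abel
    rw [e]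
    exact pos_rsmul (pos_rsmul (pos_add hpos1 (hηy _ (Or.inr rfl))) _ hr0.le) _ (by norm_num)
  have hX2 : Pos ((((1 / 2 : ℝ)) : ℂ) • (1 - x2)) := by
    have e : (1 : A) - x2 = (r : ℂ) • ((1 - x') + (((η : ℝ) : ℂ) • (1 : A) +
        (((1 : ℝ)) : ℂ) • y)) := by
      show (1 : A) - (r : ℂ) • (x' - y) = _
      have h1 : (1 : A) = (r : ℂ) • ((1 : A) + ((η : ℝ) : ℂ) • (1 : A)) := by
        conv_rhs => rw [← one_smul ℂ (1 : A), smul_smul, ← add_smul, smul_smul]
        have : (r : ℂ) * (1 + (η : ℂ) * 1) = 1 := by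
          rw [mul_one]
          exact_mod_cast hrη
        rw [this, one_smul]
      conv_lhs => rw [h1]
      rw [← smul_sub]
      congr 1
      push_cast
      rw [one_smul]
      abel
    rw [e]
    exact pos_rsmul (pos_rsmul (pos_add hpos2 (hηy _ (Or.inl rfl))) _ hr0.le) _ (by norm_num)
  -- Lyapunov
  let S : Set A := {z | z = x' ∨ ∃ k < m, z = s k}
  obtain ⟨D, hSD, hDc, hD⟩ := hL S
    (by
      rintro z (rfl | ⟨k, hk, rfl⟩)
      · left; exact hx's
      · right; exact ⟨k, hk, hs.1.sa k hk⟩)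
    (by
      rintro z (rfl | ⟨k, hk, rfl⟩) w (rfl | ⟨l, hl, rfl⟩)
      · rfl
      · exact (hsx l hl).symm
      · exact hsx k hk
      · exact hs.1.comm k hk l hl)
  have hx'D : x' ∈ D := hSD _ (Or.inl rfl)
  have hsD : ∀ k < m, s k ∈ D := fun k hk => hSD _ (Or.inr ⟨k, hk, rfl⟩)
  have haD : ∀ i, atm s m i ∈ D := fun i => atm_mem D s m hsD i
  have hyD : y ∈ D := sum_mem fun i _ => D.smul_mem (haD i) _
  have hx2D : x2 ∈ D := D.smul_mem (sub_mem hx'D hyD) _
  obtain ⟨p, hpD, hpP, hpτ⟩ := hD Bool (Option (Idx m))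
    (fun b => if b then (((1 / 2 : ℝ)) : ℂ) • (1 + x2) else (((1 / 2 : ℝ)) : ℂ) • (1 - x2))
    (fun o => match o with
      | none => x'
      | some i => atm s m i)
    (by
      intro b
      cases b
      · exact D.smul_mem (sub_mem (one_mem D) hx2D) _
      · exact D.smul_mem (add_mem (one_mem D) hx2D) _)
    (by
      intro b
      cases b
      · exact hX2
      · exact hX1)
    (by
      rw [Fintype.sum_bool]
      show (((1 / 2 : ℝ)) : ℂ) • (1 + x2) + (((1 / 2 : ℝ)) : ℂ) • (1 - x2) = 1
      rw [← smul_add]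
      have : (1 : A) + x2 + (1 - x2) = (2 : ℂ) • 1 := by rw [two_smul]; abel
      rw [this, smul_smul]
      norm_num)
  have hpsum := hpP.sum
  rw [Fintype.sum_bool] at hpsum
  have htf := hpP.orth true false (by decide)
  have hft := hpP.orth false true (by decide)
  let b : A := p true - p false
  have hbD : b ∈ D := sub_mem (hpD true) (hpD false)
  have hbs : star b = b := by
    show star (p true - p false) = _
    rw [star_sub, hpP.star_eq, hpP.star_eq]
  have hbb : b * b = 1 := by
    show (p true - p false) * (p true - p false) = 1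
    rw [sub_mul, mul_sub, mul_sub, hpP.idem, hpP.idem, htf, hft, sub_zero, zero_sub,
      sub_neg_eq_add, hpsum]
  have hbτ : ∀ o : Option (Idx m), τ (b * (match o with
      | none => x'
      | some i => atm s m i)) = τ (x2 * (match o with
      | none => x'
      | some i => atm s m i)) := by
    intro o
    have h1 := hpτ true o
    have h2 := hpτ false o
    show τ ((p true - p false) * _) = _
    rw [sub_mul, map_sub, h1, h2]
    show τ ((((1 / 2 : ℝ)) : ℂ) • (1 + x2) * _) - τ ((((1 / 2 : ℝ)) : ℂ) • (1 - x2) * _) = _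
    rw [← map_sub, ← sub_mul, ← smul_sub]
    have : (1 : A) + x2 - (1 - x2) = (2 : ℂ) • x2 := by rw [two_smul]; abel
    rw [this, smul_smul]
    norm_num
  have htr : ∀ i, τ (x' * atm s m i) = τ (x * atm s m i) := by
    intro i
    rw [hxa, h.comm, ← mul_assoc, hP.idem, h.comm]
  have hym : ∀ i, y * atm s m i = ((c i : ℝ) : ℂ) • atm s m i := by
    intro i
    show (∑ j, ((c j : ℝ) : ℂ) • atm s m j) * atm s m i = _
    rw [Finset.sum_mul, Finset.sum_eq_single i]
    · rw [smul_mul_assoc, hP.idem]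
    · intro j _ hj
      rw [smul_mul_assoc, hP.orth j i hj, smul_zero]
    · intro hi
      exact absurd (Finset.mem_univ i) hi
  have hτat : ∀ i : Idx m, τ (atm s m i) = (1 / 2 : ℂ) ^ m := hs.2 m le_rfl
  have h2m : (2 : ℂ) ^ m * (1 / 2 : ℂ) ^ m = 1 := by
    rw [← mul_pow]; norm_num
  have hyx : τ (y * x') = ((∑ i, c i * ((τ (x * atm s m i)).re) : ℝ) : ℂ) := by
    show τ ((∑ j, ((c j : ℝ) : ℂ) • atm s m j) * x') = _
    rw [Finset.sum_mul, map_sum]
    push_cast
    refine Finset.sum_congr rfl fun i _ => ?_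
    rw [smul_mul_assoc, map_smul, smul_eq_mul, h.comm, htr, ← hτreal i]
  refine ⟨b, hbs, hbb, fun i hi => hDc b hbD _ (hsD i hi), ?_, ?_⟩
  · intro i
    rw [h.comm]
    have h1 := hbτ (some i)
    have h2 : τ (b * atm s m i) = τ (x2 * atm s m i) := h1
    rw [h2]
    show τ ((r : ℂ) • (x' - y) * atm s m i) = 0
    rw [smul_mul_assoc, sub_mul, map_smul, map_sub, htr, hym, map_smul, hτat, hτreal i]
    have : ((c i : ℝ) : ℂ) • (1 / 2 : ℂ) ^ m = ((τ (x * atm s m i)).re : ℂ) := by
      show ((2 ^ m * (τ (x * atm s m i)).re : ℝ) : ℂ) • (1 / 2 : ℂ) ^ m = _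
      push_cast
      rw [smul_eq_mul]
      calc (2 : ℂ) ^ m * ((τ (x * atm s m i)).re : ℂ) * (1 / 2) ^ m
          = ((2 : ℂ) ^ m * (1 / 2) ^ m) * ((τ (x * atm s m i)).re : ℂ) := by ring
        _ = _ := by rw [h2m, one_mul]
    rw [this, sub_self, smul_zero]
  · have hbx : τ (b * x') = τ (x2 * x') := hbτ none
    set a : ℝ := (τ (x' * x')).re with ha
    set β : ℝ := ∑ i, c i * ((τ (x * atm s m i)).re) with hβ
    have e1 : (τ (b * x')).re = r * (a - β) := by
      rw [hbx]
      show (τ ((r : ℂ) • (x' - y) * x')).re = _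
      rw [smul_mul_assoc, sub_mul, map_smul, map_sub, hyx, smul_eq_mul, Complex.re_ofReal_mul,
        Complex.sub_re, Complex.ofReal_re]
    have e2 : n2 τ (b - x') ^ 2 = 1 + a - 2 * (r * (a - β)) := by
      rw [h.n2_sq, star_sub, hbs, hx's]
      have : (b - x') * (b - x') = 1 + x' * x' - (b * x' + x' * b) := by
        calc (b - x') * (b - x') = b * b + x' * x' - (b * x' + x' * b) := by noncomm_ring
          _ = _ := by rw [hbb]
      rw [this, map_sub, map_add, map_add, h.comm x' b, h.one, Complex.sub_re, Complex.add_re,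
        Complex.add_re, Complex.one_re, e1]
      ring
    have ha1 : a ≤ 1 := by
      -- `1 - x'^2` is positive
      have h3 : (1 : A) - x' * x' = ((1 / 2 : ℝ) : ℂ) • (star (1 + x') * (1 - x') * (1 + x') +
          star (1 - x') * (1 + x') * (1 - x')) := by
        rw [star_add, star_sub, star_one, hx's]
        have : (1 + x') * (1 - x') * (1 + x') + (1 - x') * (1 + x') * (1 - x') =
            (2 : ℂ) • (1 - x' * x') := by
          rw [two_smul]; noncomm_ring
        rw [this, smul_smul]
        norm_num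
      have h4 : Pos ((1 : A) - x' * x') := by
        rw [h3]
        exact pos_rsmul (pos_add (pos_conj hpos2 _) (pos_conj hpos1 _)) _ (by norm_num)
      have h5 := (Complex.nonneg_iff.1 (h.pos_nonneg h4)).1
      rw [map_sub, h.one, Complex.sub_re, Complex.one_re] at h5
      linarith
    have hβ0 : 0 ≤ β := Finset.sum_nonneg fun i _ => by
      show 0 ≤ 2 ^ m * (τ (x * atm s m i)).re * (τ (x * atm s m i)).re
      rw [mul_assoc]
      exact mul_nonneg (by positivity) (mul_self_nonneg _)
    have hβη : β ≤ η * η := by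
      have h1 : ∀ i, c i * (τ (x * atm s m i)).re ≤
          η * ‖(2 : ℂ) ^ m * τ (x * atm s m i)‖ := by
        intro i
        have h2 : |(τ (x * atm s m i)).re| ≤ ‖(2 : ℂ) ^ m * τ (x * atm s m i)‖ := by
          rw [norm_mul, norm_pow, Complex.norm_ofNat]
          calc |(τ (x * atm s m i)).re| ≤ ‖τ (x * atm s m i)‖ := Complex.abs_re_le_norm _
            _ = 1 * ‖τ (x * atm s m i)‖ := (one_mul _).symm
            _ ≤ 2 ^ m * ‖τ (x * atm s m i)‖ := by
                refine mul_le_mul_of_nonneg_right ?_ (norm_nonneg _)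
                exact one_le_pow₀ (by norm_num)
        calc c i * (τ (x * atm s m i)).re ≤ |c i * (τ (x * atm s m i)).re| := le_abs_self _
          _ = |c i| * |(τ (x * atm s m i)).re| := abs_mul _ _
          _ ≤ η * ‖(2 : ℂ) ^ m * τ (x * atm s m i)‖ :=
              mul_le_mul (hcη i) h2 (abs_nonneg _) hη0
      calc β ≤ ∑ i, η * ‖(2 : ℂ) ^ m * τ (x * atm s m i)‖ := Finset.sum_le_sum fun i _ => h1 i
        _ = η * η := by rw [← Finset.mul_sum]; rfl
    have ha0 : 0 ≤ a := by
      have := h.re_nonneg x'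
      rwa [hx's] at this
    rw [e2]
    have h6 : r = 1 - r * η := by
      have := hrη
      linarith [this]
    have hr1 : r ≤ 1 := by
      have : 0 ≤ r * η := mul_nonneg hr0.le hη0
      linarith
    have h7 : r * β ≤ η := by
      have h8 : r * β ≤ r * (η * η) := mul_le_mul_of_nonneg_left hβη hr0.le
      have h9 : r * η ≤ 1 := by linarith
      calc r * β ≤ r * (η * η) := h8
        _ = (r * η) * η := by ring
        _ ≤ 1 * η := mul_le_mul_of_nonneg_right h9 hη0
        _ = η := one_mul η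
    have h10 : a - r * a ≤ η := by
      have : a - r * a = a * (r * η) := by
        have : 1 - r = r * η := by linarith
        calc a - r * a = a * (1 - r) := by ring
          _ = _ := by rw [this]
      rw [this]
      calc a * (r * η) ≤ 1 * (1 * η) := by gcongr
        _ = η := by ring
    nlinarith

/-- Exact Rademacher sequences near a given sequence of self-adjoint contractions. -/
theorem exists_rad (h : TrAlg τ) (hL : LyapProp τ) (x : ℕ → A) (hx : ∀ m, star (x m) = x m)
    (hp : ∀ m, Pos (1 + x m)) (hq : ∀ m, Pos (1 - x m)) :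
    ∃ s : ℕ → A, (∀ m, IsRad τ s m) ∧ ∀ m, n2 τ (s m - pinch s m (x m)) ^ 2 ≤
      (1 - (τ (pinch s m (x m) * pinch s m (x m))).re) + 4 * dev τ s m (x m) := by
  classical
  obtain ⟨s, hs⟩ := exists_seq (0 : A)
    (fun m s => IsRad τ s m ∧ ∀ k < m, n2 τ (s k - pinch s k (x k)) ^ 2 ≤
      (1 - (τ (pinch s k (x k) * pinch s k (x k))).re) + 4 * dev τ s k (x k))
    (by
      rintro m s s' hss ⟨h1, h2⟩
      refine ⟨h1.congr hss, fun k hk => ?_⟩
      have h3 : ∀ i < k, s i = s' i := fun i hi => hss i (by omega)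
      rw [← hss k hk, ← pinch_congr s s' k h3, ← dev_congr τ s s' k h3]
      exact h2 k hk)
    (fun s => ⟨isRad_zero h.one s, fun k hk => absurd hk (by omega)⟩)
    (by
      rintro m s ⟨h1, h2⟩
      obtain ⟨b, hb1, hb2, hb3, hb4, hb5⟩ := rad_step h hL s m h1 (x m) (hx m) (hp m) (hq m)
      have hu : ∀ i < m, s i = Function.update s m b i := fun i hi =>
        (Function.update_of_ne (by omega) _ _).symm
      refine ⟨b, h1.extend b hb1 hb2 hb3 hb4, fun k hk => ?_⟩
      rcases Nat.lt_succ_iff_lt_or_eq.1 hk with h3 | rfl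
      · have h4 : ∀ i < k, s i = Function.update s m b i := fun i hi => hu i (by omega)
        rw [← hu k h3, ← pinch_congr s _ k h4, ← dev_congr τ s _ k h4]
        exact h2 k h3
      · rw [Function.update_self, ← pinch_congr s _ k hu, ← dev_congr τ s _ k hu]
        exact hb5)
  exact ⟨s, fun m => (hs m).1, fun m => (hs (m + 1)).2 m (Nat.lt_succ_self m)⟩

end Pool.Agent.Helper278
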