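import Mathlib
import Pool.Agent.KS6_19.UP.L.Helper278.Defs

set_option autoImplicit false

open scoped InnerProductSpace BoundedContinuousFunction

namespace Pool.Agent.Helper278

universe u v w

section factor

variable {H : Type u} [NormedAddCommGroup H] [InnerProductSpace ℂ H] [CompleteSpace H]

/-- `N` is a factor: its center consists of the scalars. -/
def HasTrivialCenter (N : VonNeumannAlgebra H) : Prop :=
  ∀ z ∈ N, (∀ x ∈ N, z * x = x * z) → ∃ c : ℂ, z = c • (1 : H →L[ℂ] H)

/-- `N` is a II₁ factor with trace `τ`: an infinite dimensional factor, and `τ` is a faithful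
normal tracial state on it. -/
structure IsIIOneFactor (N : VonNeumannAlgebra H) (τ : Elt N → ℂ) : Prop where
  center : HasTrivialCenter N
  infinite : ¬ FiniteDimensional ℂ (Elt N)
  trace : IsFaithfulTrace τ
  normal : IsNormalPositive N τ

/-- The von Neumann algebra generated by a set of operators: the bicommutant of the set and its
adjoints. -/
noncomputable def vnGen (S : Set (H →L[ℂ] H)) : VonNeumannAlgebra H where
  toStarSubalgebra := StarSubalgebra.centralizer ℂ
    (StarSubalgebra.centralizer ℂ S : Set (H →L[ℂ] H))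
  centralizer_centralizer' := by
    show Set.centralizer (Set.centralizer ((StarSubalgebra.centralizer ℂ
      (StarSubalgebra.centralizer ℂ S : Set (H →L[ℂ] H)) : StarSubalgebra ℂ (H →L[ℂ] H)) :
        Set (H →L[ℂ] H))) = ((StarSubalgebra.centralizer ℂ
      (StarSubalgebra.centralizer ℂ S : Set (H →L[ℂ] H)) : StarSubalgebra ℂ (H →L[ℂ] H)) :
        Set (H →L[ℂ] H))
    rw [StarSubalgebra.coe_centralizer_centralizer, Set.centralizer_centralizer_centralizer]

end factor

/-- `(M, τ)` is hyperfinite: an increasing sequence of finite dimensional star subalgebras of `M`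
has a union that is dense in the 2-norm. -/
def IsHyperfinite (M : Type u) [Ring M] [StarRing M] [Algebra ℂ M] [StarModule ℂ M]
    (τ : M → ℂ) : Prop :=
  ∃ A : ℕ → StarSubalgebra ℂ M, Monotone A ∧ (∀ n, FiniteDimensional ℂ (A n)) ∧
    ∀ (x : M) (ε : ℝ), 0 < ε → ∃ n, ∃ y ∈ A n, norm2 τ (x - y) < ε

/-- `lam` is the left regular representation of the group `G` on a Hilbert space `K` with an
orthonormal basis `b` indexed by `G`, that is, on a model of `ℓ²(G)`: `λ_g b_h = b_{gh}`. -/
def IsLeftRegular {G : Type v} [Group G] {K : Type w} [NormedAddCommGroup K]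
    [InnerProductSpace ℂ K] (b : HilbertBasis G ℂ K) (lam : G → K →L[ℂ] K) : Prop :=
  ∀ g h, lam g (b h) = b (g * h)

/-- For every nonprincipal ultrafilter on `ℕ`, the tracial ultrapower of `(M, τ)` is isomorphic to
no group von Neumann algebra `L(G)`, the von Neumann algebra generated by the left regular
representation. -/
def UltrapowersNotGroupVN (M : Type u) [NormedRing M] [StarRing M] [CStarRing M]
    [NormedAlgebra ℂ M] [StarModule ℂ M] (τ : M → ℂ) : Prop :=
  ∀ U : Ultrafilter ℕ, (∀ n, {n} ∉ U) → ∀ (Q : Type u) [Ring Q] [StarRing Q] [Algebra ℂ Q]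
    [StarModule ℂ Q] (π : (ℕ →ᵇ M) →⋆ₐ[ℂ] Q) (σ : Q → ℂ), IsTracialUltrapower τ U π σ →
    ∀ (G : Type v) [Group G] (K : Type w) [NormedAddCommGroup K] [InnerProductSpace ℂ K]
      [CompleteSpace K] (b : HilbertBasis G ℂ K) (lam : G → K →L[ℂ] K), IsLeftRegular b lam →
      IsEmpty (Elt (vnGen (Set.range lam)) ≃⋆ₐ[ℂ] Q)

end Pool.Agent.Helper278
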