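import Mathlib
import Pool.Agent.KS6_19.UP.L.Helper278.TrAlg

set_option autoImplicit false
set_option linter.unusedSectionVars false

open scoped ComplexOrder

namespace Pool.Agent.Helper278

variable {A : Type*} [Ring A] [StarRing A] [Algebra ℂ A] [StarModule ℂ A] {τ : A →ₗ[ℂ] ℂ}

theorem pvm_mul {ι : Type*} [Fintype ι] [DecidableEq ι] {q : ι → A} (hq : PVM q) (i j : ι) :
    q i * q j = if i = j then q i else 0 := by
  split_ifs with h
  · subst h; exact hq.idem i
  · exact hq.orth i j h

/-- square of a real combination of a PVM -/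
theorem comb_sq {γ : Type*} [Fintype γ] [DecidableEq γ] {q : γ → A} (hq : PVM q) (c d : γ → ℂ) :
    (∑ j, c j • q j) * (∑ j, d j • q j) = ∑ j, (c j * d j) • q j := by
  rw [Finset.sum_mul]
  refine Finset.sum_congr rfl fun i _ => ?_
  rw [Finset.mul_sum, Finset.sum_eq_single i]
  · rw [smul_mul_smul_comm, hq.idem]
  · intro j _ hj
    rw [smul_mul_smul_comm, hq.orth i j (Ne.symm hj), smul_zero]
  · intro h; exact absurd (Finset.mem_univ i) h

theorem comb_star {γ : Type*} [Fintype γ] {q : γ → A} (hq : PVM q) (c : γ → ℝ) :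
    star (∑ j, (c j : ℂ) • q j) = ∑ j, (c j : ℂ) • q j := by
  rw [star_sum]
  refine Finset.sum_congr rfl fun i _ => ?_
  rw [star_smul, hq.star_eq, Complex.star_def, Complex.conj_ofReal]

theorem exists_reserved (h : TrAlg τ) (hL : LyapProp τ) {ι γ : Type} [Fintype ι] [Fintype γ]
    [DecidableEq ι] [DecidableEq γ] (p : ι → A) (q : γ → A) (hp : PVM p) (hq : PVM q)
    (κ : ℝ) (hκ0 : 0 ≤ κ) (hκ : κ ≤ 1 / 2) :
    ∃ e : A, star e = e ∧ e * e = e ∧ (∀ i, e * p i = p i * e) ∧
      (∀ i j, τ (e * (p i * q j)) = ((2 * κ - κ ^ 2 : ℝ) : ℂ) * τ (p i * q j)) ∧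
      (∀ c : γ → ℝ, 2 * κ ^ 2 * ∑ j, c j ^ 2 * (τ (q j)).re ≤
        (τ (e * (∑ j, (c j : ℂ) • q j) * e * (∑ j, (c j : ℂ) • q j))).re) := by
  classical
  obtain ⟨D, hSD, hDc, hDL⟩ := hL (Set.range p) (by
    rintro _ ⟨i, rfl⟩
    exact ⟨i, (hp.star_eq i).symm⟩) (by
    rintro _ ⟨i, rfl⟩ _ ⟨j, rfl⟩
    rw [pvm_mul hp, pvm_mul hp]
    by_cases hij : i = j
    · subst hij; rfl
    · rw [if_neg hij, if_neg (Ne.symm hij)])
  have hpD : ∀ i, p i ∈ D := fun i => hSD _ ⟨i, rfl⟩
  -- first projection
  obtain ⟨P, hPD, hP, hPy⟩ := hDL Bool (Option ι × γ)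
    (fun b => if b then (κ : ℂ) • (1 : A) else ((1 - κ : ℝ) : ℂ) • (1 : A))
    (fun z => match z.1 with
      | none => q z.2
      | some i => p i * q z.2)
    (by
      intro b
      split_ifs
      · exact D.smul_mem D.one_mem _
      · exact D.smul_mem D.one_mem _)
    (by
      intro b
      split_ifs
      · exact pos_proj (star_one A) (one_mul 1) κ hκ0
      · exact pos_proj (star_one A) (one_mul 1) (1 - κ) (by linarith))
    (by
      rw [Fintype.sum_bool]
      simp only [if_true, Bool.false_eq_true, if_false]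
      rw [← add_smul]
      push_cast
      rw [add_sub_cancel, one_smul])
  set e1 := P true with he1
  have he1D : e1 ∈ D := hPD true
  have he1s : star e1 = e1 := hP.star_eq true
  have he1i : e1 * e1 = e1 := hP.idem true
  have he1q : ∀ j, τ (e1 * q j) = κ * τ (q j) := by
    intro j
    have := hPy true (none, j)
    simpa using this
  have he1pq : ∀ i j, τ (e1 * (p i * q j)) = κ * τ (p i * q j) := by
    intro i j
    have := hPy true (some i, j)
    simpa using this
  -- second projection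
  let Q3 : Fin 3 → A := ![(κ : ℂ) • (1 - e1), ((1 - κ : ℝ) : ℂ) • (1 - e1), e1]
  have h1e1s : star (1 - e1) = 1 - e1 := by rw [star_sub, star_one, he1s]
  have h1e1i : (1 - e1) * (1 - e1) = 1 - e1 := by
    rw [mul_sub, sub_mul, sub_mul, he1i]; simp
  obtain ⟨P2, hP2D, hP2, hP2y⟩ := hDL (Fin 3) (Option ((Option ι × γ) ⊕ (γ × γ))) Q3
    (fun z => match z with
      | none => e1
      | some (Sum.inl (none, j)) => q j
      | some (Sum.inl (some i, j)) => p i * q j
      | some (Sum.inr (j, k)) => q j * e1 * q k)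
    (by
      intro i
      fin_cases i
      · exact D.smul_mem (D.sub_mem D.one_mem he1D) _
      · exact D.smul_mem (D.sub_mem D.one_mem he1D) _
      · exact he1D)
    (by
      intro i
      fin_cases i
      · exact pos_proj h1e1s h1e1i κ hκ0
      · exact pos_proj h1e1s h1e1i (1 - κ) (by linarith)
      · have := pos_proj he1s he1i 1 zero_le_one
        rw [Complex.ofReal_one, one_smul] at this
        exact this)
    (by
      rw [Fin.sum_univ_three]
      show (κ : ℂ) • (1 - e1) + ((1 - κ : ℝ) : ℂ) • (1 - e1) + e1 = 1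
      rw [← add_smul]
      push_cast
      rw [add_sub_cancel, one_smul, sub_add_cancel])
  set e2 := P2 0 with he2
  have he2D : e2 ∈ D := hP2D 0
  have he2s : star e2 = e2 := hP2.star_eq 0
  have he2i : e2 * e2 = e2 := hP2.idem 0
  have hmul : ∀ y : A, τ (((κ : ℂ) • (1 - e1)) * y) = κ * (τ y - τ (e1 * y)) := by
    intro y
    rw [smul_mul_assoc, map_smul, sub_mul, one_mul, map_sub, smul_eq_mul]
  have he2e1' : τ (e2 * e1) = 0 := by
    have := hP2y 0 none
    have h2 : τ (e2 * e1) = τ (((κ : ℂ) • (1 - e1)) * e1) := this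
    rw [h2, hmul, he1i, sub_self, mul_zero]
  have he2q : ∀ j, τ (e2 * q j) = κ * (τ (q j) - τ (e1 * q j)) := by
    intro j
    have := hP2y 0 (some (Sum.inl (none, j)))
    have h2 : τ (e2 * q j) = τ (((κ : ℂ) • (1 - e1)) * q j) := this
    rw [h2, hmul]
  have he2pq : ∀ i j, τ (e2 * (p i * q j)) = κ * (τ (p i * q j) - τ (e1 * (p i * q j))) := by
    intro i j
    have := hP2y 0 (some (Sum.inl (some i, j)))
    have h2 : τ (e2 * (p i * q j)) = τ (((κ : ℂ) • (1 - e1)) * (p i * q j)) := this
    rw [h2, hmul]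
  have he2qq : ∀ j k, τ (e2 * (q j * e1 * q k)) =
      κ * (τ (q j * e1 * q k) - τ (e1 * (q j * e1 * q k))) := by
    intro j k
    have := hP2y 0 (some (Sum.inr (j, k)))
    have h2 : τ (e2 * (q j * e1 * q k)) = τ (((κ : ℂ) • (1 - e1)) * (q j * e1 * q k)) := this
    rw [h2, hmul]
  have hcom12 : e1 * e2 = e2 * e1 := hDc _ he1D _ he2D
  have he2e1 : e2 * e1 = 0 := by
    apply h.faithful
    have e : star (e2 * e1) * (e2 * e1) = e2 * e1 := by
      rw [star_mul, he1s, he2s]
      calc e1 * e2 * (e2 * e1) = e1 * (e2 * e2) * e1 := by noncomm_ring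
        _ = (e1 * e2) * e1 := by rw [he2i]
        _ = e2 * (e1 * e1) := by rw [hcom12]; noncomm_ring
        _ = e2 * e1 := by rw [he1i]
    rw [e, he2e1']
  have he1e2 : e1 * e2 = 0 := by rw [hcom12, he2e1]
  refine ⟨e1 + e2, ?_, ?_, ?_, ?_, ?_⟩
  · rw [star_add, he1s, he2s]
  · rw [add_mul, mul_add, mul_add, he1i, he2i, he1e2, he2e1]; simp
  · intro i
    exact hDc _ (D.add_mem he1D he2D) _ (hpD i)
  · intro i j
    rw [add_mul, map_add, he1pq, he2pq, he1pq]
    push_cast
    ring
  · intro c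
    set b := ∑ j, (c j : ℂ) • q j with hb
    have hbs : star b = b := comb_star hq c
    have hbb : b * b = ∑ j, ((c j : ℂ) * (c j : ℂ)) • q j := comb_sq hq _ _
    have hτbb : τ (b * b) = ∑ j, ((c j : ℂ) * (c j : ℂ)) * τ (q j) := by
      rw [hbb, map_sum]
      refine Finset.sum_congr rfl fun j _ => ?_
      rw [map_smul, smul_eq_mul]
    have he1bb : τ (e1 * (b * b)) = κ * τ (b * b) := by
      rw [hbb, Finset.mul_sum, map_sum, map_sum, Finset.mul_sum]
      refine Finset.sum_congr rfl fun j _ => ?_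
      rw [mul_smul_comm, map_smul, map_smul, he1q, smul_eq_mul, smul_eq_mul]
      ring
    have hexp : b * e1 * b = ∑ j, ∑ k, ((c j : ℂ) * (c k : ℂ)) • (q j * e1 * q k) := by
      rw [hb, Finset.sum_mul, Finset.sum_mul]
      refine Finset.sum_congr rfl fun j _ => ?_
      rw [Finset.mul_sum]
      refine Finset.sum_congr rfl fun k _ => ?_
      rw [smul_mul_assoc, smul_mul_smul_comm]
    have he2b : τ (e2 * (b * e1 * b)) = κ * (τ (b * e1 * b) - τ (e1 * (b * e1 * b))) := by
      have hL1 : ∀ w : A, τ (w * (b * e1 * b)) =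
          ∑ j, ∑ k, ((c j : ℂ) * (c k : ℂ)) * τ (w * (q j * e1 * q k)) := by
        intro w
        rw [hexp, Finset.mul_sum, map_sum]
        refine Finset.sum_congr rfl fun j _ => ?_
        rw [Finset.mul_sum, map_sum]
        refine Finset.sum_congr rfl fun k _ => ?_
        rw [mul_smul_comm, map_smul, smul_eq_mul]
      have hL2 := hL1 1
      simp only [one_mul] at hL2
      rw [hL1 e2, hL2, hL1 e1, ← Finset.sum_sub_distrib, Finset.mul_sum]
      refine Finset.sum_congr rfl fun j _ => ?_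
      rw [← Finset.sum_sub_distrib, Finset.mul_sum]
      refine Finset.sum_congr rfl fun k _ => ?_
      rw [he2qq]
      ring
    have hbe1b : τ (b * e1 * b) = κ * τ (b * b) := by
      rw [← he1bb, mul_assoc, h.comm b (e1 * b), mul_assoc]
    set T := τ (e1 * (b * e1 * b)) with hT
    have hTpos : 0 ≤ T.re := by
      have e : T = τ (star (e1 * b * e1) * (e1 * b * e1)) := by
        rw [hT, star_mul, star_mul, he1s, hbs]
        have : e1 * (b * e1) * (e1 * b * e1) = e1 * b * (e1 * e1) * b * e1 := by noncomm_ring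
        rw [this, he1i, h.comm _ e1]
        have : e1 * (e1 * b * e1 * b) = (e1 * e1) * b * e1 * b := by noncomm_ring
        rw [this, he1i]
        congr 1
        noncomm_ring
      rw [e]
      exact h.re_nonneg _
    have hT2 : 0 ≤ (τ (e2 * (b * e2 * b))).re := by
      have e : τ (e2 * (b * e2 * b)) = τ (star (e2 * b * e2) * (e2 * b * e2)) := by
        rw [star_mul, star_mul, he2s, hbs]
        have : e2 * (b * e2) * (e2 * b * e2) = e2 * b * (e2 * e2) * b * e2 := by noncomm_ring
        rw [this, he2i, h.comm _ e2]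
        have : e2 * (e2 * b * e2 * b) = (e2 * e2) * b * e2 * b := by noncomm_ring
        rw [this, he2i]
        congr 1
        noncomm_ring
      rw [e]
      exact h.re_nonneg _
    have hcross : τ (e1 * (b * e2 * b)) = τ (e2 * (b * e1 * b)) := by
      have : e1 * (b * e2 * b) = (e1 * b) * (e2 * b) := by noncomm_ring
      rw [this, h.comm]
      congr 1
      noncomm_ring
    have hexpand : (e1 + e2) * b * (e1 + e2) * b = e1 * (b * e1 * b) + e1 * (b * e2 * b) +
        e2 * (b * e1 * b) + e2 * (b * e2 * b) := by noncomm_ring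
    rw [hexpand, map_add, map_add, map_add, hcross, he2b, hbe1b, Complex.add_re, Complex.add_re,
      Complex.add_re, ← hT]
    have hre1 : ((κ : ℂ) * ((κ : ℂ) * τ (b * b) - T)).re = κ * (κ * (τ (b * b)).re - T.re) := by
      rw [Complex.re_ofReal_mul, Complex.sub_re, Complex.re_ofReal_mul]
    have hre2 : (τ (b * b)).re = ∑ j, c j ^ 2 * (τ (q j)).re := by
      rw [hτbb, Complex.re_sum]
      refine Finset.sum_congr rfl fun j _ => ?_
      rw [← Complex.ofReal_mul, Complex.re_ofReal_mul]
      ring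
    rw [hre1, hre2]
    nlinarith [mul_nonneg hTpos (by linarith : (0 : ℝ) ≤ 1 - 2 * κ)]

end Pool.Agent.Helper278
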