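import Mathlib
import Pool.Agent.KS6_19.UP.L.Helper278.Reserve

set_option autoImplicit false
set_option linter.unusedSectionVars false

open scoped ComplexOrder

namespace Pool.Agent.Helper278

/-- Solving a positive definite linear system with a bound on the solution. -/
theorem solve_posdef {γ : Type} [Fintype γ] [DecidableEq γ] (G : (γ → ℝ) →ₗ[ℝ] (γ → ℝ))
    (ρ : ℝ) (hρ : 0 < ρ) (hG : ∀ c : γ → ℝ, ρ * ∑ j, c j ^ 2 ≤ ∑ j, c j * G c j)
    (η : ℝ) (ε : γ → ℝ) (hε : ∀ j, |ε j| ≤ η) (hη : η * Fintype.card γ ≤ ρ / 2) :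
    ∃ c : γ → ℝ, G c = ε ∧ ∀ j, |c j| ≤ 1 / 2 := by
  have hinj : Function.Injective G := by
    rw [← LinearMap.ker_eq_bot, LinearMap.ker_eq_bot']
    intro c hc
    have h1 := hG c
    rw [hc] at h1
    simp only [Pi.zero_apply, mul_zero, Finset.sum_const_zero] at h1
    have h2 : 0 ≤ ∑ j, c j ^ 2 := Finset.sum_nonneg fun j _ => sq_nonneg _
    have h3 : ∑ j, c j ^ 2 = 0 := by nlinarith
    funext j
    have h4 := (Finset.sum_eq_zero_iff_of_nonneg (fun j _ => sq_nonneg (c j))).1 h3 j
      (Finset.mem_univ j)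
    simpa using h4
  obtain ⟨c, hc⟩ := LinearMap.injective_iff_surjective.1 hinj ε
  refine ⟨c, hc, ?_⟩
  intro j
  have h1 := hG c
  rw [hc] at h1
  have h2 : ∑ i, c i * ε i ≤ η * ∑ i, |c i| := by
    rw [Finset.mul_sum]
    refine Finset.sum_le_sum fun i _ => ?_
    calc c i * ε i ≤ |c i * ε i| := le_abs_self _
      _ = |c i| * |ε i| := abs_mul _ _
      _ ≤ |c i| * η := mul_le_mul_of_nonneg_left (hε i) (abs_nonneg _)
      _ = η * |c i| := mul_comm _ _
  have h3 : (∑ i, |c i|) ^ 2 ≤ Fintype.card γ * ∑ i, c i ^ 2 := by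
    have := sq_sum_le_card_mul_sum_sq (s := Finset.univ) (f := fun i => |c i|)
    simpa [sq_abs] using this
  set S := ∑ i, |c i| with hS
  have hS0 : 0 ≤ S := Finset.sum_nonneg fun i _ => abs_nonneg _
  have hcS : |c j| ≤ S := Finset.single_le_sum (f := fun i => |c i|)
    (fun i _ => abs_nonneg _) (Finset.mem_univ j)
  have hη0 : 0 ≤ η := le_trans (abs_nonneg _) (hε j)
  have hn : (0 : ℝ) < Fintype.card γ := by
    have : 0 < Fintype.card γ := Fintype.card_pos_iff.2 ⟨j⟩
    exact_mod_cast this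
  -- ρ S^2 / n ≤ η S
  have h4 : ρ * S ^ 2 ≤ Fintype.card γ * (η * S) := by
    calc ρ * S ^ 2 ≤ ρ * (Fintype.card γ * ∑ i, c i ^ 2) := mul_le_mul_of_nonneg_left h3 hρ.le
      _ = Fintype.card γ * (ρ * ∑ i, c i ^ 2) := by ring
      _ ≤ Fintype.card γ * (η * S) := by
          refine mul_le_mul_of_nonneg_left (h1.trans h2) hn.le
  have h5 : S ≤ 1 / 2 := by
    by_contra hcon
    push Not at hcon
    have hSpos : 0 < S := by linarith
    have h6 : ρ * S ≤ Fintype.card γ * η := by
      have : (ρ * S) * S ≤ (Fintype.card γ * η) * S := by nlinarith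
      exact le_of_mul_le_mul_right this hSpos
    nlinarith
  linarith

variable {A : Type*} [Ring A] [StarRing A] [Algebra ℂ A] [StarModule ℂ A] {τ : A →ₗ[ℂ] ℂ}

theorem n2_comb_mul (h : TrAlg τ) {ι : Type} [Fintype ι] [DecidableEq ι] {p : ι → A} (hp : PVM p)
    (lam : ι → ℂ) (hlam : ∀ i, ‖lam i‖ = 1) (e : A) (hes : star e = e) (hei : e * e = e) :
    n2 τ ((∑ i, lam i • p i) * e) = Real.sqrt (τ e).re := by
  unfold n2
  have hW : star (∑ i, lam i • p i) * (∑ i, lam i • p i) = 1 := by
    rw [star_sum]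
    have : ∑ i, star (lam i • p i) = ∑ i, (star (lam i)) • p i := by
      refine Finset.sum_congr rfl fun i _ => ?_
      rw [star_smul, hp.star_eq]
    rw [this, comb_sq hp, ← hp.sum]
    refine Finset.sum_congr rfl fun i _ => ?_
    have : star (lam i) * lam i = 1 := by
      rw [Complex.star_def, Complex.conj_mul', hlam]
      simp
    rw [this, one_smul]
  rw [star_mul, hes]
  have : e * star (∑ i, lam i • p i) * ((∑ i, lam i • p i) * e) =
      e * (star (∑ i, lam i • p i) * (∑ i, lam i • p i)) * e := by noncomm_ring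
  rw [this, hW, mul_one, hei]

/-- The single correction step. -/
theorem step (h : TrAlg τ) (hL : LyapProp τ) {ι γ : Type} [Fintype ι] [DecidableEq ι] [Fintype γ]
    [DecidableEq γ] (p : ι → A) (q : γ → A) (hp : PVM p) (hq : PVM q) (s : ℝ) (hs : 0 < s)
    (hqs : ∀ j, s ≤ (τ (q j)).re) (κ : ℝ) (hκ0 : 0 < κ) (hκ : κ ≤ 1 / 2) (η : ℝ)
    (hη : η * Fintype.card γ ≤ κ ^ 2 * s) (i0 m0 : ι) (hne : i0 ≠ m0)
    (herr : ∀ j, ‖τ (p i0 * q j) - τ (p i0) * τ (q j)‖ ≤ η) :
    ∃ p' : ι → A, PVM p' ∧ (∀ j, τ (p' i0 * q j) = τ (p' i0) * τ (q j)) ∧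
      (∃ θ : ℝ, 0 ≤ θ ∧ θ ≤ 1 ∧ ∀ i, i ≠ i0 → i ≠ m0 → ∀ j,
        τ (p' i * q j) = θ * τ (p i * q j)) ∧
      (∀ lam : ι → ℂ, (∀ i, ‖lam i‖ = 1) →
        n2 τ (∑ i, lam i • p i - ∑ i, lam i • p' i) ≤ 2 * Real.sqrt (2 * κ)) := by
  classical
  obtain ⟨e, hes, hei, hep, hepq, heG⟩ := exists_reserved h hL p q hp hq κ hκ0.le hκ
  set θ : ℝ := 2 * κ - κ ^ 2 with hθ
  have hθ0 : 0 ≤ θ := by nlinarith
  have hθ1 : θ ≤ 1 := by nlinarith
  have hθκ : θ ≤ 2 * κ := by nlinarith [sq_nonneg κ]
  have hτq : ∀ j, τ (q j) = ((τ (q j)).re : ℂ) := by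
    intro j
    have := h.eq_re (q j) (q j) (hq.star_eq j) (hq.star_eq j)
    rwa [hq.idem] at this
  have hτp : ∀ j, τ (p j) = ((τ (p j)).re : ℂ) := by
    intro j
    have := h.eq_re (p j) (p j) (hp.star_eq j) (hp.star_eq j)
    rwa [hp.idem] at this
  have hτpq : ∀ i j, τ (p i * q j) = ((τ (p i * q j)).re : ℂ) := fun i j =>
    h.eq_re _ _ (hp.star_eq i) (hq.star_eq j)
  have heq : ∀ j, τ (e * q j) = (θ : ℂ) * τ (q j) := by
    intro j
    have h1 : e * q j = ∑ i, e * (p i * q j) := by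
      rw [← Finset.mul_sum, ← Finset.sum_mul, hp.sum, one_mul]
    have h2 : q j = ∑ i, p i * q j := by
      rw [← Finset.sum_mul, hp.sum, one_mul]
    rw [h1, map_sum]
    conv_rhs => rw [h2, map_sum, Finset.mul_sum]
    refine Finset.sum_congr rfl fun i _ => ?_
    rw [hepq]
  have heτ : τ e = θ := by
    have h1 : e = ∑ j, e * q j := by rw [← Finset.mul_sum, hq.sum, mul_one]
    rw [h1, map_sum]
    have h2 : (1 : ℂ) = ∑ j, τ (q j) := by rw [← map_sum, hq.sum, h.one]
    calc ∑ j, τ (e * q j) = ∑ j, (θ : ℂ) * τ (q j) := Finset.sum_congr rfl fun j _ => heq j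
      _ = θ * ∑ j, τ (q j) := by rw [Finset.mul_sum]
      _ = θ := by rw [← h2, mul_one]
  -- linear system
  let G : (γ → ℝ) →ₗ[ℝ] (γ → ℝ) :=
    { toFun := fun c j => (τ (e * (∑ k, (c k : ℂ) • q k) * e * q j)).re
      map_add' := fun c d => by
        funext j
        simp only [Pi.add_apply, Complex.ofReal_add, add_smul, Finset.sum_add_distrib, mul_add,
          add_mul, map_add, Complex.add_re]
      map_smul' := fun r c => by
        funext j
        simp only [Pi.smul_apply, smul_eq_mul, Complex.ofReal_mul, mul_smul, ← Finset.smul_sum,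
          mul_smul_comm, smul_mul_assoc, map_smul, RingHom.id_apply]
        rw [Complex.re_ofReal_mul] }
  have hGpos : ∀ c : γ → ℝ, (2 * κ ^ 2 * s) * ∑ j, c j ^ 2 ≤ ∑ j, c j * G c j := by
    intro c
    have h1 : ∑ j, c j * G c j =
        (τ (e * (∑ j, (c j : ℂ) • q j) * e * (∑ j, (c j : ℂ) • q j))).re := by
      rw [Finset.mul_sum, map_sum, Complex.re_sum]
      refine Finset.sum_congr rfl fun j _ => ?_
      rw [mul_smul_comm, map_smul, smul_eq_mul, Complex.re_ofReal_mul]
      rfl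
    rw [h1]
    refine le_trans ?_ (heG c)
    rw [mul_assoc]
    refine mul_le_mul_of_nonneg_left ?_ (by positivity)
    rw [Finset.mul_sum]
    refine Finset.sum_le_sum fun j _ => ?_
    rw [mul_comm s]
    exact mul_le_mul_of_nonneg_left (hqs j) (sq_nonneg _)
  let ε : γ → ℝ := fun j => (1 - θ) * ((τ (p i0)).re * (τ (q j)).re - (τ (p i0 * q j)).re)
  have hε : ∀ j, |ε j| ≤ η := by
    intro j
    have h1 := herr j
    have h2 : τ (p i0 * q j) - τ (p i0) * τ (q j) =
        (((τ (p i0 * q j)).re - (τ (p i0)).re * (τ (q j)).re : ℝ) : ℂ) := by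
      rw [hτpq, hτp, hτq]
      push_cast
      simp
    rw [h2, Complex.norm_real, Real.norm_eq_abs] at h1
    show |(1 - θ) * _| ≤ η
    rw [abs_mul, abs_of_nonneg (by linarith : (0 : ℝ) ≤ 1 - θ), abs_sub_comm]
    have h0 := abs_nonneg ((τ (p i0 * q j)).re - (τ (p i0)).re * (τ (q j)).re)
    nlinarith
  obtain ⟨c, hc, hc2⟩ := solve_posdef G (2 * κ ^ 2 * s) (by positivity) hGpos η ε hε (by
    linarith)
  set b := ∑ j, (c j : ℂ) • q j with hb
  -- the positive element x
  let w : γ → ℝ := fun j => 1 / 2 + c j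
  let w' : γ → ℝ := fun j => 1 / 2 - c j
  have hw : ∀ j, 0 ≤ w j := fun j => by
    have := (abs_le.1 (hc2 j)).1
    show 0 ≤ 1 / 2 + c j
    linarith
  have hw' : ∀ j, 0 ≤ w' j := fun j => by
    have := (abs_le.1 (hc2 j)).2
    show 0 ≤ 1 / 2 - c j
    linarith
  have hsqw : ∀ v : γ → ℝ, (∀ j, 0 ≤ v j) → Pos (e * (∑ j, (v j : ℂ) • q j) * e) := by
    intro v hv
    have h1 : e * (∑ j, (v j : ℂ) • q j) * e =
        star ((∑ j, ((Real.sqrt (v j) : ℝ) : ℂ) • q j) * e) *
          ((∑ j, ((Real.sqrt (v j) : ℝ) : ℂ) • q j) * e) := by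
      rw [star_mul, comb_star hq, hes]
      have : e * (∑ j, ((Real.sqrt (v j) : ℝ) : ℂ) • q j) *
          ((∑ j, ((Real.sqrt (v j) : ℝ) : ℂ) • q j) * e) =
          e * ((∑ j, ((Real.sqrt (v j) : ℝ) : ℂ) • q j) *
          (∑ j, ((Real.sqrt (v j) : ℝ) : ℂ) • q j)) * e := by noncomm_ring
      rw [this, comb_sq hq]
      congr 2
      refine Finset.sum_congr rfl fun j _ => ?_
      rw [← Complex.ofReal_mul, Real.mul_self_sqrt (hv j)]
    rw [h1]
    exact pos_star_mul _
  set x := e * (∑ j, (w j : ℂ) • q j) * e with hx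
  have hxb : x = (2⁻¹ : ℂ) • e + e * b * e := by
    have h1 : ∑ j, (w j : ℂ) • q j = (2⁻¹ : ℂ) • (1 : A) + b := by
      rw [hb, ← hq.sum, Finset.smul_sum, ← Finset.sum_add_distrib]
      refine Finset.sum_congr rfl fun j _ => ?_
      rw [← add_smul]
      congr 1
      show ((1 / 2 + c j : ℝ) : ℂ) = _
      push_cast
      ring
    rw [hx, h1, mul_add, add_mul, mul_smul_comm, mul_one, smul_mul_assoc, hei]
  have hexb : e - x = e * (∑ j, (w' j : ℂ) • q j) * e := by
    have h1 : ∑ j, (w' j : ℂ) • q j = (2⁻¹ : ℂ) • (1 : A) - b := by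
      rw [hb, ← hq.sum, Finset.smul_sum, ← Finset.sum_sub_distrib]
      refine Finset.sum_congr rfl fun j _ => ?_
      rw [← sub_smul]
      congr 1
      show ((1 / 2 - c j : ℝ) : ℂ) = _
      push_cast
      ring
    rw [h1, hxb, mul_sub, sub_mul, mul_smul_comm, mul_one, smul_mul_assoc, hei]
    module
  have hxs : star x = x := by
    rw [hxb, star_add, star_smul, star_mul, star_mul, hes, hb, comb_star hq, mul_assoc]
    congr 2
    simp
  have hex : e * x = x := by
    rw [hx]
    have : e * (e * (∑ j, (w j : ℂ) • q j) * e) = (e * e) * (∑ j, (w j : ℂ) • q j) * e := by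
      noncomm_ring
    rw [this, hei]
  have hxe : x * e = x := by
    rw [hx]
    have : e * (∑ j, (w j : ℂ) • q j) * e * e = e * (∑ j, (w j : ℂ) • q j) * (e * e) := by
      noncomm_ring
    rw [this, hei]
  obtain ⟨D, hSD, hDc, hDL⟩ := hL {x, e} (by
    rintro y (rfl | rfl)
    · left; exact hxs
    · right; exact hes) (by
    rintro y (rfl | rfl) z (rfl | rfl)
    · rfl
    · rw [hex, hxe]
    · rw [hex, hxe]
    · rfl)
  have hxD : x ∈ D := hSD _ (Or.inl rfl)
  have heD : e ∈ D := hSD _ (Or.inr rfl)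
  have h1es : star (1 - e) = 1 - e := by rw [star_sub, star_one, hes]
  have h1ei : (1 - e) * (1 - e) = 1 - e := by
    rw [mul_sub, sub_mul, sub_mul, hei]; simp
  let Q3 : Fin 3 → A := ![x, e - x, 1 - e]
  obtain ⟨P, hPD, hP, hPy⟩ := hDL (Fin 3) (Option γ) Q3
    (fun z => match z with
      | none => 1 - e
      | some j => q j)
    (by
      intro i
      fin_cases i
      · exact hxD
      · exact D.sub_mem heD hxD
      · exact D.sub_mem D.one_mem heD)
    (by
      intro i
      fin_cases i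
      · exact hsqw w hw
      · show Pos (e - x)
        rw [hexb]
        exact hsqw w' hw'
      · have := pos_proj h1es h1ei 1 zero_le_one
        rw [Complex.ofReal_one, one_smul] at this
        exact this)
    (by
      rw [Fin.sum_univ_three]
      show x + (e - x) + (1 - e) = 1
      abel)
  set g := P 0 with hg
  have hgs : star g = g := hP.star_eq 0
  have hgi : g * g = g := hP.idem 0
  have hgq : ∀ j, τ (g * q j) = τ (x * q j) := fun j => hPy 0 (some j)
  have hg1e : τ (g * (1 - e)) = 0 := by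
    have := hPy 0 none
    have h2 : τ (g * (1 - e)) = τ (x * (1 - e)) := this
    rw [h2, mul_sub, mul_one, hxe, sub_self, map_zero]
  have hgD : g ∈ D := hPD 0
  have hgec : g * e = e * g := hDc _ hgD _ heD
  have hge0 : g * (1 - e) = 0 := by
    apply h.faithful
    have e1 : star (g * (1 - e)) * (g * (1 - e)) = g * (1 - e) := by
      rw [star_mul, h1es, hgs]
      have hc' : (1 - e) * g = g * (1 - e) := by rw [sub_mul, mul_sub, hgec]; simp
      calc (1 - e) * g * (g * (1 - e)) = (1 - e) * (g * g) * (1 - e) := by noncomm_ring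
        _ = ((1 - e) * g) * (1 - e) := by rw [hgi]
        _ = g * ((1 - e) * (1 - e)) := by rw [hc', mul_assoc]
        _ = g * (1 - e) := by rw [h1ei]
    rw [e1, hg1e]
  have hge : g * e = g := by
    rw [mul_sub, mul_one] at hge0
    exact (sub_eq_zero.1 hge0).symm
  have heg : e * g = g := by rw [← hgec, hge]
  -- moments of g
  have hgmom : ∀ j, τ (g * q j) = ((θ / 2 : ℝ) : ℂ) * τ (q j) + (ε j : ℂ) := by
    intro j
    have h1 : (τ (e * b * e * q j)) = (ε j : ℂ) := by
      have h2 : G c j = ε j := congrFun hc j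
      have h3 : (τ (e * b * e * q j)).re = ε j := h2
      have h4 : star (e * b * e) = e * b * e := by
        rw [star_mul, star_mul, hes, hb, comb_star hq, mul_assoc]
      rw [h.eq_re (e * b * e) (q j) h4 (hq.star_eq j), h3]
    rw [hgq, hxb, add_mul, map_add, smul_mul_assoc, map_smul, heq, h1, smul_eq_mul]
    push_cast
    ring
  -- the new PVM
  let r : ι → A := fun i => p i * (1 - e)
  have hrs : ∀ i, star (r i) = r i := by
    intro i
    show star (p i * (1 - e)) = p i * (1 - e)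
    rw [star_mul, h1es, hp.star_eq, sub_mul, mul_sub, hep]
    simp
  have hrr : ∀ i j, r i * r j = (p i * p j) * (1 - e) := by
    intro i j
    show p i * (1 - e) * (p j * (1 - e)) = _
    have : (1 - e) * p j = p j * (1 - e) := by
      rw [sub_mul, mul_sub, hep]; simp
    calc p i * (1 - e) * (p j * (1 - e)) = p i * ((1 - e) * p j) * (1 - e) := by noncomm_ring
      _ = p i * (p j * (1 - e)) * (1 - e) := by rw [this]
      _ = (p i * p j) * ((1 - e) * (1 - e)) := by noncomm_ring
      _ = _ := by rw [h1ei]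
  have hr_g : ∀ i, r i * g = 0 := by
    intro i
    show p i * (1 - e) * g = 0
    rw [mul_assoc, sub_mul, heg, one_mul, sub_self, mul_zero]
  have hr_e : ∀ i, r i * e = 0 := by
    intro i
    show p i * (1 - e) * e = 0
    rw [mul_assoc, sub_mul, hei, one_mul, sub_self, mul_zero]
  have hg_r : ∀ i, g * r i = 0 := by
    intro i
    have := congrArg star (hr_g i)
    rwa [star_mul, hgs, hrs, star_zero] at this
  have he_r : ∀ i, e * r i = 0 := by
    intro i
    have := congrArg star (hr_e i)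
    rwa [star_mul, hes, hrs, star_zero] at this
  let t : ι → A := fun i => (if i = i0 then g else 0) + (if i = m0 then e - g else 0)
  have hti0 : t i0 = g := by simp [t, hne]
  have htm0 : t m0 = e - g := by simp [t, Ne.symm hne]
  have htoth : ∀ i, i ≠ i0 → i ≠ m0 → t i = 0 := by
    intro i h1 h2; simp [t, h1, h2]
  have hcases : ∀ i, i = i0 ∨ i = m0 ∨ (i ≠ i0 ∧ i ≠ m0) := by
    intro i
    by_cases h1 : i = i0
    · exact Or.inl h1
    · by_cases h2 : i = m0
      · exact Or.inr (Or.inl h2)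
      · exact Or.inr (Or.inr ⟨h1, h2⟩)
  have hts : ∀ i, star (t i) = t i := by
    intro i
    rcases hcases i with rfl | rfl | ⟨h1, h2⟩
    · rw [hti0, hgs]
    · rw [htm0, star_sub, hgs, hes]
    · rw [htoth i h1 h2, star_zero]
  have hrt : ∀ i j, r i * t j = 0 := by
    intro i j
    rcases hcases j with rfl | rfl | ⟨h1, h2⟩
    · rw [hti0, hr_g]
    · rw [htm0, mul_sub, hr_e, hr_g, sub_zero]
    · rw [htoth j h1 h2, mul_zero]
  have htr : ∀ i j, t i * r j = 0 := by
    intro i j
    have := congrArg star (hrt j i)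
    rwa [star_mul, hts, hrs, star_zero] at this
  have htt : ∀ i j, t i * t j = if i = j then t i else 0 := by
    intro i j
    rcases hcases i with rfl | rfl | ⟨h1, h2⟩
    · rcases hcases j with rfl | rfl | ⟨h3, h4⟩
      · rw [if_pos rfl, hti0, hgi]
      · rw [if_neg hne, hti0, htm0, mul_sub, hge, hgi, sub_self]
      · rw [if_neg (Ne.symm h3), htoth j h3 h4, mul_zero]
    · rcases hcases j with rfl | rfl | ⟨h3, h4⟩
      · rw [if_neg (Ne.symm hne), hti0, htm0, sub_mul, heg, hgi, sub_self]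
      · rw [if_pos rfl, htm0, mul_sub, sub_mul, sub_mul, hei, heg, hge, hgi]; abel
      · rw [if_neg (Ne.symm h4), htoth j h3 h4, mul_zero]
    · rw [htoth i h1 h2, zero_mul]
      split_ifs <;> rfl
  have htsum : ∑ i, t i = e := by
    show ∑ i, ((if i = i0 then g else 0) + (if i = m0 then e - g else 0)) = e
    rw [Finset.sum_add_distrib]
    simp
  have hrsum : ∑ i, r i = 1 - e := by
    show ∑ i, p i * (1 - e) = 1 - e
    rw [← Finset.sum_mul, hp.sum, one_mul]
  have hτr : ∀ i j, τ (r i * q j) = (1 - θ : ℂ) * τ (p i * q j) := by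
    intro i j
    have h1 : r i * q j = p i * q j - e * (p i * q j) := by
      show p i * (1 - e) * q j = _
      have h2 : p i * (1 - e) = p i - e * p i := by rw [mul_sub, mul_one, hep]
      rw [h2, sub_mul, mul_assoc]
    rw [h1, map_sub, hepq]
    ring
  have hlamr : ∀ lam : ι → ℂ, ∑ i, lam i • r i = (∑ i, lam i • p i) * (1 - e) := by
    intro lam
    rw [Finset.sum_mul]
    refine Finset.sum_congr rfl fun i _ => ?_
    rw [smul_mul_assoc]
  have hlamt : ∀ lam : ι → ℂ, ∑ i, lam i • t i = lam i0 • g + lam m0 • (e - g) := by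
    intro lam
    show ∑ i, lam i • ((if i = i0 then g else 0) + (if i = m0 then e - g else 0)) = _
    simp only [smul_add, Finset.sum_add_distrib, smul_ite, smul_zero, Finset.sum_ite_eq',
      Finset.mem_univ, if_true]
  have hri : ∀ i, p i * (1 - e) = r i := fun i => rfl
  clear_value t r
  refine ⟨fun i => r i + t i, ⟨?_, ?_, ?_, ?_⟩, ?_, ⟨1 - θ, by linarith, by linarith, ?_⟩, ?_⟩
  · intro i
    rw [star_add, hrs, hts]
  · intro i
    rw [add_mul, mul_add, mul_add, hrt, htr, hrr, hp.idem, htt, if_pos rfl, hri]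
    simp
  · intro i j hij
    rw [add_mul, mul_add, mul_add, hrt, htr, hrr, hp.orth i j hij, htt, if_neg hij]
    simp
  · rw [Finset.sum_add_distrib, htsum, hrsum]; abel
  · -- exact independence at i0
    have hmain : ∀ j, τ ((r i0 + t i0) * q j) =
        (((1 - θ) * (τ (p i0)).re + θ / 2 : ℝ) : ℂ) * τ (q j) := by
      intro j
      rw [add_mul, map_add, hτr, hti0, hgmom]
      show _ = _
      have h1 : (ε j : ℂ) = (1 - θ : ℂ) * (((τ (p i0)).re : ℂ) * ((τ (q j)).re : ℂ) -
          ((τ (p i0 * q j)).re : ℂ)) := by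
        show (((1 - θ) * ((τ (p i0)).re * (τ (q j)).re - (τ (p i0 * q j)).re) : ℝ) : ℂ) = _
        push_cast
        ring
      rw [h1, ← hτq j, ← hτpq i0 j]
      push_cast
      ring
    have hsum : τ (r i0 + t i0) = (((1 - θ) * (τ (p i0)).re + θ / 2 : ℝ) : ℂ) := by
      have h1 : r i0 + t i0 = ∑ j, (r i0 + t i0) * q j := by
        rw [← Finset.mul_sum, hq.sum, mul_one]
      rw [h1, map_sum]
      have h2 : (1 : ℂ) = ∑ j, τ (q j) := by rw [← map_sum, hq.sum, h.one]
      calc ∑ j, τ ((r i0 + t i0) * q j) =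
          ∑ j, (((1 - θ) * (τ (p i0)).re + θ / 2 : ℝ) : ℂ) * τ (q j) :=
            Finset.sum_congr rfl fun j _ => hmain j
        _ = (((1 - θ) * (τ (p i0)).re + θ / 2 : ℝ) : ℂ) * ∑ j, τ (q j) := by rw [Finset.mul_sum]
        _ = _ := by rw [← h2, mul_one]
    intro j
    rw [hmain, hsum]
  · intro i h1 h2 j
    show τ ((r i + t i) * q j) = _
    rw [htoth i h1 h2, add_zero, hτr]
    push_cast
    rfl
  · intro lam hlam
    have hdiff : ∑ i, lam i • p i - ∑ i, lam i • (r i + t i) =
        (∑ i, lam i • p i) * e - (lam i0 • g + lam m0 • (e - g)) := by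
      have h1 := hlamr lam
      have h2 := hlamt lam
      have h3 : ∑ i, lam i • (r i + t i) = ∑ i, lam i • r i + ∑ i, lam i • t i := by
        rw [← Finset.sum_add_distrib]
        refine Finset.sum_congr rfl fun i _ => ?_
        rw [smul_add]
      rw [h3, h1, h2, mul_sub, mul_one]
      abel
    rw [hdiff]
    refine (h.n2_sub_le _ _).trans ?_
    rw [n2_comb_mul h hp lam hlam e hes hei, heτ]
    have h4 : n2 τ (lam i0 • g + lam m0 • (e - g)) = Real.sqrt θ := by
      unfold n2
      have h5 : star (lam i0 • g + lam m0 • (e - g)) * (lam i0 • g + lam m0 • (e - g)) = e := by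
        have hn : ∀ i, star (lam i) * lam i = 1 := by
          intro i
          rw [Complex.star_def, Complex.conj_mul', hlam]
          simp
        have hgeg : g * (e - g) = 0 := by rw [mul_sub, hge, hgi, sub_self]
        have hegg : (e - g) * g = 0 := by rw [sub_mul, heg, hgi, sub_self]
        have hegeg : (e - g) * (e - g) = e - g := by
          rw [mul_sub, sub_mul, sub_mul, hei, heg, hge, hgi]; abel
        rw [star_add, star_smul, star_smul, star_sub, hgs, hes, add_mul, mul_add, mul_add,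
          smul_mul_smul_comm, smul_mul_smul_comm, smul_mul_smul_comm, smul_mul_smul_comm, hn, hn,
          hgi, hgeg, hegg, hegeg]
        simp
      rw [h5, heτ, Complex.ofReal_re]
    rw [h4, Complex.ofReal_re]
    have h6 : Real.sqrt θ ≤ Real.sqrt (2 * κ) := Real.sqrt_le_sqrt hθκ
    linarith

end Pool.Agent.Helper278
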