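import Mathlib
import Pool.Agent.KS6_19.UP.L.Helper278.Step

set_option autoImplicit false
set_option linter.unusedSectionVars false

open scoped ComplexOrder

namespace Pool.Agent.Helper278

variable {A : Type*} [Ring A] [StarRing A] [Algebra ℂ A] [StarModule ℂ A] {τ : A →ₗ[ℂ] ℂ}

theorem exact_indep (h : TrAlg τ) (hL : LyapProp τ) {ι γ : Type} [Fintype ι] [DecidableEq ι]
    [Fintype γ] [DecidableEq γ] (p : ι → A) (q : γ → A) (hp : PVM p) (hq : PVM q) (s : ℝ)
    (hs : 0 < s) (hqs : ∀ j, s ≤ (τ (q j)).re) (κ : ℝ) (hκ0 : 0 < κ) (hκ : κ ≤ 1 / 2) (η : ℝ)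
    (hη : η * Fintype.card γ ≤ κ ^ 2 * s) (m0 : ι)
    (herr : ∀ i j, ‖τ (p i * q j) - τ (p i) * τ (q j)‖ ≤ η) :
    ∃ p' : ι → A, PVM p' ∧ (∀ i j, τ (p' i * q j) = τ (p' i) * τ (q j)) ∧
      (∀ lam : ι → ℂ, (∀ i, ‖lam i‖ = 1) →
        n2 τ (∑ i, lam i • p i - ∑ i, lam i • p' i) ≤ Fintype.card ι * (2 * Real.sqrt (2 * κ))) := by
  classical
  have hsum1 : (1 : ℂ) = ∑ j, τ (q j) := by rw [← map_sum, hq.sum, h.one]
  have hpsum : ∀ P : ι → A, ∀ i, τ (P i) = ∑ j, τ (P i * q j) := by
    intro P i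
    rw [← map_sum, ← Finset.mul_sum, hq.sum, mul_one]
  -- induction over the set of corrected indices
  have key : ∀ S : Finset ι, m0 ∉ S → ∃ p' : ι → A, PVM p' ∧
      (∀ i ∈ S, ∀ j, τ (p' i * q j) = τ (p' i) * τ (q j)) ∧
      (∀ i, i ≠ m0 → ∀ j, ‖τ (p' i * q j) - τ (p' i) * τ (q j)‖ ≤ η) ∧
      (∀ lam : ι → ℂ, (∀ i, ‖lam i‖ = 1) →
        n2 τ (∑ i, lam i • p i - ∑ i, lam i • p' i) ≤ S.card * (2 * Real.sqrt (2 * κ))) := by
    intro S
    induction S using Finset.induction_on with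
    | empty =>
      intro _
      refine ⟨p, hp, by simp, fun i _ j => herr i j, ?_⟩
      intro lam _
      rw [sub_self, h.n2_zero]
      simp
    | insert a S haS ih =>
      intro hm
      have hm1 : m0 ∉ S := fun hh => hm (Finset.mem_insert_of_mem hh)
      have ham : a ≠ m0 := fun hh => hm (hh ▸ Finset.mem_insert_self a S)
      obtain ⟨P, hP, hP1, hP2, hP3⟩ := ih hm1
      obtain ⟨P', hP', hP'1, ⟨θ, hθ0, hθ1, hP'2⟩, hP'3⟩ :=
        step h hL P q hP hq s hs hqs κ hκ0 hκ η hη a m0 ham (hP2 a ham)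
      have hscale : ∀ i, i ≠ a → i ≠ m0 → τ (P' i) = θ * τ (P i) := by
        intro i h1 h2
        rw [hpsum P' i, hpsum P i, Finset.mul_sum]
        exact Finset.sum_congr rfl fun j _ => hP'2 i h1 h2 j
      refine ⟨P', hP', ?_, ?_, ?_⟩
      · intro i hi j
        rcases Finset.mem_insert.1 hi with rfl | hi
        · exact hP'1 j
        · have h1 : i ≠ a := fun hh => haS (hh ▸ hi)
          have h2 : i ≠ m0 := fun hh => hm1 (hh ▸ hi)
          rw [hP'2 i h1 h2, hscale i h1 h2, hP1 i hi]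
          ring
      · intro i hi j
        by_cases h1 : i = a
        · subst h1
          rw [hP'1 j, sub_self, norm_zero]
          exact le_trans (norm_nonneg _) (herr i j)
        · rw [hP'2 i h1 hi, hscale i h1 hi]
          have : (θ : ℂ) * τ (P i * q j) - θ * τ (P i) * τ (q j) =
            θ * (τ (P i * q j) - τ (P i) * τ (q j)) := by ring
          rw [this, norm_mul, Complex.norm_real, Real.norm_of_nonneg hθ0]
          have := hP2 i hi j
          nlinarith [norm_nonneg (τ (P i * q j) - τ (P i) * τ (q j))]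
      · intro lam hlam
        have h1 := hP3 lam hlam
        have h2 := hP'3 lam hlam
        rw [Finset.card_insert_of_notMem haS]
        push_cast
        calc n2 τ (∑ i, lam i • p i - ∑ i, lam i • P' i) ≤
            n2 τ (∑ i, lam i • p i - ∑ i, lam i • P i) +
              n2 τ (∑ i, lam i • P i - ∑ i, lam i • P' i) := h.n2_tri _ _ _
          _ ≤ S.card * (2 * Real.sqrt (2 * κ)) + 2 * Real.sqrt (2 * κ) := add_le_add h1 h2
          _ = _ := by ring
  obtain ⟨P, hP, hP1, _, hP3⟩ := key (Finset.univ.erase m0) (Finset.notMem_erase m0 _)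
  refine ⟨P, hP, ?_, ?_⟩
  · intro i j
    by_cases hi : i = m0
    · subst hi
      have h1 : P i = 1 - ∑ k ∈ Finset.univ.erase i, P k := by
        rw [← hP.sum, ← Finset.add_sum_erase Finset.univ P (Finset.mem_univ i)]
        abel
      rw [h1, sub_mul, one_mul, map_sub, map_sub, Finset.sum_mul, map_sum, map_sum, h.one]
      have h2 : ∀ k ∈ Finset.univ.erase i, τ (P k * q j) = τ (P k) * τ (q j) :=
        fun k hk => hP1 k hk j
      rw [Finset.sum_congr rfl h2, ← Finset.sum_mul]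
      ring
    · exact hP1 i (Finset.mem_erase.2 ⟨hi, Finset.mem_univ i⟩) j
  · intro lam hlam
    refine (hP3 lam hlam).trans ?_
    refine mul_le_mul_of_nonneg_right ?_ (by positivity)
    exact_mod_cast Finset.card_le_univ _

end Pool.Agent.Helper278
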