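import Mathlib
import Pool.Agent.KS6_19.UP.L.Helper278.Exact

set_option autoImplicit false
set_option linter.unusedSectionVars false

open scoped ComplexOrder

namespace Pool.Agent.Helper278

variable {A : Type*} [Ring A] [StarRing A] [Algebra ℂ A] [StarModule ℂ A] {τ : A →ₗ[ℂ] ℂ}

/-- the root of unity -/
noncomputable def om (m : ℕ) : ℂ := Complex.exp (2 * Real.pi * Complex.I / m)

theorem om_norm (m : ℕ) : ‖om m‖ = 1 := by
  unfold om
  have : (2 * (Real.pi : ℂ) * Complex.I / m) = ((2 * Real.pi / m : ℝ) : ℂ) * Complex.I := by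
    push_cast; ring
  rw [this]
  exact Complex.norm_exp_ofReal_mul_I _

theorem om_pow_norm (m i : ℕ) : ‖om m ^ i‖ = 1 := by rw [norm_pow, om_norm, one_pow]

theorem om_mul_conj (m i : ℕ) : om m ^ i * star (om m ^ i) = 1 := by
  rw [Complex.star_def, Complex.mul_conj', om_pow_norm]; simp

theorem om_conj_mul (m i : ℕ) : star (om m ^ i) * om m ^ i = 1 := by
  rw [mul_comm, om_mul_conj]

theorem om_sum (m : ℕ) (hm : 0 < m) (k l : ℕ) (hk : k < m) (hl : l < m) :
    ∑ i : Fin m, (om m ^ (i : ℕ)) ^ k * (star (om m ^ (i : ℕ))) ^ l = if k = l then (m : ℂ) else 0 := by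
  have hprim : IsPrimitiveRoot (om m) m := Complex.isPrimitiveRoot_exp m hm.ne'
  have h1 : ∀ i : ℕ, (om m ^ i) ^ k * (star (om m ^ i)) ^ l = (om m ^ k * star (om m) ^ l) ^ i := by
    intro i
    rw [star_pow]
    rw [← pow_mul, ← pow_mul, mul_pow, ← pow_mul, ← pow_mul, mul_comm i k, mul_comm i l]
  have hc : om m * star (om m) = 1 := by simpa using om_mul_conj m 1
  rw [Fin.sum_univ_eq_sum_range (fun i => (om m ^ i) ^ k * (star (om m ^ i)) ^ l) m]
  simp_rw [h1]
  by_cases hkl : k = l
  · subst hkl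
    rw [if_pos rfl, ← mul_pow, hc]
    simp
  · rw [if_neg hkl]
    have hz1 : om m ^ k * star (om m) ^ l ≠ 1 := by
      intro hh
      apply hkl
      apply hprim.pow_inj hk hl
      calc om m ^ k = om m ^ k * (om m * star (om m)) ^ l := by rw [hc]; simp
        _ = (om m ^ k * star (om m) ^ l) * om m ^ l := by rw [mul_pow]; ring
        _ = om m ^ l := by rw [hh, one_mul]
    have hzm : (om m ^ k * star (om m) ^ l) ^ m = 1 := by
      rw [mul_pow, ← pow_mul, ← pow_mul, mul_comm k m, mul_comm l m, pow_mul, pow_mul,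
        hprim.pow_eq_one, ← star_pow, hprim.pow_eq_one]
      simp
    have h2 := mul_geom_sum (om m ^ k * star (om m) ^ l) m
    rw [hzm, sub_self] at h2
    rcases mul_eq_zero.1 h2 with h3 | h3
    · exact absurd (sub_eq_zero.1 h3) hz1
    · exact h3

/-- the partial geometric sum -/
noncomputable def gsum (a : A) (K m : ℕ) (i : Fin m) : A :=
  ∑ k ∈ Finset.range K, (star (om m ^ (i : ℕ)) • a) ^ k

/-- the Fejer kernel evaluated at `a` -/
noncomputable def fej (a : A) (K m : ℕ) (i : Fin m) : A :=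
  ((m * K : ℝ)⁻¹ : ℂ) • (star (gsum a K m i) * gsum a K m i)

theorem fej_expand (a : A) (K m : ℕ) (i : Fin m) :
    star (gsum a K m i) * gsum a K m i = ∑ k ∈ Finset.range K, ∑ l ∈ Finset.range K,
      ((om m ^ (i : ℕ)) ^ k * (star (om m ^ (i : ℕ))) ^ l) • (star a ^ k * a ^ l) := by
  unfold gsum
  rw [star_sum, Finset.sum_mul]
  refine Finset.sum_congr rfl fun k _ => ?_
  rw [Finset.mul_sum]
  refine Finset.sum_congr rfl fun l _ => ?_
  rw [star_pow, star_smul, star_star, smul_pow, smul_pow, smul_mul_smul_comm]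

theorem fej_sum (a : A) (ha : star a * a = 1) (K m : ℕ) (hK : 0 < K) (hm : K ≤ m) :
    ∑ i : Fin m, fej a K m i = 1 := by
  have hm0 : 0 < m := lt_of_lt_of_le hK hm
  unfold fej
  rw [← Finset.smul_sum]
  simp_rw [fej_expand]
  rw [Finset.sum_comm]
  have h1 : ∀ k ∈ Finset.range K, ∑ i : Fin m, ∑ l ∈ Finset.range K,
      ((om m ^ (i : ℕ)) ^ k * (star (om m ^ (i : ℕ))) ^ l) • (star a ^ k * a ^ l) = (m : ℂ) • (1 : A) := by
    intro k hk
    rw [Finset.sum_comm]
    have h2 : ∀ l ∈ Finset.range K, ∑ i : Fin m,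
        ((om m ^ (i : ℕ)) ^ k * (star (om m ^ (i : ℕ))) ^ l) • (star a ^ k * a ^ l) =
        if k = l then (m : ℂ) • (1 : A) else 0 := by
      intro l hl
      rw [← Finset.sum_smul, om_sum m hm0 k l (lt_of_lt_of_le (Finset.mem_range.1 hk) hm)
        (lt_of_lt_of_le (Finset.mem_range.1 hl) hm)]
      split_ifs with hkl
      · subst hkl
        congr 1
        clear hk hl
        induction k with
        | zero => simp
        | succ n ih =>
          rw [pow_succ, pow_succ']
          calc star a ^ n * star a * (a * a ^ n) = star a ^ n * (star a * a) * a ^ n := by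
                noncomm_ring
            _ = 1 := by rw [ha, mul_one, ih]
      · rw [zero_smul]
    rw [Finset.sum_congr rfl h2, Finset.sum_ite_eq, if_pos hk]
  rw [Finset.sum_congr rfl h1, Finset.sum_const, Finset.card_range]
  have hne : ((m : ℂ) * K) ≠ 0 := by
    have h3 : (m : ℂ) ≠ 0 := by exact_mod_cast hm0.ne'
    have h4 : (K : ℂ) ≠ 0 := by exact_mod_cast hK.ne'
    exact mul_ne_zero h3 h4
  rw [← Nat.cast_smul_eq_nsmul ℂ, smul_smul, smul_smul]
  have : (((m * K : ℝ)⁻¹ : ℂ) * ((K : ℂ) * (m : ℂ))) = 1 := by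
    push_cast
    rw [mul_comm (K : ℂ)]
    exact inv_mul_cancel₀ hne
  push_cast at this ⊢
  rw [mul_assoc, this, one_smul]

theorem pos_smul {x : A} (hx : Pos x) (r : ℝ) (hr : 0 ≤ r) : Pos ((r : ℂ) • x) := by
  unfold Pos at *
  induction hx using AddSubmonoid.closure_induction with
  | mem x hx =>
    obtain ⟨c, rfl⟩ := hx
    refine AddSubmonoid.subset_closure ⟨((Real.sqrt r : ℝ) : ℂ) • c, ?_⟩
    show star (((Real.sqrt r : ℝ) : ℂ) • c) * (((Real.sqrt r : ℝ) : ℂ) • c) = (r : ℂ) • (star c * c)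
    rw [star_smul, smul_mul_smul_comm, Complex.star_def, Complex.conj_ofReal,
      ← Complex.ofReal_mul, Real.mul_self_sqrt hr]
  | zero => rw [smul_zero]; exact AddSubmonoid.zero_mem _
  | add x y _ _ ihx ihy => rw [smul_add]; exact AddSubmonoid.add_mem _ ihx ihy

/-- the mixed Fejer measure -/
noncomputable def mfej (a : A) (K m : ℕ) (s : ℝ) (i : Fin m) : A :=
  ((1 - s : ℝ) : ℂ) • fej a K m i + ((s / m : ℝ) : ℂ) • (1 : A)

theorem pos_fej (a : A) (K m : ℕ) (i : Fin m) : Pos (fej a K m i) := by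
  unfold fej
  have := pos_smul (pos_star_mul (gsum a K m i)) ((m * K : ℝ)⁻¹) (by positivity)
  push_cast at this ⊢
  exact this

theorem pos_mfej (a : A) (K m : ℕ) (s : ℝ) (hs0 : 0 ≤ s) (hs1 : s ≤ 1) (i : Fin m) :
    Pos (mfej a K m s i) := by
  refine pos_add (pos_smul (pos_fej a K m i) (1 - s) (by linarith)) (pos_smul ?_ (s / m) ?_)
  · have := pos_star_mul (1 : A)
    simpa using this
  · positivity

theorem mfej_sum (a : A) (ha : star a * a = 1) (K m : ℕ) (hK : 0 < K) (hm : K ≤ m) (s : ℝ) :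
    ∑ i : Fin m, mfej a K m s i = 1 := by
  unfold mfej
  have hm0 : (m : ℂ) ≠ 0 := by exact_mod_cast (lt_of_lt_of_le hK hm).ne'
  rw [Finset.sum_add_distrib, ← Finset.smul_sum, fej_sum a ha K m hK hm, Finset.sum_const,
    Finset.card_univ, Fintype.card_fin, ← Nat.cast_smul_eq_nsmul ℂ, smul_smul, ← add_smul]
  have : (((1 - s : ℝ) : ℂ) + (m : ℂ) * ((s / m : ℝ) : ℂ)) = 1 := by
    push_cast
    field_simp
    ring
  rw [this, one_smul]

/-- Closeness of a PVM built from the Fejer kernel. -/
theorem fej_close (h : TrAlg τ) (a : A) (ha1 : star a * a = 1) (ha2 : a * star a = 1)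
    (K m : ℕ) (hK : 0 < K) (hm : K ≤ m) (s : ℝ) (hs0 : 0 ≤ s) (hs1 : s ≤ 1)
    (p : Fin m → A) (hp : PVM p)
    (hpy : ∀ i, τ (p i * (star (a - om m ^ (i : ℕ) • (1 : A)) * (a - om m ^ (i : ℕ) • (1 : A)))) =
      τ (mfej a K m s i * (star (a - om m ^ (i : ℕ) • (1 : A)) * (a - om m ^ (i : ℕ) • (1 : A))))) :
    n2 τ (a - ∑ i : Fin m, om m ^ (i : ℕ) • p i) ^ 2 ≤ 4 / K + 4 * s := by
  have hm0 : 0 < m := lt_of_lt_of_le hK hm
  have hKR : (0 : ℝ) < K := by exact_mod_cast hK
  have hmR : (0 : ℝ) < m := by exact_mod_cast hm0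
  set d : Fin m → A := fun i => a - om m ^ (i : ℕ) • (1 : A) with hd
  -- unitaries have 2-norm one
  have hn2u : ∀ u : A, star u * u = 1 → n2 τ u = 1 := by
    intro u hu
    unfold n2
    rw [hu, h.one]; simp
  have hn2le : ∀ u v : A, star u * u = 1 → star v * v = 1 →
      (τ (star (u - v) * (u - v))).re ≤ 4 := by
    intro u v hu hv
    rw [← h.n2_sq]
    have h1 := h.n2_sub_le u v
    rw [hn2u u hu, hn2u v hv] at h1
    have h2 := n2_nonneg τ (u - v)
    nlinarith
  have hsumd : a - ∑ i : Fin m, om m ^ (i : ℕ) • p i = ∑ i, d i * p i := by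
    have h1 : a = ∑ i, a * p i := by rw [← Finset.mul_sum, hp.sum, mul_one]
    conv_lhs => rw [h1]
    rw [← Finset.sum_sub_distrib]
    refine Finset.sum_congr rfl fun i _ => ?_
    rw [hd, sub_mul, smul_mul_assoc, one_mul]
  have hmain : τ (star (∑ i, d i * p i) * ∑ i, d i * p i) = ∑ i, τ (p i * (star (d i) * d i)) := by
    rw [star_sum, Finset.sum_mul, map_sum]
    refine Finset.sum_congr rfl fun i _ => ?_
    rw [Finset.mul_sum, map_sum, Finset.sum_eq_single i]
    · rw [star_mul, hp.star_eq]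
      have : p i * star (d i) * (d i * p i) = (p i * star (d i) * d i) * p i := by noncomm_ring
      rw [this, h.comm]
      have : p i * (p i * star (d i) * d i) = (p i * p i) * (star (d i) * d i) := by noncomm_ring
      rw [this, hp.idem]
    · intro j _ hj
      rw [star_mul, hp.star_eq]
      have : p i * star (d i) * (d j * p j) = (p i * star (d i) * d j) * p j := by noncomm_ring
      rw [this, h.comm]
      have : p j * (p i * star (d i) * d j) = (p j * p i) * (star (d i) * d j) := by noncomm_ring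
      rw [this, hp.orth j i hj, zero_mul, map_zero]
    · intro hi; exact absurd (Finset.mem_univ i) hi
  have hω : ∀ i : Fin m, star (om m ^ (i : ℕ) • (1 : A)) * (om m ^ (i : ℕ) • (1 : A)) = 1 := by
    intro i
    rw [star_smul, smul_mul_smul_comm, om_conj_mul, star_one, one_mul, one_smul]
  -- the scaled unitary
  have hterm : ∀ i : Fin m, (τ (fej a K m i * (star (d i) * d i))).re ≤ 4 / (m * K) := by
    intro i
    set c := star (om m ^ (i : ℕ)) with hc
    set t := c • a with ht
    have hcc : star c * c = 1 := by rw [hc, star_star, om_mul_conj]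
    have hcc' : c * star c = 1 := by rw [mul_comm, hcc]
    have ht1 : star t * t = 1 := by
      rw [ht, star_smul, smul_mul_smul_comm, hcc, ha1, one_smul]
    have ht2 : t * star t = 1 := by
      rw [ht, star_smul, smul_mul_smul_comm, hcc', ha2, one_smul]
    have hS : gsum a K m i = ∑ k ∈ Finset.range K, t ^ k := rfl
    have hdt : d i = (om m ^ (i : ℕ)) • (t - 1) := by
      rw [hd, ht, smul_sub, smul_smul, hc, om_mul_conj, one_smul]
    have hgeom : gsum a K m i * (t - 1) = t ^ K - 1 := by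
      rw [hS]; exact geom_sum_mul t K
    have hstart : Commute t (star t) := by rw [Commute, SemiconjBy, ht1, ht2]
    have hcomm1 : gsum a K m i * star (t - 1) = star (t - 1) * gsum a K m i := by
      rw [hS, star_sub, star_one]
      have h1 : Commute (∑ k ∈ Finset.range K, t ^ k) (star t) :=
        Commute.sum_left _ _ _ (fun k _ => hstart.pow_left k)
      rw [mul_sub, sub_mul, h1.eq]; simp
    have hprod : fej a K m i * (star (d i) * d i) =
        ((m * K : ℝ)⁻¹ : ℂ) • (star (t ^ K - 1) * (t ^ K - 1)) := by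
      unfold fej
      rw [smul_mul_assoc]
      congr 1
      rw [hdt, star_smul, smul_mul_smul_comm, om_conj_mul, one_smul]
      calc star (gsum a K m i) * gsum a K m i * (star (t - 1) * (t - 1)) =
          star (gsum a K m i) * (gsum a K m i * star (t - 1)) * (t - 1) := by noncomm_ring
        _ = (star (gsum a K m i) * star (t - 1)) * (gsum a K m i * (t - 1)) := by
            rw [hcomm1]; noncomm_ring
        _ = star ((t - 1) * gsum a K m i) * (gsum a K m i * (t - 1)) := by rw [star_mul]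
        _ = star (t ^ K - 1) * (t ^ K - 1) := by
            have h2 : (t - 1) * gsum a K m i = t ^ K - 1 := by rw [hS]; exact mul_geom_sum t K
            rw [h2, hgeom]
    have htK : star (t ^ K) * t ^ K = 1 := by
      rw [star_pow, ← hstart.symm.mul_pow, ht1, one_pow]
    rw [hprod, map_smul, smul_eq_mul]
    have h3 : (((m * K : ℝ)⁻¹ : ℂ) * τ (star (t ^ K - 1) * (t ^ K - 1))).re =
        (m * K : ℝ)⁻¹ * (τ (star (t ^ K - 1) * (t ^ K - 1))).re := by
      have : (((m * K : ℝ)⁻¹ : ℂ)) = (((m * K : ℝ)⁻¹ : ℝ) : ℂ) := by push_cast; rfl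
      rw [this, Complex.re_ofReal_mul]
    rw [h3]
    have h4 := hn2le (t ^ K) 1 htK (by simp)
    rw [div_eq_inv_mul]
    exact mul_le_mul_of_nonneg_left h4 (by positivity)
  have hterm2 : ∀ i : Fin m, (τ (star (d i) * d i)).re ≤ 4 := fun i => hn2le a _ ha1 (hω i)
  rw [h.n2_sq, hsumd, hmain, Complex.re_sum]
  have hfin : ∀ i : Fin m, (τ (p i * (star (d i) * d i))).re ≤ 4 / (m * K) + 4 * s / m := by
    intro i
    rw [hpy i]
    unfold mfej
    rw [add_mul, smul_mul_assoc, smul_mul_assoc, one_mul, map_add, map_smul, map_smul,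
      Complex.add_re, smul_eq_mul, smul_eq_mul, Complex.re_ofReal_mul, Complex.re_ofReal_mul]
    have h5 := hterm i
    have h6 := hterm2 i
    have h7 : 0 ≤ s / m := by positivity
    have h8 : 0 ≤ 4 / (m * K : ℝ) := by positivity
    have h9 : (1 - s) * (τ (fej a K m i * (star (d i) * d i))).re ≤ 4 / (m * K) := by
      calc (1 - s) * (τ (fej a K m i * (star (d i) * d i))).re ≤ (1 - s) * (4 / (m * K)) :=
            mul_le_mul_of_nonneg_left h5 (by linarith)
        _ ≤ 1 * (4 / (m * K)) := mul_le_mul_of_nonneg_right (by linarith) h8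
        _ = 4 / (m * K) := one_mul _
    have h10 : s / m * (τ (star (d i) * d i)).re ≤ 4 * s / m := by
      calc s / m * (τ (star (d i) * d i)).re ≤ s / m * 4 := mul_le_mul_of_nonneg_left h6 h7
        _ = 4 * s / m := by ring
    exact add_le_add h9 h10
  calc ∑ i, (τ (p i * (star (d i) * d i))).re ≤ ∑ _i : Fin m, (4 / (m * K) + 4 * s / m) :=
        Finset.sum_le_sum fun i _ => hfin i
    _ = 4 / K + 4 * s := by
        rw [Finset.sum_const, Finset.card_univ, Fintype.card_fin, nsmul_eq_mul]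
        field_simp

end Pool.Agent.Helper278
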