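import Mathlib
import Pool.Agent.KS6_19.UP.L.Helper278.Fejer

set_option autoImplicit false
set_option linter.unusedSectionVars false

open scoped ComplexOrder

namespace Pool.Agent.Helper278

variable {A : Type*} [Ring A] [StarRing A] [Algebra ℂ A] [StarModule ℂ A] {τ : A →ₗ[ℂ] ℂ}

/-- the defect of independence, as a bilinear expression -/
noncomputable def dfc (τ : A →ₗ[ℂ] ℂ) (x y : A) : ℂ := τ (x * y) - τ x * τ y

theorem dfc_smul_left (c : ℂ) (x y : A) : dfc τ (c • x) y = c * dfc τ x y := by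
  unfold dfc; rw [smul_mul_assoc, map_smul, map_smul]; simp only [smul_eq_mul]; ring

theorem dfc_smul_right (c : ℂ) (x y : A) : dfc τ x (c • y) = c * dfc τ x y := by
  unfold dfc; rw [mul_smul_comm, map_smul, map_smul]; simp only [smul_eq_mul]; ring

theorem dfc_sum_left {ι : Type*} (s : Finset ι) (f : ι → A) (y : A) :
    dfc τ (∑ i ∈ s, f i) y = ∑ i ∈ s, dfc τ (f i) y := by
  unfold dfc
  rw [Finset.sum_mul, map_sum, map_sum, Finset.sum_mul, Finset.sum_sub_distrib]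

theorem dfc_sum_right {ι : Type*} (s : Finset ι) (f : ι → A) (x : A) :
    dfc τ x (∑ i ∈ s, f i) = ∑ i ∈ s, dfc τ x (f i) := by
  unfold dfc
  rw [Finset.mul_sum, map_sum, map_sum, Finset.mul_sum, Finset.sum_sub_distrib]

theorem zpow_eq (a : unitary A) (k l : ℕ) :
    star (a : A) ^ k * (a : A) ^ l = (((a ^ ((l : ℤ) - k) : unitary A)) : A) := by
  have h1 : (a ^ ((l : ℤ) - k) : unitary A) = (star a) ^ k * a ^ l := by
    have : (star a : unitary A) = a⁻¹ := rfl
    rw [this, sub_eq_add_neg, zpow_add, zpow_neg, zpow_natCast, zpow_natCast, inv_pow]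
    exact ((Commute.refl a).pow_pow l k).inv_right.eq
  rw [h1]
  simp

theorem fej_err (a b : unitary A) (K m : ℕ) (hK : 0 < K) (hm : K ≤ m) (η : ℝ)
    (hη : ∀ k l : ℤ, |k| < K → |l| < K →
      ‖dfc τ ((a ^ k : unitary A) : A) ((b ^ l : unitary A) : A)‖ ≤ η) (i j : Fin m) :
    ‖dfc τ (fej (a : A) K m i) (fej (b : A) K m j)‖ ≤ η := by
  have hη0 : 0 ≤ η := le_trans (norm_nonneg _) (hη 0 0 (by simpa using hK) (by simpa using hK))
  have hKR : (0 : ℝ) < K := by exact_mod_cast hK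
  have hmR : (0 : ℝ) < m := lt_of_lt_of_le hKR (by exact_mod_cast hm)
  have hcon : ∀ i : ℕ, ‖star (om m ^ i)‖ = 1 := by
    intro i; rw [norm_star, om_pow_norm]
  have hcoef : ∀ i k l : ℕ, ‖(om m ^ i) ^ k * (star (om m ^ i)) ^ l‖ = 1 := by
    intro i k l
    rw [norm_mul, norm_pow (om m ^ i) k, norm_pow (star (om m ^ i)) l, om_pow_norm, hcon]
    simp
  have hb : ∀ k ∈ Finset.range K, ∀ l ∈ Finset.range K, ∀ k' ∈ Finset.range K,
      ∀ l' ∈ Finset.range K, ‖dfc τ (((om m ^ (i : ℕ)) ^ k * (star (om m ^ (i : ℕ))) ^ l) •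
        (star (a : A) ^ k * (a : A) ^ l)) (((om m ^ (j : ℕ)) ^ k' * (star (om m ^ (j : ℕ))) ^ l') •
        (star (b : A) ^ k' * (b : A) ^ l'))‖ ≤ η := by
    intro k hk l hl k' hk' l' hl'
    rw [Finset.mem_range] at hk hl hk' hl'
    rw [dfc_smul_left, norm_mul, hcoef, one_mul, dfc_smul_right, norm_mul, hcoef, one_mul]
    rw [zpow_eq, zpow_eq]
    refine hη _ _ ?_ ?_
    · rw [abs_lt]; constructor <;> omega
    · rw [abs_lt]; constructor <;> omega
  unfold fej
  rw [dfc_smul_left, dfc_smul_right, fej_expand, fej_expand]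
  have h1 : dfc τ (∑ k ∈ Finset.range K, ∑ l ∈ Finset.range K,
      ((om m ^ (i : ℕ)) ^ k * (star (om m ^ (i : ℕ))) ^ l) • (star (a : A) ^ k * (a : A) ^ l))
      (∑ k ∈ Finset.range K, ∑ l ∈ Finset.range K,
      ((om m ^ (j : ℕ)) ^ k * (star (om m ^ (j : ℕ))) ^ l) • (star (b : A) ^ k * (b : A) ^ l)) =
      ∑ k ∈ Finset.range K, ∑ l ∈ Finset.range K, ∑ k' ∈ Finset.range K, ∑ l' ∈ Finset.range K,
      dfc τ (((om m ^ (i : ℕ)) ^ k * (star (om m ^ (i : ℕ))) ^ l) •
        (star (a : A) ^ k * (a : A) ^ l)) (((om m ^ (j : ℕ)) ^ k' * (star (om m ^ (j : ℕ))) ^ l') •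
        (star (b : A) ^ k' * (b : A) ^ l')) := by
    rw [dfc_sum_left]
    refine Finset.sum_congr rfl fun k _ => ?_
    rw [dfc_sum_left]
    refine Finset.sum_congr rfl fun l _ => ?_
    rw [dfc_sum_right]
    refine Finset.sum_congr rfl fun k' _ => ?_
    rw [dfc_sum_right]
  rw [h1]
  have h2 : ‖∑ k ∈ Finset.range K, ∑ l ∈ Finset.range K, ∑ k' ∈ Finset.range K,
      ∑ l' ∈ Finset.range K,
      dfc τ (((om m ^ (i : ℕ)) ^ k * (star (om m ^ (i : ℕ))) ^ l) •
        (star (a : A) ^ k * (a : A) ^ l)) (((om m ^ (j : ℕ)) ^ k' * (star (om m ^ (j : ℕ))) ^ l') •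
        (star (b : A) ^ k' * (b : A) ^ l'))‖ ≤ K * (K * (K * (K * η))) := by
    have hc : ∀ (f : ℕ → ℂ) (B : ℝ), (∀ k ∈ Finset.range K, ‖f k‖ ≤ B) →
        ‖∑ k ∈ Finset.range K, f k‖ ≤ K * B := by
      intro f B hf
      refine (norm_sum_le_of_le _ hf).trans ?_
      rw [Finset.sum_const, Finset.card_range, nsmul_eq_mul]
    refine hc _ _ fun k hk => hc _ _ fun l hl => hc _ _ fun k' hk' => hc _ _ fun l' hl' => ?_
    exact hb k hk l hl k' hk' l' hl'
  rw [norm_mul, norm_mul]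
  have h3 : ‖((m * K : ℝ)⁻¹ : ℂ)‖ = (m * K : ℝ)⁻¹ := by
    have : (((m * K : ℝ)⁻¹ : ℂ)) = (((m * K : ℝ)⁻¹ : ℝ) : ℂ) := by push_cast; rfl
    rw [this, Complex.norm_real, Real.norm_of_nonneg (by positivity)]
  rw [h3]
  have hKm : (K : ℝ) ≤ m := by exact_mod_cast hm
  calc (m * K : ℝ)⁻¹ * ((m * K : ℝ)⁻¹ * _) ≤ (m * K : ℝ)⁻¹ * ((m * K : ℝ)⁻¹ *
        (K * (K * (K * (K * η))))) := by gcongr
    _ = (K / m) * (K / m) * η := by field_simp
    _ ≤ 1 * 1 * η := by
        have : (K : ℝ) / m ≤ 1 := by rw [div_le_one hmR]; exact hKm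
        have h0 : 0 ≤ (K : ℝ) / m := by positivity
        gcongr
    _ = η := by ring

theorem mfej_mem (D : StarSubalgebra ℂ A) {a : A} (ha : a ∈ D) (K m : ℕ) (s : ℝ) (i : Fin m) :
    mfej a K m s i ∈ D := by
  have h1 : gsum a K m i ∈ D := D.sum_mem fun k _ => D.pow_mem (D.smul_mem ha _) _
  exact D.add_mem (D.smul_mem (D.smul_mem (D.mul_mem (D.star_mem' h1) h1) _) _)
    (D.smul_mem D.one_mem _)

theorem finite_stage (h : TrAlg τ) (hL : LyapProp τ) (ε : ℝ) (hε : 0 < ε) :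
    ∃ K : ℕ, ∃ η > 0, ∀ a b : unitary A,
      (∀ k l : ℤ, |k| < K → |l| < K →
        ‖dfc τ ((a ^ k : unitary A) : A) ((b ^ l : unitary A) : A)‖ ≤ η) →
      ∃ (m : ℕ) (p q : Fin m → A), PVM p ∧ PVM q ∧ (∀ i j, τ (p i * q j) = τ (p i) * τ (q j)) ∧
        n2 τ ((a : A) - ∑ i : Fin m, om m ^ (i : ℕ) • p i) ≤ ε ∧
        n2 τ ((b : A) - ∑ i : Fin m, om m ^ (i : ℕ) • q i) ≤ ε := by
  classical
  obtain ⟨K, hK⟩ := exists_nat_gt (32 / ε ^ 2)
  have hK0R : (0 : ℝ) < K := lt_trans (by positivity) hK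
  have hK0 : 0 < K := by exact_mod_cast hK0R
  have h4K : 4 / (K : ℝ) ≤ ε ^ 2 / 8 := by
    rw [div_le_iff₀ hK0R]
    rw [div_lt_iff₀ (by positivity)] at hK
    nlinarith
  set s : ℝ := min 1 (ε ^ 2 / 32) with hs
  have hs0 : 0 < s := lt_min one_pos (by positivity)
  have hs1 : s ≤ 1 := min_le_left _ _
  have hs2 : 4 * s ≤ ε ^ 2 / 8 := by
    have : s ≤ ε ^ 2 / 32 := min_le_right _ _
    linarith
  set κ : ℝ := min (1 / 2) ((ε / (4 * K)) ^ 2 / 2) with hκ
  have hκ0 : 0 < κ := lt_min (by norm_num) (by positivity)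
  have hκ1 : κ ≤ 1 / 2 := min_le_left _ _
  have hκ2 : Real.sqrt (2 * κ) ≤ ε / (4 * K) := by
    rw [Real.sqrt_le_left (by positivity)]
    have : κ ≤ (ε / (4 * K)) ^ 2 / 2 := min_le_right _ _
    linarith
  set η : ℝ := κ ^ 2 * (s / K) / K with hη
  have hη0 : 0 < η := by positivity
  refine ⟨K, η, hη0, ?_⟩
  intro a b hab
  set D1 : Fin K → A := fun i => (a : A) - om K ^ (i : ℕ) • (1 : A) with hD1
  set D2 : Fin K → A := fun i => (b : A) - om K ^ (i : ℕ) • (1 : A) with hD2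
  have ha1 : star (a : A) * a = 1 := Unitary.coe_star_mul_self a
  have ha2 : (a : A) * star (a : A) = 1 := Unitary.coe_mul_star_self a
  have hb1 : star (b : A) * b = 1 := Unitary.coe_star_mul_self b
  have hb2 : (b : A) * star (b : A) = 1 := Unitary.coe_mul_star_self b
  have hstarset : ∀ u : A, ∀ x ∈ ({u, star u} : Set A), star x ∈ ({u, star u} : Set A) := by
    rintro u x (rfl | rfl)
    · right; rfl
    · left; exact star_star _
  have hcommset : ∀ u : A, star u * u = u * star u → ∀ x ∈ ({u, star u} : Set A),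
      ∀ y ∈ ({u, star u} : Set A), x * y = y * x := by
    rintro u hu x (rfl | rfl) y (rfl | rfl)
    · rfl
    · exact hu.symm
    · exact hu
    · rfl
  -- the measure of a
  obtain ⟨Da, hDa, _, hDaL⟩ := hL {(a : A), star (a : A)} (hstarset _)
    (hcommset _ (by rw [ha1, ha2]))
  obtain ⟨p, _, hp, hpy⟩ := hDaL (Fin K) (Option (Fin K ⊕ Fin K)) (mfej (a : A) K K 0)
    (fun z => match z with
      | none => 1
      | some (Sum.inl j) => mfej (b : A) K K s j
      | some (Sum.inr i) => star (D1 i) * D1 i)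
    (fun i => mfej_mem Da (hDa _ (Or.inl rfl)) K K 0 i)
    (fun i => pos_mfej (a : A) K K 0 le_rfl zero_le_one i)
    (mfej_sum (a : A) ha1 K K hK0 le_rfl 0)
  obtain ⟨Db, hDb, _, hDbL⟩ := hL {(b : A), star (b : A)} (hstarset _)
    (hcommset _ (by rw [hb1, hb2]))
  obtain ⟨q, _, hq, hqy⟩ := hDbL (Fin K) (Option (Fin K ⊕ Fin K)) (mfej (b : A) K K s)
    (fun z => match z with
      | none => 1
      | some (Sum.inl i) => p i
      | some (Sum.inr i) => star (D2 i) * D2 i)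
    (fun i => mfej_mem Db (hDb _ (Or.inl rfl)) K K s i)
    (fun i => pos_mfej (b : A) K K s hs0.le hs1 i)
    (mfej_sum (b : A) hb1 K K hK0 le_rfl s)
  have hpclose := fej_close h (a : A) ha1 ha2 K K hK0 le_rfl 0 le_rfl zero_le_one p hp
    (fun i => hpy i (some (Sum.inr i)))
  have hqclose := fej_close h (b : A) hb1 hb2 K K hK0 le_rfl s hs0.le hs1 q hq
    (fun i => hqy i (some (Sum.inr i)))
  have hpτ : ∀ i, τ (p i) = τ (mfej (a : A) K K 0 i) := by
    intro i
    have := hpy i none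
    simpa using this
  have hqτ : ∀ i, τ (q i) = τ (mfej (b : A) K K s i) := by
    intro i
    have := hqy i none
    simpa using this
  have hpqτ : ∀ i j, τ (p i * q j) = τ (mfej (a : A) K K 0 i * mfej (b : A) K K s j) := by
    intro i j
    have h1 : τ (q j * p i) = τ (mfej (b : A) K K s j * p i) := hqy j (some (Sum.inl i))
    have h2 : τ (p i * mfej (b : A) K K s j) = τ (mfej (a : A) K K 0 i * mfej (b : A) K K s j) :=
      hpy i (some (Sum.inl j))
    rw [h.comm, h1, h.comm, h2]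
  have hqs : ∀ j, s / K ≤ (τ (q j)).re := by
    intro j
    rw [hqτ]
    unfold mfej
    rw [map_add, map_smul, map_smul, h.one, smul_eq_mul, smul_eq_mul, mul_one, Complex.add_re,
      Complex.re_ofReal_mul, Complex.ofReal_re]
    have h1 : 0 ≤ (τ (fej (b : A) K K j)).re := by
      unfold fej
      rw [map_smul, smul_eq_mul]
      have : (((K * K : ℝ)⁻¹ : ℂ)) = (((K * K : ℝ)⁻¹ : ℝ) : ℂ) := by push_cast; rfl
      rw [this, Complex.re_ofReal_mul]
      exact mul_nonneg (by positivity) (h.re_nonneg _)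
    have h2 : 0 ≤ (1 - s) * (τ (fej (b : A) K K j)).re := mul_nonneg (by linarith) h1
    linarith
  have hone : ∀ x : A, dfc τ x 1 = 0 := by
    intro x
    unfold dfc
    rw [mul_one, h.one, mul_one, sub_self]
  have herr : ∀ i j, ‖τ (p i * q j) - τ (p i) * τ (q j)‖ ≤ η := by
    intro i j
    rw [hpqτ, hpτ, hqτ]
    have h1 : τ (mfej (a : A) K K 0 i * mfej (b : A) K K s j) -
        τ (mfej (a : A) K K 0 i) * τ (mfej (b : A) K K s j) =
        ((1 - s : ℝ) : ℂ) * dfc τ (fej (a : A) K K i) (fej (b : A) K K j) := by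
      have e1 : mfej (a : A) K K 0 i = fej (a : A) K K i := by
        unfold mfej; simp
      have e2 : ∀ x : A, dfc τ x (mfej (b : A) K K s j) =
          ((1 - s : ℝ) : ℂ) * dfc τ x (fej (b : A) K K j) := by
        intro x
        have e3 : dfc τ x (mfej (b : A) K K s j) = ((1 - s : ℝ) : ℂ) * dfc τ x (fej (b : A) K K j) +
            ((s / K : ℝ) : ℂ) * dfc τ x 1 := by
          rw [← dfc_smul_right, ← dfc_smul_right]
          unfold dfc mfej
          rw [mul_add, map_add, map_add]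
          ring
        rw [e3, hone, mul_zero, add_zero]
      rw [e1]
      exact e2 _
    rw [h1, norm_mul, Complex.norm_real, Real.norm_of_nonneg (by linarith)]
    have h2 := fej_err a b K K hK0 le_rfl η hab i j
    have h3 : 0 ≤ ‖dfc τ (fej (a : A) K K i) (fej (b : A) K K j)‖ := norm_nonneg _
    nlinarith
  obtain ⟨p', hp', hind, hp'close⟩ := exact_indep h hL p q hp hq (s / K) (by positivity) hqs κ hκ0
    hκ1 η (by
      rw [Fintype.card_fin, hη]
      have : κ ^ 2 * (s / K) / K * K = κ ^ 2 * (s / K) := by field_simp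
      rw [this]) ⟨0, hK0⟩ herr
  refine ⟨K, p', q, hp', hq, hind, ?_, ?_⟩
  · have h1 := hp'close (fun i => om K ^ (i : ℕ)) (fun i => om_pow_norm K i)
    have h2 : n2 τ ((a : A) - ∑ i : Fin K, om K ^ (i : ℕ) • p i) ≤ ε / 2 := by
      have h3 : n2 τ ((a : A) - ∑ i : Fin K, om K ^ (i : ℕ) • p i) ^ 2 ≤ (ε / 2) ^ 2 := by
        refine hpclose.trans ?_
        rw [mul_zero, add_zero]
        nlinarith
      exact (pow_le_pow_iff_left₀ (n2_nonneg _ _) (by positivity) two_ne_zero).1 h3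
    have h4 : (Fintype.card (Fin K) : ℝ) * (2 * Real.sqrt (2 * κ)) ≤ ε / 2 := by
      rw [Fintype.card_fin]
      calc (K : ℝ) * (2 * Real.sqrt (2 * κ)) ≤ K * (2 * (ε / (4 * K))) := by gcongr
        _ = ε / 2 := by field_simp; norm_num
    calc n2 τ ((a : A) - ∑ i : Fin K, om K ^ (i : ℕ) • p' i) ≤
        n2 τ ((a : A) - ∑ i : Fin K, om K ^ (i : ℕ) • p i) +
        n2 τ (∑ i : Fin K, om K ^ (i : ℕ) • p i - ∑ i : Fin K, om K ^ (i : ℕ) • p' i) :=
          h.n2_tri _ _ _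
      _ ≤ ε / 2 + ε / 2 := add_le_add h2 (h1.trans h4)
      _ = ε := by ring
  · have h3 : n2 τ ((b : A) - ∑ i : Fin K, om K ^ (i : ℕ) • q i) ^ 2 ≤ ε ^ 2 := by
      refine hqclose.trans ?_
      nlinarith
    exact (pow_le_pow_iff_left₀ (n2_nonneg _ _) hε.le two_ne_zero).1 h3

end Pool.Agent.Helper278
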