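import Mathlib
import Pool.Agent.KS6_19.UP.L.Helper278.Wot

set_option autoImplicit false

open scoped InnerProductSpace Topology ComplexOrder
open Filter

namespace Pool.Agent.Helper278

variable {H : Type*} [NormedAddCommGroup H] [InnerProductSpace ℂ H] [CompleteSpace H]

/-- Functionals on `B(H)` that are weak operator continuous on the unit ball. -/
def WotCont (f : (H →L[ℂ] H) →ₗ[ℂ] ℂ) : Prop :=
  ContinuousOn (fun T : H →WOT[ℂ] H => f T.toCLM) {T : H →WOT[ℂ] H | ‖T.toCLM‖ ≤ 1}

/-- The moment-constrained set of positive operator valued measures with values in a commutant. -/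
def povmSet {ι κ : Type*} [Fintype ι] (T : Set (H →L[ℂ] H)) (f : κ → (H →L[ℂ] H) →ₗ[ℂ] ℂ)
    (c : ι → κ → ℂ) : Set (ι → H →L[ℂ] H) :=
  {y | (∀ i, ∀ t ∈ T, t * y i = y i * t) ∧ (∀ i, (y i).IsPositive) ∧ ∑ i, y i = 1 ∧
    ∀ i k, f k (y i) = c i k}

theorem norm_le_one_of_povm {ι : Type*} [Fintype ι] (y : ι → H →L[ℂ] H)
    (hpos : ∀ i, (y i).IsPositive) (hsum : ∑ i, y i = 1) (i : ι) : ‖y i‖ ≤ 1 := by
  classical
  have h0 : ∀ j, (0 : H →L[ℂ] H) ≤ y j := fun j =>
    (ContinuousLinearMap.nonneg_iff_isPositive _).2 (hpos j)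
  have h1 : y i ≤ 1 := by
    rw [← hsum]
    exact Finset.single_le_sum (fun j _ => h0 j) (Finset.mem_univ i)
  exact (CStarAlgebra.norm_le_one_iff_of_nonneg (y i) (h0 i)).2 h1

theorem povm_extreme {ι κ : Type*} [Fintype ι] (T : Set (H →L[ℂ] H))
    (f : κ → (H →L[ℂ] H) →ₗ[ℂ] ℂ) (hf : ∀ k, WotCont (f k))
    (c : ι → κ → ℂ) (hne : (povmSet T f c).Nonempty) :
    ∃ y ∈ povmSet T f c, ∀ a ∈ povmSet T f c, ∀ b ∈ povmSet T f c,
      (∀ i, y i = (2⁻¹ : ℂ) • (a i + b i)) → a = y := by
  classical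
  let B : Set (H →WOT[ℂ] H) := {T : H →WOT[ℂ] H | ‖T.toCLM‖ ≤ 1}
  have hB : IsCompact B := isCompact_wot_ball
  let C : Set (ι → H →WOT[ℂ] H) := Set.pi Set.univ (fun _ => B)
  have hC : IsCompact C := isCompact_univ_pi (fun _ => hB)
  let K : Set (ι → H →WOT[ℂ] H) :=
    {y | (fun i => (y i).toCLM) ∈ povmSet T f c}
  have hKC : K ⊆ C := by
    intro y hy i _
    exact norm_le_one_of_povm (fun i => (y i).toCLM) hy.2.1 hy.2.2.1 i
  have hcoord : ∀ i, Continuous (fun y : ι → H →WOT[ℂ] H => y i) := fun i => continuous_apply i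
  have hKeq : K = C ∩ ((⋂ i, ⋂ t ∈ T, {y : ι → H →WOT[ℂ] H |
        ContinuousLinearMapWOT.ofCLM t * y i = y i * ContinuousLinearMapWOT.ofCLM t}) ∩
      ((⋂ i, {y : ι → H →WOT[ℂ] H | (y i).toCLM.IsPositive}) ∩
      ({y : ι → H →WOT[ℂ] H | ∑ i, y i = 1}))) ∩
      (⋂ i, ⋂ k, (C ∩ {y : ι → H →WOT[ℂ] H | f k (y i).toCLM = c i k})) := by
    ext y
    constructor
    · intro hy
      have hyC := hKC hy
      obtain ⟨h1, h2, h3, h4⟩ := hy
      refine ⟨⟨hyC, ?_, ?_, ?_⟩, ?_⟩
      · simp only [Set.mem_iInter, Set.mem_ofPred_eq]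
        intro i t ht
        have := h1 i t ht
        apply ContinuousLinearMapWOT.toCLM_injective
        simpa using this
      · simp only [Set.mem_iInter, Set.mem_ofPred_eq]
        exact h2
      · apply ContinuousLinearMapWOT.toCLM_injective
        have : (∑ i, y i).toCLM = ∑ i, (y i).toCLM := by
          exact map_sum (ContinuousLinearMapWOT.linearEquiv (σ := RingHom.id ℂ) (E := H) (F := H) ℂ) y _
        rw [this, h3]
        rfl
      · simp only [Set.mem_iInter]
        intro i k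
        exact ⟨hyC, h4 i k⟩
    · rintro ⟨⟨hyC, h1, h2, h3⟩, h4⟩
      simp only [Set.mem_iInter, Set.mem_ofPred_eq] at h1 h2
      refine ⟨?_, h2, ?_, ?_⟩
      · intro i t ht
        have := congrArg ContinuousLinearMapWOT.toCLM (h1 i t ht)
        simpa using this
      · have h3' : (∑ i, y i).toCLM = 1 := by
          have h3'' : ∑ i, y i = 1 := h3
          rw [h3'']; rfl
        have : (∑ i, y i).toCLM = ∑ i, (y i).toCLM := by
          exact map_sum (ContinuousLinearMapWOT.linearEquiv (σ := RingHom.id ℂ) (E := H) (F := H) ℂ) y _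
        rw [← h3', this]
      · intro i k
        simp only [Set.mem_iInter] at h4
        exact (h4 i k).2
  have hclosed1 : IsClosed (⋂ i, ⋂ t ∈ T, {y : ι → H →WOT[ℂ] H |
        ContinuousLinearMapWOT.ofCLM t * y i = y i * ContinuousLinearMapWOT.ofCLM t}) := by
    refine isClosed_iInter fun i => isClosed_biInter fun t _ => ?_
    refine isClosed_eq ?_ ?_
    · exact (continuous_const_mul _).comp (hcoord i)
    · exact (continuous_mul_const _).comp (hcoord i)
  have hclosed2 : IsClosed (⋂ i, {y : ι → H →WOT[ℂ] H | (y i).toCLM.IsPositive}) := by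
    refine isClosed_iInter fun i => ?_
    have : {y : ι → H →WOT[ℂ] H | (y i).toCLM.IsPositive} =
        ⋂ x : H, {y : ι → H →WOT[ℂ] H | 0 ≤ ⟪x, y i x⟫_ℂ} := by
      ext y
      simp only [Set.mem_ofPred_eq, Set.mem_iInter]
      constructor
      · intro h x
        exact h.inner_nonneg_right x
      · intro h
        rw [ContinuousLinearMap.isPositive_iff_complex]
        intro x
        have hx := h x
        have h5 : ⟪(y i).toCLM x, x⟫_ℂ = (starRingEnd ℂ) ⟪x, (y i) x⟫_ℂ := by
          rw [inner_conj_symm]; rfl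
        rw [Complex.nonneg_iff] at hx
        have h7 : (⟪(y i).toCLM x, x⟫_ℂ).re = (⟪x, (y i) x⟫_ℂ).re := by
          rw [h5, Complex.conj_re]
        have h8 : (⟪(y i).toCLM x, x⟫_ℂ).im = 0 := by
          rw [h5, Complex.conj_im, ← hx.2, neg_zero]
        constructor
        · apply Complex.ext
          · simp
          · rw [h8]; simp
        · have : 0 ≤ (⟪(y i).toCLM x, x⟫_ℂ).re := by rw [h7]; exact hx.1
          exact this
    rw [this]
    refine isClosed_iInter fun x => ?_
    have hcont : Continuous (fun y : ι → H →WOT[ℂ] H => ⟪x, y i x⟫_ℂ) := by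
      have := hcoord i
      rw [ContinuousLinearMapWOT.continuous_iff] at this
      exact this x x
    exact isClosed_le continuous_const hcont
  have hclosed3 : IsClosed {y : ι → H →WOT[ℂ] H | ∑ i, y i = 1} := by
    refine isClosed_eq ?_ continuous_const
    exact continuous_finsetSum _ (fun i _ => hcoord i)
  have hclosed4 : IsClosed (⋂ i, ⋂ k, (C ∩ {y : ι → H →WOT[ℂ] H | f k (y i).toCLM = c i k})) := by
    refine isClosed_iInter fun i => isClosed_iInter fun k => ?_
    have h1 : ContinuousOn (fun y : ι → H →WOT[ℂ] H => f k (y i).toCLM) C := by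
      have h0 : ContinuousOn (fun T : H →WOT[ℂ] H => f k T.toCLM) B := hf k
      exact h0.comp (t := B) (f := fun y : ι → H →WOT[ℂ] H => y i) (hcoord i).continuousOn
        (fun y hy => hy i (Set.mem_univ i))
    exact h1.preimage_isClosed_of_isClosed hC.isClosed isClosed_singleton
  have hKcomp : IsCompact K := by
    rw [hKeq]
    exact (hC.inter_right (hclosed1.inter (hclosed2.inter hclosed3))).inter_right hclosed4
  have hKne : K.Nonempty := by
    obtain ⟨y, hy⟩ := hne
    exact ⟨fun i => ContinuousLinearMapWOT.ofCLM (y i), hy⟩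
  obtain ⟨y, hy⟩ := hKcomp.extremePoints_nonempty hKne
  refine ⟨fun i => (y i).toCLM, hy.1, ?_⟩
  intro a ha b hb hab
  have h1 := hy.2 (x₁ := fun i => ContinuousLinearMapWOT.ofCLM (a i)) ha
    (x₂ := fun i => ContinuousLinearMapWOT.ofCLM (b i)) hb ?_
  · rw [← h1]
  · refine ⟨2⁻¹, 2⁻¹, by norm_num, by norm_num, by norm_num, ?_⟩
    funext i
    apply ContinuousLinearMapWOT.toCLM_injective
    have h6 : (y i).toCLM = (2⁻¹ : ℂ) • (a i + b i) := hab i
    show (2⁻¹ : ℝ) • a i + (2⁻¹ : ℝ) • b i = (y i).toCLM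
    have h9 : ∀ w : H →L[ℂ] H, (2⁻¹ : ℝ) • w = (2⁻¹ : ℂ) • w := by
      intro w
      rw [← Complex.coe_smul]
      norm_num
    rw [h6, smul_add, h9, h9]

end Pool.Agent.Helper278
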