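import Mathlib
import Pool.Agent.KS6_19.UP.L.Helper278.Extreme

set_option autoImplicit false

open scoped InnerProductSpace Topology ComplexOrder
open Filter

namespace Pool.Agent.Helper278

variable {H : Type*} [NormedAddCommGroup H] [InnerProductSpace ℂ H] [CompleteSpace H]

theorem sub_sq_nonneg' (y : H →L[ℂ] H) (h0 : 0 ≤ y) (h1 : y ≤ 1) : 0 ≤ y - y * y := by
  have hs : star y = y := (IsSelfAdjoint.of_nonneg h0).star_eq
  have e : y - y * y = star y * (1 - y) * y + star (1 - y) * y * (1 - y) := by
    rw [star_sub, star_one, hs]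
    noncomm_ring
  rw [e]
  exact add_nonneg (star_left_conjugate_nonneg (sub_nonneg.2 h1) y)
    (star_left_conjugate_nonneg h0 (1 - y))

theorem add_conj_nonneg (y v : H →L[ℂ] H) (h0 : 0 ≤ y) (h1 : y ≤ 1) (hv : IsSelfAdjoint v)
    (hv1 : ‖v‖ ≤ 1) : 0 ≤ y + y * v * y := by
  have hs : star y = y := (IsSelfAdjoint.of_nonneg h0).star_eq
  have hv2 : -1 ≤ v := by
    have h2 := hv.neg_algebraMap_norm_le_self
    have h3 : algebraMap ℝ (H →L[ℂ] H) ‖v‖ ≤ 1 := by
      have := algebraMap_mono (H →L[ℂ] H) hv1
      simpa using this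
    exact le_trans (neg_le_neg h3) h2
  have e : y + y * v * y = (y - y * y) + star y * (1 + v) * y := by
    rw [hs]
    noncomm_ring
  rw [e]
  refine add_nonneg (sub_sq_nonneg' y h0 h1) (star_left_conjugate_nonneg ?_ y)
  have := neg_le_iff_add_nonneg'.1 hv2
  rwa [add_comm] at this ⊢

/-- Lyapunov convexity theorem for an abelian algebra `D` (a commutant) without finite dimensional
corners. -/
theorem lyapunov_abelian {ι κ : Type*} [Fintype ι] [Finite κ]
    (D : StarSubalgebra ℂ (H →L[ℂ] H)) (T : Set (H →L[ℂ] H))
    (hD : ∀ x, x ∈ D ↔ ∀ t ∈ T, t * x = x * t)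
    (hcomm : ∀ x ∈ D, ∀ y ∈ D, x * y = y * x)
    (hinf : ∀ d ∈ D, star d = d → d ≠ 0 →
      ¬ FiniteDimensional ℂ (Submodule.span ℂ {w : H →L[ℂ] H | ∃ z ∈ D, w = d * z * d}))
    (f : κ → (H →L[ℂ] H) →ₗ[ℂ] ℂ) (hf : ∀ k, WotCont (f k))
    (x : ι → H →L[ℂ] H) (hxD : ∀ i, x i ∈ D) (hxpos : ∀ i, (x i).IsPositive)
    (hxsum : ∑ i, x i = 1) :
    ∃ p : ι → H →L[ℂ] H, (∀ i, p i ∈ D) ∧ (∀ i, star (p i) = p i) ∧ (∀ i, p i * p i = p i) ∧
      (∀ i j, i ≠ j → p i * p j = 0) ∧ ∑ i, p i = 1 ∧ ∀ i k, f k (p i) = f k (x i) := by
  classical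
  obtain ⟨y, hyK, hext⟩ := povm_extreme T f hf (fun i k => f k (x i))
    ⟨x, fun i => (hD _).1 (hxD i), hxpos, hxsum, fun i k => rfl⟩
  obtain ⟨hy1, hy2, hy3, hy4⟩ := hyK
  have hyD : ∀ i, y i ∈ D := fun i => (hD _).2 (hy1 i)
  have hy0 : ∀ i, 0 ≤ y i := fun i => (ContinuousLinearMap.nonneg_iff_isPositive _).2 (hy2 i)
  have hyle : ∀ i, y i ≤ 1 := by
    intro i
    rw [← hy3]
    exact Finset.single_le_sum (fun j _ => hy0 j) (Finset.mem_univ i)
  have hystar : ∀ i, star (y i) = y i := fun i => (IsSelfAdjoint.of_nonneg (hy0 i)).star_eq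
  have hynorm : ∀ i, ‖y i‖ ≤ 1 := fun i => norm_le_one_of_povm y hy2 hy3 i
  have key : ∀ i j, i ≠ j → y i * y j = 0 := by
    intro i j hij
    by_contra hd
    set d := y i * y j with hd_def
    have hdD : d ∈ D := D.mul_mem (hyD i) (hyD j)
    have hdstar : star d = d := by
      rw [hd_def, star_mul, hystar, hystar]
      exact hcomm _ (hyD j) _ (hyD i)
    -- the linear maps
    let g : D →ₗ[ℂ] (H →L[ℂ] H) :=
      { toFun := fun z => d * (z : H →L[ℂ] H) * d
        map_add' := fun a b => by simp [mul_add, add_mul]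
        map_smul' := fun c a => by simp }
    let L1 : D →ₗ[ℂ] (κ → ℂ) :=
      { toFun := fun z k => f k (d * (z : H →L[ℂ] H) * d)
        map_add' := fun a b => by
          funext k
          simp [mul_add, add_mul]
        map_smul' := fun c a => by
          funext k
          simp }
    let L2 : D →ₗ[ℂ] (κ → ℂ) :=
      { toFun := fun z k => star (f k (d * star (z : H →L[ℂ] H) * d))
        map_add' := fun a b => by
          funext k
          simp [mul_add, add_mul]
        map_smul' := fun c a => by
          funext k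
          simp }
    let L : D →ₗ[ℂ] ((κ → ℂ) × (κ → ℂ)) := L1.prod L2
    have hz : ∃ z : D, L z = 0 ∧ g z ≠ 0 := by
      by_contra hcon
      push Not at hcon
      have hker : LinearMap.ker L ≤ LinearMap.ker g := by
        intro z hz
        rw [LinearMap.mem_ker] at hz ⊢
        exact hcon z hz
      have hfin : FiniteDimensional ℂ (LinearMap.range g) := by
        have h1 : FiniteDimensional ℂ (D ⧸ LinearMap.ker L) :=
          Module.Finite.equiv (LinearMap.quotKerEquivRange L).symm
        have h2 : LinearMap.range ((LinearMap.ker L).liftQ g hker) = LinearMap.range g := by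
          exact Submodule.range_liftQ _ _ _
        rw [← h2]
        infer_instance
      apply hinf d hdD hdstar hd
      have h3 : Submodule.span ℂ {w : H →L[ℂ] H | ∃ z ∈ D, w = d * z * d} =
          LinearMap.range g := by
        apply le_antisymm
        · rw [Submodule.span_le]
          rintro w ⟨z, hz, rfl⟩
          exact ⟨⟨z, hz⟩, rfl⟩
        · rintro w ⟨z, rfl⟩
          exact Submodule.subset_span ⟨z, z.2, rfl⟩
      rw [h3]
      exact hfin
    obtain ⟨z, hLz, hgz⟩ := hz
    have hz1 : ∀ k, f k (d * (z : H →L[ℂ] H) * d) = 0 := by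
      intro k
      have := congrArg (fun q => q.1 k) hLz
      simpa [L, L1] using this
    have hz2 : ∀ k, f k (d * star (z : H →L[ℂ] H) * d) = 0 := by
      intro k
      have := congrArg (fun q => q.2 k) hLz
      simpa [L, L2] using this
    have hgz' : d * (z : H →L[ℂ] H) * d ≠ 0 := hgz
    -- a self-adjoint element
    obtain ⟨w, hwD, hws, hwne, hwf⟩ : ∃ w : H →L[ℂ] H, w ∈ D ∧ star w = w ∧ d * w * d ≠ 0 ∧
        ∀ k, f k (d * w * d) = 0 := by
      by_cases h1 : d * ((z : H →L[ℂ] H) + star (z : H →L[ℂ] H)) * d = 0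
      · refine ⟨Complex.I • ((z : H →L[ℂ] H) - star (z : H →L[ℂ] H)), ?_, ?_, ?_, ?_⟩
        · exact D.smul_mem (D.sub_mem z.2 (D.star_mem' z.2)) _
        · rw [star_smul, star_sub, star_star, Complex.star_def, Complex.conj_I, neg_smul,
            ← smul_neg, neg_sub]
        · intro h2
          apply hgz'
          rw [mul_smul_comm, smul_mul_assoc, smul_eq_zero] at h2
          rcases h2 with h2 | h2
          · exact absurd h2 Complex.I_ne_zero
          · have h3 : (2 : ℂ) • (d * (z : H →L[ℂ] H) * d) = 0 := by
              have : (2 : ℂ) • (d * (z : H →L[ℂ] H) * d) =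
                d * ((z : H →L[ℂ] H) + star (z : H →L[ℂ] H)) * d +
                d * ((z : H →L[ℂ] H) - star (z : H →L[ℂ] H)) * d := by
                rw [two_smul]
                noncomm_ring
              rw [this, h1, h2, add_zero]
            rcases smul_eq_zero.1 h3 with h4 | h4
            · norm_num at h4
            · exact h4
        · intro k
          rw [mul_smul_comm, smul_mul_assoc, map_smul, mul_sub, sub_mul, map_sub, hz1, hz2]
          simp
      · refine ⟨(z : H →L[ℂ] H) + star (z : H →L[ℂ] H), ?_, ?_, h1, ?_⟩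
        · exact D.add_mem z.2 (D.star_mem' z.2)
        · rw [star_add, star_star, add_comm]
        · intro k
          rw [mul_add, add_mul, map_add, hz1, hz2, add_zero]
    -- scaling
    obtain ⟨v, hvD, hvs, hvne, hvf, hvn⟩ : ∃ w : H →L[ℂ] H, w ∈ D ∧ star w = w ∧ d * w * d ≠ 0 ∧
        (∀ k, f k (d * w * d) = 0) ∧ ‖w‖ ≤ 1 := by
      have hpos : (0 : ℝ) < ‖w‖ + 1 := by positivity
      refine ⟨(((‖w‖ + 1)⁻¹ : ℝ) : ℂ) • w, D.smul_mem hwD _, ?_, ?_, ?_, ?_⟩
      · rw [star_smul, hws]
        simp
      · rw [mul_smul_comm, smul_mul_assoc]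
        intro h
        rcases smul_eq_zero.1 h with h4 | h4
        · have : (‖w‖ + 1)⁻¹ = 0 := by exact_mod_cast h4
          exact absurd this (by positivity)
        · exact hwne h4
      · intro k
        rw [mul_smul_comm, smul_mul_assoc, map_smul, hwf]
        simp
      · rw [norm_smul]
        have : ‖(((‖w‖ + 1)⁻¹ : ℝ) : ℂ)‖ = (‖w‖ + 1)⁻¹ := by
          rw [Complex.norm_real, Real.norm_of_nonneg (by positivity)]
        rw [this, inv_mul_le_iff₀ hpos]
        linarith
    set h := d * v * d with hh
    have hhD : h ∈ D := D.mul_mem (D.mul_mem hdD hvD) hdD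
    -- rewriting h
    have hcomm' : ∀ a ∈ D, ∀ b ∈ D, a * b = b * a := hcomm
    have hh1 : h = y i * (y j * v * y j) * y i := by
      rw [hh, hd_def]
      have e1 := hcomm _ (hyD i) _ (hyD j)
      calc y i * y j * v * (y i * y j) = y i * y j * v * (y j * y i) := by rw [e1]
        _ = y i * (y j * v * y j) * y i := by noncomm_ring
    have hh2 : h = y j * (y i * v * y i) * y j := by
      rw [hh, hd_def]
      have e1 := hcomm _ (hyD i) _ (hyD j)
      calc y i * y j * v * (y i * y j) = (y j * y i) * v * (y i * y j) := by rw [e1]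
        _ = y j * (y i * v * y i) * y j := by noncomm_ring
    have hbound : ∀ l, IsSelfAdjoint (y l * v * y l) ∧ ‖y l * v * y l‖ ≤ 1 := by
      intro l
      constructor
      · show star _ = _
        rw [star_mul, star_mul, hystar, hvs, mul_assoc]
      · calc ‖y l * v * y l‖ ≤ ‖y l‖ * ‖v‖ * ‖y l‖ := by
              refine (norm_mul_le _ _).trans ?_
              gcongr
              exact norm_mul_le _ _
          _ ≤ 1 * 1 * 1 := by
              have := hynorm l
              gcongr
          _ = 1 := by norm_num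
    have hposi : ∀ s : ℂ, s = 1 ∨ s = -1 → 0 ≤ y i + s • h := by
      intro s hs
      rw [hh1]
      have h5 : y i + s • (y i * (y j * v * y j) * y i) =
          y i + y i * (s • (y j * v * y j)) * y i := by
        rw [mul_smul_comm, smul_mul_assoc]
      rw [h5]
      refine add_conj_nonneg _ _ (hy0 i) (hyle i) ?_ ?_
      · rcases hs with rfl | rfl
        · simpa using (hbound j).1
        · simpa using (hbound j).1.neg
      · rcases hs with rfl | rfl
        · simpa using (hbound j).2
        · simpa using (hbound j).2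
    have hposj : ∀ s : ℂ, s = 1 ∨ s = -1 → 0 ≤ y j + s • h := by
      intro s hs
      rw [hh2]
      have h5 : y j + s • (y j * (y i * v * y i) * y j) =
          y j + y j * (s • (y i * v * y i)) * y j := by
        rw [mul_smul_comm, smul_mul_assoc]
      rw [h5]
      refine add_conj_nonneg _ _ (hy0 j) (hyle j) ?_ ?_
      · rcases hs with rfl | rfl
        · simpa using (hbound i).1
        · simpa using (hbound i).1.neg
      · rcases hs with rfl | rfl
        · simpa using (hbound i).2
        · simpa using (hbound i).2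
    -- the perturbations
    let P : ℂ → ι → H →L[ℂ] H := fun s l =>
      y l + ((if l = i then s • h else 0) + (if l = j then (-s) • h else 0))
    have hP : ∀ s : ℂ, s = 1 ∨ s = -1 → P s ∈ povmSet T f (fun i k => f k (x i)) := by
      intro s hs
      have hs' : -s = 1 ∨ -s = -1 := by
        rcases hs with rfl | rfl
        · right; rfl
        · left; norm_num
      refine ⟨?_, ?_, ?_, ?_⟩
      · intro l
        refine (hD _).1 ?_
        refine D.add_mem (hyD l) (D.add_mem ?_ ?_)
        · split_ifs
          · exact D.smul_mem hhD _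
          · exact D.zero_mem
        · split_ifs
          · exact D.smul_mem hhD _
          · exact D.zero_mem
      · intro l
        rw [← ContinuousLinearMap.nonneg_iff_isPositive]
        show 0 ≤ y l + ((if l = i then s • h else 0) + (if l = j then (-s) • h else 0))
        by_cases hli : l = i
        · subst hli
          rw [if_pos rfl, if_neg hij, add_zero]
          exact hposi s hs
        · by_cases hlj : l = j
          · subst hlj
            rw [if_neg hli, if_pos rfl, zero_add]
            exact hposj (-s) hs'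
          · rw [if_neg hli, if_neg hlj, add_zero, add_zero]
            exact hy0 l
      · show ∑ l, (y l + ((if l = i then s • h else 0) + (if l = j then (-s) • h else 0))) = 1
        rw [Finset.sum_add_distrib, hy3, Finset.sum_add_distrib]
        simp
      · intro l k
        show f k (y l + ((if l = i then s • h else 0) + (if l = j then (-s) • h else 0))) = _
        rw [map_add, map_add, hy4]
        have : ∀ (q : Prop) [Decidable q] (c : ℂ), f k (if q then c • h else 0) = 0 := by
          intro q _ c
          split_ifs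
          · rw [map_smul, hvf, smul_zero]
          · exact map_zero _
        rw [this, this, add_zero, add_zero]
    have hfin := hext (P 1) (hP 1 (Or.inl rfl)) (P (-1)) (hP (-1) (Or.inr rfl)) (by
      intro l
      show y l = (2⁻¹ : ℂ) • ((y l + ((if l = i then (1 : ℂ) • h else 0) +
        (if l = j then (-1 : ℂ) • h else 0))) +
        (y l + ((if l = i then (-1 : ℂ) • h else 0) + (if l = j then (-(-1) : ℂ) • h else 0))))
      split_ifs
      · have : (2⁻¹ : ℂ) • ((y l + ((1 : ℂ) • h + (-1 : ℂ) • h)) +
          (y l + ((-1 : ℂ) • h + (-(-1) : ℂ) • h))) = y l := by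
          module
        rw [this]
      · have : (2⁻¹ : ℂ) • ((y l + ((1 : ℂ) • h + 0)) + (y l + ((-1 : ℂ) • h + 0))) = y l := by
          module
        rw [this]
      · have : (2⁻¹ : ℂ) • ((y l + (0 + (-1 : ℂ) • h)) + (y l + (0 + (-(-1) : ℂ) • h))) = y l := by
          module
        rw [this]
      · have : (2⁻¹ : ℂ) • ((y l + ((0 : H →L[ℂ] H) + 0)) + (y l + (0 + 0))) = y l := by
          module
        rw [this])
    have h6 := congrFun hfin i
    have h7 : y i + ((if i = i then (1 : ℂ) • h else 0) + (if i = j then (-1 : ℂ) • h else 0)) =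
        y i := h6
    rw [if_pos rfl, if_neg hij, add_zero, one_smul] at h7
    exact hvne (by simpa using h7)
  refine ⟨y, hyD, hystar, ?_, key, hy3, hy4⟩
  intro i
  have : y i * ∑ j, y j = y i := by rw [hy3, mul_one]
  rw [Finset.mul_sum, Finset.sum_eq_single i] at this
  · exact this
  · intro j _ hj
    exact key i j (Ne.symm hj)
  · intro h
    exact absurd (Finset.mem_univ i) h

end Pool.Agent.Helper278
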