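import Mathlib
import Pool.Agent.KS6_19.UP.L.Helper278.Lyap

set_option autoImplicit false

open scoped InnerProductSpace Topology ComplexOrder
open Filter

namespace Pool.Agent.Helper278

variable {H : Type*} [NormedAddCommGroup H] [InnerProductSpace ℂ H] [CompleteSpace H]

/-- A maximal abelian self-adjoint subalgebra of a von Neumann algebra. -/
structure IsMasa (N : VonNeumannAlgebra H) (D : StarSubalgebra ℂ (H →L[ℂ] H)) : Prop where
  le : ∀ x ∈ D, x ∈ N
  comm : ∀ x ∈ D, ∀ y ∈ D, x * y = y * x
  max : ∀ x ∈ N, (∀ y ∈ D, x * y = y * x) → x ∈ D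

theorem star_mul_self_ne {x : H →L[ℂ] H} (hx : x ≠ 0) : star x * x ≠ 0 := by
  intro h
  exact hx ((CStarRing.star_mul_self_eq_zero_iff x).1 h)

/-- In an abelian star algebra, idempotents are self-adjoint. -/
theorem idem_selfadj (D : StarSubalgebra ℂ (H →L[ℂ] H))
    (hcomm : ∀ x ∈ D, ∀ y ∈ D, x * y = y * x) (r : H →L[ℂ] H) (hr : r ∈ D) (hrr : r * r = r) :
    star r = r := by
  have hsr : star r ∈ D := D.star_mem' hr
  have h1 : star r * star r = star r := by rw [← star_mul, hrr]
  have hc : r * star r = star r * r := hcomm _ hr _ hsr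
  have h2 : star (r - star r * r) * (r - star r * r) = 0 := by
    rw [star_sub, star_mul, star_star, sub_mul, mul_sub, mul_sub]
    have e1 : star r * (star r * r) = star r * r := by rw [← mul_assoc, h1]
    have e2 : star r * r * r = star r * r := by rw [mul_assoc, hrr]
    have e3 : star r * r * (star r * r) = star r * r := by
      calc star r * r * (star r * r) = star r * (r * star r) * r := by noncomm_ring
        _ = star r * (star r * r) * r := by rw [hc]
        _ = (star r * star r) * (r * r) := by noncomm_ring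
        _ = star r * r := by rw [h1, hrr]
    rw [e1, e2, e3]
    simp
  have h3 : r - star r * r = 0 := by
    by_contra h
    exact star_mul_self_ne h h2
  have h4 : r = star r * r := sub_eq_zero.1 h3
  have h5 : star r = star r * r := by
    conv_lhs => rw [h4]
    rw [star_mul, star_star]
  rw [h5, ← h4]

/-- The principal ideal `w D`. -/
noncomputable def prin (D : StarSubalgebra ℂ (H →L[ℂ] H)) (w : H →L[ℂ] H) : Submodule ℂ (H →L[ℂ] H) :=
  LinearMap.range (({ toFun := fun z => w * (z : H →L[ℂ] H)
                      map_add' := fun a b => by simp [mul_add]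
                      map_smul' := fun c a => by simp } : D →ₗ[ℂ] (H →L[ℂ] H)))

theorem mem_prin (D : StarSubalgebra ℂ (H →L[ℂ] H)) (w v : H →L[ℂ] H) :
    v ∈ prin D w ↔ ∃ z ∈ D, w * z = v := by
  constructor
  · rintro ⟨z, hz⟩
    exact ⟨z, z.2, hz⟩
  · rintro ⟨z, hz, h⟩
    exact ⟨⟨z, hz⟩, h⟩

/-- A masa of a diffuse algebra has no finite dimensional corners. -/
theorem masa_corner_infinite (N : VonNeumannAlgebra H)
    (hN : ∀ r ∈ N, r * r = r → star r = r → r ≠ 0 → ∃ x ∈ N, ∀ c : ℂ, r * x * r ≠ c • r)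
    (D : StarSubalgebra ℂ (H →L[ℂ] H)) (hD : IsMasa N D) :
    ∀ d ∈ D, star d = d → d ≠ 0 →
      ¬ FiniteDimensional ℂ (Submodule.span ℂ {w : H →L[ℂ] H | ∃ z ∈ D, w = d * z * d}) := by
  classical
  intro d hd hds hd0 hfin
  -- there is a nonzero element with finite dimensional principal ideal
  have hex : ∃ n : ℕ, ∃ w ∈ D, w ≠ 0 ∧ FiniteDimensional ℂ (prin D w) ∧
      Module.finrank ℂ (prin D w) = n := by
    refine ⟨_, d * d, D.mul_mem hd hd, ?_, ?_, rfl⟩
    · have := star_mul_self_ne hd0
      rwa [hds] at this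
    · have h1 : prin D (d * d) ≤ Submodule.span ℂ {w : H →L[ℂ] H | ∃ z ∈ D, w = d * z * d} := by
        intro v hv
        obtain ⟨z, hz, rfl⟩ := (mem_prin _ _ _).1 hv
        refine Submodule.subset_span ⟨z, hz, ?_⟩
        calc d * d * z = d * (d * z) := by noncomm_ring
          _ = d * (z * d) := by rw [hD.comm d hd z hz]
          _ = d * z * d := by noncomm_ring
      exact Submodule.finiteDimensional_of_le h1
  let n0 := Nat.find hex
  obtain ⟨w, hwD, hw0, hwfin, hwrank⟩ := Nat.find_spec hex
  have hmin : ∀ v ∈ D, v ≠ 0 → v ∈ prin D w → prin D v = prin D w := by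
    intro v hvD hv0 hvw
    obtain ⟨z0, hz0, hz0'⟩ := (mem_prin _ _ _).1 hvw
    have hle : prin D v ≤ prin D w := by
      intro u hu
      obtain ⟨z, hz, rfl⟩ := (mem_prin _ _ _).1 hu
      rw [mem_prin]
      exact ⟨z0 * z, D.mul_mem hz0 hz, by rw [← hz0', mul_assoc]⟩
    have hfin' : FiniteDimensional ℂ (prin D v) := Submodule.finiteDimensional_of_le hle
    have h1 : Nat.find hex ≤ Module.finrank ℂ (prin D v) :=
      Nat.find_min' hex ⟨v, hvD, hv0, hfin', rfl⟩
    apply Submodule.eq_of_le_of_finrank_le hle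
    rw [hwrank]
    exact h1
  have hwsD : star w ∈ D := D.star_mem' hwD
  set c := star w * w with hc
  have hcD : c ∈ D := D.mul_mem hwsD hwD
  have hc0 : c ≠ 0 := star_mul_self_ne hw0
  have hcs : star c = c := by rw [hc, star_mul, star_star]
  have hccD : c * c ∈ D := D.mul_mem hcD hcD
  have hcc0 : c * c ≠ 0 := by
    have := star_mul_self_ne hc0
    rwa [hcs] at this
  have hcw : ∀ z ∈ D, c * z ∈ prin D w := by
    intro z hz
    rw [mem_prin]
    refine ⟨star w * z, D.mul_mem hwsD hz, ?_⟩
    rw [hc, ← mul_assoc, hD.comm w hwD _ hwsD]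
  have hcprin : c ∈ prin D w := by
    have := hcw 1 D.one_mem
    rwa [mul_one] at this
  have hccprin : c * c ∈ prin D w := hcw c hcD
  have h1 := hmin (c * c) hccD hcc0 hccprin
  rw [← h1, mem_prin] at hcprin
  obtain ⟨z1, hz1, hz1'⟩ := hcprin
  set r := c * z1 with hr
  have hrD : r ∈ D := D.mul_mem hcD hz1
  have hcr : c * r = c := by rw [hr, ← mul_assoc, hz1']
  have hrr : r * r = r := by
    calc r * r = c * z1 * (c * z1) := by rw [hr]
      _ = c * (z1 * c) * z1 := by noncomm_ring
      _ = c * (c * z1) * z1 := by rw [hD.comm z1 hz1 c hcD]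
      _ = (c * c * z1) * z1 := by noncomm_ring
      _ = c * z1 := by rw [hz1']
      _ = r := by rw [hr]
  have hr0 : r ≠ 0 := by
    intro h
    rw [h, mul_zero] at hcr
    exact hc0 hcr.symm
  have hrs : star r = r := idem_selfadj D hD.comm r hrD hrr
  have hrw : r ∈ prin D w := hcw z1 hz1
  -- the ideal is one dimensional
  have heig : ∀ v ∈ D, ∃ μ : ℂ, v * r = μ • r := by
    intro v hv
    have hstab : ∀ e ∈ prin D w, v * e ∈ prin D w := by
      intro e he
      obtain ⟨z, hz, rfl⟩ := (mem_prin _ _ _).1 he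
      rw [mem_prin]
      refine ⟨v * z, D.mul_mem hv hz, ?_⟩
      rw [← mul_assoc, ← mul_assoc, hD.comm w hwD v hv]
    let M : Module.End ℂ (prin D w) :=
      { toFun := fun e => ⟨v * (e : H →L[ℂ] H), hstab e e.2⟩
        map_add' := fun a b => by
          apply Subtype.ext
          simp [mul_add]
        map_smul' := fun a b => by
          apply Subtype.ext
          simp }
    have hnt : Nontrivial (prin D w) := ⟨⟨r, hrw⟩, 0, by
      intro h
      exact hr0 (congrArg Subtype.val h)⟩
    obtain ⟨μ, hμ⟩ := Module.End.exists_eigenvalue M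
    obtain ⟨e, he⟩ := hμ.exists_hasEigenvector
    have he1 : v * (e : H →L[ℂ] H) = μ • (e : H →L[ℂ] H) := congrArg Subtype.val he.apply_eq_smul
    have he0 : (e : H →L[ℂ] H) ≠ 0 := by
      intro h
      exact he.2 (Subtype.ext h)
    obtain ⟨z2, hz2, hz2'⟩ := (mem_prin _ _ _).1 e.2
    have heD : (e : H →L[ℂ] H) ∈ D := by
      rw [← hz2']
      exact D.mul_mem hwD hz2
    have h2 := hmin e heD he0 e.2
    have h3 : r ∈ prin D (e : H →L[ℂ] H) := by rw [h2]; exact hrw
    obtain ⟨z3, hz3, hz3'⟩ := (mem_prin _ _ _).1 h3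
    refine ⟨μ, ?_⟩
    rw [← hz3', ← mul_assoc, he1, smul_mul_assoc]
  -- r is a minimal projection of N
  obtain ⟨x, hxN, hx⟩ := hN r (hD.le r hrD) hrr hrs hr0
  have hrN := hD.le r hrD
  have h4 : r * x * r ∈ D := by
    apply hD.max
    · exact mul_mem (mul_mem hrN hxN) hrN
    · intro y hy
      obtain ⟨μ, hμ⟩ := heig y hy
      have hμ' : r * y = μ • r := by rw [hD.comm r hrD y hy, hμ]
      calc r * x * r * y = r * x * (r * y) := by noncomm_ring
        _ = μ • (r * x * r) := by rw [hμ', mul_smul_comm]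
        _ = (y * r) * (x * r) := by rw [hμ, smul_mul_assoc, mul_assoc]
        _ = y * (r * x * r) := by noncomm_ring
  obtain ⟨μ, hμ⟩ := heig _ h4
  apply hx μ
  rw [← hμ, mul_assoc (r * x) r r, hrr]

/-- Every commuting star-closed subset of `N` lies in a masa. -/
theorem exists_masa (N : VonNeumannAlgebra H) (S : Set (H →L[ℂ] H)) (hSN : ∀ x ∈ S, x ∈ N)
    (hSs : ∀ x ∈ S, star x ∈ S) (hSc : ∀ x ∈ S, ∀ y ∈ S, x * y = y * x) :
    ∃ D : StarSubalgebra ℂ (H →L[ℂ] H), IsMasa N D ∧ ∀ x ∈ S, x ∈ D := by
  classical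
  let F : Set (Set (H →L[ℂ] H)) := {M | (∀ x ∈ M, x ∈ N) ∧ (∀ x ∈ M, star x ∈ M) ∧
    ∀ x ∈ M, ∀ y ∈ M, x * y = y * x}
  obtain ⟨M, hSM, hM⟩ := zorn_subset_nonempty F (by
    intro c hcF hchain hcne
    refine ⟨⋃₀ c, ⟨?_, ?_, ?_⟩, fun s hs => Set.subset_sUnion_of_mem hs⟩
    · rintro x ⟨s, hs, hx⟩
      exact (hcF hs).1 x hx
    · rintro x ⟨s, hs, hx⟩
      exact ⟨s, hs, (hcF hs).2.1 x hx⟩
    · rintro x ⟨s, hs, hx⟩ y ⟨t, ht, hy⟩
      rcases hchain.total hs ht with h | h
      · exact (hcF ht).2.2 x (h hx) y hy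
      · exact (hcF hs).2.2 x hx y (h hy)) S ⟨hSN, hSs, hSc⟩
  obtain ⟨hMN, hMs, hMc⟩ := hM.prop
  -- adding a normal element
  have hadd : ∀ x ∈ N, (∀ y ∈ M, x * y = y * x) → x * star x = star x * x → x ∈ M := by
    intro x hxN hxc hxn
    have hxc' : ∀ y ∈ M, star x * y = y * star x := by
      intro y hy
      have h := congrArg star (hxc (star y) (hMs y hy))
      simpa using h.symm
    have hF : insert x (insert (star x) M) ∈ F := by
      refine ⟨?_, ?_, ?_⟩
      · rintro y (rfl | rfl | hy)
        · exact hxN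
        · exact star_mem hxN
        · exact hMN y hy
      · rintro y (rfl | rfl | hy)
        · right; left; rfl
        · left; exact star_star _
        · right; right; exact hMs y hy
      · rintro y (rfl | rfl | hy) z (rfl | rfl | hz)
        · rfl
        · exact hxn
        · exact hxc z hz
        · exact hxn.symm
        · rfl
        · exact hxc' z hz
        · exact (hxc y hy).symm
        · exact (hxc' y hy).symm
        · exact hMc y hy z hz
    have hsub : M ⊆ insert x (insert (star x) M) := fun y hy => Or.inr (Or.inr hy)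
    have := hM.le_of_ge hF hsub
    exact this (Or.inl rfl)
  have hmax : ∀ x ∈ N, (∀ y ∈ M, x * y = y * x) → x ∈ M := by
    intro x hxN hxc
    have hxc' : ∀ y ∈ M, star x * y = y * star x := by
      intro y hy
      have h := congrArg star (hxc (star y) (hMs y hy))
      simpa using h.symm
    have hxsN : star x ∈ N := star_mem hxN
    have h1 : x + star x ∈ M := by
      refine hadd _ (add_mem hxN hxsN) ?_ ?_
      · intro y hy
        rw [add_mul, mul_add, hxc y hy, hxc' y hy]
      · rw [star_add, star_star, add_comm]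
    have h2 : x - star x ∈ M := by
      refine hadd _ (sub_mem hxN hxsN) ?_ ?_
      · intro y hy
        rw [sub_mul, mul_sub, hxc y hy, hxc' y hy]
      · rw [star_sub, star_star]
        noncomm_ring
    have h3 := hMc _ h1 _ h2
    refine hadd x hxN hxc ?_
    have h4 : (x + star x) * (x - star x) - (x - star x) * (x + star x) =
        (2 : ℂ) • (star x * x - x * star x) := by
      rw [two_smul]
      noncomm_ring
    rw [h3, sub_self] at h4
    rcases smul_eq_zero.1 h4.symm with h5 | h5
    · norm_num at h5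
    · exact (sub_eq_zero.1 h5).symm
  let D : StarSubalgebra ℂ (H →L[ℂ] H) :=
    { carrier := M
      mul_mem' := by
        intro a b ha hb
        refine hmax _ (mul_mem (hMN a ha) (hMN b hb)) ?_
        intro y hy
        rw [mul_assoc, hMc b hb y hy, ← mul_assoc, hMc a ha y hy, mul_assoc]
      add_mem' := by
        intro a b ha hb
        refine hmax _ (add_mem (hMN a ha) (hMN b hb)) ?_
        intro y hy
        rw [add_mul, mul_add, hMc a ha y hy, hMc b hb y hy]
      algebraMap_mem' := by
        intro c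
        refine hmax _ ?_ ?_
        · exact N.toStarSubalgebra.algebraMap_mem c
        · intro y hy
          exact Algebra.commutes c y
      star_mem' := fun {a} ha => hMs a ha }
  exact ⟨D, ⟨hMN, hMc, hmax⟩, fun x hx => hSM hx⟩

end Pool.Agent.Helper278
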