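import Mathlib
import Pool.Agent.KS6_19.UP.L.Helper278.Masa
import Pool.Agent.KS6_19.UP.L.Helper278.Finite
import Pool.Agent.KS6_19.UP.L.Helper278.Defs

set_option autoImplicit false
set_option linter.unusedSectionVars false

open scoped InnerProductSpace Topology ComplexOrder
open Filter

namespace Pool.Agent.Helper278

universe u

variable {H : Type u} [NormedAddCommGroup H] [InnerProductSpace ℂ H] [CompleteSpace H]

/-- Bundled faithful normal tracial states (used in proofs only). -/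
structure TracialState (N : VonNeumannAlgebra H) where
  /-- the functional -/
  τ : Elt N →ₗ[ℂ] ℂ
  normal : ∃ ξ : ℕ → H, Summable (fun k => ‖ξ k‖ ^ 2) ∧
    ∀ x : Elt N, τ x = ∑' k, ⟪ξ k, (x : H →L[ℂ] H) (ξ k)⟫_ℂ
  map_one : τ 1 = 1
  tracial : ∀ x y : Elt N, τ (x * y) = τ (y * x)
  faithful : ∀ x : Elt N, τ (star x * x) = 0 → x = 0

theorem summable_inner (ξ η : ℕ → H) (hξ : Summable (fun k => ‖ξ k‖ ^ 2))
    (hη : Summable (fun k => ‖η k‖ ^ 2)) (X : H →L[ℂ] H) :
    Summable (fun k => ⟪ξ k, X (η k)⟫_ℂ) := by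
  have h1 : Summable (fun k => ‖X‖ * (‖ξ k‖ ^ 2 + ‖η k‖ ^ 2)) := (hξ.add hη).mul_left _
  refine Summable.of_norm_bounded h1 ?_
  intro k
  have h2 : ‖⟪ξ k, X (η k)⟫_ℂ‖ ≤ ‖ξ k‖ * (‖X‖ * ‖η k‖) :=
    (norm_inner_le_norm _ _).trans (mul_le_mul_of_nonneg_left (X.le_opNorm _) (norm_nonneg _))
  have h3 : ‖ξ k‖ * ‖η k‖ ≤ ‖ξ k‖ ^ 2 + ‖η k‖ ^ 2 := by
    nlinarith [sq_nonneg (‖ξ k‖ - ‖η k‖), sq_nonneg (‖ξ k‖), sq_nonneg (‖η k‖)]
  calc ‖⟪ξ k, X (η k)⟫_ℂ‖ ≤ ‖ξ k‖ * (‖X‖ * ‖η k‖) := h2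
    _ = ‖X‖ * (‖ξ k‖ * ‖η k‖) := by ring
    _ ≤ ‖X‖ * (‖ξ k‖ ^ 2 + ‖η k‖ ^ 2) := mul_le_mul_of_nonneg_left h3 (norm_nonneg _)

/-- the normal functional attached to two square summable sequences of vectors -/
noncomputable def nfun (ξ η : ℕ → H) (hξ : Summable (fun k => ‖ξ k‖ ^ 2))
    (hη : Summable (fun k => ‖η k‖ ^ 2)) : (H →L[ℂ] H) →ₗ[ℂ] ℂ where
  toFun X := ∑' k, ⟪ξ k, X (η k)⟫_ℂ
  map_add' X Y := by
    rw [← Summable.tsum_add (summable_inner ξ η hξ hη X) (summable_inner ξ η hξ hη Y)]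
    congr 1
    funext k
    simp
  map_smul' c X := by
    simp only [RingHom.id_apply, smul_eq_mul]
    rw [← tsum_mul_left]
    congr 1
    funext k
    simp

theorem wotCont_nfun (ξ η : ℕ → H) (hξ : Summable (fun k => ‖ξ k‖ ^ 2))
    (hη : Summable (fun k => ‖η k‖ ^ 2)) : WotCont (nfun ξ η hξ hη) := by
  unfold WotCont
  show ContinuousOn (fun T : H →WOT[ℂ] H => ∑' k, ⟪ξ k, T.toCLM (η k)⟫_ℂ) _
  refine continuousOn_tsum (u := fun k => ‖ξ k‖ ^ 2 + ‖η k‖ ^ 2) ?_ (hξ.add hη) ?_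
  · intro k
    refine Continuous.continuousOn ?_
    have := (ContinuousLinearMapWOT.continuous_iff (f := fun T : H →WOT[ℂ] H => T)).1
      continuous_id (η k) (ξ k)
    exact this
  · intro k T hT
    have hT' : ‖T.toCLM‖ ≤ 1 := hT
    have h2 : ‖⟪ξ k, T.toCLM (η k)⟫_ℂ‖ ≤ ‖ξ k‖ * (1 * ‖η k‖) :=
      (norm_inner_le_norm _ _).trans
        (mul_le_mul_of_nonneg_left (T.toCLM.le_of_opNorm_le hT' _) (norm_nonneg _))
    nlinarith [sq_nonneg (‖ξ k‖ - ‖η k‖), sq_nonneg (‖ξ k‖), sq_nonneg (‖η k‖)]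

variable {N : VonNeumannAlgebra H}

/-- bundling -/
noncomputable def mkState (N : VonNeumannAlgebra H) (τ : Elt N → ℂ) (h1 : IsNormalPositive N τ)
    (h2 : IsFaithfulTrace τ) : TracialState N where
  τ :=
    { toFun := τ
      map_add' := by
        obtain ⟨ξ, hξ, hT⟩ := h1
        intro x y
        rw [hT, hT, hT,
          ← Summable.tsum_add (summable_inner ξ ξ hξ hξ _) (summable_inner ξ ξ hξ hξ _)]
        congr 1
        funext k
        simp
      map_smul' := by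
        obtain ⟨ξ, hξ, hT⟩ := h1
        intro c x
        rw [hT, hT]
        simp only [RingHom.id_apply, smul_eq_mul]
        rw [← tsum_mul_left]
        congr 1
        funext k
        simp }
  normal := h1
  map_one := h2.one
  tracial := h2.tracial
  faithful := h2.faithful

theorem mkState_apply (N : VonNeumannAlgebra H) (τ : Elt N → ℂ) (h1 : IsNormalPositive N τ)
    (h2 : IsFaithfulTrace τ) (x : Elt N) : (mkState N τ h1 h2).τ x = τ x := rfl

/-- positivity of the trace, in terms of the vectors -/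
theorem tau_star_mul (T : TracialState N) (ξ : ℕ → H) (hξ : Summable (fun k => ‖ξ k‖ ^ 2))
    (hT : ∀ x : Elt N, T.τ x = ∑' k, ⟪ξ k, (x : H →L[ℂ] H) (ξ k)⟫_ℂ) (x : Elt N) :
    T.τ (star x * x) = ((∑' k, ‖(x : H →L[ℂ] H) (ξ k)‖ ^ 2 : ℝ) : ℂ) := by
  rw [hT, Complex.ofReal_tsum]
  congr 1
  funext k
  have h1 : ((star x * x : Elt N) : H →L[ℂ] H) = star (x : H →L[ℂ] H) * (x : H →L[ℂ] H) := rfl
  rw [h1, ContinuousLinearMap.star_eq_adjoint]
  show ⟪ξ k, ContinuousLinearMap.adjoint (x : H →L[ℂ] H) ((x : H →L[ℂ] H) (ξ k))⟫_ℂ = _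
  rw [ContinuousLinearMap.adjoint_inner_right, inner_self_eq_norm_sq_to_K]
  push_cast
  rfl

theorem summable_norm_apply (ξ : ℕ → H) (hξ : Summable (fun k => ‖ξ k‖ ^ 2)) (X : H →L[ℂ] H) :
    Summable (fun k => ‖X (ξ k)‖ ^ 2) := by
  refine Summable.of_nonneg_of_le (fun k => sq_nonneg _) (fun k => ?_) (hξ.mul_left (‖X‖ ^ 2))
  rw [← mul_pow]
  exact pow_le_pow_left₀ (norm_nonneg _) (X.le_opNorm _) 2

theorem trAlg (T : TracialState N) : TrAlg T.τ := by
  obtain ⟨ξ, hξ, hT⟩ := T.normal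
  refine ⟨T.map_one, T.tracial, ?_, ?_, T.faithful⟩
  · intro x
    rw [tau_star_mul T ξ hξ hT]
    exact Complex.zero_le_real.2 (tsum_nonneg fun k => sq_nonneg _)
  · intro x
    rw [hT, hT, Complex.star_def, Complex.conj_tsum]
    congr 1
    funext k
    have h1 : ((star x : Elt N) : H →L[ℂ] H) = star (x : H →L[ℂ] H) := rfl
    rw [h1, ContinuousLinearMap.star_eq_adjoint, ContinuousLinearMap.adjoint_inner_right,
      inner_conj_symm]

/-- the 2-norm estimate for left multiplication -/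
theorem n2_mul_le (T : TracialState N) (a x : Elt N) :
    n2 T.τ (a * x) ≤ ‖(a : H →L[ℂ] H)‖ * n2 T.τ x := by
  obtain ⟨ξ, hξ, hT⟩ := T.normal
  unfold n2
  rw [tau_star_mul T ξ hξ hT, tau_star_mul T ξ hξ hT, Complex.ofReal_re, Complex.ofReal_re]
  rw [← Real.sqrt_sq (norm_nonneg (a : H →L[ℂ] H)), ← Real.sqrt_mul (sq_nonneg _)]
  refine Real.sqrt_le_sqrt ?_
  rw [← tsum_mul_left]
  refine Summable.tsum_le_tsum ?_ (summable_norm_apply ξ hξ _)
    ((summable_norm_apply ξ hξ _).mul_left _)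
  intro k
  rw [← mul_pow]
  exact pow_le_pow_left₀ (norm_nonneg _) ((a : H →L[ℂ] H).le_opNorm _) 2

theorem n2_mul_le' (T : TracialState N) (x a : Elt N) :
    n2 T.τ (x * a) ≤ ‖(a : H →L[ℂ] H)‖ * n2 T.τ x := by
  have h := trAlg T
  have h1 := n2_mul_le T (star a) (star x)
  rw [← star_mul, h.n2_star, h.n2_star] at h1
  have h2 : ‖((star a : Elt N) : H →L[ℂ] H)‖ = ‖(a : H →L[ℂ] H)‖ := by
    have : ((star a : Elt N) : H →L[ℂ] H) = star (a : H →L[ℂ] H) := rfl
    rw [this, norm_star]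
  rwa [h2] at h1

/-- The Lyapunov property holds in diffuse tracial von Neumann algebras. -/
theorem lyapProp (T : TracialState N) (hN : IsDiffuse N) : LyapProp T.τ := by
  classical
  obtain ⟨ξ, hξ, hT⟩ := T.normal
  intro S hSs hSc
  obtain ⟨D, hD, hSD⟩ := exists_masa N ((fun x : Elt N => (x : H →L[ℂ] H)) '' S)
    (by
      rintro _ ⟨x, hx, rfl⟩
      exact x.2)
    (by
      rintro _ ⟨x, hx, rfl⟩
      exact ⟨star x, hSs x hx, rfl⟩)
    (by
      rintro _ ⟨x, hx, rfl⟩ _ ⟨y, hy, rfl⟩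
      have := congrArg (fun z : Elt N => (z : H →L[ℂ] H)) (hSc x hx y hy)
      exact this)
  -- pull back to `Elt N`
  let E : StarSubalgebra ℂ (Elt N) := D.comap (N.toStarSubalgebra.subtype)
  have hE : ∀ x : Elt N, x ∈ E ↔ (x : H →L[ℂ] H) ∈ D := fun x => Iff.rfl
  refine ⟨E, ?_, ?_, ?_⟩
  · intro x hx
    exact (hE x).2 (hSD _ ⟨x, hx, rfl⟩)
  · intro x hx y hy
    apply Subtype.ext
    exact hD.comm _ ((hE x).1 hx) _ ((hE y).1 hy)
  · intro ι κ _ _ x y hx hpos hsum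
    have hinf := masa_corner_infinite N (by
      intro r hr hrr hrs hr0
      exact hN r hr hrr hrs hr0) D hD
    -- D is a commutant
    let T' : Set (H →L[ℂ] H) := (D : Set (H →L[ℂ] H)) ∪ Set.centralizer (N : Set (H →L[ℂ] H))
    have hDT : ∀ z, z ∈ D ↔ ∀ t ∈ T', t * z = z * t := by
      intro z
      constructor
      · rintro hz t (ht | ht)
        · exact hD.comm t ht z hz
        · exact (ht z (hD.le z hz)).symm
      · intro hz
        apply hD.max
        · have h1 : z ∈ Set.centralizer (Set.centralizer (N : Set (H →L[ℂ] H))) := by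
            intro t ht
            exact hz t (Or.inr ht)
          rw [VonNeumannAlgebra.centralizer_centralizer] at h1
          exact h1
        · intro t ht
          exact (hz t (Or.inl ht)).symm
    have hgen : ∀ z : Elt N, Pos z → (0 : H →L[ℂ] H) ≤ (z : H →L[ℂ] H) := by
      intro z hz
      unfold Pos at hz
      induction hz using AddSubmonoid.closure_induction with
      | mem z hz =>
        obtain ⟨c, rfl⟩ := hz
        exact star_mul_self_nonneg (c : H →L[ℂ] H)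
      | zero => exact le_rfl
      | add u v _ _ hu hv => exact add_nonneg hu hv
    have hposi : ∀ i, ((x i : Elt N) : H →L[ℂ] H).IsPositive := by
      intro i
      rw [← ContinuousLinearMap.nonneg_iff_isPositive]
      exact hgen _ (hpos i)
    let f : κ → (H →L[ℂ] H) →ₗ[ℂ] ℂ := fun k =>
      nfun ξ (fun n => (y k : H →L[ℂ] H) (ξ n)) hξ (summable_norm_apply ξ hξ _)
    have hfτ : ∀ k (z : Elt N), f k (z : H →L[ℂ] H) = T.τ (z * y k) := by
      intro k z
      rw [hT]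
      rfl
    obtain ⟨p, hpD, hps, hpi, hpo, hpsum, hpf⟩ := lyapunov_abelian D T' hDT hD.comm hinf f
      (fun k => wotCont_nfun _ _ _ _) (fun i => (x i : H →L[ℂ] H)) (fun i => (hE _).1 (hx i)) hposi
      (by
        have := congrArg (fun z : Elt N => (z : H →L[ℂ] H)) hsum
        simpa using this)
    let P : ι → Elt N := fun i => ⟨p i, hD.le _ (hpD i)⟩
    refine ⟨P, fun i => (hE _).2 (hpD i), ⟨?_, ?_, ?_, ?_⟩, ?_⟩
    · intro i; exact Subtype.ext (hps i)
    · intro i; exact Subtype.ext (hpi i)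
    · intro i j hij; exact Subtype.ext (hpo i j hij)
    · apply Subtype.ext
      have : ((∑ i, P i : Elt N) : H →L[ℂ] H) = ∑ i, p i := by
        rw [AddSubmonoidClass.coe_finsetSum]
      rw [this, hpsum]
      rfl
    · intro i k
      rw [← hfτ, ← hfτ]
      exact hpf i k

end Pool.Agent.Helper278
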