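import Mathlib
import Pool.Agent.KS6_19.UP.L.Helper278.Lyap

set_option autoImplicit false
set_option linter.unusedSectionVars false

open scoped InnerProductSpace Topology ComplexOrder
open Filter

namespace Pool.Agent.Helper278

universe u

variable {H : Type u} [NormedAddCommGroup H] [InnerProductSpace ℂ H] [CompleteSpace H]

/-- A normal functional attains its maximum over the unit ball of a von Neumann algebra at an
extreme point of the ball. -/
theorem exists_extreme_max (N : VonNeumannAlgebra H) (f : (H →L[ℂ] H) →ₗ[ℂ] ℂ) (hf : WotCont f) :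
    ∃ w ∈ N, ‖w‖ ≤ 1 ∧ (∀ y ∈ N, ‖y‖ ≤ 1 → (f y).re ≤ (f w).re) ∧
      ∀ h ∈ N, ‖w + h‖ ≤ 1 → ‖w - h‖ ≤ 1 → h = 0 := by
  classical
  let B : Set (H →WOT[ℂ] H) := {T : H →WOT[ℂ] H | ‖T.toCLM‖ ≤ 1}
  have hB : IsCompact B := isCompact_wot_ball
  have hmem : ∀ z : H →L[ℂ] H, z ∈ N ↔ ∀ t ∈ Set.centralizer (N : Set (H →L[ℂ] H)),
      t * z = z * t := by
    intro z
    constructor
    · intro hz t ht
      exact (ht z hz).symm
    · intro hz
      have h1 : z ∈ Set.centralizer (Set.centralizer (N : Set (H →L[ℂ] H))) := hz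
      rw [VonNeumannAlgebra.centralizer_centralizer] at h1
      exact h1
  let K : Set (H →WOT[ℂ] H) := B ∩ ⋂ t ∈ Set.centralizer (N : Set (H →L[ℂ] H)),
      {y : H →WOT[ℂ] H | ContinuousLinearMapWOT.ofCLM t * y = y * ContinuousLinearMapWOT.ofCLM t}
  have hKc : IsCompact K := by
    refine hB.inter_right ?_
    refine isClosed_biInter fun t _ => isClosed_eq ?_ ?_
    · exact continuous_const_mul _
    · exact continuous_mul_const _
  have hKmem : ∀ y : H →WOT[ℂ] H, y ∈ K ↔ ‖y.toCLM‖ ≤ 1 ∧ y.toCLM ∈ N := by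
    intro y
    rw [hmem]
    constructor
    · rintro ⟨h1, h2⟩
      simp only [Set.mem_iInter, Set.mem_ofPred_eq] at h2
      refine ⟨h1, fun t ht => ?_⟩
      have := congrArg ContinuousLinearMapWOT.toCLM (h2 t ht)
      simpa using this
    · rintro ⟨h1, h2⟩
      refine ⟨h1, ?_⟩
      simp only [Set.mem_iInter, Set.mem_ofPred_eq]
      intro t ht
      apply ContinuousLinearMapWOT.toCLM_injective
      simpa using h2 t ht
  have hKne : K.Nonempty := ⟨ContinuousLinearMapWOT.ofCLM 0, (hKmem _).2 ⟨by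
    show ‖(0 : H →L[ℂ] H)‖ ≤ 1
    simp, zero_mem N⟩⟩
  have hcont : ContinuousOn (fun T : H →WOT[ℂ] H => (f T.toCLM).re) K :=
    (Complex.continuous_re.comp_continuousOn hf).mono fun y hy => hy.1
  obtain ⟨w0, hw0, hmax⟩ := hKc.exists_isMaxOn hKne hcont
  let F : Set (H →WOT[ℂ] H) := K ∩ {y | (f y.toCLM).re = (f w0.toCLM).re}
  have hFc : IsCompact F := by
    refine hKc.of_isClosed_subset ?_ Set.inter_subset_left
    exact hcont.preimage_isClosed_of_isClosed hKc.isClosed isClosed_singleton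
  obtain ⟨w, hw⟩ := hFc.extremePoints_nonempty ⟨w0, hw0, rfl⟩
  have hwK := (hKmem w).1 hw.1.1
  have hwM : (f w.toCLM).re = (f w0.toCLM).re := hw.1.2
  have hall : ∀ y ∈ N, ‖y‖ ≤ 1 → (f y).re ≤ (f w.toCLM).re := by
    intro y hy hy1
    rw [hwM]
    exact hmax (show ContinuousLinearMapWOT.ofCLM y ∈ K from (hKmem _).2 ⟨hy1, hy⟩)
  refine ⟨w.toCLM, hwK.2, hwK.1, hall, ?_⟩
  intro h hh h1 h2
  have hp : w.toCLM + h ∈ N := add_mem hwK.2 hh
  have hm : w.toCLM - h ∈ N := sub_mem hwK.2 hh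
  have e1 := hall _ hp h1
  have e2 := hall _ hm h2
  rw [map_add, Complex.add_re] at e1
  rw [map_sub, Complex.sub_re] at e2
  have e3 : (f h).re = 0 := by linarith
  have m1 : ContinuousLinearMapWOT.ofCLM (w.toCLM + h) ∈ F := by
    refine ⟨(hKmem _).2 ⟨h1, hp⟩, ?_⟩
    show (f (w.toCLM + h)).re = _
    rw [map_add, Complex.add_re, e3, add_zero, hwM]
  have m2 : ContinuousLinearMapWOT.ofCLM (w.toCLM - h) ∈ F := by
    refine ⟨(hKmem _).2 ⟨h2, hm⟩, ?_⟩
    show (f (w.toCLM - h)).re = _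
    rw [map_sub, Complex.sub_re, e3, sub_zero, hwM]
  have h3 := hw.2 (x₁ := ContinuousLinearMapWOT.ofCLM (w.toCLM + h)) m1
    (x₂ := ContinuousLinearMapWOT.ofCLM (w.toCLM - h)) m2 ?_
  · have h4 := congrArg ContinuousLinearMapWOT.toCLM h3
    have h5 : w.toCLM + h = w.toCLM := h4
    simpa using h5
  · refine ⟨2⁻¹, 2⁻¹, by norm_num, by norm_num, by norm_num, ?_⟩
    apply ContinuousLinearMapWOT.toCLM_injective
    show (2⁻¹ : ℝ) • (w.toCLM + h) + (2⁻¹ : ℝ) • (w.toCLM - h) = w.toCLM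
    rw [← smul_add]
    have : w.toCLM + h + (w.toCLM - h) = (2 : ℝ) • w.toCLM := by
      rw [two_smul]; abel
    rw [this, smul_smul]
    norm_num

theorem norm_le_one_of_star_mul {y : H →L[ℂ] H} (h : star y * y ≤ 1) : ‖y‖ ≤ 1 := by
  have h1 : ‖star y * y‖ ≤ 1 :=
    (CStarAlgebra.norm_le_one_iff_of_nonneg (star y * y) (star_mul_self_nonneg y)).2 h
  rw [CStarRing.norm_star_mul_self] at h1
  nlinarith [norm_nonneg y]

theorem star_mul_le_one {y : H →L[ℂ] H} (h : ‖y‖ ≤ 1) : star y * y ≤ 1 := by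
  refine (CStarAlgebra.norm_le_one_iff_of_nonneg (star y * y) (star_mul_self_nonneg y)).1 ?_
  rw [CStarRing.norm_star_mul_self]
  nlinarith [norm_nonneg y]

theorem four_smul (z : H →L[ℂ] H) : (4 : ℝ) • z = 4 * z := by
  have h1 : (4 : ℝ) • z = (2 : ℝ) • ((2 : ℝ) • z) := by rw [smul_smul]; norm_num
  rw [h1, two_smul, two_smul]
  noncomm_ring

/-- Extreme points of the unit ball are partial isometries. -/
theorem extreme_partial (N : VonNeumannAlgebra H) {w : H →L[ℂ] H} (hw : w ∈ N) (h1 : ‖w‖ ≤ 1)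
    (hext : ∀ h ∈ N, ‖w + h‖ ≤ 1 → ‖w - h‖ ≤ 1 → h = 0) : w * (star w * w) = w := by
  have ht0 : 0 ≤ star w * w := star_mul_self_nonneg w
  have ht1 : star w * w ≤ 1 := star_mul_le_one h1
  set t := star w * w with ht
  set k : H →L[ℂ] H := (4⁻¹ : ℝ) • (1 - t) with hk
  have hs0 : 0 ≤ 1 - t := sub_nonneg.2 ht1
  have hk0 : 0 ≤ k := smul_nonneg (by norm_num) hs0
  have h4k : 4 * k = 1 - t := by
    rw [← four_smul, hk, smul_smul]
    norm_num
  have htk : t = 1 - 4 * k := by rw [h4k]; abel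
  have hks : star k = k := (IsSelfAdjoint.of_nonneg hk0).star_eq
  have hkk : 0 ≤ k * k := by
    have := star_mul_self_nonneg k
    rwa [hks] at this
  have hkkk : 0 ≤ k * k * k := by
    have := star_left_conjugate_nonneg hk0 k
    rwa [hks] at this
  have hNt : t ∈ N := by
    rw [ht]; exact mul_mem (star_mem hw) hw
  have hkN : k ∈ N := by
    have : k = ((4⁻¹ : ℝ) : ℂ) • (1 - t) := by rw [hk, Complex.coe_smul]
    rw [this]
    exact N.toStarSubalgebra.smul_mem (sub_mem (one_mem N) hNt) _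
  have hst : star (w * k) = k * star w := by rw [star_mul, hks]
  have hss : 0 ≤ (1 - t) - (1 - t) * (1 - t) := sub_sq_nonneg' _ hs0 (by
    rw [sub_le_self_iff]; exact ht0)
  have hkq : 0 ≤ k - 4 * (k * k) := by
    have e : k - 4 * (k * k) = (4⁻¹ : ℝ) • ((1 - t) - (1 - t) * (1 - t)) := by
      rw [← h4k, smul_sub]
      have e2 : (4⁻¹ : ℝ) • (4 * k) = k := by rw [h4k]
      rw [e2]
      congr 1
      have : 4 * k * (4 * k) = (4 : ℝ) • (4 * (k * k)) := by
        rw [four_smul]
        noncomm_ring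
      rw [this, smul_smul]
      norm_num
    rw [e]
    exact smul_nonneg (by norm_num) hss
  have hz : w * k = 0 := by
    apply hext (w * k) (mul_mem hw hkN)
    · apply norm_le_one_of_star_mul
      have e : star (w + w * k) * (w + w * k) = 1 - (2 * k + 7 * (k * k) + 4 * (k * k * k)) := by
        rw [star_add, hst]
        calc (star w + k * star w) * (w + w * k) = (1 + k) * (star w * w) * (1 + k) := by
              noncomm_ring
          _ = (1 + k) * (1 - 4 * k) * (1 + k) := by rw [← ht, htk]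
          _ = 1 - (2 * k + 7 * (k * k) + 4 * (k * k * k)) := by noncomm_ring
      rw [e, sub_le_self_iff]
      have n1 : 0 ≤ 2 * k := by rw [two_mul]; exact add_nonneg hk0 hk0
      have n2 : 0 ≤ 7 * (k * k) := by
        have : 7 * (k * k) = (7 : ℕ) • (k * k) := by rw [nsmul_eq_mul]; simp
        rw [this]; exact nsmul_nonneg hkk 7
      have n3 : 0 ≤ 4 * (k * k * k) := by
        have : 4 * (k * k * k) = (4 : ℕ) • (k * k * k) := by rw [nsmul_eq_mul]; simp
        rw [this]; exact nsmul_nonneg hkkk 4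
      exact add_nonneg (add_nonneg n1 n2) n3
    · apply norm_le_one_of_star_mul
      have e : star (w - w * k) * (w - w * k) =
          1 - (3 * (k - 4 * (k * k)) + 3 * k + 3 * (k * k) + 4 * (k * k * k)) := by
        rw [star_sub, hst]
        calc (star w - k * star w) * (w - w * k) = (1 - k) * (star w * w) * (1 - k) := by
              noncomm_ring
          _ = (1 - k) * (1 - 4 * k) * (1 - k) := by rw [← ht, htk]
          _ = 1 - (3 * (k - 4 * (k * k)) + 3 * k + 3 * (k * k) + 4 * (k * k * k)) := by noncomm_ring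
      rw [e, sub_le_self_iff]
      have three : ∀ z : H →L[ℂ] H, 0 ≤ z → 0 ≤ 3 * z := by
        intro z hz
        have : 3 * z = (3 : ℕ) • z := by rw [nsmul_eq_mul]; simp
        rw [this]; exact nsmul_nonneg hz 3
      have n3 : 0 ≤ 4 * (k * k * k) := by
        have : 4 * (k * k * k) = (4 : ℕ) • (k * k * k) := by rw [nsmul_eq_mul]; simp
        rw [this]; exact nsmul_nonneg hkkk 4
      exact add_nonneg (add_nonneg (add_nonneg (three _ hkq) (three _ hk0)) (three _ hkk)) n3
  have h5 : w * (1 - t) = 0 := by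
    rw [← h4k]
    have : w * (4 * k) = 4 * (w * k) := by noncomm_ring
    rw [this, hz, mul_zero]
  rw [mul_sub, mul_one, sub_eq_zero] at h5
  exact h5.symm

end Pool.Agent.Helper278
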