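import Mathlib
import Pool.Agent.KS6_19.UP.L.Helper278.Trace
import Pool.Agent.KS6_19.UP.L.Helper278.Unit

set_option autoImplicit false
set_option linter.unusedSectionVars false

open scoped InnerProductSpace Topology ComplexOrder
open Filter

namespace Pool.Agent.Helper278

universe u

section abstract

variable {A : Type*} [Ring A] [StarRing A] [Algebra ℂ A] [StarModule ℂ A] {τ : A →ₗ[ℂ] ℂ}

/-- In a tracial algebra, an extreme partial isometry is unitary. -/
theorem TrAlg.unitary_of_extreme (h : TrAlg τ) {w : A} (hp : w * (star w * w) = w)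
    (hc : ∀ y, (1 - w * star w) * y * (1 - star w * w) = 0) :
    star w * w = 1 ∧ w * star w = 1 := by
  classical
  set e : A := 1 - w * star w with he
  have hes : star e = e := by rw [he, star_sub, star_one, star_mul, star_star]
  have hp' : w * star w * w = w := by rw [mul_assoc, hp]
  have hee : e * e = e := by
    rw [he]
    have : w * star w * (w * star w) = w * star w := by
      calc w * star w * (w * star w) = (w * star w * w) * star w := by noncomm_ring
        _ = w * star w := by rw [hp']
    calc (1 - w * star w) * (1 - w * star w) =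
        1 - w * star w - w * star w + w * star w * (w * star w) := by noncomm_ring
      _ = 1 - w * star w := by rw [this]; noncomm_ring
  have hew : e * w = 0 := by rw [he, sub_mul, one_mul, hp', sub_self]
  have hc' : ∀ y, star w * w * (y * e) = y * e := by
    intro y
    have h1 := congrArg star (hc (star y))
    rw [star_mul, star_mul, star_star, star_zero, hes] at h1
    have h2 : star (1 - star w * w) = 1 - star w * w := by
      rw [star_sub, star_one, star_mul, star_star]
    rw [h2, sub_mul, one_mul, sub_eq_zero] at h1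
    exact h1.symm
  -- the vectors
  let v : ℕ → A := fun k => w ^ k * e
  have hv1 : ∀ k, v (k + 1) = w * v k := by
    intro k
    show w ^ (k + 1) * e = w * (w ^ k * e)
    rw [pow_succ', mul_assoc]
  have hvw : ∀ k, star w * (w * v k) = v k := by
    intro k
    rw [← mul_assoc]
    exact hc' (w ^ k)
  have hshift : ∀ j k, star (v (j + 1)) * v (k + 1) = star (v j) * v k := by
    intro j k
    rw [hv1, hv1, star_mul, mul_assoc, hvw]
  have hdiag : ∀ k, star (v k) * v k = e := by
    intro k
    induction k with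
    | zero =>
      show star (w ^ 0 * e) * (w ^ 0 * e) = e
      rw [pow_zero, one_mul, hes, hee]
    | succ k ih => rw [hshift, ih]
  have hoff : ∀ j k, star (v j) * v (j + k + 1) = 0 := by
    intro j k
    induction j with
    | zero =>
      show star (w ^ 0 * e) * (v (0 + k + 1)) = 0
      rw [pow_zero, one_mul, hes, hv1, ← mul_assoc, hew, zero_mul]
    | succ j ih =>
      have : j + 1 + k + 1 = (j + k + 1) + 1 := by ring
      rw [this, hshift, ih]
  have horth : ∀ j k, j ≠ k → star (v j) * v k = 0 := by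
    intro j k hjk
    rcases lt_or_gt_of_ne hjk with h1 | h1
    · obtain ⟨d, rfl⟩ := Nat.exists_eq_add_of_lt h1
      exact hoff j d
    · obtain ⟨d, rfl⟩ := Nat.exists_eq_add_of_lt h1
      have := congrArg star (hoff k d)
      rwa [star_mul, star_star, star_zero] at this
  have hve : ∀ k, v k * e = v k := by
    intro k
    show w ^ k * e * e = w ^ k * e
    rw [mul_assoc, hee]
  have hbound : ∀ n : ℕ, (n : ℝ) * (τ e).re ≤ 1 := by
    intro n
    let S : A := ∑ k ∈ Finset.range n, v k * star (v k)
    have hSs : star S = S := by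
      show star (∑ k ∈ Finset.range n, v k * star (v k)) = _
      rw [star_sum]
      refine Finset.sum_congr rfl fun k _ => ?_
      rw [star_mul, star_star]
    have hSS : S * S = S := by
      show (∑ k ∈ Finset.range n, v k * star (v k)) * (∑ k ∈ Finset.range n, v k * star (v k)) = _
      rw [Finset.sum_mul_sum]
      refine Finset.sum_congr rfl fun j hj => ?_
      rw [Finset.sum_eq_single j]
      · calc v j * star (v j) * (v j * star (v j)) = v j * (star (v j) * v j) * star (v j) := by
              noncomm_ring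
          _ = v j * star (v j) := by rw [hdiag, hve]
      · intro k _ hkj
        calc v j * star (v j) * (v k * star (v k)) = v j * (star (v j) * v k) * star (v k) := by
              noncomm_ring
          _ = 0 := by rw [horth j k (Ne.symm hkj)]; simp
      · intro hj'
        exact absurd hj hj'
    have hτS : τ S = n * τ e := by
      show τ (∑ k ∈ Finset.range n, v k * star (v k)) = _
      rw [map_sum]
      rw [Finset.sum_congr rfl (fun k _ => by rw [h.comm, hdiag] : ∀ k ∈ Finset.range n,
        τ (v k * star (v k)) = τ e)]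
      rw [Finset.sum_const, Finset.card_range, nsmul_eq_mul]
    have h1 := h.re_nonneg (1 - S)
    have h2 : star (1 - S) * (1 - S) = 1 - S := by
      rw [star_sub, star_one, hSs]
      calc (1 - S) * (1 - S) = 1 - S - S + S * S := by noncomm_ring
        _ = 1 - S := by rw [hSS]; noncomm_ring
    rw [h2, map_sub, h.one, hτS, Complex.sub_re, Complex.one_re] at h1
    have h3 : ((n : ℂ) * τ e).re = (n : ℝ) * (τ e).re := by
      rw [← Complex.ofReal_natCast, Complex.re_ofReal_mul]
    rw [h3] at h1
    linarith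
  have he0 : (τ e).re = 0 := by
    have h0 : 0 ≤ (τ e).re := by
      have := h.re_nonneg e
      rwa [hes, hee] at this
    by_contra hne
    have hpos : 0 < (τ e).re := lt_of_le_of_ne h0 (Ne.symm hne)
    obtain ⟨n, hn⟩ := exists_nat_gt (1 / (τ e).re)
    have := hbound n
    rw [div_lt_iff₀ hpos] at hn
    linarith
  have heq : e = 0 := by
    apply h.faithful
    rw [hes, hee]
    apply Complex.ext
    · exact he0
    · have := h.im_zero e
      rwa [hes, hee] at this
  have hww : w * star w = 1 := by
    rw [he, sub_eq_zero] at heq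
    exact heq.symm
  have hf : star (1 - star w * w) * (1 - star w * w) = 1 - star w * w := by
    have h2 : star (1 - star w * w) = 1 - star w * w := by
      rw [star_sub, star_one, star_mul, star_star]
    rw [h2]
    have : star w * w * (star w * w) = star w * w := by rw [mul_assoc, hp]
    calc (1 - star w * w) * (1 - star w * w) =
        1 - star w * w - star w * w + star w * w * (star w * w) := by noncomm_ring
      _ = 1 - star w * w := by rw [this]; noncomm_ring
  have hf0 : 1 - star w * w = 0 := by
    apply h.faithful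
    rw [hf, map_sub, h.comm, hww, sub_self]
  exact ⟨(sub_eq_zero.1 hf0).symm, hww⟩

end abstract

variable {H : Type u} [NormedAddCommGroup H] [InnerProductSpace ℂ H] [CompleteSpace H]

/-- The corner property of extreme points. -/
theorem extreme_corner (N : VonNeumannAlgebra H) {w : H →L[ℂ] H} (hw : w ∈ N)
    (hp : w * (star w * w) = w)
    (hext : ∀ h ∈ N, ‖w + h‖ ≤ 1 → ‖w - h‖ ≤ 1 → h = 0) (y : H →L[ℂ] H) (hy : y ∈ N) :
    (1 - w * star w) * y * (1 - star w * w) = 0 := by
  set z := (1 - w * star w) * y * (1 - star w * w) with hz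
  have hzN : z ∈ N := mul_mem (mul_mem (sub_mem (one_mem N) (mul_mem hw (star_mem hw))) hy)
    (sub_mem (one_mem N) (mul_mem (star_mem hw) hw))
  set δ : ℝ := (‖z‖ + 1)⁻¹ with hδ
  have hpos : 0 < ‖z‖ + 1 := by positivity
  have hδ0 : 0 < δ := inv_pos.2 hpos
  set z0 : H →L[ℂ] H := (δ : ℂ) • z with hz0
  have hz0N : z0 ∈ N := N.toStarSubalgebra.smul_mem hzN _
  have hz01 : ‖z0‖ ≤ 1 := by
    rw [hz0, norm_smul, Complex.norm_real, Real.norm_eq_abs, abs_of_pos hδ0, hδ, inv_mul_le_iff₀ hpos]
    linarith
  have hwz : star w * z = 0 := by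
    have e1 : star w * (1 - w * star w) = 0 := by
      have := congrArg star hp
      rw [star_mul, star_mul, star_star] at this
      rw [mul_sub, mul_one, ← mul_assoc, this, sub_self]
    rw [hz, ← mul_assoc, ← mul_assoc, e1, zero_mul, zero_mul]
  have hwz0 : star w * z0 = 0 := by rw [hz0, mul_smul_comm, hwz, smul_zero]
  have hzw0 : star z0 * w = 0 := by
    have := congrArg star hwz0
    rwa [star_mul, star_star, star_zero] at this
  have hff : (1 - star w * w) * (1 - star w * w) = 1 - star w * w := by
    have : star w * w * (star w * w) = star w * w := by rw [mul_assoc, hp]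
    calc (1 - star w * w) * (1 - star w * w) =
        1 - star w * w - star w * w + star w * w * (star w * w) := by noncomm_ring
      _ = 1 - star w * w := by rw [this]; noncomm_ring
  have hfs : star (1 - star w * w) = 1 - star w * w := by
    rw [star_sub, star_one, star_mul, star_star]
  have hzf : z0 * (1 - star w * w) = z0 := by
    rw [hz0, smul_mul_assoc, hz, mul_assoc, hff]
  have hle : star z0 * z0 ≤ 1 - star w * w := by
    have h1 : star z0 * z0 ≤ 1 := star_mul_le_one hz01
    have h2 := star_left_conjugate_le_conjugate h1 (1 - star w * w)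
    have h3 : star (1 - star w * w) * (star z0 * z0) * (1 - star w * w) = star z0 * z0 := by
      calc star (1 - star w * w) * (star z0 * z0) * (1 - star w * w)
          = star (z0 * (1 - star w * w)) * (z0 * (1 - star w * w)) := by
            rw [star_mul]; noncomm_ring
        _ = star z0 * z0 := by rw [hzf]
    rw [h3, hfs, mul_one, hff] at h2
    exact h2
  have h0 : z0 = 0 := by
    apply hext z0 hz0N
    · apply norm_le_one_of_star_mul
      have : star (w + z0) * (w + z0) = star w * w + star z0 * z0 := by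
        rw [star_add, add_mul, mul_add, mul_add, hwz0, hzw0]; abel
      rw [this]
      calc star w * w + star z0 * z0 ≤ star w * w + (1 - star w * w) := by gcongr
        _ = 1 := by abel
    · apply norm_le_one_of_star_mul
      have : star (w - z0) * (w - z0) = star w * w + star z0 * z0 := by
        rw [star_sub, sub_mul, mul_sub, mul_sub, hwz0, hzw0]; abel
      rw [this]
      calc star w * w + star z0 * z0 ≤ star w * w + (1 - star w * w) := by gcongr
        _ = 1 := by abel
  have h1 : (δ : ℂ) ≠ 0 := Complex.ofReal_ne_zero.2 hδ0.ne'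
  rw [hz0, smul_eq_zero] at h0
  exact h0.resolve_left h1

theorem cfc_mem (N : VonNeumannAlgebra H) (g : ℝ → ℝ) (a : H →L[ℂ] H) (ha : a ∈ N)
    (hs : IsSelfAdjoint a) : cfc g a ∈ N := by
  have h1 : cfc g a ∈ Set.centralizer (Set.centralizer (N : Set (H →L[ℂ] H))) := by
    intro t ht
    have h2 : Commute a t := (ht a ha)
    exact (IsSelfAdjoint.commute_cfc hs h2 g).symm
  rw [VonNeumannAlgebra.centralizer_centralizer] at h1
  exact h1

variable {N : VonNeumannAlgebra H}

theorem tau_re_nonneg (T : TracialState N) (z : Elt N) (hz : 0 ≤ (z : H →L[ℂ] H)) :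
    0 ≤ (T.τ z).re := by
  obtain ⟨ξ, hξ, hT⟩ := T.normal
  rw [hT, Complex.re_tsum (summable_inner ξ ξ hξ hξ _)]
  refine tsum_nonneg fun k => ?_
  have h1 := (ContinuousLinearMap.nonneg_iff_isPositive _).1 hz
  have := h1.inner_nonneg_right (ξ k)
  exact (Complex.nonneg_iff.1 this).1

theorem scalar_ineq (t : ℝ) (ht : 0 ≤ t) :
    0 ≤ |t - 1| - (t + 1 - 2 * (t * (Real.sqrt (max t 1))⁻¹)) := by
  rcases le_total 1 t with h | h
  · rw [max_eq_left h, abs_of_nonneg (by linarith)]
    have h1 : t * (Real.sqrt t)⁻¹ = Real.sqrt t := by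
      rw [← div_eq_mul_inv, Real.div_sqrt]
    rw [h1]
    have : 1 ≤ Real.sqrt t := by
      rw [Real.one_le_sqrt]; exact h
    linarith
  · rw [max_eq_right h, abs_of_nonpos (by linarith), Real.sqrt_one]
    linarith

/-- Near every element `x` of a finite von Neumann algebra there is a unitary, with distance
controlled by `x* x - 1`. -/
theorem exists_unitary_near (T : TracialState N) (x : Elt N) :
    ∃ w : Elt N, w ∈ unitary (Elt N) ∧ n2 T.τ (x - w) ^ 2 ≤ n2 T.τ (star x * x - 1) := by
  classical
  have hA := trAlg T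
  obtain ⟨ξ, hξ, hT⟩ := T.normal
  let f : (H →L[ℂ] H) →ₗ[ℂ] ℂ :=
    nfun (fun n => (x : H →L[ℂ] H) (ξ n)) ξ (summable_norm_apply ξ hξ _) hξ
  have hfτ : ∀ z : Elt N, f (z : H →L[ℂ] H) = T.τ (star x * z) := by
    intro z
    rw [hT]
    show ∑' k, ⟪(x : H →L[ℂ] H) (ξ k), (z : H →L[ℂ] H) (ξ k)⟫_ℂ = _
    congr 1
    funext k
    have h1 : ((star x * z : Elt N) : H →L[ℂ] H) = star (x : H →L[ℂ] H) * (z : H →L[ℂ] H) := rfl
    rw [h1, ContinuousLinearMap.star_eq_adjoint]
    show _ = ⟪ξ k, ContinuousLinearMap.adjoint (x : H →L[ℂ] H) ((z : H →L[ℂ] H) (ξ k))⟫_ℂ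
    rw [ContinuousLinearMap.adjoint_inner_right]
  obtain ⟨w, hwN, hw1, hmax, hext⟩ := exists_extreme_max N f (wotCont_nfun _ _ _ _)
  have hp := extreme_partial N hwN hw1 hext
  have hcor := extreme_corner N hwN hp hext
  let W : Elt N := ⟨w, hwN⟩
  have hWu : star W * W = 1 ∧ W * star W = 1 := by
    apply hA.unitary_of_extreme
    · exact Subtype.ext hp
    · intro y
      exact Subtype.ext (hcor y y.2)
  refine ⟨W, Unitary.mem_iff.2 hWu, ?_⟩
  -- the comparison element
  set a : H →L[ℂ] H := star (x : H →L[ℂ] H) * (x : H →L[ℂ] H) with ha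
  have ha0 : 0 ≤ a := star_mul_self_nonneg _
  have hasa : IsSelfAdjoint a := IsSelfAdjoint.of_nonneg ha0
  have haN : a ∈ N := (star x * x).2
  have hspec : ∀ t ∈ spectrum ℝ a, 0 ≤ t := fun t ht => spectrum_nonneg_of_nonneg ha0 ht
  have hgc : Continuous (fun t : ℝ => (Real.sqrt (max t 1))⁻¹) := by
    refine Continuous.inv₀ (Real.continuous_sqrt.comp (by fun_prop)) ?_
    intro t
    have : 0 < max t 1 := lt_of_lt_of_le one_pos (le_max_right _ _)
    exact (Real.sqrt_pos.2 this).ne'
  set φ : H →L[ℂ] H := cfc (fun t : ℝ => (Real.sqrt (max t 1))⁻¹) a with hφ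
  have hφN : φ ∈ N := cfc_mem N _ a haN hasa
  have hφs : star φ = φ := (cfc_predicate _ a : IsSelfAdjoint φ).star_eq
  have haφ : a * φ = cfc (fun t : ℝ => t * (Real.sqrt (max t 1))⁻¹) a := by
    rw [cfc_mul (fun t : ℝ => t) _ a continuousOn_id hgc.continuousOn, cfc_id' ℝ a hasa]
  have hφaφ : φ * (a * φ) ≤ 1 := by
    have c1 : Continuous (fun t : ℝ => t * (Real.sqrt (max t 1))⁻¹) := continuous_id.mul hgc
    rw [haφ, hφ, ← cfc_mul (fun t : ℝ => (Real.sqrt (max t 1))⁻¹)
      (fun t : ℝ => t * (Real.sqrt (max t 1))⁻¹) a hgc.continuousOn c1.continuousOn]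
    apply cfc_le_one
    intro t ht
    have ht0 := hspec t ht
    have hm : 0 < max t 1 := lt_of_lt_of_le one_pos (le_max_right _ _)
    have h1 : (Real.sqrt (max t 1))⁻¹ * (t * (Real.sqrt (max t 1))⁻¹) = t / max t 1 := by
      have h2 : Real.sqrt (max t 1) * Real.sqrt (max t 1) = max t 1 := Real.mul_self_sqrt hm.le
      have h3 : (Real.sqrt (max t 1)) ≠ 0 := (Real.sqrt_pos.2 hm).ne'
      field_simp
      rw [sq, h2, mul_comm]
    show (Real.sqrt (max t 1))⁻¹ * (t * (Real.sqrt (max t 1))⁻¹) ≤ 1
    rw [h1, div_le_one hm]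
    exact le_max_left _ _
  let Φ : Elt N := ⟨φ, hφN⟩
  have hy1 : ‖((x * Φ : Elt N) : H →L[ℂ] H)‖ ≤ 1 := by
    apply norm_le_one_of_star_mul
    show star ((x : H →L[ℂ] H) * φ) * ((x : H →L[ℂ] H) * φ) ≤ 1
    have : star ((x : H →L[ℂ] H) * φ) * ((x : H →L[ℂ] H) * φ) = φ * (a * φ) := by
      rw [star_mul, hφs, ha]; noncomm_ring
    rw [this]
    exact hφaφ
  have hcmp : (T.τ (star x * (x * Φ))).re ≤ (T.τ (star x * W)).re := by
    rw [← hfτ, ← hfτ]
    exact hmax _ (x * Φ).2 hy1
  -- the absolute value
  set b : H →L[ℂ] H := cfc (fun t : ℝ => |t - 1|) a with hb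
  have hbN : b ∈ N := cfc_mem N _ a haN hasa
  have hbs : star b = b := (cfc_predicate _ a : IsSelfAdjoint b).star_eq
  have hac : Continuous (fun t : ℝ => |t - 1|) := by fun_prop
  have ha1 : a - 1 = cfc (fun t : ℝ => t - 1) a := by
    rw [cfc_sub (fun t : ℝ => t) (fun _ => (1 : ℝ)) a continuousOn_id continuousOn_const,
      cfc_id' ℝ a hasa, cfc_const_one ℝ a]
  have hbb : b * b = (a - 1) * (a - 1) := by
    rw [ha1, hb, ← cfc_mul _ _ a hac.continuousOn hac.continuousOn,
      ← cfc_mul (fun t : ℝ => t - 1) (fun t : ℝ => t - 1) a (by fun_prop) (by fun_prop)]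
    congr 1
    funext t
    exact abs_mul_abs_self _
  let B : Elt N := ⟨b, hbN⟩
  have hpos : 0 ≤ (T.τ (B - ((star x * x) + 1 - (2 : ℂ) • (star x * (x * Φ))))).re := by
    apply tau_re_nonneg
    show 0 ≤ b - (a + 1 - (2 : ℂ) • (star (x : H →L[ℂ] H) * ((x : H →L[ℂ] H) * φ)))
    have h1 : star (x : H →L[ℂ] H) * ((x : H →L[ℂ] H) * φ) = a * φ := by
      rw [ha, mul_assoc]
    have h2 : (2 : ℂ) • (a * φ) = (2 : ℝ) • (a * φ) := by
      rw [← Complex.coe_smul]; norm_num
    rw [h1, h2, haφ]
    have h3 : b - (a + 1 - (2 : ℝ) • cfc (fun t : ℝ => t * (Real.sqrt (max t 1))⁻¹) a) =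
        cfc (fun t : ℝ => |t - 1| - (t + 1 - 2 * (t * (Real.sqrt (max t 1))⁻¹))) a := by
      have c1 : Continuous (fun t : ℝ => t * (Real.sqrt (max t 1))⁻¹) := continuous_id.mul hgc
      have c2 : Continuous (fun t : ℝ => t + 1) := by fun_prop
      have c3 : Continuous (fun t : ℝ => 2 * (t * (Real.sqrt (max t 1))⁻¹)) :=
        continuous_const.mul c1
      have c4 : Continuous (fun t : ℝ => t + 1 - 2 * (t * (Real.sqrt (max t 1))⁻¹)) := c2.sub c3
      rw [cfc_sub (fun t : ℝ => |t - 1|) (fun t : ℝ => t + 1 - 2 * (t * (Real.sqrt (max t 1))⁻¹))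
          a hac.continuousOn c4.continuousOn,
        cfc_sub (fun t : ℝ => t + 1) (fun t : ℝ => 2 * (t * (Real.sqrt (max t 1))⁻¹))
          a c2.continuousOn c3.continuousOn,
        cfc_add a (fun t : ℝ => t) (fun _ => (1 : ℝ)) continuousOn_id continuousOn_const,
        cfc_id' ℝ a hasa, cfc_const_one ℝ a]
      congr 2
      exact (cfc_const_mul (2 : ℝ) (fun t : ℝ => t * (Real.sqrt (max t 1))⁻¹) a c1.continuousOn).symm
    rw [h3]
    exact cfc_nonneg fun t ht => scalar_ineq t (hspec t ht)
  have hB2 : n2 T.τ B = n2 T.τ (star x * x - 1) := by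
    unfold n2
    have e1 : star B * B = star (star x * x - 1) * (star x * x - 1) := by
      apply Subtype.ext
      show star b * b = star (a - 1) * (a - 1)
      rw [hbs, hbb, star_sub, star_one, hasa.star_eq]
    rw [e1]
  have hB1 : (T.τ B).re ≤ n2 T.τ B := by
    have h1 := hA.cauchy 1 B
    rw [star_one, one_mul] at h1
    have h2 : n2 T.τ (1 : Elt N) = 1 := by
      unfold n2
      rw [star_one, one_mul, hA.one, Complex.one_re, Real.sqrt_one]
    rw [h2, one_mul] at h1
    exact (Complex.re_le_norm _).trans h1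
  rw [hA.n2_sq, ← hB2]
  refine le_trans ?_ hB1
  have e1 : star (x - W) * (x - W) = star x * x + 1 - (star x * W + star W * x) := by
    rw [star_sub]
    calc (star x - star W) * (x - W) = star x * x + star W * W - (star x * W + star W * x) := by
          noncomm_ring
      _ = star x * x + 1 - (star x * W + star W * x) := by rw [hWu.1]
  have e2 : (T.τ (star W * x)).re = (T.τ (star x * W)).re := by
    have : star W * x = star (star x * W) := by rw [star_mul, star_star]
    rw [this, hA.conj]
    simp
  rw [e1, map_sub, map_add, map_add, Complex.sub_re, Complex.add_re, Complex.add_re, e2]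
  rw [map_sub, map_sub, map_add, map_smul, Complex.sub_re, Complex.sub_re, Complex.add_re] at hpos
  have e3 : ((2 : ℂ) • T.τ (star x * (x * Φ))).re = 2 * (T.τ (star x * (x * Φ))).re := by
    simp
  rw [e3] at hpos
  linarith

end Pool.Agent.Helper278
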