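import Mathlib
import Pool.Agent.KS6_19.UP.L.Helper278.UnitLift
import Pool.Agent.KS6_19.UP.L.Helper278.DefsG

set_option autoImplicit false
set_option linter.unusedSectionVars false
set_option linter.unusedVariables false

open scoped InnerProductSpace Topology ComplexOrder
open Filter

namespace Pool.Agent.Helper278

universe u

variable {H : Type u} [NormedAddCommGroup H] [InnerProductSpace ℂ H] [CompleteSpace H]

theorem commute_starProjection (K : Submodule ℂ H) [K.HasOrthogonalProjection] (t : H →L[ℂ] H)
    (h1 : ∀ v ∈ K, t v ∈ K) (h2 : ∀ v ∈ K, (star t) v ∈ K) :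
    K.starProjection * t = t * K.starProjection := by
  ext v
  show K.starProjection (t v) = t (K.starProjection v)
  symm
  apply (Submodule.eq_starProjection_of_mem_of_inner_eq_zero (h1 _ (K.starProjection_apply_mem v)) ?_).symm
  intro w hw
  rw [← map_sub, ← ContinuousLinearMap.adjoint_inner_right]
  exact K.starProjection_inner_eq_zero _ _ (h2 w hw)

/-- In a factor, `e N f = 0` forces `e = 0` or `f = 0`. -/
theorem factor_corner (N : VonNeumannAlgebra H) (hN : HasTrivialCenter N) (e f : H →L[ℂ] H)
    (he : e ∈ N) (hf : f ∈ N) (hef : ∀ x ∈ N, e * x * f = 0) : e = 0 ∨ f = 0 := by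
  classical
  let S : Set H := {v | ∃ x ∈ N, ∃ ξ : H, v = x (f ξ)}
  let K : Submodule ℂ H := (Submodule.span ℂ S).topologicalClosure
  have hKc : IsClosed (K : Set H) := Submodule.isClosed_topologicalClosure _
  haveI : CompleteSpace K := hKc.completeSpace_coe
  have hSK : ∀ v ∈ S, v ∈ K := fun v hv =>
    Submodule.le_topologicalClosure _ (Submodule.subset_span hv)
  have hinv : ∀ t : H →L[ℂ] H, (∀ v ∈ S, t v ∈ K) → ∀ v ∈ K, t v ∈ K := by
    intro t ht
    have h1 : Submodule.span ℂ S ≤ K.comap (t : H →ₗ[ℂ] H) := by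
      rw [Submodule.span_le]
      intro v hv
      exact ht v hv
    have h2 : IsClosed ((K.comap (t : H →ₗ[ℂ] H) : Submodule ℂ H) : Set H) :=
      hKc.preimage t.continuous
    exact fun v hv => Submodule.topologicalClosure_minimal _ h1 h2 hv
  have hinvN : ∀ t ∈ N, ∀ v ∈ K, t v ∈ K := by
    intro t ht
    apply hinv
    rintro v ⟨x, hx, ξ, rfl⟩
    exact hSK _ ⟨t * x, mul_mem ht hx, ξ, rfl⟩
  have hinvN' : ∀ t ∈ Set.centralizer (N : Set (H →L[ℂ] H)), ∀ v ∈ K, t v ∈ K := by
    intro t ht
    apply hinv
    rintro v ⟨x, hx, ξ, rfl⟩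
    have h1 : t (x (f ξ)) = x (f (t ξ)) := by
      have e1 : x * t = t * x := ht x hx
      have e2 : f * t = t * f := ht f hf
      have e3 : t * x * f = x * f * t := by
        rw [← e1, mul_assoc, ← e2, mul_assoc]
      exact congrArg (fun z : H →L[ℂ] H => z ξ) e3
    rw [h1]
    exact hSK _ ⟨x, hx, _, rfl⟩
  set P := K.starProjection with hP
  have hPN' : ∀ t ∈ N, P * t = t * P := fun t ht =>
    commute_starProjection K t (hinvN t ht) (hinvN _ (star_mem ht))
  have hcs : ∀ t ∈ Set.centralizer (N : Set (H →L[ℂ] H)),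
      star t ∈ Set.centralizer (N : Set (H →L[ℂ] H)) := by
    intro t ht x hx
    have h1 : star x * t = t * star x := ht (star x) (star_mem hx)
    have h2 := congrArg star h1
    rw [star_mul, star_mul, star_star] at h2
    exact h2.symm
  have hPN : P ∈ N := by
    have h1 : P ∈ Set.centralizer (Set.centralizer (N : Set (H →L[ℂ] H))) := by
      intro t ht
      exact (commute_starProjection K t (hinvN' t ht) (hinvN' _ (hcs t ht))).symm
    rw [VonNeumannAlgebra.centralizer_centralizer] at h1
    exact h1
  obtain ⟨c, hc⟩ := hN P hPN hPN'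
  by_cases hf0 : f = 0
  · exact Or.inr hf0
  left
  have hfv : ∀ ξ, f ξ ∈ K := fun ξ => hSK _ ⟨1, one_mem N, ξ, rfl⟩
  obtain ⟨ξ, hξ⟩ : ∃ ξ, f ξ ≠ 0 := by
    by_contra h
    push Not at h
    exact hf0 (ContinuousLinearMap.ext h)
  have h1 : P (f ξ) = f ξ := Submodule.starProjection_eq_self_iff.2 (hfv ξ)
  rw [hc] at h1
  have h2 : c • f ξ = (1 : ℂ) • f ξ := by rw [one_smul]; exact h1
  have hc1 : c = 1 := by
    have h3 : (c - 1) • f ξ = 0 := by rw [sub_smul, h2, sub_self]
    rcases smul_eq_zero.1 h3 with h4 | h4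
    · exact sub_eq_zero.1 h4
    · exact absurd h4 hξ
  rw [hc1, one_smul] at hc
  -- `K` is everything
  have hKall : ∀ v, v ∈ K := by
    intro v
    rw [← Submodule.starProjection_eq_self_iff, ← hP, hc]
    rfl
  have h3 : Submodule.span ℂ S ≤ LinearMap.ker (e : H →ₗ[ℂ] H) := by
    rw [Submodule.span_le]
    rintro v ⟨x, hx, η, rfl⟩
    have := congrArg (fun z : H →L[ℂ] H => z η) (hef x hx)
    exact this
  have h4 : IsClosed ((LinearMap.ker (e : H →ₗ[ℂ] H) : Submodule ℂ H) : Set H) :=
    e.isClosed_ker
  ext v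
  exact Submodule.topologicalClosure_minimal _ h3 h4 (hKall v)

/-- Extreme points of the unit ball of a corner. -/
theorem exists_extreme_corner (N : VonNeumannAlgebra H) (p q : H →L[ℂ] H) :
    ∃ w ∈ N, ‖w‖ ≤ 1 ∧ q * w * p = w ∧
      ∀ h ∈ N, q * h * p = h → ‖w + h‖ ≤ 1 → ‖w - h‖ ≤ 1 → h = 0 := by
  classical
  let B : Set (H →WOT[ℂ] H) := {T : H →WOT[ℂ] H | ‖T.toCLM‖ ≤ 1}
  have hB : IsCompact B := isCompact_wot_ball
  have hmem : ∀ z : H →L[ℂ] H, z ∈ N ↔ ∀ t ∈ Set.centralizer (N : Set (H →L[ℂ] H)),
      t * z = z * t := by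
    intro z
    constructor
    · intro hz t ht
      exact (ht z hz).symm
    · intro hz
      have h1 : z ∈ Set.centralizer (Set.centralizer (N : Set (H →L[ℂ] H))) := hz
      rw [VonNeumannAlgebra.centralizer_centralizer] at h1
      exact h1
  let K : Set (H →WOT[ℂ] H) := B ∩ ((⋂ t ∈ Set.centralizer (N : Set (H →L[ℂ] H)),
      {y : H →WOT[ℂ] H | ContinuousLinearMapWOT.ofCLM t * y = y * ContinuousLinearMapWOT.ofCLM t}) ∩
      {y : H →WOT[ℂ] H | ContinuousLinearMapWOT.ofCLM q * y * ContinuousLinearMapWOT.ofCLM p = y})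
  have hKc : IsCompact K := by
    refine hB.inter_right (IsClosed.inter ?_ ?_)
    · refine isClosed_biInter fun t _ => isClosed_eq ?_ ?_
      · exact continuous_const_mul _
      · exact continuous_mul_const _
    · refine isClosed_eq ?_ continuous_id
      exact (continuous_mul_const (ContinuousLinearMapWOT.ofCLM p)).comp
        (continuous_const_mul (ContinuousLinearMapWOT.ofCLM q))
  have hKmem : ∀ y : H →WOT[ℂ] H, y ∈ K ↔ ‖y.toCLM‖ ≤ 1 ∧ y.toCLM ∈ N ∧
      q * y.toCLM * p = y.toCLM := by
    intro y
    rw [hmem]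
    constructor
    · rintro ⟨h1, h2, h3⟩
      simp only [Set.mem_iInter, Set.mem_ofPred_eq] at h2
      refine ⟨h1, fun t ht => ?_, ?_⟩
      · have := congrArg ContinuousLinearMapWOT.toCLM (h2 t ht)
        simpa using this
      · have := congrArg ContinuousLinearMapWOT.toCLM h3
        simpa using this
    · rintro ⟨h1, h2, h3⟩
      refine ⟨h1, ?_, ?_⟩
      · simp only [Set.mem_iInter, Set.mem_ofPred_eq]
        intro t ht
        apply ContinuousLinearMapWOT.toCLM_injective
        simpa using h2 t ht
      · apply ContinuousLinearMapWOT.toCLM_injective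
        simpa using h3
  have hKne : K.Nonempty := ⟨ContinuousLinearMapWOT.ofCLM 0, (hKmem _).2 ⟨by
    show ‖(0 : H →L[ℂ] H)‖ ≤ 1
    simp, zero_mem N, by
    show q * (0 : H →L[ℂ] H) * p = 0
    simp⟩⟩
  obtain ⟨w, hw⟩ := hKc.extremePoints_nonempty hKne
  have hwK := (hKmem w).1 hw.1
  refine ⟨w.toCLM, hwK.2.1, hwK.1, hwK.2.2, ?_⟩
  intro h hh hqp h1 h2
  have m1 : ContinuousLinearMapWOT.ofCLM (w.toCLM + h) ∈ K := by
    refine (hKmem _).2 ⟨h1, add_mem hwK.2.1 hh, ?_⟩
    show q * (w.toCLM + h) * p = w.toCLM + h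
    rw [mul_add, add_mul, hwK.2.2, hqp]
  have m2 : ContinuousLinearMapWOT.ofCLM (w.toCLM - h) ∈ K := by
    refine (hKmem _).2 ⟨h2, sub_mem hwK.2.1 hh, ?_⟩
    show q * (w.toCLM - h) * p = w.toCLM - h
    rw [mul_sub, sub_mul, hwK.2.2, hqp]
  have h3 := hw.2 (x₁ := ContinuousLinearMapWOT.ofCLM (w.toCLM + h)) m1
    (x₂ := ContinuousLinearMapWOT.ofCLM (w.toCLM - h)) m2 ?_
  · have h4 := congrArg ContinuousLinearMapWOT.toCLM h3
    have h5 : w.toCLM + h = w.toCLM := h4
    simpa using h5
  · refine ⟨2⁻¹, 2⁻¹, by norm_num, by norm_num, by norm_num, ?_⟩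
    apply ContinuousLinearMapWOT.toCLM_injective
    show (2⁻¹ : ℝ) • (w.toCLM + h) + (2⁻¹ : ℝ) • (w.toCLM - h) = w.toCLM
    rw [← smul_add]
    have : w.toCLM + h + (w.toCLM - h) = (2 : ℝ) • w.toCLM := by
      rw [two_smul]; abel
    rw [this, smul_smul]
    norm_num

/-- Extreme points of the unit ball of a corner are partial isometries. -/
theorem extreme_partial' (N : VonNeumannAlgebra H) {w p q : H →L[ℂ] H} (hw : w ∈ N)
    (hpp : p * p = p) (hqq : q * q = q) (hp : star p = p)
    (h1 : ‖w‖ ≤ 1) (hqp : q * w * p = w)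
    (hext : ∀ h ∈ N, q * h * p = h → ‖w + h‖ ≤ 1 → ‖w - h‖ ≤ 1 → h = 0) :
    w * (star w * w) = w := by
  have ht0 : 0 ≤ star w * w := star_mul_self_nonneg w
  have ht1 : star w * w ≤ 1 := star_mul_le_one h1
  have hwp : w * p = w := by
    calc w * p = q * w * p * p := by rw [hqp]
      _ = q * w * (p * p) := by rw [mul_assoc (q * w)]
      _ = w := by rw [hpp, hqp]
  have hqw : q * w = w := by
    calc q * w = q * (q * w * p) := by rw [hqp]
      _ = (q * q) * w * p := by noncomm_ring
      _ = w := by rw [hqq, hqp]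
  have hpw : p * star w = star w := by
    have := congrArg star hwp
    rwa [star_mul, hp] at this
  set t := star w * w with ht
  have htp : t * p = p * t := by
    rw [ht, mul_assoc, hwp, ← mul_assoc, hpw]
  set k : H →L[ℂ] H := (4⁻¹ : ℝ) • (1 - t) with hk
  have hs0 : 0 ≤ 1 - t := sub_nonneg.2 ht1
  have hk0 : 0 ≤ k := smul_nonneg (by norm_num) hs0
  have h4k : 4 * k = 1 - t := by
    rw [← four_smul, hk, smul_smul]
    norm_num
  have htk : t = 1 - 4 * k := by rw [h4k]; abel
  have hks : star k = k := (IsSelfAdjoint.of_nonneg hk0).star_eq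
  have hkp : k * p = p * k := by
    rw [hk, smul_mul_assoc, mul_smul_comm, sub_mul, mul_sub, htp, one_mul, mul_one]
  have hkk : 0 ≤ k * k := by
    have := star_mul_self_nonneg k
    rwa [hks] at this
  have hkkk : 0 ≤ k * k * k := by
    have := star_left_conjugate_nonneg hk0 k
    rwa [hks] at this
  have hNt : t ∈ N := by
    rw [ht]; exact mul_mem (star_mem hw) hw
  have hkN : k ∈ N := by
    have : k = ((4⁻¹ : ℝ) : ℂ) • (1 - t) := by rw [hk, Complex.coe_smul]
    rw [this]
    exact N.toStarSubalgebra.smul_mem (sub_mem (one_mem N) hNt) _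
  have hst : star (w * k) = k * star w := by rw [star_mul, hks]
  have hss : 0 ≤ (1 - t) - (1 - t) * (1 - t) := sub_sq_nonneg' _ hs0 (by
    rw [sub_le_self_iff]; exact ht0)
  have hkq : 0 ≤ k - 4 * (k * k) := by
    have e : k - 4 * (k * k) = (4⁻¹ : ℝ) • ((1 - t) - (1 - t) * (1 - t)) := by
      rw [← h4k, smul_sub]
      have e2 : (4⁻¹ : ℝ) • (4 * k) = k := by rw [h4k]
      rw [e2]
      congr 1
      have : 4 * k * (4 * k) = (4 : ℝ) • (4 * (k * k)) := by
        rw [four_smul]
        noncomm_ring
      rw [this, smul_smul]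
      norm_num
    rw [e]
    exact smul_nonneg (by norm_num) hss
  have hz : w * k = 0 := by
    apply hext (w * k) (mul_mem hw hkN)
    · calc q * (w * k) * p = (q * w) * (k * p) := by noncomm_ring
        _ = w * p * k := by rw [hqw, hkp]; noncomm_ring
        _ = w * k := by rw [hwp]
    · apply norm_le_one_of_star_mul
      have e : star (w + w * k) * (w + w * k) = 1 - (2 * k + 7 * (k * k) + 4 * (k * k * k)) := by
        rw [star_add, hst]
        calc (star w + k * star w) * (w + w * k) = (1 + k) * (star w * w) * (1 + k) := by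
              noncomm_ring
          _ = (1 + k) * (1 - 4 * k) * (1 + k) := by rw [← ht, htk]
          _ = 1 - (2 * k + 7 * (k * k) + 4 * (k * k * k)) := by noncomm_ring
      rw [e, sub_le_self_iff]
      have n1 : 0 ≤ 2 * k := by rw [two_mul]; exact add_nonneg hk0 hk0
      have n2 : 0 ≤ 7 * (k * k) := by
        have : 7 * (k * k) = (7 : ℕ) • (k * k) := by rw [nsmul_eq_mul]; simp
        rw [this]; exact nsmul_nonneg hkk 7
      have n3 : 0 ≤ 4 * (k * k * k) := by
        have : 4 * (k * k * k) = (4 : ℕ) • (k * k * k) := by rw [nsmul_eq_mul]; simp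
        rw [this]; exact nsmul_nonneg hkkk 4
      exact add_nonneg (add_nonneg n1 n2) n3
    · apply norm_le_one_of_star_mul
      have e : star (w - w * k) * (w - w * k) =
          1 - (3 * (k - 4 * (k * k)) + 3 * k + 3 * (k * k) + 4 * (k * k * k)) := by
        rw [star_sub, hst]
        calc (star w - k * star w) * (w - w * k) = (1 - k) * (star w * w) * (1 - k) := by
              noncomm_ring
          _ = (1 - k) * (1 - 4 * k) * (1 - k) := by rw [← ht, htk]
          _ = 1 - (3 * (k - 4 * (k * k)) + 3 * k + 3 * (k * k) + 4 * (k * k * k)) := by noncomm_ring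
      rw [e, sub_le_self_iff]
      have three : ∀ z : H →L[ℂ] H, 0 ≤ z → 0 ≤ 3 * z := by
        intro z hz
        have : 3 * z = (3 : ℕ) • z := by rw [nsmul_eq_mul]; simp
        rw [this]; exact nsmul_nonneg hz 3
      have n3 : 0 ≤ 4 * (k * k * k) := by
        have : 4 * (k * k * k) = (4 : ℕ) • (k * k * k) := by rw [nsmul_eq_mul]; simp
        rw [this]; exact nsmul_nonneg hkkk 4
      exact add_nonneg (add_nonneg (add_nonneg (three _ hkq) (three _ hk0)) (three _ hkk)) n3
  have h5 : w * (1 - t) = 0 := by
    rw [← h4k]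
    have : w * (4 * k) = 4 * (w * k) := by noncomm_ring
    rw [this, hz, mul_zero]
  rw [mul_sub, mul_one, sub_eq_zero] at h5
  exact h5.symm

/-- The corner property of extreme points of the unit ball of a corner. -/
theorem extreme_corner' (N : VonNeumannAlgebra H) {w p q : H →L[ℂ] H} (hw : w ∈ N)
    (hpN : p ∈ N) (hqN : q ∈ N) (hp : star p = p) (hpp : p * p = p)
    (hqq : q * q = q) (hq : star q = q) (hqp : q * w * p = w)
    (hpi : w * (star w * w) = w)
    (hext : ∀ h ∈ N, q * h * p = h → ‖w + h‖ ≤ 1 → ‖w - h‖ ≤ 1 → h = 0) (y : H →L[ℂ] H)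
    (hy : y ∈ N) : (q - w * star w) * y * (p - star w * w) = 0 := by
  have hwp : w * p = w := by
    calc w * p = q * w * p * p := by rw [hqp]
      _ = q * w * (p * p) := by rw [mul_assoc (q * w)]
      _ = w := by rw [hpp, hqp]
  have hqw : q * w = w := by
    calc q * w = q * (q * w * p) := by rw [hqp]
      _ = (q * q) * w * p := by noncomm_ring
      _ = w := by rw [hqq, hqp]
  have hpw : p * star w = star w := by
    have := congrArg star hwp
    rwa [star_mul, hp] at this
  have hwq : star w * q = star w := by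
    have := congrArg star hqw
    rwa [star_mul, hq] at this
  set z := (q - w * star w) * y * (p - star w * w) with hz
  have hzN : z ∈ N := mul_mem (mul_mem (sub_mem hqN (mul_mem hw (star_mem hw))) hy)
    (sub_mem hpN (mul_mem (star_mem hw) hw))
  have e1 : star w * w * star w = star w := by
    have := congrArg star hpi
    rwa [star_mul, star_mul, star_star] at this
  have e2 : w * star w * w = w := by rw [mul_assoc, hpi]
  have hqz : q * z = z := by
    have : q * (q - w * star w) = q - w * star w := by
      rw [mul_sub, hqq, ← mul_assoc, hqw]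
    rw [hz, ← mul_assoc, ← mul_assoc, this]
  have hzp : z * p = z := by
    have : (p - star w * w) * p = p - star w * w := by
      rw [sub_mul, hpp, mul_assoc, hwp]
    rw [hz, mul_assoc, this]
  set δ : ℝ := (‖z‖ + 1)⁻¹ with hδ
  have hpos : 0 < ‖z‖ + 1 := by positivity
  have hδ0 : 0 < δ := inv_pos.2 hpos
  set z0 : H →L[ℂ] H := (δ : ℂ) • z with hz0
  have hz0N : z0 ∈ N := N.toStarSubalgebra.smul_mem hzN _
  have hz01 : ‖z0‖ ≤ 1 := by
    rw [hz0, norm_smul, Complex.norm_real, Real.norm_eq_abs, abs_of_pos hδ0, hδ, inv_mul_le_iff₀ hpos]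
    linarith
  have hqz0 : q * z0 * p = z0 := by
    rw [hz0, mul_smul_comm, smul_mul_assoc, hqz, hzp]
  have hwz : star w * z = 0 := by
    have e3 : star w * (q - w * star w) = 0 := by
      rw [mul_sub, hwq, ← mul_assoc, e1, sub_self]
    rw [hz, ← mul_assoc, ← mul_assoc, e3, zero_mul, zero_mul]
  have hwz0 : star w * z0 = 0 := by rw [hz0, mul_smul_comm, hwz, smul_zero]
  have hzw0 : star z0 * w = 0 := by
    have := congrArg star hwz0
    rwa [star_mul, star_star, star_zero] at this
  have hff : (p - star w * w) * (p - star w * w) = p - star w * w := by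
    have h1 : star w * w * (star w * w) = star w * w := by rw [← mul_assoc, e1]
    have h2 : p * (star w * w) = star w * w := by rw [← mul_assoc, hpw]
    have h3 : star w * w * p = star w * w := by rw [mul_assoc, hwp]
    calc (p - star w * w) * (p - star w * w) =
        p * p - p * (star w * w) - star w * w * p + star w * w * (star w * w) := by noncomm_ring
      _ = p - star w * w := by rw [h1, h2, h3, hpp]; abel
  have hfs : star (p - star w * w) = p - star w * w := by
    rw [star_sub, hp, star_mul, star_star]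
  have hzf : z0 * (p - star w * w) = z0 := by
    rw [hz0, smul_mul_assoc, hz, mul_assoc, hff]
  have hp1 : p ≤ 1 := by
    have h1 : 0 ≤ star (1 - p) * (1 - p) := star_mul_self_nonneg _
    have h2 : star (1 - p) * (1 - p) = 1 - p := by
      rw [star_sub, star_one, hp]
      calc (1 - p) * (1 - p) = 1 - p - p + p * p := by noncomm_ring
        _ = 1 - p := by rw [hpp]; abel
    rw [h2] at h1
    exact sub_nonneg.1 h1
  have hle : star z0 * z0 ≤ p - star w * w := by
    have h1 : star z0 * z0 ≤ 1 := star_mul_le_one hz01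
    have h2 := star_left_conjugate_le_conjugate h1 (p - star w * w)
    have h3 : star (p - star w * w) * (star z0 * z0) * (p - star w * w) = star z0 * z0 := by
      calc star (p - star w * w) * (star z0 * z0) * (p - star w * w)
          = star (z0 * (p - star w * w)) * (z0 * (p - star w * w)) := by
            rw [star_mul]; noncomm_ring
        _ = star z0 * z0 := by rw [hzf]
    rw [h3, hfs, mul_one, hff] at h2
    exact h2
  have h0 : z0 = 0 := by
    apply hext z0 hz0N hqz0
    · apply norm_le_one_of_star_mul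
      have : star (w + z0) * (w + z0) = star w * w + star z0 * z0 := by
        rw [star_add, add_mul, mul_add, mul_add, hwz0, hzw0]; abel
      rw [this]
      calc star w * w + star z0 * z0 ≤ star w * w + (p - star w * w) := by gcongr
        _ = p := by abel
        _ ≤ 1 := hp1
    · apply norm_le_one_of_star_mul
      have : star (w - z0) * (w - z0) = star w * w + star z0 * z0 := by
        rw [star_sub, sub_mul, mul_sub, mul_sub, hwz0, hzw0]; abel
      rw [this]
      calc star w * w + star z0 * z0 ≤ star w * w + (p - star w * w) := by gcongr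
        _ = p := by abel
        _ ≤ 1 := hp1
  have h1 : (δ : ℂ) ≠ 0 := Complex.ofReal_ne_zero.2 hδ0.ne'
  rw [hz0, smul_eq_zero] at h0
  exact h0.resolve_left h1

variable {N : VonNeumannAlgebra H}

/-- In a factor with a faithful trace, projections of equal trace are equivalent. -/
theorem exists_equiv (T : TracialState N) (hN : HasTrivialCenter N) (p q : Elt N)
    (hp : star p = p) (hpp : p * p = p) (hq : star q = q) (hqq : q * q = q)
    (hτ : T.τ p = T.τ q) : ∃ v : Elt N, star v * v = p ∧ v * star v = q := by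
  have hA := trAlg T
  have hp' : star (p : H →L[ℂ] H) = p := congrArg Subtype.val hp
  have hpp' : (p : H →L[ℂ] H) * p = p := congrArg Subtype.val hpp
  have hq' : star (q : H →L[ℂ] H) = q := congrArg Subtype.val hq
  have hqq' : (q : H →L[ℂ] H) * q = q := congrArg Subtype.val hqq
  obtain ⟨w, hwN, hw1, hqp, hext⟩ := exists_extreme_corner N (p : H →L[ℂ] H) (q : H →L[ℂ] H)
  have hpi := extreme_partial' N hwN hpp' hqq' hp' hw1 hqp hext
  have hcor := extreme_corner' N hwN p.2 q.2 hp' hpp' hqq' hq' hqp hpi hext
  have hwp : w * p = w := by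
    calc w * p = q * w * p * p := by rw [hqp]
      _ = q * w * ((p : H →L[ℂ] H) * p) := by rw [mul_assoc ((q : H →L[ℂ] H) * w)]
      _ = w := by rw [hpp', hqp]
  have hqw : q * w = w := by
    calc q * w = q * (q * w * p) := by rw [hqp]
      _ = ((q : H →L[ℂ] H) * q) * w * p := by noncomm_ring
      _ = w := by rw [hqq', hqp]
  let W : Elt N := ⟨w, hwN⟩
  have hWpi : W * (star W * W) = W := Subtype.ext hpi
  have hWp : W * p = W := Subtype.ext hwp
  have hqW : q * W = W := Subtype.ext hqw
  have hpW : p * star W = star W := by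
    have := congrArg star hWp
    rwa [star_mul, hp] at this
  have hWq : star W * q = star W := by
    have := congrArg star hqW
    rwa [star_mul, hq] at this
  have e1 : star W * W * star W = star W := by
    have := congrArg star hWpi
    rwa [star_mul, star_mul, star_star] at this
  have e2 : W * star W * W = W := by rw [mul_assoc, hWpi]
  have hf : star (p - star W * W) * (p - star W * W) = p - star W * W := by
    have h1 : star W * W * (star W * W) = star W * W := by rw [← mul_assoc, e1]
    have h2 : p * (star W * W) = star W * W := by rw [← mul_assoc, hpW]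
    have h3 : star W * W * p = star W * W := by rw [mul_assoc, hWp]
    rw [star_sub, hp, star_mul, star_star]
    calc (p - star W * W) * (p - star W * W) =
        p * p - p * (star W * W) - star W * W * p + star W * W * (star W * W) := by noncomm_ring
      _ = p - star W * W := by rw [h1, h2, h3, hpp]; abel
  have he : star (q - W * star W) * (q - W * star W) = q - W * star W := by
    have h1 : W * star W * (W * star W) = W * star W := by rw [← mul_assoc, e2]
    have h2 : q * (W * star W) = W * star W := by rw [← mul_assoc, hqW]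
    have h3 : W * star W * q = W * star W := by rw [mul_assoc, hWq]
    rw [star_sub, hq, star_mul, star_star]
    calc (q - W * star W) * (q - W * star W) =
        q * q - q * (W * star W) - W * star W * q + W * star W * (W * star W) := by noncomm_ring
      _ = q - W * star W := by rw [h1, h2, h3, hqq]; abel
  have hτ2 : T.τ (p - star W * W) = T.τ (q - W * star W) := by
    rw [map_sub, map_sub, hτ, hA.comm (star W) W]
  have hor := factor_corner N hN ((q - W * star W : Elt N) : H →L[ℂ] H)
    ((p - star W * W : Elt N) : H →L[ℂ] H) (q - W * star W).2 (p - star W * W).2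
    (fun x hx => hcor x hx)
  have hboth : p - star W * W = 0 ∧ q - W * star W = 0 := by
    rcases hor with h0 | h0
    · have h1 : q - W * star W = 0 := Subtype.ext h0
      refine ⟨hA.faithful _ ?_, h1⟩
      rw [hf, hτ2, h1, map_zero]
    · have h1 : p - star W * W = 0 := Subtype.ext h0
      refine ⟨h1, hA.faithful _ ?_⟩
      rw [he, ← hτ2, h1, map_zero]
  exact ⟨W, (sub_eq_zero.1 hboth.1).symm, (sub_eq_zero.1 hboth.2).symm⟩

end Pool.Agent.Helper278
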