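import Mathlib
import Pool.Agent.KS6_19.UP.L.Helper278.Defs

set_option autoImplicit false

open scoped Topology BoundedContinuousFunction
open Filter

namespace Pool.Agent.Helper278

universe u

/-- Products of `k` factors lying alternately in `S` and `T`, the first one in `S`. -/
def AltProducts {A : Type u} [Ring A] (S T : Set A) : ℕ → Set A
  | 0 => {1}
  | k + 1 => {w | ∃ x ∈ S, ∃ y ∈ AltProducts T S k, w = x * y}

/-- The centered elements of `W*(a)`. -/
def centered {A : Type u} [Ring A] [StarRing A] [Algebra ℂ A] [StarModule ℂ A] (φ : A → ℂ)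
    (a : A) : Set A :=
  {x | x ∈ wstar φ a ∧ φ x = 0}

/-- All alternating centered words of length exactly `k` in `W*(a)` and `W*(b)`, starting with either
algebra, have trace zero. -/
def KIndep {A : Type u} [Ring A] [StarRing A] [Algebra ℂ A] [StarModule ℂ A] (φ : A → ℂ) (k : ℕ)
    (a b : A) : Prop :=
  ∀ w, w ∈ AltProducts (centered φ a) (centered φ b) k ∨
    w ∈ AltProducts (centered φ b) (centered φ a) k → φ w = 0

/-- The question for a given `k` and `(M, τ)`, with `k`-independence read as the vanishing of all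
alternating centered words of length at most `k`: all `k`-independent unitaries of all tracial
ultrapowers have unitary lifts that are `(k - 1)`-independent term by term. -/
def LiftsKIndependentPairs (k : ℕ) (M : Type u) [NormedRing M] [StarRing M] [CStarRing M]
    [NormedAlgebra ℂ M] [StarModule ℂ M] (τ : M → ℂ) : Prop :=
  ∀ U : Ultrafilter ℕ, (∀ n, {n} ∉ U) → ∀ (Q : Type u) [Ring Q] [StarRing Q] [Algebra ℂ Q]
    [StarModule ℂ Q] (π : (ℕ →ᵇ M) →⋆ₐ[ℂ] Q) (σ : Q → ℂ), IsTracialUltrapower τ U π σ →
    ∀ u ∈ unitary Q, ∀ v ∈ unitary Q, (∀ j, 1 ≤ j → j ≤ k → KIndep σ j u v) →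
      ∃ a b : ℕ →ᵇ M, (∀ n, a n ∈ unitary M) ∧ (∀ n, b n ∈ unitary M) ∧ π a = u ∧ π b = v ∧
        ∀ n, ∀ j, 1 ≤ j → j ≤ k - 1 → KIndep τ j (a n) (b n)

/-- The negated form of the question for a given `k` and `(M, τ)`, with `k`-independence read as the
vanishing of all alternating centered words of length exactly `k`: for every nonprincipal
ultrafilter and every model of the tracial ultrapower there are `k`-independent unitaries such that
for no unitary lifts the set of indices with `(k - 1)`-independence is large. -/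
def LiftingFails (k : ℕ) (M : Type u) [NormedRing M] [StarRing M] [CStarRing M]
    [NormedAlgebra ℂ M] [StarModule ℂ M] (τ : M → ℂ) : Prop :=
  ∀ U : Ultrafilter ℕ, (∀ n, {n} ∉ U) → ∀ (Q : Type u) [Ring Q] [StarRing Q] [Algebra ℂ Q]
    [StarModule ℂ Q] (π : (ℕ →ᵇ M) →⋆ₐ[ℂ] Q) (σ : Q → ℂ), IsTracialUltrapower τ U π σ →
    ∃ u ∈ unitary Q, ∃ v ∈ unitary Q, KIndep σ k u v ∧
      ∀ a b : ℕ →ᵇ M, π a = u → π b = v → {n | KIndep τ (k - 1) (a n) (b n)} ∉ U

end Pool.Agent.Helper278
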