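import Mathlib
import Pool.Agent.KS6_19.UP.L.Helper278.UnitLift
import Pool.Agent.KS6_19.UP.L.Helper278.Indep

set_option autoImplicit false
set_option linter.unusedSectionVars false

open scoped InnerProductSpace Topology ComplexOrder BoundedContinuousFunction
open Filter

namespace Pool.Agent.Helper278

universe u

section zpowers

/-- Integer powers of a unitary as words in `a` and `star a`. -/
def zp {R : Type*} [Monoid R] [Star R] (a : R) : ℤ → R
  | Int.ofNat m => a ^ m
  | Int.negSucc m => star a ^ (m + 1)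

theorem zp_unitary {R : Type*} [Monoid R] [StarMul R] (U : unitary R) (k : ℤ) :
    ((U ^ k : unitary R) : R) = zp (U : R) k := by
  cases k with
  | ofNat m =>
    show ((U ^ (m : ℤ) : unitary R) : R) = (U : R) ^ m
    rw [zpow_natCast]
    rfl
  | negSucc m =>
    show ((U ^ (Int.negSucc m) : unitary R) : R) = star (U : R) ^ (m + 1)
    rw [zpow_negSucc, ← inv_pow]
    rfl

end zpowers

section squares

variable {A : Type u} [Ring A] [StarRing A] [Algebra ℂ A] [StarModule ℂ A] {τ : A →ₗ[ℂ] ℂ}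

theorem TrAlg.eq_sq (h : TrAlg τ) (x : A) : τ (star x * x) = (((n2 τ x) ^ 2 : ℝ) : ℂ) := by
  apply Complex.ext
  · rw [h.n2_sq, Complex.ofReal_re]
  · rw [h.im_zero, Complex.ofReal_im]

theorem TrAlg.tendsto_iff (h : TrAlg τ) {ι : Type*} (l : Filter ι) (x : ι → A) :
    Tendsto (fun n => τ (star (x n) * x n)) l (𝓝 0) ↔ Tendsto (fun n => n2 τ (x n)) l (𝓝 0) := by
  constructor
  · intro h1
    have h2 : Tendsto (fun n => ‖τ (star (x n) * x n)‖) l (𝓝 0) := by
      have := h1.norm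
      rwa [norm_zero] at this
    have h3 : Tendsto (fun n => Real.sqrt ‖τ (star (x n) * x n)‖) l (𝓝 0) := by
      have := (Real.continuous_sqrt.tendsto 0).comp h2
      rwa [Real.sqrt_zero] at this
    refine h3.congr fun n => ?_
    rw [h.eq_sq, Complex.norm_real, Real.norm_eq_abs, abs_of_nonneg (sq_nonneg _),
      Real.sqrt_sq (n2_nonneg _ _)]
  · intro h1
    have h2 : Tendsto (fun n => (((n2 τ (x n)) ^ 2 : ℝ) : ℂ)) l (𝓝 0) := by
      have h3 := (Complex.continuous_ofReal.tendsto (0 ^ 2)).comp (h1.pow 2)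
      have h4 : ((0 ^ 2 : ℝ) : ℂ) = 0 := by norm_num
      rw [h4] at h3
      exact h3
    refine h2.congr fun n => ?_
    rw [h.eq_sq]

end squares

variable {H : Type u} [NormedAddCommGroup H] [InnerProductSpace ℂ H] [CompleteSpace H]
variable {N : VonNeumannAlgebra H}

theorem norm_unitary_le (a : unitary (Elt N)) : ‖(a : Elt N)‖ ≤ 1 := by
  have h1 : star (a : Elt N) * (a : Elt N) = 1 := Unitary.coe_star_mul_self a
  have h2 : star (((a : Elt N) : H →L[ℂ] H)) * ((a : Elt N) : H →L[ℂ] H) = 1 :=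
    congrArg Subtype.val h1
  exact norm_le_one_of_star_mul h2.le

/-- A sequence of unitaries as a bounded sequence. -/
noncomputable def mkB (a : ℕ → unitary (Elt N)) : ℕ →ᵇ Elt N :=
  BoundedContinuousFunction.ofNormedAddCommGroupDiscrete (fun n => (a n : Elt N)) 1
    (fun n => norm_unitary_le (a n))

theorem mkB_apply (a : ℕ → unitary (Elt N)) (n : ℕ) : mkB a n = (a n : Elt N) := rfl

section ultra

variable {Q : Type u} [Ring Q] [StarRing Q] [Algebra ℂ Q] [StarModule ℂ Q]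
variable {T : TracialState N} {U : Ultrafilter ℕ} {π : (ℕ →ᵇ Elt N) →⋆ₐ[ℂ] Q} {σ : Q → ℂ}

theorem pi_eq_iff (hπ : IsTracialUltrapower T.τ U π σ) (x y : ℕ →ᵇ Elt N) :
    π x = π y ↔ Tendsto (fun n => n2 T.τ (x n - y n)) U (𝓝 0) := by
  have hA := trAlg T
  have h1 : π x = π y ↔ π (x - y) = 0 := by rw [map_sub, sub_eq_zero]
  rw [h1, hπ.ker, ← hA.tendsto_iff]
  rfl

theorem exists_unitary_lift (hπ : IsTracialUltrapower T.τ U π σ) (u : Q) (hu : u ∈ unitary Q) :
    ∃ a : ℕ → unitary (Elt N), π (mkB a) = u := by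
  have hA := trAlg T
  obtain ⟨x, rfl⟩ := hπ.surj u
  have h1 := fun n => exists_unitary_near T (x n)
  choose w hw hwn using h1
  refine ⟨fun n => ⟨w n, hw n⟩, ?_⟩
  rw [pi_eq_iff hπ]
  have h2 : π (star x * x) = π 1 := by
    rw [map_mul, map_star, map_one]
    exact (Unitary.mem_iff.1 hu).1
  rw [pi_eq_iff hπ] at h2
  have h3 : Tendsto (fun n => Real.sqrt (n2 T.τ ((star x * x : ℕ →ᵇ Elt N) n - (1 : ℕ →ᵇ Elt N) n)))
      U (𝓝 0) := by
    have := (Real.continuous_sqrt.tendsto 0).comp h2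
    rwa [Real.sqrt_zero] at this
  refine squeeze_zero (fun n => n2_nonneg _ _) (fun n => ?_) h3
  show n2 T.τ (w n - x n) ≤ _
  rw [hA.n2_sub_comm]
  apply Real.le_sqrt_of_sq_le
  exact hwn n

theorem adjoin_sub_wstar (hπ : IsTracialUltrapower T.τ U π σ) (u y : Q)
    (hy : y ∈ StarAlgebra.adjoin ℂ ({u} : Set Q)) : y ∈ wstar σ u := by
  intro ε hε
  refine ⟨y, hy, ?_⟩
  have h0 : σ 0 = 0 := by
    have h1 := hπ.trace 0
    rw [map_zero] at h1
    have h2 : Tendsto (fun n => T.τ ((0 : ℕ →ᵇ Elt N) n)) U (𝓝 0) := by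
      have : (fun n => T.τ ((0 : ℕ →ᵇ Elt N) n)) = fun _ => 0 := by
        funext n
        exact map_zero T.τ
      rw [this]
      exact tendsto_const_nhds
    exact tendsto_nhds_unique h1 h2
  unfold norm2
  rw [sub_self, star_zero, mul_zero, h0]
  simpa using hε

theorem zp_mem (u : Q) (k : ℤ) : zp u k ∈ StarAlgebra.adjoin ℂ ({u} : Set Q) := by
  have hu : u ∈ StarAlgebra.adjoin ℂ ({u} : Set Q) := StarAlgebra.self_mem_adjoin_singleton ℂ u
  cases k with
  | ofNat m => exact pow_mem hu m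
  | negSucc m => exact pow_mem (star_mem hu) _

theorem map_zp (x : ℕ →ᵇ Elt N) (k : ℤ) : π (zp x k) = zp (π x) k := by
  cases k with
  | ofNat m => exact map_pow π x m
  | negSucc m =>
    show π (star x ^ (m + 1)) = star (π x) ^ (m + 1)
    rw [map_pow, map_star]

theorem bpow_apply (x : ℕ →ᵇ Elt N) (m n : ℕ) : (x ^ m) n = (x n) ^ m := by
  induction m with
  | zero => simp
  | succ m ih => rw [pow_succ, pow_succ, BoundedContinuousFunction.mul_apply, ih]

theorem zp_apply (x : ℕ →ᵇ Elt N) (k : ℤ) (n : ℕ) : (zp x k) n = zp (x n) k := by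
  cases k with
  | ofNat m => exact bpow_apply x m n
  | negSucc m => exact bpow_apply (star x) (m + 1) n

theorem dfc_tendsto (hπ : IsTracialUltrapower T.τ U π σ) (a b : ℕ → unitary (Elt N))
    (hab : IndepPair σ (π (mkB a)) (π (mkB b))) (k l : ℤ) :
    Tendsto (fun n => dfc T.τ (((a n) ^ k : unitary (Elt N)) : Elt N)
      (((b n) ^ l : unitary (Elt N)) : Elt N)) U (𝓝 0) := by
  have h1 := hab (zp (π (mkB a)) k) (adjoin_sub_wstar hπ _ _ (zp_mem _ _))
    (zp (π (mkB b)) l) (adjoin_sub_wstar hπ _ _ (zp_mem _ _))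
  rw [← map_zp, ← map_zp, ← map_mul] at h1
  have t1 := hπ.trace (zp (mkB a) k * zp (mkB b) l)
  have t2 := (hπ.trace (zp (mkB a) k)).mul (hπ.trace (zp (mkB b) l))
  rw [h1] at t1
  have t3 := t1.sub t2
  rw [sub_self] at t3
  refine t3.congr fun n => ?_
  rw [BoundedContinuousFunction.mul_apply, zp_apply, zp_apply, mkB_apply, mkB_apply, ← zp_unitary,
    ← zp_unitary]
  rfl

/-- The lifting theorem in a tracial von Neumann algebra with the Lyapunov property. -/
theorem lifts_of_lyap (T : TracialState N) (hL : LyapProp T.τ) :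
    LiftsIndependentPairs (Elt N) T.τ := by
  classical
  intro U hU Q _ _ _ _ π σ hπ u hu v hv huv
  have hA := trAlg T
  obtain ⟨a, rfl⟩ := exists_unitary_lift hπ u hu
  obtain ⟨b, rfl⟩ := exists_unitary_lift hπ v hv
  have hfs := fun j : ℕ => finite_stage hA hL (1 / ((j : ℝ) + 1)) (by positivity)
  choose K η hη hfs using hfs
  -- the good sets
  let G : ℕ → ℕ → Prop := fun j n => ∀ k l : ℤ, |k| < K j → |l| < K j →
    ‖dfc T.τ (((a n) ^ k : unitary (Elt N)) : Elt N) (((b n) ^ l : unitary (Elt N)) : Elt N)‖ ≤ η j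
  have hG : ∀ j, ∀ᶠ n in (U : Filter ℕ), G j n := by
    intro j
    have h1 : ∀ kl ∈ (Finset.Ioo (-(K j : ℤ)) (K j)) ×ˢ (Finset.Ioo (-(K j : ℤ)) (K j)),
        ∀ᶠ n in (U : Filter ℕ), ‖dfc T.τ (((a n) ^ kl.1 : unitary (Elt N)) : Elt N)
          (((b n) ^ kl.2 : unitary (Elt N)) : Elt N)‖ ≤ η j := by
      intro kl _
      have h2 := (dfc_tendsto hπ a b huv kl.1 kl.2).norm
      rw [norm_zero] at h2
      exact (h2.eventually (gt_mem_nhds (hη j))).mono fun n hn => hn.le
    rw [← Filter.eventually_all_finset] at h1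
    refine h1.mono fun n hn k l hk hl => ?_
    refine hn (k, l) ?_
    rw [Finset.mem_product, Finset.mem_Ioo, Finset.mem_Ioo]
    exact ⟨abs_lt.1 hk, abs_lt.1 hl⟩
  have hcof : ∀ J : ℕ, ∀ᶠ n in (U : Filter ℕ), J ≤ n := by
    intro J
    rcases Ultrafilter.le_cofinite_or_eq_pure U with h1 | ⟨n, hn⟩
    · rw [Nat.cofinite_eq_atTop] at h1
      exact h1 (eventually_ge_atTop J)
    · exfalso
      apply hU n
      rw [hn]
      exact Ultrafilter.mem_pure.2 rfl
  -- the stagewise choice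
  have hstage : ∀ n, ∃ a' b' : unitary (Elt N), IndepPair T.τ (a' : Elt N) (b' : Elt N) ∧
      ∀ J, G J n → J ≤ n → n2 T.τ ((a' : Elt N) - (a n : Elt N)) ≤ 1 / ((J : ℝ) + 1) ∧
        n2 T.τ ((b' : Elt N) - (b n : Elt N)) ≤ 1 / ((J : ℝ) + 1) := by
    intro n
    by_cases hex : ∃ J, J ≤ n ∧ G J n
    · obtain ⟨J0, hJ0n, hJ0⟩ := hex
      set j := Nat.findGreatest (fun J => G J n) n with hj
      have hGj : G j n := Nat.findGreatest_spec (P := fun J => G J n) hJ0n hJ0
      obtain ⟨m, p, q, hp, hq, hpq, ha, hb⟩ := hfs j (a n) (b n) hGj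
      have hc : ∀ i : Fin m, star (om m ^ (i : ℕ)) * om m ^ (i : ℕ) = 1 := fun i =>
        om_conj_mul m i
      refine ⟨⟨_, unitary_of_pvm p hp _ hc⟩, ⟨_, unitary_of_pvm q hq _ hc⟩,
        indepPair_of_pvm hA p q hp hq hpq _ _, ?_⟩
      intro J hJ hJn
      have hle : J ≤ j := Nat.le_findGreatest hJn hJ
      have hle' : 1 / ((j : ℝ) + 1) ≤ 1 / ((J : ℝ) + 1) := by
        apply one_div_le_one_div_of_le (by positivity)
        have : (J : ℝ) ≤ j := by exact_mod_cast hle
        linarith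
      refine ⟨?_, ?_⟩
      · rw [hA.n2_sub_comm]
        exact ha.trans hle'
      · rw [hA.n2_sub_comm]
        exact hb.trans hle'
    · refine ⟨1, 1, indepPair_one hA, ?_⟩
      intro J hJ hJn
      exact absurd ⟨J, hJn, hJ⟩ hex
  choose a' b' hind herr using hstage
  have hlim : ∀ c c' : ℕ → unitary (Elt N),
      (∀ n J, G J n → J ≤ n → n2 T.τ ((c' n : Elt N) - (c n : Elt N)) ≤ 1 / ((J : ℝ) + 1)) →
      π (mkB c') = π (mkB c) := by
    intro c c' hcc
    rw [pi_eq_iff hπ, Metric.tendsto_nhds]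
    intro ε hε
    obtain ⟨J, hJ⟩ := exists_nat_gt (1 / ε)
    refine ((hG J).and (hcof J)).mono fun n hn => ?_
    have h1 := hcc n J hn.1 hn.2
    rw [Real.dist_eq, sub_zero, abs_of_nonneg (n2_nonneg _ _)]
    refine lt_of_le_of_lt h1 ?_
    rw [div_lt_iff₀ (by positivity)]
    rw [div_lt_iff₀ hε] at hJ
    nlinarith
  refine ⟨mkB a', mkB b', fun n => (a' n).2, fun n => (b' n).2,
    hlim a a' fun n J h1 h2 => (herr n J h1 h2).1, hlim b b' fun n J h1 h2 => (herr n J h1 h2).2,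
    hind⟩

end ultra

end Pool.Agent.Helper278
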