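import Mathlib
import Pool.Agent.KS6_19.UP.L.Helper278.DefsK
import Pool.Agent.KS6_19.UP.L.Helper278.Lift

set_option autoImplicit false
set_option linter.unusedSectionVars false

open scoped InnerProductSpace Topology ComplexOrder BoundedContinuousFunction
open Filter

namespace Pool.Agent.Helper278

universe u

section abstract

variable {A : Type u} [Ring A] [StarRing A] [Algebra ℂ A] [StarModule ℂ A]

theorem adjoin_sub_wstar' {τ : A →ₗ[ℂ] ℂ} (a y : A)
    (hy : y ∈ StarAlgebra.adjoin ℂ ({a} : Set A)) : y ∈ wstar τ a := by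
  intro ε hε
  refine ⟨y, hy, ?_⟩
  unfold norm2
  rw [sub_self, star_zero, mul_zero, map_zero]
  simpa using hε

/-- Independent pairs have vanishing words of length three. -/
theorem three_vanish {τ : A →ₗ[ℂ] ℂ} (h : TrAlg τ) {a b : A} (hab : IndepPair τ a b)
    (x x' y : A) (hx : x ∈ wstar τ a) (hx' : x' ∈ wstar τ a) (hy : y ∈ wstar τ b)
    (hy0 : τ y = 0) : τ (x * (y * x')) = 0 := by
  have s0 : ∀ z ∈ StarAlgebra.adjoin ℂ ({a} : Set A), ∀ z' ∈ StarAlgebra.adjoin ℂ ({a} : Set A),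
      τ (z * (y * z')) = 0 := by
    intro z hz z' hz'
    have e : τ (z * (y * z')) = τ ((z' * z) * y) := by
      rw [← mul_assoc, h.comm, mul_assoc]
    rw [e, hab _ (adjoin_sub_wstar' a _ (mul_mem hz' hz)) y hy, hy0, mul_zero]
  have s1 : ∀ z' ∈ StarAlgebra.adjoin ℂ ({a} : Set A), τ (x * (y * z')) = 0 := by
    intro z' hz'
    exact wstar_vanish (τ := τ) a (τ ∘ₗ LinearMap.mulRight ℂ (y * z')) (n2 τ (y * z'))
      (n2_nonneg _ _) (fun w => by
        have := h.cauchy' w (y * z')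
        rw [mul_comm]
        exact this) (fun w hw => s0 w hw z' hz') x hx
  have s2 := wstar_vanish (τ := τ) a (τ ∘ₗ LinearMap.mulLeft ℂ (x * y)) (n2 τ (x * y))
    (n2_nonneg _ _) (fun w => h.cauchy' (x * y) w) (fun w hw => by
      show τ (x * y * w) = 0
      rw [mul_assoc]
      exact s1 w hw) x' hx'
  have h2 : τ (x * y * x') = 0 := s2
  rwa [mul_assoc] at h2

theorem IndepPair.symm {τ : A →ₗ[ℂ] ℂ} (h : TrAlg τ) {a b : A} (hab : IndepPair τ a b) :
    IndepPair τ b a := by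
  intro x hx y hy
  rw [h.comm, hab y hy x hx, mul_comm]

/-- Independent pairs are `j`-independent for `j = 1, 2, 3`. -/
theorem kindep_of_indep {τ : A →ₗ[ℂ] ℂ} (h : TrAlg τ) {a b : A} (hab : IndepPair τ a b) (j : ℕ)
    (h1 : 1 ≤ j) (h3 : j ≤ 3) : KIndep τ j a b := by
  have key : ∀ a b : A, IndepPair τ a b →
      ∀ w ∈ AltProducts (centered τ a) (centered τ b) j, τ w = 0 := by
    intro a b hab w hw
    have hj : j = 1 ∨ j = 2 ∨ j = 3 := by omega
    rcases hj with rfl | rfl | rfl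
    · obtain ⟨x, hx, y, hy, rfl⟩ := hw
      have hy' : y = 1 := hy
      rw [hy', mul_one]
      exact hx.2
    · obtain ⟨x, hx, y, ⟨x2, hx2, y2, hy2, rfl⟩, rfl⟩ := hw
      have hy' : y2 = 1 := hy2
      rw [hy', mul_one, hab x hx.1 x2 hx2.1, hx.2, zero_mul]
    · obtain ⟨x, hx, y, ⟨x2, hx2, y2, ⟨x3, hx3, y3, hy3, rfl⟩, rfl⟩, rfl⟩ := hw
      have hy' : y3 = 1 := hy3
      rw [hy', mul_one]
      exact three_vanish h hab x x3 x2 hx.1 hx3.1 hx2.1 hx2.2
  intro w hw
  rcases hw with hw | hw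
  · exact key a b hab w hw
  · exact key b a (IndepPair.symm h hab) w hw

/-- Two-independence is independence. -/
theorem indep_of_kindep {τ : A →ₗ[ℂ] ℂ} (h : TrAlg τ) {a b : A} (hab : KIndep τ 2 a b) :
    IndepPair τ a b := by
  have hc : ∀ a x : A, x ∈ wstar τ a → x - τ x • (1 : A) ∈ centered τ a := by
    intro a x hx
    refine ⟨?_, ?_⟩
    · intro ε hε
      obtain ⟨y, hy, hxy⟩ := hx ε hε
      refine ⟨y - τ x • (1 : A), sub_mem hy ((StarAlgebra.adjoin ℂ ({a} : Set A)).smul_mem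
        (one_mem _) _), ?_⟩
      rwa [sub_sub_sub_cancel_right]
    · rw [map_sub, map_smul, h.one, smul_eq_mul, mul_one, sub_self]
  intro x hx y hy
  have h1 := hab ((x - τ x • (1 : A)) * ((y - τ y • (1 : A)) * 1))
    (Or.inl ⟨_, hc a x hx, _, ⟨_, hc b y hy, 1, rfl, rfl⟩, rfl⟩)
  rw [mul_one, sub_mul, mul_sub, mul_sub, mul_smul_comm, smul_mul_assoc, mul_one, one_mul,
    smul_mul_assoc, one_mul, map_sub, map_sub, map_sub, map_smul, map_smul, map_smul, map_smul,
    h.one] at h1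
  simp only [smul_eq_mul, mul_one] at h1
  linear_combination h1

theorem kindep_one (τ : A → ℂ) (a b : A) : KIndep τ 1 a b := by
  intro w hw
  rcases hw with ⟨x, hx, y, hy, rfl⟩ | ⟨x, hx, y, hy, rfl⟩
  · have hy' : y = 1 := hy
    rw [hy', mul_one]
    exact hx.2
  · have hy' : y = 1 := hy
    rw [hy', mul_one]
    exact hx.2

end abstract

section ultra

variable {H : Type u} [NormedAddCommGroup H] [InnerProductSpace ℂ H] [CompleteSpace H]
variable {N : VonNeumannAlgebra H}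
variable {Q : Type u} [Ring Q] [StarRing Q] [Algebra ℂ Q] [StarModule ℂ Q]
variable {T : TracialState N} {U : Ultrafilter ℕ} {π : (ℕ →ᵇ Elt N) →⋆ₐ[ℂ] Q} {σ : Q → ℂ}

theorem sigma_add (hπ : IsTracialUltrapower T.τ U π σ) (p q : Q) : σ (p + q) = σ p + σ q := by
  obtain ⟨x, rfl⟩ := hπ.surj p
  obtain ⟨y, rfl⟩ := hπ.surj q
  have h1 := hπ.trace (x + y)
  have h2 := (hπ.trace x).add (hπ.trace y)
  rw [map_add] at h1
  refine tendsto_nhds_unique h1 (h2.congr fun n => ?_)
  rw [BoundedContinuousFunction.add_apply, map_add]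

theorem sigma_smul (hπ : IsTracialUltrapower T.τ U π σ) (c : ℂ) (p : Q) :
    σ (c • p) = c * σ p := by
  obtain ⟨x, rfl⟩ := hπ.surj p
  have h1 := hπ.trace (c • x)
  have h2 := (hπ.trace x).const_mul c
  rw [map_smul] at h1
  refine tendsto_nhds_unique h1 (h2.congr fun n => ?_)
  show c * T.τ (x n) = T.τ (c • x n)
  rw [map_smul, smul_eq_mul]

/-- The limit trace as a linear map. -/
noncomputable def sigmaL (hπ : IsTracialUltrapower T.τ U π σ) : Q →ₗ[ℂ] ℂ where
  toFun := σ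
  map_add' := sigma_add hπ
  map_smul' := sigma_smul hπ

theorem sigma_trAlg (hπ : IsTracialUltrapower T.τ U π σ) : TrAlg (sigmaL hπ) := by
  have hA := trAlg T
  refine ⟨?_, ?_, ?_, ?_, ?_⟩
  · show σ 1 = 1
    have h1 := hπ.trace 1
    rw [map_one] at h1
    refine tendsto_nhds_unique h1 (tendsto_const_nhds.congr fun n => ?_)
    exact hA.one.symm
  · intro p q
    obtain ⟨x, rfl⟩ := hπ.surj p
    obtain ⟨y, rfl⟩ := hπ.surj q
    show σ (π x * π y) = σ (π y * π x)
    rw [← map_mul, ← map_mul]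
    refine tendsto_nhds_unique (hπ.trace (x * y)) ((hπ.trace (y * x)).congr fun n => ?_)
    exact hA.comm _ _
  · intro p
    obtain ⟨x, rfl⟩ := hπ.surj p
    show 0 ≤ σ (star (π x) * π x)
    rw [← map_star, ← map_mul]
    refine ge_of_tendsto' (hπ.trace (star x * x)) fun n => ?_
    exact hA.nonneg (x n)
  · intro p
    obtain ⟨x, rfl⟩ := hπ.surj p
    show σ (star (π x)) = star (σ (π x))
    rw [← map_star]
    refine tendsto_nhds_unique (hπ.trace (star x)) ?_
    refine ((continuous_star.tendsto _).comp (hπ.trace x)).congr fun n => ?_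
    exact (hA.conj (x n)).symm
  · intro p hp
    obtain ⟨x, rfl⟩ := hπ.surj p
    have hp' : σ (star (π x) * π x) = 0 := hp
    rw [← map_star, ← map_mul] at hp'
    rw [hπ.ker]
    have := hπ.trace (star x * x)
    rw [hp'] at this
    exact this

/-- Positive answer for `k = 2, 3, 4`. -/
theorem kLifts_of_lyap (T : TracialState N) (hL : LyapProp T.τ) (k : ℕ) (hk2 : 2 ≤ k)
    (hk4 : k ≤ 4) : LiftsKIndependentPairs k (Elt N) T.τ := by
  intro U hU Q _ _ _ _ π σ hπ u hu v hv huv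
  have hS := sigma_trAlg hπ
  have h2 : KIndep (sigmaL hπ) 2 u v := huv 2 (by norm_num) hk2
  have h3 : IndepPair σ u v := indep_of_kindep hS h2
  obtain ⟨a, b, ha, hb, hau, hbv, hab⟩ := lifts_of_lyap T hL U hU Q π σ hπ u hu v hv h3
  refine ⟨a, b, ha, hb, hau, hbv, fun n j hj1 hj => ?_⟩
  exact kindep_of_indep (trAlg T) (hab n) j hj1 (by omega)

end ultra

end Pool.Agent.Helper278
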