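import Mathlib
import Pool.Agent.KS6_19.UP.L.Helper278.NoBasis
import Pool.Agent.KS6_19.UP.L.Helper278.KLift

set_option autoImplicit false
set_option linter.unusedSectionVars false
set_option linter.unusedVariables false

open scoped InnerProductSpace Topology ComplexOrder BoundedContinuousFunction
open Filter

namespace Pool.Agent.Helper278

universe u

section maps

variable {A B : Type*} [Ring A] [StarRing A] [Algebra ℂ A] [StarModule ℂ A]
variable [Ring B] [StarRing B] [Algebra ℂ B] [StarModule ℂ B]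

theorem map_hf (F : A →ₐ[ℂ] B) (b : Bool) (x : A) : F (hf b x) = hf b (F x) := by
  unfold hf
  rw [map_smul, map_add, map_one, map_smul]

theorem map_atm (F : A →ₐ[ℂ] B) (s : ℕ → A) (m : ℕ) (i : Idx m) :
    F (atm s m i) = atm (fun k => F (s k)) m i := by
  induction m with
  | zero => exact map_one F
  | succ m ih =>
    obtain ⟨i, b⟩ := i
    rw [atm_succ, atm_succ, map_mul, ih, map_hf]

theorem map_pinch (F : A →ₐ[ℂ] B) (s : ℕ → A) (m : ℕ) (x : A) :
    F (pinch s m x) = pinch (fun k => F (s k)) m (F x) := by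
  unfold pinch
  rw [map_sum]
  refine Finset.sum_congr rfl fun i _ => ?_
  rw [map_mul, map_mul, map_atm]

end maps

variable {H : Type u} [NormedAddCommGroup H] [InnerProductSpace ℂ H] [CompleteSpace H]
variable {N : VonNeumannAlgebra H}
variable {Q : Type u} [Ring Q] [StarRing Q] [Algebra ℂ Q] [StarModule ℂ Q]
variable {T : TracialState N} {U : Ultrafilter ℕ} {π : (ℕ →ᵇ Elt N) →⋆ₐ[ℂ] Q} {σ : Q → ℂ}

/-- evaluation -/
noncomputable def evB (N : VonNeumannAlgebra H) (n : ℕ) : (ℕ →ᵇ Elt N) →ₐ[ℂ] Elt N where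
  toFun x := x n
  map_one' := rfl
  map_mul' _ _ := rfl
  map_zero' := rfl
  map_add' _ _ := rfl
  commutes' _ := rfl

theorem evB_apply (n : ℕ) (x : ℕ →ᵇ Elt N) : evB N n x = x n := rfl

theorem atm_apply (S : ℕ → (ℕ →ᵇ Elt N)) (m : ℕ) (i : Idx m) (n : ℕ) :
    (atm S m i) n = atm (fun j => S j n) m i := map_atm (evB N n) S m i

theorem pinch_apply (S : ℕ → (ℕ →ᵇ Elt N)) (m : ℕ) (x : ℕ →ᵇ Elt N) (n : ℕ) :
    (pinch S m x) n = pinch (fun j => S j n) m (x n) := map_pinch (evB N n) S m x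

theorem pi_atm (S : ℕ → (ℕ →ᵇ Elt N)) (m : ℕ) (i : Idx m) :
    π (atm S m i) = atm (fun j => π (S j)) m i := map_atm (π : (ℕ →ᵇ Elt N) →ₐ[ℂ] Q) S m i

theorem pi_pinch (S : ℕ → (ℕ →ᵇ Elt N)) (m : ℕ) (x : ℕ →ᵇ Elt N) :
    π (pinch S m x) = pinch (fun j => π (S j)) m (π x) :=
  map_pinch (π : (ℕ →ᵇ Elt N) →ₐ[ℂ] Q) S m x

/-- A sequence of symmetries as a bounded sequence. -/
noncomputable def mkSym (b : ℕ → Elt N) (h1 : ∀ n, star (b n) = b n) (h2 : ∀ n, b n * b n = 1) :
    ℕ →ᵇ Elt N :=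
  mkB (fun n => ⟨b n, Unitary.mem_iff.2 ⟨by rw [h1, h2], by rw [h1, h2]⟩⟩)

theorem mkSym_apply (b : ℕ → Elt N) (h1 : ∀ n, star (b n) = b n) (h2 : ∀ n, b n * b n = 1)
    (n : ℕ) : mkSym b h1 h2 n = b n := rfl

/-- Rademacher sequences of bounded sequences give Rademacher sequences of the ultrapower. -/
theorem isRad_pi (hπ : IsTracialUltrapower T.τ U π σ) (S : ℕ → (ℕ →ᵇ Elt N))
    (hS : ∀ n m, IsRad T.τ (fun j => S j n) m) (m : ℕ) :
    IsRad (sigmaL hπ) (fun j => π (S j)) m := by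
  refine ⟨⟨?_, ?_, ?_⟩, ?_⟩
  · intro i _
    show star (π (S i)) = π (S i)
    rw [← map_star]
    congr 1
    ext1 n
    exact (hS n (i + 1)).1.sa i (Nat.lt_succ_self i)
  · intro i _
    show π (S i) * π (S i) = 1
    rw [← map_mul, ← map_one π]
    congr 1
    ext1 n
    exact (hS n (i + 1)).1.sq i (Nat.lt_succ_self i)
  · intro i _ j _
    show π (S i) * π (S j) = π (S j) * π (S i)
    rw [← map_mul, ← map_mul]
    congr 1
    ext1 n
    exact (hS n (i + j + 1)).1.comm i (by omega) j (by omega)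
  · intro k _ i
    rw [← pi_atm]
    show σ (π (atm S k i)) = _
    refine tendsto_nhds_unique (hπ.trace (atm S k i)) (tendsto_const_nhds.congr fun n => ?_)
    rw [atm_apply]
    exact ((hS n k).2 k le_rfl i).symm

theorem exists_sa_lift (hπ : IsTracialUltrapower T.τ U π σ) (s : Q) (hs : star s = s)
    (hss : s * s = 1) : ∃ x : ℕ →ᵇ Elt N, π x = s ∧
      ∀ n, star (x n) = x n ∧ Pos (1 + x n) ∧ Pos (1 - x n) := by
  obtain ⟨a, ha⟩ := exists_unitary_lift hπ s
    (Unitary.mem_iff.2 ⟨by rw [hs, hss], by rw [hs, hss]⟩)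
  let x : ℕ →ᵇ Elt N := (((1 / 2 : ℝ)) : ℂ) • (mkB a + star (mkB a))
  have hxn : ∀ n, x n = (((1 / 2 : ℝ)) : ℂ) • ((a n : Elt N) + star (a n : Elt N)) := fun n => rfl
  have half : ∀ y : Elt N, (((1 / 2 : ℝ)) : ℂ) • ((2 : ℂ) • y) = y := by
    intro y
    rw [smul_smul]
    norm_num
  refine ⟨x, ?_, fun n => ⟨?_, ?_, ?_⟩⟩
  · show π ((((1 / 2 : ℝ)) : ℂ) • (mkB a + star (mkB a))) = s
    rw [map_smul, map_add, map_star, ha, hs, ← two_smul ℂ s, smul_smul]
    norm_num
  · rw [hxn, star_smul, star_add, star_star, Complex.star_def, Complex.conj_ofReal, add_comm]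
  · have e : (1 : Elt N) + x n = (((1 / 2 : ℝ)) : ℂ) • (star (1 + (a n : Elt N)) *
        (1 + (a n : Elt N))) := by
      have h1 : star (a n : Elt N) * (a n : Elt N) = 1 := Unitary.coe_star_mul_self (a n)
      have h2 : star (1 + (a n : Elt N)) * (1 + (a n : Elt N)) =
          (2 : ℂ) • (1 : Elt N) + ((a n : Elt N) + star (a n : Elt N)) := by
        rw [star_add, star_one]
        calc (1 + star (a n : Elt N)) * (1 + (a n : Elt N)) =
            1 + star (a n : Elt N) * (a n : Elt N) + ((a n : Elt N) + star (a n : Elt N)) := by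
              noncomm_ring
          _ = _ := by rw [h1, two_smul]
      rw [h2, smul_add, half, hxn]
    rw [e]
    exact pos_rsmul (pos_star_mul _) _ (by norm_num)
  · have e : (1 : Elt N) - x n = (((1 / 2 : ℝ)) : ℂ) • (star (1 - (a n : Elt N)) *
        (1 - (a n : Elt N))) := by
      have h1 : star (a n : Elt N) * (a n : Elt N) = 1 := Unitary.coe_star_mul_self (a n)
      have h2 : star (1 - (a n : Elt N)) * (1 - (a n : Elt N)) =
          (2 : ℂ) • (1 : Elt N) - ((a n : Elt N) + star (a n : Elt N)) := by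
        rw [star_sub, star_one]
        calc (1 - star (a n : Elt N)) * (1 - (a n : Elt N)) =
            1 + star (a n : Elt N) * (a n : Elt N) - ((a n : Elt N) + star (a n : Elt N)) := by
              noncomm_ring
          _ = _ := by rw [h1, two_smul]
      rw [h2, smul_sub, half, hxn]
    rw [e]
    exact pos_rsmul (pos_star_mul _) _ (by norm_num)

theorem tendsto_n2_zero_iff (hπ : IsTracialUltrapower T.τ U π σ) (x : ℕ →ᵇ Elt N) :
    π x = 0 ↔ Tendsto (fun n => n2 T.τ (x n)) U (𝓝 0) := by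
  rw [hπ.ker, (trAlg T).tendsto_iff]

/-- The main lifting construction. -/
theorem rad_lift_core (hπ : IsTracialUltrapower T.τ U π σ) (hL : LyapProp T.τ)
    (x : ℕ → (ℕ →ᵇ Elt N))
    (hx : ∀ j n, star (x j n) = x j n ∧ Pos (1 + x j n) ∧ Pos (1 - x j n)) :
    ∃ S : ℕ → (ℕ →ᵇ Elt N), (∀ n m, IsRad T.τ (fun j => S j n) m) ∧
      ∀ (s : ℕ → Q) (m : ℕ), IsRad (sigmaL hπ) s m → (∀ j < m, π (x j) = s j) →
        ∀ j < m, π (S j) = s j := by
  classical
  have hA := trAlg T
  have hS := sigma_trAlg hπ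
  have h1 := fun n => exists_rad hA hL (fun j => x j n) (fun j => (hx j n).1)
    (fun j => (hx j n).2.1) (fun j => (hx j n).2.2)
  choose s' hs' hd' using h1
  let S : ℕ → (ℕ →ᵇ Elt N) := fun j => mkSym (fun n => s' n j)
    (fun n => (hs' n (j + 1)).1.sa j (Nat.lt_succ_self j))
    (fun n => (hs' n (j + 1)).1.sq j (Nat.lt_succ_self j))
  have hSn : ∀ n, (fun j => S j n) = s' n := fun n => rfl
  refine ⟨S, fun n m => by rw [hSn]; exact hs' n m, ?_⟩
  intro s m hs hxs j
  induction j using Nat.strong_induction_on with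
  | _ j ih =>
    intro hj
    have ih' : ∀ i < j, π (S i) = s i := fun i hi => ih i hi (by omega)
    have hsj := hs.mono (show j ≤ m by omega)
    have hPV := pvm_atm s j hsj.1
    have hatm : ∀ i : Idx j, π (atm S j i) = atm s j i := by
      intro i
      rw [pi_atm]
      exact atm_congr _ _ j ih' i
    -- the pinching is `s j` in the ultrapower
    have hP : π (pinch S j (x j)) = s j := by
      rw [pi_pinch, pinch_congr _ s j ih', hxs j hj]
      unfold pinch
      have h2 : ∀ i : Idx j, atm s j i * s j * atm s j i = s j * atm s j i := by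
        intro i
        rw [← atm_comm s j (s j) (fun k hk => hs.1.comm j hj k (by omega)) i, mul_assoc, hPV.idem]
      rw [Finset.sum_congr rfl (fun i _ => h2 i), ← Finset.mul_sum, hPV.sum, mul_one]
    have hsq : s j * s j = 1 := hs.1.sq j hj
    have t1 : Tendsto (fun n => 1 - (T.τ (pinch (s' n) j (x j n) *
        pinch (s' n) j (x j n))).re) U (𝓝 0) := by
      have h2 := hπ.trace (pinch S j (x j) * pinch S j (x j))
      rw [map_mul, hP, hsq] at h2
      have h3 : σ 1 = 1 := hS.one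
      rw [h3] at h2
      have h4 := (Complex.continuous_re.tendsto 1).comp h2
      have h5 := (tendsto_const_nhds (x := (1 : ℝ)) (f := (U : Filter ℕ))).sub h4
      rw [Complex.one_re, sub_self] at h5
      refine h5.congr fun n => ?_
      show 1 - (T.τ ((pinch S j (x j) * pinch S j (x j)) n)).re = _
      rw [BoundedContinuousFunction.mul_apply, pinch_apply, hSn]
    have t2 : Tendsto (fun n => dev T.τ (s' n) j (x j n)) U (𝓝 0) := by
      unfold dev
      have h2 : ∀ i : Idx j, Tendsto (fun n => ‖(2 : ℂ) ^ j * T.τ (x j n * atm (s' n) j i)‖) U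
          (𝓝 0) := by
        intro i
        have h3 := hπ.trace (x j * atm S j i)
        rw [map_mul, hatm, hxs j hj] at h3
        have h4 : σ (s j * atm s j i) = 0 := by
          have h5 := (hs.mono (show j + 1 ≤ m by omega)).orth i
          rw [hS.comm] at h5
          exact h5
        rw [h4] at h3
        have h6 := (h3.const_mul ((2 : ℂ) ^ j)).norm
        rw [mul_zero, norm_zero] at h6
        refine h6.congr fun n => ?_
        rw [BoundedContinuousFunction.mul_apply, atm_apply, hSn]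
      have h7 := tendsto_finsetSum (f := fun (i : Idx j) n =>
        ‖(2 : ℂ) ^ j * T.τ (x j n * atm (s' n) j i)‖) Finset.univ (fun i _ => h2 i)
      rw [Finset.sum_const_zero] at h7
      exact h7
    have t3 := t1.add (t2.const_mul 4)
    rw [mul_zero, add_zero] at t3
    have t4 : Tendsto (fun n => Real.sqrt ((1 - (T.τ (pinch (s' n) j (x j n) *
        pinch (s' n) j (x j n))).re) + 4 * dev T.τ (s' n) j (x j n))) U (𝓝 0) := by
      have := (Real.continuous_sqrt.tendsto 0).comp t3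
      rwa [Real.sqrt_zero] at this
    have t5 : π (S j) = π (pinch S j (x j)) := by
      rw [pi_eq_iff hπ]
      refine squeeze_zero (fun n => n2_nonneg _ _) (fun n => ?_) t4
      rw [pinch_apply, hSn]
      exact Real.le_sqrt_of_sq_le (hd' n j)
    rw [t5, hP]

theorem pos_zero_add : Pos ((1 : Elt N) + 0) := by
  rw [add_zero]
  have := pos_star_mul (1 : Elt N)
  rwa [star_one, mul_one] at this

theorem pos_zero_sub : Pos ((1 : Elt N) - 0) := by
  rw [sub_zero]
  have := pos_star_mul (1 : Elt N)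
  rwa [star_one, mul_one] at this

theorem extProp_ultra (hπ : IsTracialUltrapower T.τ U π σ) (hL : LyapProp T.τ) :
    ExtProp (sigmaL hπ) := by
  classical
  intro s m hs
  have h1 : ∀ j, ∃ x : ℕ →ᵇ Elt N, (j < m → π x = s j) ∧
      ∀ n, star (x n) = x n ∧ Pos (1 + x n) ∧ Pos (1 - x n) := by
    intro j
    by_cases hj : j < m
    · obtain ⟨x, hx1, hx2⟩ := exists_sa_lift hπ (s j) (hs.1.sa j hj) (hs.1.sq j hj)
      exact ⟨x, fun _ => hx1, hx2⟩
    · exact ⟨0, fun h => absurd h hj, fun n => ⟨star_zero _, pos_zero_add, pos_zero_sub⟩⟩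
  choose x hx1 hx2 using h1
  obtain ⟨S, hS, hSs⟩ := rad_lift_core hπ hL x hx2
  exact ⟨fun j => π (S j), fun i hi => hSs s m hs hx1 i hi, isRad_pi hπ S hS⟩

/-- Infinite Rademacher sequences lift. -/
theorem exists_rad_lift (hπ : IsTracialUltrapower T.τ U π σ) (hL : LyapProp T.τ)
    (s : ℕ → Q) (hs : ∀ m, IsRad (sigmaL hπ) s m) :
    ∃ S : ℕ → (ℕ →ᵇ Elt N), (∀ n m, IsRad T.τ (fun j => S j n) m) ∧ ∀ j, π (S j) = s j := by
  have h1 : ∀ j, ∃ x : ℕ →ᵇ Elt N, π x = s j ∧
      ∀ n, star (x n) = x n ∧ Pos (1 + x n) ∧ Pos (1 - x n) := fun j =>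
    exists_sa_lift hπ (s j) ((hs (j + 1)).1.sa j (Nat.lt_succ_self j))
      ((hs (j + 1)).1.sq j (Nat.lt_succ_self j))
  choose x hx1 hx2 using h1
  obtain ⟨S, hS, hSs⟩ := rad_lift_core hπ hL x hx2
  exact ⟨S, hS, fun j => hSs s (j + 1) (hs _) (fun i _ => hx1 i) j (Nat.lt_succ_self j)⟩

theorem eventually_ge (hU : ∀ n, {n} ∉ U) (J : ℕ) : ∀ᶠ n in (U : Filter ℕ), J ≤ n := by
  rcases Ultrafilter.le_cofinite_or_eq_pure U with h1 | ⟨n, hn⟩
  · rw [Nat.cofinite_eq_atTop] at h1
    exact h1 (eventually_ge_atTop J)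
  · exfalso
    apply hU n
    rw [hn]
    exact Ultrafilter.mem_pure.2 rfl

theorem farProp_ultra (hU : ∀ n, {n} ∉ U) (hπ : IsTracialUltrapower T.τ U π σ)
    (hL : LyapProp T.τ) : FarProp (sigmaL hπ) := by
  classical
  intro s hs Y hY
  obtain ⟨S, hS, hSs⟩ := exists_rad_lift hπ hL s hs
  -- enumerate `Y ∪ {0}`
  obtain ⟨f, hf⟩ := (hY.insert 0).exists_eq_range (Set.insert_nonempty 0 Y)
  have hlift := fun l => hπ.surj (f l)
  choose y hy using hlift
  have hstep : ∀ n, ∃ b : Elt N, star b = b ∧ b * b = 1 ∧ (∀ j, b * S j n = S j n * b) ∧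
      ∀ l < n, T.τ (b * y l n) = 0 := by
    intro n
    have hSn := hS n
    obtain ⟨D, hSD, hDc, hD⟩ := hL (Set.range fun j => S j n)
      (by
        rintro _ ⟨j, rfl⟩
        exact ⟨j, ((hSn (j + 1)).1.sa j (Nat.lt_succ_self j)).symm⟩)
      (by
        rintro _ ⟨i, rfl⟩ _ ⟨j, rfl⟩
        exact (hSn (i + j + 1)).1.comm i (by omega) j (by omega))
    obtain ⟨p, hpD, hpP, hpτ⟩ := hD Bool (Fin n) (fun _ => (((1 / 2 : ℝ)) : ℂ) • (1 : Elt N))
      (fun l => y l n) (fun _ => D.smul_mem (one_mem D) _)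
      (fun _ => pos_proj (star_one _) (mul_one _) _ (by norm_num))
      (by
        rw [Fintype.sum_bool, ← add_smul, ← Complex.ofReal_add]
        norm_num)
    have hpsum := hpP.sum
    rw [Fintype.sum_bool] at hpsum
    have htf := hpP.orth true false (by decide)
    have hft := hpP.orth false true (by decide)
    refine ⟨p true - p false, ?_, ?_, ?_, ?_⟩
    · rw [star_sub, hpP.star_eq, hpP.star_eq]
    · rw [sub_mul, mul_sub, mul_sub, hpP.idem, hpP.idem, htf, hft, sub_zero, zero_sub,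
        sub_neg_eq_add, hpsum]
    · intro j
      exact hDc _ (sub_mem (hpD true) (hpD false)) _ (hSD _ ⟨j, rfl⟩)
    · intro l hl
      have h1 := hpτ true ⟨l, hl⟩
      have h2 := hpτ false ⟨l, hl⟩
      rw [sub_mul, map_sub, h1, h2, sub_self]
  choose b hb1 hb2 hb3 hb4 using hstep
  refine ⟨π (mkSym b hb1 hb2), ?_, ?_, ?_, ?_⟩
  · rw [← map_star]
    congr 1
    ext1 n
    exact hb1 n
  · rw [← map_mul, ← map_one π]
    congr 1
    ext1 n
    exact hb2 n
  · intro j
    rw [← hSs j, ← map_mul, ← map_mul]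
    congr 1
    ext1 n
    exact hb3 n j
  · intro z hz
    have hz' : z ∈ Set.range f := by rw [← hf]; exact Set.mem_insert_of_mem _ hz
    obtain ⟨l, rfl⟩ := hz'
    show σ (π (mkSym b hb1 hb2) * f l) = 0
    rw [← hy l, ← map_mul]
    refine tendsto_nhds_unique (hπ.trace (mkSym b hb1 hb2 * y l))
      (tendsto_const_nhds.congr' ?_)
    refine (eventually_ge hU (l + 1)).mono fun n hn => ?_
    show (0 : ℂ) = T.τ ((mkSym b hb1 hb2 * y l) n)
    rw [BoundedContinuousFunction.mul_apply, mkSym_apply]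
    exact (hb4 n l (by omega)).symm

end Pool.Agent.Helper278
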