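import Mathlib
import Pool.Agent.KS6_19.UP.L.Helper278.Factor
import Pool.Agent.KS6_19.UP.L.Helper278.RadLift

set_option autoImplicit false
set_option linter.unusedSectionVars false
set_option linter.unusedVariables false

open scoped InnerProductSpace Topology ComplexOrder BoundedContinuousFunction
open Filter

namespace Pool.Agent.Helper278

universe u

section abstract

variable {A : Type*} [Ring A] [StarRing A] [Algebra ℂ A] [StarModule ℂ A] {τ : A →ₗ[ℂ] ℂ}

theorem TrAlg.zero_of_sq (h : TrAlg τ) {x : A} (hx : star x * x = 0) : x = 0 :=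
  h.faithful x (by rw [hx, map_zero])

theorem TrAlg.partial_right (h : TrAlg τ) {v p : A} (hp : star p = p) (hpp : p * p = p)
    (hv : star v * v = p) : v * p = v := by
  have h1 : v * p - v = 0 := by
    apply h.zero_of_sq
    rw [star_sub, star_mul, hp]
    calc (p * star v - star v) * (v * p - v) =
        p * (star v * v) * p - p * (star v * v) - (star v * v) * p + star v * v := by noncomm_ring
      _ = 0 := by rw [hv, hpp, hpp]; abel
  exact sub_eq_zero.1 h1

/-- Partitions with equivalent pieces are unitarily conjugate. -/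
theorem TrAlg.conj_pvm (h : TrAlg τ) {ι : Type*} [Fintype ι] (p q : ι → A) (hp : PVM p)
    (hq : PVM q) (hv : ∀ i, ∃ v : A, star v * v = p i ∧ v * star v = q i) :
    ∃ w : A, star w * w = 1 ∧ w * star w = 1 ∧ ∀ i, w * p i * star w = q i := by
  classical
  choose v hv1 hv2 using hv
  have hvp : ∀ i, v i * p i = v i := fun i => h.partial_right (hp.star_eq i) (hp.idem i) (hv1 i)
  have hqv : ∀ i, q i * v i = v i := by
    intro i
    rw [← hv2, mul_assoc, hv1, hvp]
  have hpv : ∀ i, p i * star (v i) = star (v i) := by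
    intro i
    have := congrArg star (hvp i)
    rwa [star_mul, hp.star_eq] at this
  have hvq : ∀ i, star (v i) * q i = star (v i) := by
    intro i
    have := congrArg star (hqv i)
    rwa [star_mul, hq.star_eq] at this
  have o1 : ∀ i j, i ≠ j → star (v i) * v j = 0 := by
    intro i j hij
    rw [← hvq i, ← hqv j]
    calc star (v i) * q i * (q j * v j) = star (v i) * (q i * q j) * v j := by noncomm_ring
      _ = 0 := by rw [hq.orth i j hij]; simp
  have o2 : ∀ i j, i ≠ j → v i * star (v j) = 0 := by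
    intro i j hij
    rw [← hvp i, ← hpv j]
    calc v i * p i * (p j * star (v j)) = v i * (p i * p j) * star (v j) := by noncomm_ring
      _ = 0 := by rw [hp.orth i j hij]; simp
  have o3 : ∀ i j, j ≠ i → v j * p i = 0 := by
    intro i j hij
    rw [← hvp j, mul_assoc, hp.orth j i hij, mul_zero]
  refine ⟨∑ i, v i, ?_, ?_, ?_⟩
  · rw [star_sum, Finset.sum_mul_sum, ← hp.sum]
    refine Finset.sum_congr rfl fun i _ => ?_
    rw [Finset.sum_eq_single i, hv1]
    · intro j _ hj
      exact o1 i j (Ne.symm hj)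
    · intro hi
      exact absurd (Finset.mem_univ i) hi
  · rw [star_sum, Finset.sum_mul_sum, ← hq.sum]
    refine Finset.sum_congr rfl fun i _ => ?_
    rw [Finset.sum_eq_single i, hv2]
    · intro j _ hj
      exact o2 i j (Ne.symm hj)
    · intro hi
      exact absurd (Finset.mem_univ i) hi
  · intro i
    have e1 : (∑ j, v j) * p i = v i := by
      rw [Finset.sum_mul, Finset.sum_eq_single i, hvp]
      · intro j _ hj
        exact o3 i j hj
      · intro hi
        exact absurd (Finset.mem_univ i) hi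
    rw [e1, star_sum, Finset.mul_sum, Finset.sum_eq_single i, hv2]
    · intro j _ hj
      exact o2 i j (Ne.symm hj)
    · intro hi
      exact absurd (Finset.mem_univ i) hi

end abstract

variable {H : Type u} [NormedAddCommGroup H] [InnerProductSpace ℂ H] [CompleteSpace H]
variable {N : VonNeumannAlgebra H}
variable {Q : Type u} [Ring Q] [StarRing Q] [Algebra ℂ Q] [StarModule ℂ Q]
variable {T : TracialState N} {U : Ultrafilter ℕ} {π : (ℕ →ᵇ Elt N) →⋆ₐ[ℂ] Q} {σ : Q → ℂ}

theorem conj_step (T : TracialState N) (hN : HasTrivialCenter N) (s t : ℕ → Elt N) (n : ℕ)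
    (hs : IsRad T.τ s n) (ht : IsRad T.τ t n) :
    ∃ w : Elt N, star w * w = 1 ∧ w * star w = 1 ∧ ∀ j < n, w * s j * star w = t j := by
  have hA := trAlg T
  have hps := pvm_atm s n hs.1
  have hpt := pvm_atm t n ht.1
  obtain ⟨w, hw1, hw2, hw⟩ := hA.conj_pvm (atm s n) (atm t n) hps hpt
    (fun i => exists_equiv T hN _ _ (hps.star_eq i) (hps.idem i) (hpt.star_eq i) (hpt.idem i)
      ((hs.2 n le_rfl i).trans (ht.2 n le_rfl i).symm))
  refine ⟨w, hw1, hw2, fun j hj => ?_⟩
  obtain ⟨c, hc⟩ := sym_coeff (A := Elt N) n j hj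
  rw [hc s hs.1, hc t ht.1, Finset.mul_sum, Finset.sum_mul]
  refine Finset.sum_congr rfl fun i _ => ?_
  rw [mul_smul_comm, smul_mul_assoc, hw]

theorem conjProp_ultra (hU : ∀ n, {n} ∉ U) (hπ : IsTracialUltrapower T.τ U π σ)
    (hL : LyapProp T.τ) (hN : HasTrivialCenter N) : ConjProp (sigmaL hπ) := by
  intro s t hs ht
  obtain ⟨S, hS, hSs⟩ := exists_rad_lift hπ hL s hs
  obtain ⟨R, hR, hRt⟩ := exists_rad_lift hπ hL t ht
  have h1 := fun n => conj_step T hN (fun j => S j n) (fun j => R j n) n (hS n n) (hR n n)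
  choose w hw1 hw2 hw3 using h1
  let W : ℕ →ᵇ Elt N := mkB (fun n => ⟨w n, Unitary.mem_iff.2 ⟨hw1 n, hw2 n⟩⟩)
  have hWn : ∀ n, W n = w n := fun n => rfl
  refine ⟨π W, ?_, ?_, fun j => ?_⟩
  · rw [← map_star, ← map_mul, ← map_one π]
    congr 1
    ext1 n
    exact hw1 n
  · rw [← map_star, ← map_mul, ← map_one π]
    congr 1
    ext1 n
    exact hw2 n
  · rw [← hSs j, ← hRt j, ← map_star, ← map_mul, ← map_mul, pi_eq_iff hπ]
    refine tendsto_const_nhds.congr' ?_
    refine (eventually_ge hU (j + 1)).mono fun n hn => ?_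
    have h2 : (W * S j * star W) n = R j n := hw3 n j (by omega)
    show (0 : ℝ) = n2 T.τ ((W * S j * star W) n - R j n)
    rw [h2, sub_self, (trAlg T).n2_zero]

end Pool.Agent.Helper278
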