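import Mathlib
import Pool.Agent.KS6_19.UP.L.Helper278.Conj

set_option autoImplicit false
set_option linter.unusedSectionVars false
set_option linter.unusedVariables false

open scoped InnerProductSpace Topology ComplexOrder BoundedContinuousFunction
open Filter

namespace Pool.Agent.Helper278

universe u

section abstract

variable {A : Type*} [Ring A] [StarRing A] [Algebra ℂ A] [StarModule ℂ A] {τ : A →ₗ[ℂ] ℂ}

theorem TrAlg.pos_vanish (h : TrAlg τ) {y e : A} (hy : Pos y) (he : star e = e)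
    (h0 : τ (e * y * e) = 0) : y * e = 0 := by
  unfold Pos at hy
  induction hy using AddSubmonoid.closure_induction with
  | mem y hy =>
    obtain ⟨c, rfl⟩ := hy
    have h0' : τ (e * (star c * c) * e) = 0 := h0
    have e1 : e * (star c * c) * e = star (c * e) * (c * e) := by
      rw [star_mul, he]; noncomm_ring
    rw [e1] at h0'
    have := h.faithful _ h0'
    show star c * c * e = 0
    rw [mul_assoc, this, mul_zero]
  | zero => exact zero_mul e
  | add x y hx hy ihx ihy =>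
    have hx' : 0 ≤ τ (e * x * e) := by
      have := h.pos_nonneg (pos_conj (show Pos x from hx) e)
      rwa [he] at this
    have hy' : 0 ≤ τ (e * y * e) := by
      have := h.pos_nonneg (pos_conj (show Pos y from hy) e)
      rwa [he] at this
    rw [mul_add, add_mul, map_add] at h0
    have h1 : τ (e * x * e) = 0 := by
      refine le_antisymm ?_ hx'
      calc τ (e * x * e) ≤ τ (e * x * e) + τ (e * y * e) := le_add_of_nonneg_right hy'
        _ = 0 := h0
    have h2 : τ (e * y * e) = 0 := by rwa [h1, zero_add] at h0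
    rw [add_mul, ihx h1, ihy h2, add_zero]

theorem pos_one : Pos (1 : A) := by
  have := pos_star_mul (1 : A)
  rwa [star_one, mul_one] at this

/-- A partition into pieces of equal trace, the first of which lie under `g`. -/
theorem TrAlg.equal_pieces (h : TrAlg τ) (hL : LyapProp τ) (x g : A) (hxs : star x = x)
    (hgs : star g = g) (hxg : x * g = g * x) (hx0 : Pos x) (hx1 : Pos (1 - x)) (hg1 : Pos (1 - g))
    (hxg0 : x * (1 - g) = 0) (k l : ℕ) (hl : 0 < l)
    (hk : k = 0 ∨ (k : ℝ) / ((k : ℝ) + l) ≤ (τ x).re) :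
    ∃ e : Fin k ⊕ Fin l → A, PVM e ∧ (∀ i, τ (e i) = (((1 / ((k : ℝ) + l) : ℝ)) : ℂ)) ∧
      ∀ j : Fin k, g * e (Sum.inl j) = e (Sum.inl j) ∧ e (Sum.inl j) * g = e (Sum.inl j) := by
  classical
  have hl' : (0 : ℝ) < l := by exact_mod_cast hl
  have hk' : (0 : ℝ) ≤ k := by positivity
  set K : ℝ := (k : ℝ) + l with hK
  have hKp : 0 < K := by positivity
  have hτx : τ x = ((τ x).re : ℂ) := by
    have := h.eq_re 1 x (star_one A) hxs
    rwa [one_mul] at this
  set r : ℝ := (τ x).re with hr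
  -- the coefficient
  obtain ⟨c, hc0, hc1, hcr⟩ : ∃ c : ℝ, 0 ≤ c ∧ (k : ℝ) * c ≤ 1 ∧ (k = 0 ∨ c * r = 1 / K) ∧ True := by
    rcases Nat.eq_zero_or_pos k with h0 | h0
    · exact ⟨0, le_rfl, by norm_num, Or.inl h0, trivial⟩
    · rcases hk with h1 | h1
      · omega
      have hk0 : (0 : ℝ) < k := by exact_mod_cast h0
      have hrp : 0 < r := lt_of_lt_of_le (by positivity) h1
      refine ⟨1 / (K * r), by positivity, ?_, Or.inr ?_, trivial⟩
      · rw [mul_one_div, div_le_one (by positivity)]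
        rw [div_le_iff₀ hKp] at h1
        linarith
      · field_simp
  obtain ⟨hcr, -⟩ := hcr
  let X : Fin k ⊕ Fin l → A := fun i => match i with
    | Sum.inl _ => (c : ℂ) • x
    | Sum.inr _ => ((1 / (l : ℝ) : ℝ) : ℂ) • (1 - (((k : ℝ) * c : ℝ) : ℂ) • x)
  have hXs : ∑ i, X i = 1 := by
    rw [Fintype.sum_sum_type]
    show ∑ _j : Fin k, (c : ℂ) • x +
      ∑ _j : Fin l, ((1 / (l : ℝ) : ℝ) : ℂ) • (1 - (((k : ℝ) * c : ℝ) : ℂ) • x) = 1
    rw [Finset.sum_const, Finset.sum_const, Finset.card_univ, Finset.card_univ, Fintype.card_fin,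
      Fintype.card_fin, ← Nat.cast_smul_eq_nsmul ℂ, ← Nat.cast_smul_eq_nsmul ℂ, smul_smul,
      smul_smul]
    have e1 : ((l : ℂ)) * ((1 / (l : ℝ) : ℝ) : ℂ) = 1 := by
      push_cast
      field_simp
    have e2 : ((k : ℂ)) * (c : ℂ) = (((k : ℝ) * c : ℝ) : ℂ) := by push_cast; rfl
    rw [e1, e2, one_smul]
    abel
  have hXp : ∀ i, Pos (X i) := by
    rintro (j | j)
    · exact pos_rsmul hx0 c hc0
    · show Pos (((1 / (l : ℝ) : ℝ) : ℂ) • (1 - (((k : ℝ) * c : ℝ) : ℂ) • x))
      have e1 : (1 : A) - (((k : ℝ) * c : ℝ) : ℂ) • x =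
          ((1 - (k : ℝ) * c : ℝ) : ℂ) • (1 : A) + (((k : ℝ) * c : ℝ) : ℂ) • (1 - x) := by
        rw [smul_sub, Complex.ofReal_sub, sub_smul, Complex.ofReal_one, one_smul]
        abel
      rw [e1]
      refine pos_rsmul (pos_add (pos_rsmul pos_one _ (by linarith)) (pos_rsmul hx1 _ (by positivity)))
        _ (by positivity)
  obtain ⟨D, hSD, hDc, hD⟩ := hL {z | z = x ∨ z = g}
    (by
      rintro z (rfl | rfl)
      · exact Or.inl hxs
      · exact Or.inr hgs)
    (by
      rintro z (rfl | rfl) w (rfl | rfl)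
      · rfl
      · exact hxg
      · exact hxg.symm
      · rfl)
  have hxD : x ∈ D := hSD _ (Or.inl rfl)
  have hgD : g ∈ D := hSD _ (Or.inr rfl)
  obtain ⟨e, heD, hePV, heτ⟩ := hD (Fin k ⊕ Fin l) Bool X (fun b => if b then 1 else 1 - g)
    (by
      rintro (j | j)
      · exact D.smul_mem hxD _
      · exact D.smul_mem (sub_mem (one_mem D) (D.smul_mem hxD _)) _) hXp hXs
  have hτ1 : ∀ i, τ (e i) = τ (X i) := by
    intro i
    have := heτ i true
    simpa using this
  refine ⟨e, hePV, ?_, ?_⟩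
  · rintro (j | j)
    · rw [hτ1]
      show τ ((c : ℂ) • x) = _
      rw [map_smul, hτx, smul_eq_mul, ← Complex.ofReal_mul]
      rcases hcr with h0 | h0
      · exact absurd j.2 (by omega)
      · rw [h0]
    · rw [hτ1]
      show τ (((1 / (l : ℝ) : ℝ) : ℂ) • (1 - (((k : ℝ) * c : ℝ) : ℂ) • x)) = _
      rw [map_smul, map_sub, map_smul, h.one, hτx, smul_eq_mul, smul_eq_mul, ← Complex.ofReal_mul,
        ← Complex.ofReal_one, ← Complex.ofReal_sub, ← Complex.ofReal_mul]
      congr 1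
      rcases hcr with h0 | h0
      · rw [hK, h0]
        push_cast
        ring_nf
      · have : (k : ℝ) * c * r = k / K := by rw [mul_assoc, h0]; ring
        rw [this, hK]
        field_simp
        ring
  · intro j
    have h1 := heτ (Sum.inl j) false
    have h2 : τ (e (Sum.inl j) * (1 - g)) = 0 := by
      have h3 : τ (e (Sum.inl j) * (1 - g)) = τ ((c : ℂ) • x * (1 - g)) := h1
      rw [h3, smul_mul_assoc, hxg0, smul_zero, map_zero]
    have hes := hePV.star_eq (Sum.inl j)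
    have hcomm : e (Sum.inl j) * (1 - g) = (1 - g) * e (Sum.inl j) :=
      hDc _ (heD _) _ (sub_mem (one_mem D) hgD)
    have h4 : τ (e (Sum.inl j) * (1 - g) * e (Sum.inl j)) = 0 := by
      rw [hcomm, mul_assoc, hePV.idem, ← hcomm]
      exact h2
    have h5 := h.pos_vanish hg1 hes h4
    rw [sub_mul, one_mul, sub_eq_zero] at h5
    refine ⟨h5.symm, ?_⟩
    have h6 := congrArg star h5
    rw [star_mul, hes, hgs] at h6
    exact h6.symm

end abstract

variable {H : Type u} [NormedAddCommGroup H] [InnerProductSpace ℂ H] [CompleteSpace H]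
variable {N : VonNeumannAlgebra H}
variable {Q : Type u} [Ring Q] [StarRing Q] [Algebra ℂ Q] [StarModule ℂ Q]
variable {T : TracialState N} {U : Ultrafilter ℕ} {π : (ℕ →ᵇ Elt N) →⋆ₐ[ℂ] Q} {σ : Q → ℂ}

theorem norm_proj_le (p : Elt N) (hp : star p = p) (hpp : p * p = p) : ‖p‖ ≤ 1 := by
  have h1 : ‖star p * p‖ = ‖p‖ * ‖p‖ := CStarRing.norm_star_mul_self
  rw [hp, hpp] at h1
  nlinarith [norm_nonneg p]

theorem norm_partial_le (v p : Elt N) (hp : ‖p‖ ≤ 1) (hv : star v * v = p) : ‖v‖ ≤ 1 := by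
  have h1 : ‖star v * v‖ = ‖v‖ * ‖v‖ := CStarRing.norm_star_mul_self
  rw [hv] at h1
  nlinarith [norm_nonneg v]

theorem pi_eq_of_eventually (hπ : IsTracialUltrapower T.τ U π σ) (x y : ℕ →ᵇ Elt N)
    (h : ∀ᶠ n in (U : Filter ℕ), x n = y n) : π x = π y := by
  rw [pi_eq_iff hπ]
  refine tendsto_const_nhds.congr' (h.mono fun n hn => ?_)
  show (0 : ℝ) = n2 T.τ (x n - y n)
  rw [hn, sub_self, (trAlg T).n2_zero]

/-- a bounded sequence -/
noncomputable def mkB' (x : ℕ → Elt N) (h : ∀ n, ‖x n‖ ≤ 1) : ℕ →ᵇ Elt N :=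
  BoundedContinuousFunction.ofNormedAddCommGroupDiscrete x 1 h

theorem mkB'_apply (x : ℕ → Elt N) (h : ∀ n, ‖x n‖ ≤ 1) (n : ℕ) : mkB' x h n = x n := rfl

/-- tracial states, as a predicate -/
structure IsTr {A : Type*} [Ring A] [StarRing A] [Algebra ℂ A] (φ : A →ₗ[ℂ] ℂ) : Prop where
  one : φ 1 = 1
  comm : ∀ x y, φ (x * y) = φ (y * x)
  nonneg : ∀ x, 0 ≤ φ (star x * x)

theorem trace_compare_step (hπ : IsTracialUltrapower T.τ U π σ) (hL : LyapProp T.τ)
    (hN : HasTrivialCenter N) (φ : Q →ₗ[ℂ] ℂ) (hφ : IsTr φ) (x c : ℕ →ᵇ Elt N)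
    (hxs : ∀ n, star (x n) = x n) (hxg : ∀ n, x n * (star (c n) * c n) = (star (c n) * c n) * x n)
    (hx0 : ∀ n, Pos (x n)) (hx1 : ∀ n, Pos (1 - x n)) (hg1 : ∀ n, Pos (1 - star (c n) * c n))
    (hxg0 : ∀ n, x n * (1 - star (c n) * c n) = 0) (k l : ℕ) (hl : 0 < l)
    (hk : k = 0 ∨ (k : ℝ) / ((k : ℝ) + l) < (σ (π x)).re) :
    (k : ℝ) / ((k : ℝ) + l) ≤ (φ (π (star c * c))).re := by
  classical
  have hA := trAlg T
  have hl' : (0 : ℝ) < l := by exact_mod_cast hl
  have hk' : (0 : ℝ) ≤ k := by positivity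
  let i0 : Fin k ⊕ Fin l := Sum.inr ⟨0, hl⟩
  let Good : ℕ → Prop := fun n => k = 0 ∨ (k : ℝ) / ((k : ℝ) + l) ≤ (T.τ (x n)).re
  have hGood : ∀ᶠ n in (U : Filter ℕ), Good n := by
    rcases hk with h0 | h0
    · exact Filter.Eventually.of_forall fun n => Or.inl h0
    · have h1 := (Complex.continuous_re.tendsto _).comp (hπ.trace x)
      exact (h1.eventually (lt_mem_nhds h0)).mono fun n hn => Or.inr (le_of_lt hn)
  have hex : ∀ n, ∃ e v : Fin k ⊕ Fin l → Elt N, (∀ i, ‖e i‖ ≤ 1) ∧ (∀ i, ‖v i‖ ≤ 1) ∧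
      (Good n → PVM e ∧ (∀ i, star (v i) * v i = e i0) ∧ (∀ i, v i * star (v i) = e i) ∧
        ∀ j : Fin k, (star (c n) * c n) * e (Sum.inl j) = e (Sum.inl j) ∧
          e (Sum.inl j) * (star (c n) * c n) = e (Sum.inl j)) := by
    intro n
    by_cases hn : Good n
    · obtain ⟨e, he1, he2, he3⟩ := hA.equal_pieces hL (x n) (star (c n) * c n) (hxs n)
        (by rw [star_mul, star_star]) (hxg n) (hx0 n) (hx1 n) (hg1 n) (hxg0 n) k l hl hn
      have hv : ∀ i, ∃ v : Elt N, star v * v = e i0 ∧ v * star v = e i := fun i =>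
        exists_equiv T hN _ _ (he1.star_eq _) (he1.idem _) (he1.star_eq _) (he1.idem _)
          ((he2 i0).trans (he2 i).symm)
      choose v hv1 hv2 using hv
      have hen : ∀ i, ‖e i‖ ≤ 1 := fun i => norm_proj_le _ (he1.star_eq i) (he1.idem i)
      exact ⟨e, v, hen, fun i => norm_partial_le _ _ (hen i0) (hv1 i), fun _ => ⟨he1, hv1, hv2, he3⟩⟩
    · exact ⟨fun _ => 0, fun _ => 0, fun i => by simp, fun i => by simp, fun h => absurd h hn⟩
  choose e v he hv hprop using hex
  let E : Fin k ⊕ Fin l → (ℕ →ᵇ Elt N) := fun i => mkB' (fun n => e n i) (fun n => he n i)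
  let V : Fin k ⊕ Fin l → (ℕ →ᵇ Elt N) := fun i => mkB' (fun n => v n i) (fun n => hv n i)
  have evE : ∀ i n, (E i) n = e n i := fun i n => rfl
  have evV : ∀ i n, (V i) n = v n i := fun i n => rfl
  have hVE0 : ∀ i, π (star (V i) * V i) = π (E i0) := fun i =>
    pi_eq_of_eventually hπ _ _ (hGood.mono fun n hn => (hprop n hn).2.1 i)
  have hVE : ∀ i, π (V i * star (V i)) = π (E i) := fun i =>
    pi_eq_of_eventually hπ _ _ (hGood.mono fun n hn => (hprop n hn).2.2.1 i)
  have hsum : π (∑ i, E i) = 1 := by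
    rw [← map_one π]
    refine pi_eq_of_eventually hπ _ _ (hGood.mono fun n hn => ?_)
    have h1 : (∑ i, E i) n = ∑ i, (E i) n := map_sum (evB N n) E Finset.univ
    rw [h1]
    exact (hprop n hn).1.sum
  have hφE : ∀ i, φ (π (E i)) = φ (π (E i0)) := by
    intro i
    rw [← hVE i, ← hVE0 i, map_mul π, map_mul π, hφ.comm]
  have hK : (((k : ℝ) + l : ℝ) : ℂ) ≠ 0 := Complex.ofReal_ne_zero.2 (by positivity)
  have hφE0 : φ (π (E i0)) = (((1 / ((k : ℝ) + l) : ℝ)) : ℂ) := by
    have h1 := congrArg φ hsum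
    rw [map_sum, map_sum, hφ.one, Finset.sum_congr rfl (fun i _ => hφE i), Finset.sum_const,
      Finset.card_univ, Fintype.card_sum, Fintype.card_fin, Fintype.card_fin, nsmul_eq_mul] at h1
    have h2 : ((k + l : ℕ) : ℂ) = (((k : ℝ) + l : ℝ) : ℂ) := by push_cast; rfl
    rw [h2] at h1
    rw [Complex.ofReal_div, Complex.ofReal_one]
    exact eq_one_div_of_mul_eq_one_right h1
  let P : ℕ →ᵇ Elt N := ∑ j : Fin k, E (Sum.inl j)
  have evP : ∀ n, P n = ∑ j : Fin k, e n (Sum.inl j) := fun n =>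
    map_sum (evB N n) (fun j : Fin k => E (Sum.inl j)) Finset.univ
  have hPP : ∀ n, Good n → P n * P n = P n := by
    intro n hn
    rw [evP, Finset.sum_mul_sum]
    refine Finset.sum_congr rfl fun j _ => ?_
    rw [Finset.sum_eq_single j, (hprop n hn).1.idem]
    · intro i _ hij
      exact (hprop n hn).1.orth _ _ (fun h => hij (Sum.inl_injective h).symm)
    · intro hj
      exact absurd (Finset.mem_univ j) hj
  have hPs : ∀ n, Good n → star (P n) = P n := by
    intro n hn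
    rw [evP, star_sum]
    exact Finset.sum_congr rfl fun j _ => (hprop n hn).1.star_eq _
  have hGP : ∀ n, Good n → (star (c n) * c n) * P n = P n := by
    intro n hn
    rw [evP, Finset.mul_sum]
    exact Finset.sum_congr rfl fun j _ => ((hprop n hn).2.2.2 j).1
  have hPG : ∀ n, Good n → P n * (star (c n) * c n) = P n := by
    intro n hn
    rw [evP, Finset.sum_mul]
    exact Finset.sum_congr rfl fun j _ => ((hprop n hn).2.2.2 j).2
  have hkey : π (star (c * (1 - P)) * (c * (1 - P))) = π (star c * c - P) := by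
    refine pi_eq_of_eventually hπ _ _ (hGood.mono fun n hn => ?_)
    show star (c n * (1 - P n)) * (c n * (1 - P n)) = star (c n) * c n - P n
    rw [star_mul, star_sub, star_one, hPs n hn]
    calc (1 - P n) * star (c n) * (c n * (1 - P n)) =
        star (c n) * c n - P n * (star (c n) * c n) - (star (c n) * c n) * P n +
          P n * ((star (c n) * c n) * P n) := by noncomm_ring
      _ = star (c n) * c n - P n := by rw [hPG n hn, hGP n hn, hPP n hn]; abel
  have h1 := hφ.nonneg (π (c * (1 - P)))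
  rw [← map_star, ← map_mul, hkey, map_sub, map_sub] at h1
  have h2 := (Complex.nonneg_iff.1 h1).1
  have h3 : φ (π P) = (((k : ℝ) / ((k : ℝ) + l) : ℝ) : ℂ) := by
    show φ (π (∑ j : Fin k, E (Sum.inl j))) = _
    rw [map_sum, map_sum, Finset.sum_congr rfl (fun j _ => hφE (Sum.inl j)), Finset.sum_const,
      Finset.card_univ, Fintype.card_fin, nsmul_eq_mul, hφE0, ← Complex.ofReal_natCast,
      ← Complex.ofReal_mul]
    congr 1
    ring
  rw [h3, Complex.sub_re, Complex.ofReal_re] at h2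
  linarith

theorem trace_compare (hπ : IsTracialUltrapower T.τ U π σ) (hL : LyapProp T.τ)
    (hN : HasTrivialCenter N) (φ : Q →ₗ[ℂ] ℂ) (hφ : IsTr φ) (x c : ℕ →ᵇ Elt N)
    (hxs : ∀ n, star (x n) = x n) (hxg : ∀ n, x n * (star (c n) * c n) = (star (c n) * c n) * x n)
    (hx0 : ∀ n, Pos (x n)) (hx1 : ∀ n, Pos (1 - x n)) (hg1 : ∀ n, Pos (1 - star (c n) * c n))
    (hxg0 : ∀ n, x n * (1 - star (c n) * c n) = 0) :
    (σ (π x)).re ≤ (φ (π (star c * c))).re := by
  have hA := trAlg T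
  set r := (σ (π x)).re with hr
  have hr1 : r ≤ 1 := by
    have h1 := (Complex.continuous_re.tendsto _).comp (hπ.trace x)
    refine le_of_tendsto' h1 fun n => ?_
    have h2 := (Complex.nonneg_iff.1 (hA.pos_nonneg (hx1 n))).1
    rw [map_sub, hA.one, Complex.sub_re, Complex.one_re] at h2
    show (T.τ (x n)).re ≤ 1
    linarith
  by_contra hlt
  push Not at hlt
  set y := (φ (π (star c * c))).re with hy
  obtain ⟨K, hK⟩ := exists_nat_gt (2 / (r - y))
  have hpos : 0 < r - y := by linarith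
  have hKp : (0 : ℝ) < K := lt_trans (by positivity) hK
  have hKn : 0 < K := by exact_mod_cast hKp
  rw [div_lt_iff₀ hpos] at hK
  -- the number of pieces
  set k := ⌊(K : ℝ) * r⌋₊ - 1 with hk
  have hfl : ⌊(K : ℝ) * r⌋₊ ≤ K := by
    have : (K : ℝ) * r ≤ K := by nlinarith
    calc ⌊(K : ℝ) * r⌋₊ ≤ ⌊(K : ℝ)⌋₊ := Nat.floor_le_floor this
      _ = K := Nat.floor_natCast K
  have hkK : k < K := by omega
  have hlt1 : (K : ℝ) * r < ⌊(K : ℝ) * r⌋₊ + 1 := Nat.lt_floor_add_one _
  have hkl : (k : ℝ) + ((K - k : ℕ) : ℝ) = K := by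
    rw [Nat.cast_sub hkK.le]; ring
  have h1 := trace_compare_step hπ hL hN φ hφ x c hxs hxg hx0 hx1 hg1 hxg0 k (K - k) (by omega)
    (by
      rw [hkl]
      rcases Nat.eq_zero_or_pos k with h0 | h0
      · exact Or.inl h0
      · right
        have h2 : k + 1 = ⌊(K : ℝ) * r⌋₊ := by omega
        have h3 : ((k + 1 : ℕ) : ℝ) ≤ K * r := by
          rw [h2]
          apply Nat.floor_le
          by_contra hneg
          push Not at hneg
          have h4 : ⌊(K : ℝ) * r⌋₊ = 0 := Nat.floor_of_nonpos hneg.le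
          omega
        rw [div_lt_iff₀ hKp]
        push_cast at h3
        have : (σ (π x)).re = r := rfl
        rw [this]
        linarith)
  rw [hkl, div_le_iff₀ hKp] at h1
  have h2 : (⌊(K : ℝ) * r⌋₊ : ℝ) ≤ k + 1 := by
    have : ⌊(K : ℝ) * r⌋₊ ≤ k + 1 := by omega
    exact_mod_cast this
  nlinarith

end Pool.Agent.Helper278
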