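import Mathlib
import Pool.Agent.KS6_19.UP.L.Helper278.TraceUniq

set_option autoImplicit false
set_option linter.unusedSectionVars false
set_option linter.unusedVariables false

open scoped InnerProductSpace Topology ComplexOrder BoundedContinuousFunction
open Filter

namespace Pool.Agent.Helper278

universe u

/-- the layers -/
noncomputable def ly (m i : ℕ) (t : ℝ) : ℝ := max 0 (min 1 (m * t - i))

theorem ly_nonneg (m i : ℕ) (t : ℝ) : 0 ≤ ly m i t := le_max_left _ _

theorem ly_le_one (m i : ℕ) (t : ℝ) : ly m i t ≤ 1 := max_le zero_le_one (min_le_left _ _)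

theorem ly_cont (m i : ℕ) : Continuous (ly m i) := by
  unfold ly
  fun_prop

theorem ly_mul (m i : ℕ) (t : ℝ) : ly m (i + 1) t * (1 - ly m i t) = 0 := by
  unfold ly
  rcases le_total ((m : ℝ) * t - ((i + 1 : ℕ) : ℝ)) 0 with h | h
  · rw [max_eq_left ((min_le_right _ _).trans h), zero_mul]
  · push_cast at h
    rw [min_eq_left (show (1 : ℝ) ≤ m * t - i by linarith), max_eq_right zero_le_one, sub_self,
      mul_zero]

theorem ly_sum (m : ℕ) (t : ℝ) (ht : 0 ≤ t) (j : ℕ) :
    ∑ i ∈ Finset.range j, ly m i t = min (j : ℝ) (m * t) := by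
  have hs : 0 ≤ (m : ℝ) * t := by positivity
  induction j with
  | zero => rw [Finset.sum_range_zero, Nat.cast_zero, min_eq_left hs]
  | succ j ih =>
    rw [Finset.sum_range_succ, ih]
    unfold ly
    push_cast
    rcases le_total ((m : ℝ) * t) j with h | h
    · rw [min_eq_right h, max_eq_left ((min_le_right _ _).trans (by linarith)), add_zero,
        min_eq_right (by linarith)]
    · rw [min_eq_left h, max_eq_right (le_min zero_le_one (by linarith))]
      rcases le_total ((m : ℝ) * t) (j + 1) with h2 | h2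
      · rw [min_eq_right (show (m : ℝ) * t - j ≤ 1 by linarith), min_eq_right h2]; ring
      · rw [min_eq_left (show (1 : ℝ) ≤ (m : ℝ) * t - j by linarith), min_eq_left h2]

variable {H : Type u} [NormedAddCommGroup H] [InnerProductSpace ℂ H] [CompleteSpace H]
variable {N : VonNeumannAlgebra H}
variable {Q : Type u} [Ring Q] [StarRing Q] [Algebra ℂ Q] [StarModule ℂ Q]
variable {T : TracialState N} {U : Ultrafilter ℕ} {π : (ℕ →ᵇ Elt N) →⋆ₐ[ℂ] Q} {σ : Q → ℂ}

theorem pos_of_nonneg (z : Elt N) (hz : 0 ≤ (z : H →L[ℂ] H)) : Pos z := by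
  have hsa : IsSelfAdjoint (z : H →L[ℂ] H) := IsSelfAdjoint.of_nonneg hz
  let c : Elt N := ⟨cfc Real.sqrt (z : H →L[ℂ] H), cfc_mem N _ _ z.2 hsa⟩
  have hcs : star (cfc Real.sqrt (z : H →L[ℂ] H)) = cfc Real.sqrt (z : H →L[ℂ] H) :=
    (cfc_predicate _ _ : IsSelfAdjoint (cfc Real.sqrt (z : H →L[ℂ] H))).star_eq
  have h1 : star c * c = z := by
    apply Subtype.ext
    show star (cfc Real.sqrt (z : H →L[ℂ] H)) * cfc Real.sqrt (z : H →L[ℂ] H) = z
    rw [hcs, ← cfc_mul _ _ _ Real.continuous_sqrt.continuousOn Real.continuous_sqrt.continuousOn]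
    conv_rhs => rw [← cfc_id' ℝ (z : H →L[ℂ] H) hsa]
    apply cfc_congr
    intro t ht
    exact Real.mul_self_sqrt (spectrum_nonneg_of_nonneg hz ht)
  rw [← h1]
  exact pos_star_mul c

theorem layers (m : ℕ) (x : Elt N) (hx0 : 0 ≤ (x : H →L[ℂ] H)) (hx1 : (x : H →L[ℂ] H) ≤ 1) :
    ∃ c : ℕ → Elt N, (∀ i, ‖c i‖ ≤ 1) ∧
      (∀ i j, (star (c i) * c i) * (star (c j) * c j) = (star (c j) * c j) * (star (c i) * c i)) ∧
      (∀ i, Pos (1 - star (c i) * c i)) ∧
      (∀ i, (star (c (i + 1)) * c (i + 1)) * (1 - star (c i) * c i) = 0) ∧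
      ∑ i ∈ Finset.range m, star (c i) * c i = (m : ℂ) • x := by
  have hsa : IsSelfAdjoint (x : H →L[ℂ] H) := IsSelfAdjoint.of_nonneg hx0
  have hsp0 : ∀ t ∈ spectrum ℝ (x : H →L[ℂ] H), 0 ≤ t := fun t ht =>
    spectrum_nonneg_of_nonneg hx0 ht
  have hsp1 : ∀ t ∈ spectrum ℝ (x : H →L[ℂ] H), t ≤ 1 := by
    intro t ht
    have h1 : (x : H →L[ℂ] H) ≤ algebraMap ℝ (H →L[ℂ] H) 1 := by rwa [map_one]
    exact (le_algebraMap_iff_spectrum_le (a := (x : H →L[ℂ] H)) hsa).1 h1 t ht
  let f : ℕ → ℝ → ℝ := fun i t => Real.sqrt (ly m i t)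
  have hf : ∀ i, Continuous (f i) := fun i => Real.continuous_sqrt.comp (ly_cont m i)
  let c : ℕ → Elt N := fun i => ⟨cfc (f i) (x : H →L[ℂ] H), cfc_mem N _ _ x.2 hsa⟩
  have hcc : ∀ i, ((star (c i) * c i : Elt N) : H →L[ℂ] H) = cfc (ly m i) (x : H →L[ℂ] H) := by
    intro i
    show star (cfc (f i) (x : H →L[ℂ] H)) * cfc (f i) (x : H →L[ℂ] H) = _
    rw [(cfc_predicate _ _ : IsSelfAdjoint (cfc (f i) (x : H →L[ℂ] H))).star_eq,
      ← cfc_mul _ _ _ (hf i).continuousOn (hf i).continuousOn]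
    apply cfc_congr
    intro t _
    exact Real.mul_self_sqrt (ly_nonneg m i t)
  refine ⟨c, ?_, ?_, ?_, ?_, ?_⟩
  · intro i
    show ‖cfc (f i) (x : H →L[ℂ] H)‖ ≤ 1
    refine norm_cfc_le zero_le_one fun t _ => ?_
    rw [Real.norm_eq_abs, abs_of_nonneg (Real.sqrt_nonneg _), Real.sqrt_le_one]
    exact ly_le_one m i t
  · intro i j
    apply Subtype.ext
    show ((star (c i) * c i : Elt N) : H →L[ℂ] H) * ((star (c j) * c j : Elt N) : H →L[ℂ] H) =
      ((star (c j) * c j : Elt N) : H →L[ℂ] H) * ((star (c i) * c i : Elt N) : H →L[ℂ] H)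
    rw [hcc, hcc]
    exact cfc_commute_cfc _ _ _
  · intro i
    apply pos_of_nonneg
    show 0 ≤ 1 - ((star (c i) * c i : Elt N) : H →L[ℂ] H)
    rw [hcc, sub_nonneg]
    exact cfc_le_one _ _ fun t _ => ly_le_one m i t
  · intro i
    apply Subtype.ext
    show ((star (c (i + 1)) * c (i + 1) : Elt N) : H →L[ℂ] H) *
      (1 - ((star (c i) * c i : Elt N) : H →L[ℂ] H)) = 0
    rw [hcc, hcc, ← cfc_const_one ℝ (x : H →L[ℂ] H) hsa,
      ← cfc_sub (fun _ => (1 : ℝ)) (ly m i) _ continuousOn_const (ly_cont m i).continuousOn,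
      ← cfc_mul (ly m (i + 1)) (fun t => 1 - ly m i t) _ (ly_cont m (i + 1)).continuousOn
        (continuousOn_const.sub (ly_cont m i).continuousOn)]
    have : (fun t => ly m (i + 1) t * (1 - ly m i t)) = fun _ => 0 := by
      funext t
      exact ly_mul m i t
    rw [this, cfc_const_zero]
  · apply Subtype.ext
    have h1 : ((∑ i ∈ Finset.range m, star (c i) * c i : Elt N) : H →L[ℂ] H) =
        ∑ i ∈ Finset.range m, cfc (ly m i) (x : H →L[ℂ] H) := by
      rw [AddSubmonoidClass.coe_finsetSum]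
      exact Finset.sum_congr rfl fun i _ => hcc i
    rw [h1, ← cfc_sum _ _ _ (fun i _ => (ly_cont m i).continuousOn)]
    have h2 : cfc (∑ i ∈ Finset.range m, ly m i) (x : H →L[ℂ] H) =
        cfc (fun t => (m : ℝ) * t) (x : H →L[ℂ] H) := by
      apply cfc_congr
      intro t ht
      rw [Finset.sum_apply]
      show ∑ i ∈ Finset.range m, ly m i t = m * t
      rw [ly_sum m t (hsp0 t ht) m]
      apply min_eq_right
      have := hsp1 t ht
      have hm : (0 : ℝ) ≤ m := Nat.cast_nonneg _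
      nlinarith
    rw [h2, cfc_const_mul (m : ℝ) (fun t => t) _ continuousOn_id, cfc_id' ℝ _ hsa]
    show (m : ℝ) • (x : H →L[ℂ] H) = (m : ℂ) • (x : H →L[ℂ] H)
    rw [← Complex.coe_smul]
    norm_num

theorem trace_le (hπ : IsTracialUltrapower T.τ U π σ) (hL : LyapProp T.τ)
    (hN : HasTrivialCenter N) (φ : Q →ₗ[ℂ] ℂ) (hφ : IsTr φ) (x : ℕ →ᵇ Elt N)
    (hx0 : ∀ n, 0 ≤ ((x n : Elt N) : H →L[ℂ] H)) (hx1 : ∀ n, ((x n : Elt N) : H →L[ℂ] H) ≤ 1) :
    (σ (π x)).re ≤ (φ (π x)).re := by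
  have hA := trAlg T
  have hS := sigma_trAlg hπ
  have key : ∀ m : ℕ, ((m + 1 : ℕ) : ℝ) * (σ (π x)).re ≤ ((m + 1 : ℕ) : ℝ) * (φ (π x)).re + 1 := by
    intro m
    have h1 := fun n => layers (m + 1) (x n) (hx0 n) (hx1 n)
    choose c hc1 hc2 hc3 hc4 hc5 using h1
    let C : ℕ → (ℕ →ᵇ Elt N) := fun i => mkB' (fun n => c n i) (fun n => hc1 n i)
    have hcmp : ∀ i, (σ (π (star (C (i + 1)) * C (i + 1)))).re ≤ (φ (π (star (C i) * C i))).re := by
      intro i
      refine trace_compare hπ hL hN φ hφ (star (C (i + 1)) * C (i + 1)) (C i) ?_ ?_ ?_ ?_ ?_ ?_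
      · intro n
        show star (star (c n (i + 1)) * c n (i + 1)) = star (c n (i + 1)) * c n (i + 1)
        rw [star_mul, star_star]
      · intro n
        exact hc2 n (i + 1) i
      · intro n
        exact pos_star_mul (c n (i + 1))
      · intro n
        exact hc3 n (i + 1)
      · intro n
        exact hc3 n i
      · intro n
        exact hc4 n i
    have hsum : ∑ i ∈ Finset.range (m + 1), π (star (C i) * C i) = ((m + 1 : ℕ) : ℂ) • π x := by
      rw [← map_sum, ← map_smul]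
      congr 1
      ext1 n
      have e1 : (∑ i ∈ Finset.range (m + 1), star (C i) * C i) n =
          ∑ i ∈ Finset.range (m + 1), (star (C i) * C i) n :=
        map_sum (evB N n) (fun i => star (C i) * C i) (Finset.range (m + 1))
      rw [e1]
      exact hc5 n
    have hσ : ((m + 1 : ℕ) : ℝ) * (σ (π x)).re =
        ∑ i ∈ Finset.range (m + 1), (σ (π (star (C i) * C i))).re := by
      have e1 : sigmaL hπ (∑ i ∈ Finset.range (m + 1), π (star (C i) * C i)) =
          sigmaL hπ (((m + 1 : ℕ) : ℂ) • π x) := by rw [hsum]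
      rw [map_sum, map_smul, smul_eq_mul] at e1
      have e2 := congrArg Complex.re e1
      rw [Complex.re_sum, ← Complex.ofReal_natCast, Complex.re_ofReal_mul] at e2
      exact e2.symm
    have hφs : ((m + 1 : ℕ) : ℝ) * (φ (π x)).re =
        ∑ i ∈ Finset.range (m + 1), (φ (π (star (C i) * C i))).re := by
      have e1 : φ (∑ i ∈ Finset.range (m + 1), π (star (C i) * C i)) =
          φ (((m + 1 : ℕ) : ℂ) • π x) := by rw [hsum]
      rw [map_sum, map_smul, smul_eq_mul] at e1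
      have e2 := congrArg Complex.re e1
      rw [Complex.re_sum, ← Complex.ofReal_natCast, Complex.re_ofReal_mul] at e2
      exact e2.symm
    rw [hσ, hφs, Finset.sum_range_succ', Finset.sum_range_succ]
    have h2 : ∑ i ∈ Finset.range m, (σ (π (star (C (i + 1)) * C (i + 1)))).re ≤
        ∑ i ∈ Finset.range m, (φ (π (star (C i) * C i))).re :=
      Finset.sum_le_sum fun i _ => hcmp i
    have h3 : 0 ≤ (φ (π (star (C m) * C m))).re := by
      rw [map_mul, map_star]
      exact (Complex.nonneg_iff.1 (hφ.nonneg _)).1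
    have h4 : (σ (π (star (C 0) * C 0))).re ≤ 1 := by
      have h5 := (Complex.continuous_re.tendsto _).comp (hπ.trace (star (C 0) * C 0))
      refine le_of_tendsto' h5 fun n => ?_
      have h6 := (Complex.nonneg_iff.1 (hA.pos_nonneg (hc3 n 0))).1
      rw [map_sub, hA.one, Complex.sub_re, Complex.one_re] at h6
      show (T.τ (star (c n 0) * c n 0)).re ≤ 1
      linarith
    linarith
  by_contra hlt
  push Not at hlt
  have hpos : 0 < (σ (π x)).re - (φ (π x)).re := by linarith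
  obtain ⟨m, hm⟩ := exists_nat_gt (1 / ((σ (π x)).re - (φ (π x)).re))
  rw [div_lt_iff₀ hpos] at hm
  have := key m
  push_cast at this
  nlinarith

theorem trace_eq_contraction (hπ : IsTracialUltrapower T.τ U π σ) (hL : LyapProp T.τ)
    (hN : HasTrivialCenter N) (φ : Q →ₗ[ℂ] ℂ) (hφ : IsTr φ) (c : ℕ →ᵇ Elt N)
    (hc : ∀ n, ‖c n‖ ≤ 1) : φ (star (π c) * π c) = σ (star (π c) * π c) := by
  have hS := sigma_trAlg hπ
  have h0 : ∀ n, 0 ≤ (((star c * c) n : Elt N) : H →L[ℂ] H) := fun n =>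
    star_mul_self_nonneg ((c n : Elt N) : H →L[ℂ] H)
  have h1 : ∀ n, (((star c * c) n : Elt N) : H →L[ℂ] H) ≤ 1 := fun n => star_mul_le_one (hc n)
  have e1 := trace_le hπ hL hN φ hφ (star c * c) h0 h1
  have e2 := trace_le hπ hL hN φ hφ (1 - star c * c) (fun n => sub_nonneg.2 (h1 n)) (fun n => by
    show (1 : H →L[ℂ] H) - (((star c * c) n : Elt N) : H →L[ℂ] H) ≤ 1
    rw [sub_le_self_iff]
    exact h0 n)
  have e3 : σ (π (1 - star c * c)) = 1 - σ (π (star c * c)) := by
    have : sigmaL hπ (π (1 - star c * c)) = 1 - sigmaL hπ (π (star c * c)) := by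
      rw [map_sub π, map_sub, map_one π, hS.one]
    exact this
  rw [e3, map_sub π, map_sub φ, map_one π, hφ.one, Complex.sub_re, Complex.sub_re] at e2
  have e4 : π (star c * c) = star (π c) * π c := by rw [map_mul, map_star]
  rw [e4] at e1 e2
  have h3 := Complex.nonneg_iff.1 (hφ.nonneg (π c))
  have h4 : 0 ≤ sigmaL hπ (star (π c) * π c) := hS.nonneg (π c)
  have h5 := Complex.nonneg_iff.1 h4
  apply Complex.ext
  · linarith
  · exact h3.2.symm.trans h5.2

/-- The trace of the ultrapower of a II₁ factor is unique. -/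
theorem trace_unique (hπ : IsTracialUltrapower T.τ U π σ) (hL : LyapProp T.τ)
    (hN : HasTrivialCenter N) (φ : Q →ₗ[ℂ] ℂ) (hφ : IsTr φ) (x : Q) : φ x = σ x := by
  have key : ∀ b : Q, φ (star b * b) = sigmaL hπ (star b * b) := by
    intro b
    obtain ⟨a, rfl⟩ := hπ.surj b
    set M : ℝ := ‖a‖ + 1 with hM
    have hMp : 0 < M := by positivity
    obtain ⟨c, hcd⟩ : ∃ c : ℕ →ᵇ Elt N, c = ((M⁻¹ : ℝ) : ℂ) • a := ⟨_, rfl⟩
    have hc : ∀ n, ‖c n‖ ≤ 1 := by
      intro n
      rw [hcd]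
      show ‖((M⁻¹ : ℝ) : ℂ) • a n‖ ≤ 1
      rw [norm_smul, Complex.norm_real, Real.norm_eq_abs, abs_of_pos (inv_pos.2 hMp),
        inv_mul_le_iff₀ hMp, mul_one]
      have := a.norm_coe_le_norm n
      linarith
    have h1 := trace_eq_contraction hπ hL hN φ hφ c hc
    have h2 : π a = (M : ℂ) • π c := by
      rw [hcd, map_smul, smul_smul, ← Complex.ofReal_mul, mul_inv_cancel₀ hMp.ne', Complex.ofReal_one,
        one_smul]
    rw [h2, star_smul, smul_mul_smul_comm, map_smul, map_smul, h1]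
    rfl
  have hpol : (4 : ℂ) • x = star (x + 1) * (x + 1) - star (x - 1) * (x - 1) +
      Complex.I • (star (x + Complex.I • 1) * (x + Complex.I • 1)) -
      Complex.I • (star (x - Complex.I • 1) * (x - Complex.I • 1)) := by
    obtain ⟨j, hjd⟩ : ∃ j : Q, j = Complex.I • (1 : Q) := ⟨_, rfl⟩
    have hI : ∀ z : Q, Complex.I • z = j * z := fun z => by
      rw [hjd, smul_mul_assoc, one_mul]
    have hjc : ∀ z : Q, j * z = z * j := fun z => by
      rw [hjd, smul_mul_assoc, one_mul, mul_smul_comm, mul_one]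
    have hjj : j * j = -1 := by
      rw [hjd, smul_mul_smul_comm, Complex.I_mul_I, one_mul, neg_smul, one_smul]
    have hjs : star j = -j := by
      rw [hjd, star_smul, star_one, Complex.star_def, Complex.conj_I, neg_smul]
    rw [← hjd, hI, hI, star_add, star_sub, star_add, star_sub, star_one, hjs]
    have e1 : j * star x * j = -star x := by
      rw [hjc, mul_assoc, hjj, mul_neg, mul_one]
    have e2 : j * j * x = -x := by rw [hjj, neg_mul, one_mul]
    have h4 : (4 : ℂ) • x = (4 : ℕ) • x := by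
      rw [← Nat.cast_smul_eq_nsmul ℂ]
      norm_num
    rw [h4]
    calc (4 : ℕ) • x = (2 : ℕ) • (x + star x) + (2 : ℕ) • (-star x) - (2 : ℕ) • (-x) := by abel
      _ = (2 : ℕ) • (x + star x) + (2 : ℕ) • (j * star x * j) - (2 : ℕ) • (j * j * x) := by
          rw [e1, e2]
      _ = _ := by noncomm_ring
  have h1 : φ ((4 : ℂ) • x) = sigmaL hπ ((4 : ℂ) • x) := by
    rw [hpol, map_sub, map_add, map_sub, map_smul, map_smul, key, key, key, key, map_sub, map_add,
      map_sub, map_smul, map_smul]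
  rw [map_smul, map_smul, smul_eq_mul, smul_eq_mul] at h1
  have h2 : φ x = sigmaL hπ x := mul_left_cancel₀ (by norm_num) h1
  exact h2

end Pool.Agent.Helper278
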