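import Mathlib
import Pool.Agent.KS6_19.UP.L.Helper278.DefsG
import Pool.Agent.KS6_19.UP.L.Helper278.TraceUniq2

set_option autoImplicit false
set_option linter.unusedSectionVars false

open scoped InnerProductSpace ComplexOrder BoundedContinuousFunction
open Filter

namespace Pool.Agent.Helper278

universe u v w

/-- The Hilbert space `ℓ²(G)`. -/
abbrev EllTwo (G : Type v) : Type v := lp (fun _ : G => ℂ) 2

/-- The operator `f ↦ f ∘ e` on `ℓ²(G)` given by a bijection `e` of `G`. -/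
noncomputable def permOp {G : Type v} (e : G ≃ G) : EllTwo G →L[ℂ] EllTwo G :=
  LinearIsometry.toContinuousLinearMap
    { toFun := fun f => ⟨fun h => f (e h), by
        have h1 := (lp.memℓp f).summable (by norm_num)
        refine memℓp_gen ?_
        exact (e.summable_iff (f := fun h => ‖f h‖ ^ (2 : ENNReal).toReal)).2 h1⟩
      map_add' := fun f g => by ext h; rfl
      map_smul' := fun c f => by ext h; rfl
      norm_map' := fun f => by
        have h1 : (0 : ℝ) < (2 : ENNReal).toReal := by norm_num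
        rw [lp.norm_eq_tsum_rpow h1, lp.norm_eq_tsum_rpow h1]
        congr 1
        exact e.tsum_eq (fun h => ‖f h‖ ^ (2 : ENNReal).toReal) }

section

variable {G : Type v}

theorem permOp_apply (e : G ≃ G) (f : EllTwo G) (h : G) : (permOp e f) h = f (e h) := rfl

theorem permOp_mul (e e' : G ≃ G) : permOp e * permOp e' = permOp (e.trans e') := by
  ext f h
  rfl

theorem permOp_refl : permOp (Equiv.refl G) = 1 := by
  ext f h
  rfl

theorem star_permOp (e : G ≃ G) : star (permOp e) = permOp e.symm := by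
  rw [ContinuousLinearMap.star_eq_adjoint]
  symm
  rw [ContinuousLinearMap.eq_adjoint_iff]
  intro x y
  have h1 := lp.hasSum_inner (𝕜 := ℂ) (permOp e.symm x) y
  have h2 := lp.hasSum_inner (𝕜 := ℂ) x (permOp e y)
  have h3 := (e.symm.hasSum_iff (f := fun i => ⟪x i, (permOp e y) i⟫_ℂ)
    (a := ⟪x, permOp e y⟫_ℂ)).2 h2
  refine h1.unique ?_
  refine h3.congr_fun ?_
  intro i
  show ⟪(permOp e.symm x) i, y i⟫_ℂ = ⟪x (e.symm i), (permOp e y) (e.symm i)⟫_ℂ
  rw [permOp_apply, permOp_apply, e.apply_symm_apply]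

variable {K : Type w} [NormedAddCommGroup K] [InnerProductSpace ℂ K] [CompleteSpace K]

/-- permutation operators on a Hilbert space with a basis -/
noncomputable def permK (b : HilbertBasis G ℂ K) (e : G ≃ G) : K →L[ℂ] K :=
  b.repr.symm.conjStarAlgEquiv (permOp e)

variable (b : HilbertBasis G ℂ K)

theorem permK_mul (e e' : G ≃ G) : permK b e * permK b e' = permK b (e.trans e') := by
  unfold permK
  rw [← map_mul, permOp_mul]

theorem permK_refl : permK b (Equiv.refl G) = 1 := by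
  unfold permK
  rw [permOp_refl, map_one]

theorem star_permK (e : G ≃ G) : star (permK b e) = permK b e.symm := by
  unfold permK
  rw [← map_star, star_permOp]

theorem coef_permK (e : G ≃ G) (f : K) (k : G) : ⟪b k, permK b e f⟫_ℂ = ⟪b (e k), f⟫_ℂ := by
  rw [← b.repr_apply_apply, ← b.repr_apply_apply]
  have h1 : b.repr (permK b e f) = permOp e (b.repr f) := by
    show b.repr (b.repr.symm (permOp e (b.repr.symm.symm f))) = _
    rw [LinearIsometryEquiv.apply_symm_apply, LinearIsometryEquiv.symm_symm]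
  rw [h1]
  rfl

theorem ext_coef {x y : K} (h : ∀ k, ⟪b k, x⟫_ℂ = ⟪b k, y⟫_ℂ) : x = y := by
  apply b.repr.injective
  ext k
  rw [b.repr_apply_apply, b.repr_apply_apply]
  exact h k

theorem ext_basis {x y : K →L[ℂ] K} (h : ∀ g, x (b g) = y (b g)) : x = y := by
  have hd : Dense ((Submodule.span ℂ (Set.range b) : Submodule ℂ K) : Set K) := by
    rw [Submodule.dense_iff_topologicalClosure_eq_top]
    exact b.dense_span
  refine ContinuousLinearMap.ext_on hd ?_
  rintro _ ⟨g, rfl⟩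
  exact h g

theorem inner_bb (g h : G) (hgh : g ≠ h) : ⟪b g, b h⟫_ℂ = 0 := b.orthonormal.2 hgh

theorem inner_bb_self (g : G) : ⟪b g, b g⟫_ℂ = 1 := by
  rw [inner_self_eq_norm_sq_to_K, b.orthonormal.1 g]
  norm_num

theorem permK_basis (e : G ≃ G) (g : G) : permK b e (b g) = b (e.symm g) := by
  apply ext_coef b
  intro k
  rw [coef_permK]
  by_cases hk : e k = g
  · have h2 : k = e.symm g := by rw [← hk, e.symm_apply_apply]
    rw [hk, h2, inner_bb_self, inner_bb_self]
  · have h2 : k ≠ e.symm g := fun h => hk (by rw [h, e.apply_symm_apply])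
    rw [inner_bb _ _ _ hk, inner_bb _ _ _ h2]

variable [Group G]

/-- left translations -/
noncomputable def lamK (g : G) : K →L[ℂ] K := permK b (Equiv.mulLeft g⁻¹)

/-- right translations -/
noncomputable def rhoK (g : G) : K →L[ℂ] K := permK b (Equiv.mulRight g)

theorem lamK_basis (g h : G) : lamK b g (b h) = b (g * h) := by
  unfold lamK
  rw [permK_basis]
  congr 1
  show (g⁻¹)⁻¹ * h = g * h
  rw [inv_inv]

theorem isLeftRegular_lamK : IsLeftRegular b (lamK b) := fun g h => lamK_basis b g h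

theorem eq_lamK (lam : G → K →L[ℂ] K) (h : IsLeftRegular b lam) : lam = lamK b := by
  funext g
  apply ext_basis b
  intro k
  rw [h g k, lamK_basis]

theorem lamK_mul (g h : G) : lamK b (g * h) = lamK b g * lamK b h := by
  apply ext_basis b
  intro k
  show _ = lamK b g (lamK b h (b k))
  rw [lamK_basis, lamK_basis, lamK_basis, mul_assoc]

theorem lamK_one : lamK b 1 = 1 := by
  apply ext_basis b
  intro k
  rw [lamK_basis, one_mul]
  rfl

theorem star_lamK (g : G) : star (lamK b g) = lamK b g⁻¹ := by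
  unfold lamK
  rw [star_permK]
  congr 1
  ext k
  rfl

theorem lam_rho (g h : G) : lamK b g * rhoK b h = rhoK b h * lamK b g := by
  unfold lamK rhoK
  rw [permK_mul, permK_mul]
  congr 1
  ext k
  show g⁻¹ * k * h = g⁻¹ * (k * h)
  group

/-- the group von Neumann algebra on the model `K` -/
noncomputable def LK : VonNeumannAlgebra K := vnGen (Set.range (lamK b))

theorem mem_LK (z : K →L[ℂ] K) : z ∈ LK b ↔
    ∀ t ∈ StarSubalgebra.centralizer ℂ (Set.range (lamK b)), t * z = z * t ∧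
      star t * z = z * star t :=
  StarSubalgebra.mem_centralizer_iff (R := ℂ)

theorem mem_comm (t : K →L[ℂ] K) :
    t ∈ StarSubalgebra.centralizer ℂ (Set.range (lamK b)) ↔
      ∀ g : G, lamK b g * t = t * lamK b g := by
  rw [StarSubalgebra.mem_centralizer_iff (R := ℂ)]
  constructor
  · intro h g
    exact (h _ ⟨g, rfl⟩).1
  · rintro h _ ⟨g, rfl⟩
    refine ⟨h g, ?_⟩
    rw [star_lamK]
    exact h g⁻¹

theorem lamK_mem (g : G) : lamK b g ∈ LK b := by
  rw [mem_LK]
  intro t ht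
  have ht' := (mem_comm b t).1 ht
  refine ⟨(ht' g).symm, ?_⟩
  have h1 := congrArg star (ht' g⁻¹)
  rw [star_mul, star_mul, star_lamK, inv_inv] at h1
  exact h1

theorem comm_right (x : K →L[ℂ] K) (hx : x ∈ LK b) (g : G) :
    rhoK b g * x = x * rhoK b g := by
  rw [mem_LK] at hx
  exact (hx (rhoK b g) ((mem_comm b _).2 fun h => lam_rho b h g)).1

/-- the canonical trace -/
noncomputable def trG : Elt (LK b) →ₗ[ℂ] ℂ where
  toFun x := ⟪b 1, (x : K →L[ℂ] K) (b 1)⟫_ℂ
  map_add' x y := by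
    show ⟪b 1, (x : K →L[ℂ] K) (b 1) + (y : K →L[ℂ] K) (b 1)⟫_ℂ = _
    rw [inner_add_right]
  map_smul' c x := by
    show ⟪b 1, c • (x : K →L[ℂ] K) (b 1)⟫_ℂ = _
    rw [inner_smul_right]
    rfl

theorem trG_apply (x : Elt (LK b)) : trG b x = ⟪b 1, (x : K →L[ℂ] K) (b 1)⟫_ℂ := rfl

theorem coef_apply (x : K →L[ℂ] K) (hx : x ∈ LK b) (h k : G) :
    ⟪b k, x (b h)⟫_ℂ = ⟪b (k * h⁻¹), x (b 1)⟫_ℂ := by
  have h1 : b h = rhoK b h⁻¹ (b 1) := by
    unfold rhoK
    rw [permK_basis]
    congr 1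
    show h = 1 * (h⁻¹)⁻¹
    group
  have h2 := congrArg (fun z : K →L[ℂ] K => z (b 1)) (comm_right b x hx h⁻¹)
  have h3 : rhoK b h⁻¹ (x (b 1)) = x (rhoK b h⁻¹ (b 1)) := h2
  rw [← h1] at h3
  rw [← h3]
  unfold rhoK
  rw [coef_permK]
  rfl

theorem star_coef (x : K →L[ℂ] K) (hx : x ∈ LK b) (h : G) :
    ⟪b h, (star x) (b 1)⟫_ℂ = star (⟪b h⁻¹, x (b 1)⟫_ℂ) := by
  rw [ContinuousLinearMap.star_eq_adjoint, ContinuousLinearMap.adjoint_inner_right,
    ← inner_conj_symm, coef_apply b x hx h 1, one_mul]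
  rfl

theorem trG_mul (x y : Elt (LK b)) :
    HasSum (fun h => ⟪b h⁻¹, (x : K →L[ℂ] K) (b 1)⟫_ℂ * ⟪b h, (y : K →L[ℂ] K) (b 1)⟫_ℂ)
      (trG b (x * y)) := by
  have h1 : trG b (x * y) = ⟪(star (x : K →L[ℂ] K)) (b 1), (y : K →L[ℂ] K) (b 1)⟫_ℂ := by
    rw [ContinuousLinearMap.star_eq_adjoint, ContinuousLinearMap.adjoint_inner_left]
    rfl
  rw [h1]
  refine (b.hasSum_inner_mul_inner ((star (x : K →L[ℂ] K)) (b 1))
    ((y : K →L[ℂ] K) (b 1))).congr_fun ?_
  intro h
  rw [← inner_conj_symm ((star (x : K →L[ℂ] K)) (b 1)) (b h), star_coef b _ x.2,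
    Complex.star_def, Complex.conj_conj]

theorem isTr_trG : IsTr (trG b) := by
  refine ⟨?_, ?_, ?_⟩
  · show ⟪b 1, (1 : K →L[ℂ] K) (b 1)⟫_ℂ = 1
    exact inner_bb_self b 1
  · intro x y
    have h1 := trG_mul b x y
    have h2 := trG_mul b y x
    have h3 := ((Equiv.inv G).hasSum_iff (f := fun h => ⟪b h⁻¹, (y : K →L[ℂ] K) (b 1)⟫_ℂ *
      ⟪b h, (x : K →L[ℂ] K) (b 1)⟫_ℂ) (a := trG b (y * x))).2 h2
    refine h1.unique (h3.congr_fun ?_)
    intro h
    show _ = ⟪b (h⁻¹)⁻¹, (y : K →L[ℂ] K) (b 1)⟫_ℂ * ⟪b h⁻¹, (x : K →L[ℂ] K) (b 1)⟫_ℂ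
    rw [inv_inv, mul_comm]
  · intro x
    have h1 : trG b (star x * x) = ⟪(x : K →L[ℂ] K) (b 1), (x : K →L[ℂ] K) (b 1)⟫_ℂ := by
      rw [← ContinuousLinearMap.adjoint_inner_right, ← ContinuousLinearMap.star_eq_adjoint]
      rfl
    have h2 : (0 : ℝ) ≤ ‖(x : K →L[ℂ] K) (b 1)‖ ^ 2 := sq_nonneg _
    rw [h1, inner_self_eq_norm_sq_to_K]
    have h3 := Complex.zero_le_real.2 h2
    rw [Complex.ofReal_pow] at h3
    exact h3

/-- Parseval's identity for the canonical unitaries. -/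
theorem parseval_group (x : Elt (LK b)) :
    HasSum (fun g => ‖trG b (star (⟨lamK b g, lamK_mem b g⟩ : Elt (LK b)) * x)‖ ^ 2)
      (trG b (star x * x)).re := by
  have h1 : trG b (star x * x) = ⟪(x : K →L[ℂ] K) (b 1), (x : K →L[ℂ] K) (b 1)⟫_ℂ := by
    rw [← ContinuousLinearMap.adjoint_inner_right, ← ContinuousLinearMap.star_eq_adjoint]
    rfl
  have h2 := b.hasSum_inner_mul_inner ((x : K →L[ℂ] K) (b 1)) ((x : K →L[ℂ] K) (b 1))
  have h3 := Complex.hasSum_re h2
  rw [h1]
  refine h3.congr_fun ?_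
  intro g
  have h4 : trG b (star (⟨lamK b g, lamK_mem b g⟩ : Elt (LK b)) * x) =
      ⟪b g, (x : K →L[ℂ] K) (b 1)⟫_ℂ := by
    show ⟪b 1, (star (lamK b g)) ((x : K →L[ℂ] K) (b 1))⟫_ℂ = _
    rw [ContinuousLinearMap.star_eq_adjoint, ContinuousLinearMap.adjoint_inner_right, lamK_basis,
      mul_one]
  rw [h4, ← inner_conj_symm ((x : K →L[ℂ] K) (b 1)) (b g), ← Complex.normSq_eq_conj_mul_self,
    Complex.normSq_eq_norm_sq, Complex.ofReal_re]

/-- the canonical unitaries of `L(G)` -/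
noncomputable def canU : G →* unitary (Elt (LK b)) where
  toFun g := ⟨⟨lamK b g, lamK_mem b g⟩, by
    rw [Unitary.mem_iff]
    constructor
    · apply Subtype.ext
      show star (lamK b g) * lamK b g = 1
      rw [star_lamK, ← lamK_mul, inv_mul_cancel, lamK_one]
    · apply Subtype.ext
      show lamK b g * star (lamK b g) = 1
      rw [star_lamK, ← lamK_mul, mul_inv_cancel, lamK_one]⟩
  map_one' := by
    apply Subtype.ext
    apply Subtype.ext
    exact lamK_one b
  map_mul' g h := by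
    apply Subtype.ext
    apply Subtype.ext
    exact lamK_mul b g h

end

end Pool.Agent.Helper278
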