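import Mathlib
import Pool.Agent.KS6_19.UP.L.Helper278.GroupVN
import Pool.Agent.KS6_19.UP.L.Helper278.Model

set_option autoImplicit false
set_option linter.unusedSectionVars false
set_option linter.unusedVariables false

open scoped InnerProductSpace Topology ComplexOrder BoundedContinuousFunction
open Filter

namespace Pool.Agent.Helper278

universe u v w

section diffuse

variable {H : Type u} [NormedAddCommGroup H] [InnerProductSpace ℂ H] [CompleteSpace H]
variable {N : VonNeumannAlgebra H}

/-- A factor with a faithful trace and a minimal projection is finite dimensional. -/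
theorem finite_of_minimal (T : TracialState N) (hN : HasTrivialCenter N) (R : Elt N)
    (hRR : R * R = R) (hRs : star R = R) (hR0 : R ≠ 0) (hmin : ∀ x : Elt N, ∃ c : ℂ,
      R * x * R = c • R) : FiniteDimensional ℂ (Elt N) := by
  classical
  have hA := trAlg T
  have hτR : 0 < (T.τ R).re := by
    have h1 := hA.re_nonneg R
    have h2 := hA.im_zero R
    rw [hRs, hRR] at h1 h2
    refine lt_of_le_of_ne h1 fun h3 => hR0 ?_
    apply hA.faithful
    rw [hRs, hRR]
    exact Complex.ext h3.symm h2
  let S : ℕ → Prop := fun n => ∃ w : Fin n → Elt N, ∀ i j, star (w i) * w j = if i = j then R else 0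
  have hS0 : S 0 := ⟨fun _ => 0, fun i => i.elim0⟩
  have hPprop : ∀ (n : ℕ) (w : Fin n → Elt N), (∀ i j, star (w i) * w j = if i = j then R else 0) →
      ∀ P : Elt N, P = ∑ i, w i * star (w i) → star P = P ∧ P * P = P ∧
        (∀ i, star (w i) * P = star (w i)) ∧ (∀ i, w i * R = w i) := by
    intro n w hw P hP
    have hwR : ∀ i, w i * R = w i := fun i => hA.partial_right hRs hRR (by rw [hw, if_pos rfl])
    have hRw : ∀ i, R * star (w i) = star (w i) := by
      intro i
      have := congrArg star (hwR i)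
      rwa [star_mul, hRs] at this
    have h1 : star P = P := by
      rw [hP, star_sum]
      refine Finset.sum_congr rfl fun i _ => ?_
      rw [star_mul, star_star]
    have h2 : ∀ i, star (w i) * P = star (w i) := by
      intro i
      rw [hP, Finset.mul_sum, Finset.sum_eq_single i]
      · rw [← mul_assoc, hw, if_pos rfl, hRw]
      · intro j _ hj
        rw [← mul_assoc, hw, if_neg (Ne.symm hj), zero_mul]
      · intro hi
        exact absurd (Finset.mem_univ i) hi
    refine ⟨h1, ?_, h2, hwR⟩
    conv_lhs => rw [hP]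
    rw [Finset.sum_mul]
    conv_rhs => rw [hP]
    refine Finset.sum_congr rfl fun i _ => ?_
    have h3 : star (w i) * (∑ i, w i * star (w i)) = star (w i) := by rw [← hP]; exact h2 i
    rw [mul_assoc, h3]
  have hbound : ∀ n, S n → (n : ℝ) * (T.τ R).re ≤ 1 := by
    rintro n ⟨w, hw⟩
    obtain ⟨h1, h2, -, -⟩ := hPprop n w hw _ rfl
    set P : Elt N := ∑ i, w i * star (w i) with hP
    have h3 := hA.re_nonneg (1 - P)
    have h4 : star (1 - P) * (1 - P) = 1 - P := by
      rw [star_sub, star_one, h1]
      calc (1 - P) * (1 - P) = 1 - P - P + P * P := by noncomm_ring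
        _ = 1 - P := by rw [h2]; abel
    have h5 : T.τ P = n * T.τ R := by
      rw [hP, map_sum, Finset.sum_congr rfl (fun i _ => by
        rw [hA.comm, hw, if_pos rfl] : ∀ i ∈ Finset.univ, T.τ (w i * star (w i)) = T.τ R),
        Finset.sum_const, Finset.card_univ, Fintype.card_fin, nsmul_eq_mul]
    rw [h4, map_sub, hA.one, h5, Complex.sub_re, Complex.one_re, ← Complex.ofReal_natCast,
      Complex.re_ofReal_mul] at h3
    linarith
  obtain ⟨n, hn, hn1⟩ : ∃ n, S n ∧ ¬ S (n + 1) := by
    by_contra hcon
    push Not at hcon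
    have hall : ∀ n, S n := by
      intro n
      induction n with
      | zero => exact hS0
      | succ n ih => exact hcon n ih
    obtain ⟨n, hn⟩ := exists_nat_gt (1 / (T.τ R).re)
    have h1 := hbound n (hall n)
    rw [div_lt_iff₀ hτR] at hn
    linarith
  obtain ⟨w, hw⟩ := hn
  obtain ⟨h1, h2, h3, hwR⟩ := hPprop n w hw _ rfl
  set P : Elt N := ∑ i, w i * star (w i) with hP
  have hP1 : P = 1 := by
    by_contra hne
    have hne' : (1 : Elt N) - P ≠ 0 := fun h => hne (sub_eq_zero.1 h).symm
    obtain ⟨x, hx⟩ : ∃ x : Elt N, (1 - P) * x * R ≠ 0 := by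
      by_contra hcon
      push Not at hcon
      rcases factor_corner N hN ((1 - P : Elt N) : H →L[ℂ] H) (R : H →L[ℂ] H) (1 - P).2 R.2
        (fun x hx => congrArg Subtype.val (hcon ⟨x, hx⟩)) with h4 | h4
      · exact hne' (Subtype.ext h4)
      · exact hR0 (Subtype.ext h4)
    set y : Elt N := (1 - P) * x * R with hy
    obtain ⟨c, hc⟩ := hmin (star x * (1 - P) * x)
    have hyy : star y * y = c • R := by
      rw [← hc, hy, star_mul, star_mul, star_sub, star_one, h1, hRs]
      have h4 : (1 - P) * (1 - P) = 1 - P := by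
        calc (1 - P) * (1 - P) = 1 - P - P + P * P := by noncomm_ring
          _ = 1 - P := by rw [h2]; abel
      calc R * (star x * (1 - P)) * ((1 - P) * x * R) =
          R * (star x * ((1 - P) * (1 - P)) * x) * R := by noncomm_ring
        _ = R * (star x * (1 - P) * x) * R := by rw [h4]
    have hcr : T.τ (star y * y) = c * T.τ R := by rw [hyy, map_smul, smul_eq_mul]
    have hyp : 0 < (T.τ (star y * y)).re := by
      refine lt_of_le_of_ne (hA.re_nonneg y) fun h5 => hx ?_
      exact hA.faithful y (Complex.ext h5.symm (hA.im_zero y))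
    have hτRr : T.τ R = ((T.τ R).re : ℂ) := by
      have h2 := hA.im_zero R
      rw [hRs, hRR] at h2
      exact Complex.ext rfl (by rw [Complex.ofReal_im]; exact h2)
    set d : ℝ := (T.τ (star y * y)).re / (T.τ R).re with hd
    have hd0 : 0 < d := div_pos hyp hτR
    have hcd : c = (d : ℂ) := by
      have h5 : T.τ (star y * y) = (((T.τ (star y * y)).re : ℝ) : ℂ) :=
        Complex.ext rfl (by rw [Complex.ofReal_im]; exact hA.im_zero y)
      have h6 : (((T.τ (star y * y)).re : ℝ) : ℂ) = c * ((T.τ R).re : ℂ) := by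
        rw [← h5, hcr, ← hτRr]
      have h7 : ((T.τ R).re : ℂ) ≠ 0 := Complex.ofReal_ne_zero.2 hτR.ne'
      rw [hd, Complex.ofReal_div, h6, mul_div_cancel_right₀ _ h7]
    have hsd : 0 < Real.sqrt d := Real.sqrt_pos.2 hd0
    obtain ⟨y', hy'⟩ : ∃ y' : Elt N, y' = (((Real.sqrt d)⁻¹ : ℝ) : ℂ) • y := ⟨_, rfl⟩
    have hy'y' : star y' * y' = R := by
      rw [hy', star_smul, smul_mul_smul_comm, hyy, hcd, smul_smul, Complex.star_def,
        Complex.conj_ofReal, ← Complex.ofReal_mul, ← Complex.ofReal_mul]
      have : (Real.sqrt d)⁻¹ * (Real.sqrt d)⁻¹ * d = 1 := by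
        rw [← mul_inv, Real.mul_self_sqrt hd0.le, inv_mul_cancel₀ hd0.ne']
      rw [this, Complex.ofReal_one, one_smul]
    have hwy : ∀ i, star (w i) * y' = 0 := by
      intro i
      rw [hy', mul_smul_comm, hy, ← mul_assoc, ← mul_assoc, mul_sub, mul_one, h3, sub_self,
        zero_mul, zero_mul, smul_zero]
    have hyw : ∀ i, star y' * w i = 0 := by
      intro i
      have := congrArg star (hwy i)
      rwa [star_mul, star_star, star_zero] at this
    apply hn1
    refine ⟨Fin.cons y' w, fun i j => ?_⟩
    refine Fin.cases ?_ (fun i => ?_) i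
    · refine Fin.cases ?_ (fun j => ?_) j
      · simp only [Fin.cons_zero, if_true]
        exact hy'y'
      · rw [Fin.cons_zero, Fin.cons_succ, if_neg (Fin.succ_ne_zero j).symm]
        exact hyw j
    · refine Fin.cases ?_ (fun j => ?_) j
      · rw [Fin.cons_zero, Fin.cons_succ, if_neg (Fin.succ_ne_zero i)]
        exact hwy i
      · rw [Fin.cons_succ, Fin.cons_succ, hw]
        by_cases hij : i = j
        · rw [if_pos hij, if_pos (by rw [hij])]
        · rw [if_neg hij, if_neg (fun h => hij (Fin.succ_injective _ h))]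
  -- matrix units span
  refine ⟨Submodule.fg_def.2 ⟨Set.range (fun p : Fin n × Fin n => w p.1 * star (w p.2)),
    Set.finite_range _, ?_⟩⟩
  rw [eq_top_iff]
  intro x _
  have hx : x = ∑ i, ∑ j, w i * (star (w i) * x * w j) * star (w j) := by
    calc x = P * x * P := by rw [hP1, one_mul, mul_one]
      _ = ∑ i, ∑ j, w i * star (w i) * x * (w j * star (w j)) := by
          conv_lhs => rw [hP]
          rw [Finset.sum_mul, Finset.sum_mul]
          refine Finset.sum_congr rfl fun i _ => ?_
          rw [Finset.mul_sum]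
      _ = _ := by
          refine Finset.sum_congr rfl fun i _ => Finset.sum_congr rfl fun j _ => ?_
          noncomm_ring
  rw [hx]
  refine Submodule.sum_mem _ fun i _ => Submodule.sum_mem _ fun j _ => ?_
  have hRw : R * star (w i) = star (w i) := by
    have := congrArg star (hwR i)
    rwa [star_mul, hRs] at this
  obtain ⟨c, hc⟩ := hmin (star (w i) * x * w j)
  have h4 : star (w i) * x * w j = c • R := by
    rw [← hc]
    calc star (w i) * x * w j = (R * star (w i)) * x * (w j * R) := by rw [hRw, hwR]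
      _ = R * (star (w i) * x * w j) * R := by noncomm_ring
  rw [h4, mul_smul_comm, smul_mul_assoc, hwR]
  exact Submodule.smul_mem _ _ (Submodule.subset_span ⟨(i, j), rfl⟩)

theorem diffuse_of_factor (T : TracialState N) (hN : HasTrivialCenter N)
    (hinf : ¬ FiniteDimensional ℂ (Elt N)) : IsDiffuse N := by
  intro r hr hrr hrs hr0
  by_contra hcon
  push Not at hcon
  apply hinf
  refine finite_of_minimal T hN ⟨r, hr⟩ (Subtype.ext hrr) (Subtype.ext hrs)
    (fun h => hr0 (congrArg Subtype.val h)) (fun x => ?_)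
  obtain ⟨c, hc⟩ := hcon x x.2
  exact ⟨c, Subtype.ext hc⟩

end diffuse

section main

variable {H : Type u} [NormedAddCommGroup H] [InnerProductSpace ℂ H] [CompleteSpace H]
variable {N : VonNeumannAlgebra H}
variable {Q : Type u} [Ring Q] [StarRing Q] [Algebra ℂ Q] [StarModule ℂ Q]
variable {T : TracialState N} {U : Ultrafilter ℕ} {π : (ℕ →ᵇ Elt N) →⋆ₐ[ℂ] Q} {σ : Q → ℂ}

/-- The ultrapower of a II₁ factor is not a group von Neumann algebra. -/
theorem not_group_aux (hU : ∀ n, {n} ∉ U) (hπ : IsTracialUltrapower T.τ U π σ)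
    (hL : LyapProp T.τ) (hN : HasTrivialCenter N) (G : Type v) [Group G] (K : Type w)
    [NormedAddCommGroup K] [InnerProductSpace ℂ K] [CompleteSpace K] (b : HilbertBasis G ℂ K)
    (Φ : Elt (LK b) ≃⋆ₐ[ℂ] Q) : False := by
  let φ : Q →ₗ[ℂ] ℂ :=
    { toFun := fun x => trG b (Φ.symm x)
      map_add' := fun x y => by rw [map_add, map_add]
      map_smul' := fun c x => by rw [map_smul, map_smul]; rfl }
  have hφ : ∀ x, φ x = trG b (Φ.symm x) := fun x => rfl
  have hT := isTr_trG b
  have hφT : IsTr φ := by
    refine ⟨?_, ?_, ?_⟩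
    · rw [hφ, map_one, hT.one]
    · intro x y
      rw [hφ, hφ, map_mul Φ.symm, map_mul Φ.symm, hT.comm]
    · intro x
      rw [hφ, map_mul, map_star]
      exact hT.nonneg _
  have hφσ := trace_unique hπ hL hN φ hφT
  have hS := sigma_trAlg hπ
  let u : G →* unitary Q :=
    { toFun := fun g => ⟨Φ (canU b g : Elt (LK b)), by
        rw [Unitary.mem_iff, ← map_star, ← map_mul, ← map_mul]
        refine ⟨?_, ?_⟩
        · rw [show star (canU b g : Elt (LK b)) * (canU b g : Elt (LK b)) = 1 from
            Unitary.coe_star_mul_self _, map_one]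
        · rw [show (canU b g : Elt (LK b)) * star (canU b g : Elt (LK b)) = 1 from
            Unitary.coe_mul_star_self _, map_one]⟩
      map_one' := by
        apply Subtype.ext
        show Φ ((canU b 1 : unitary (Elt (LK b))) : Elt (LK b)) = 1
        rw [map_one (canU b)]
        exact map_one Φ
      map_mul' := fun g h => by
        apply Subtype.ext
        show Φ ((canU b (g * h) : unitary (Elt (LK b))) : Elt (LK b)) =
          Φ ((canU b g : unitary (Elt (LK b))) : Elt (LK b)) *
            Φ ((canU b h : unitary (Elt (LK b))) : Elt (LK b))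
        rw [map_mul (canU b), ← map_mul Φ]
        rfl }
  have hP : Parseval (sigmaL hπ) u := by
    intro x
    have h1 := parseval_group b (Φ.symm x)
    have h2 : (n2 (sigmaL hπ) x) ^ 2 = (trG b (star (Φ.symm x) * Φ.symm x)).re := by
      rw [hS.n2_sq]
      have : sigmaL hπ (star x * x) = φ (star x * x) := (hφσ _).symm
      rw [this, hφ, map_mul, map_star]
    rw [h2]
    refine h1.congr_fun ?_
    intro g
    have h3 : sigmaL hπ (star (u g : Q) * x) = φ (star (u g : Q) * x) := (hφσ _).symm
    rw [h3, hφ, map_mul, map_star]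
    have h4 : Φ.symm (u g : Q) = (⟨lamK b g, lamK_mem b g⟩ : Elt (LK b)) :=
      Φ.symm_apply_apply _
    rw [h4]
  exact no_basis hS (extProp_ultra hπ hL) (farProp_ultra hU hπ hL) (conjProp_ultra hU hπ hL hN) hP

theorem not_group (hU : ∀ n, {n} ∉ U) (hπ : IsTracialUltrapower T.τ U π σ)
    (hL : LyapProp T.τ) (hN : HasTrivialCenter N) (G : Type v) [Group G] (K : Type w)
    [NormedAddCommGroup K] [InnerProductSpace ℂ K] [CompleteSpace K] (b : HilbertBasis G ℂ K)
    (lam : G → K →L[ℂ] K) (hlam : IsLeftRegular b lam)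
    (Φ : Elt (vnGen (Set.range lam)) ≃⋆ₐ[ℂ] Q) : False := by
  have h1 := eq_lamK b lam hlam
  subst h1
  exact not_group_aux hU hπ hL hN G K b Φ

theorem ultrapowersNotGroupVN (τ : Elt N → ℂ) (h : IsIIOneFactor N τ) :
    UltrapowersNotGroupVN.{u, v, w} (Elt N) τ := by
  intro U hU Q _ _ _ _ π σ hπ G _ K _ _ _ b lam hlam
  have hd : IsDiffuse N := diffuse_of_factor (mkState N τ h.normal h.trace) h.center h.infinite
  exact ⟨fun Φ => not_group (T := mkState N τ h.normal h.trace) hU hπ
    (lyapProp (mkState N τ h.normal h.trace) hd) h.center G K b lam hlam Φ⟩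

/-- The left regular representation exists on `ℓ²(G)`. -/
theorem exists_leftRegular (G : Type v) [Group G] :
    ∃ (b : HilbertBasis G ℂ (lp (fun _ : G => ℂ) 2))
      (lam : G → (lp (fun _ : G => ℂ) 2) →L[ℂ] (lp (fun _ : G => ℂ) 2)),
      IsLeftRegular b lam ∧ ∀ (g h : G) (f : lp (fun _ : G => ℂ) 2), (lam g f) h = f (g⁻¹ * h) := by
  refine ⟨default, lamK default, isLeftRegular_lamK _, ?_⟩
  intro g h f
  rfl

end main

end Pool.Agent.Helper278
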